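import Pool.Agent.H.MP_deabf1_gt.WA

/-!
The Einstein equations for four summands at a place.
-/

namespace Pool.Agent.H.MP_deabf1_gt.Four

/-- The coefficients of the equations for four summands. -/
structure Cf where
  (a1 a2 a3 a4 b12 b13 b14 b21 b23 b24 b31 b32 b34 b41 b42 b43 c123 c124 c134 c234 d1 d2 d3 d4 : ℝ)

/-- The sign conditions. -/
structure Cf.Pos (c : Cf) : Prop where
  b12 : 0 ≤ c.b12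
  b13 : 0 ≤ c.b13
  b14 : 0 ≤ c.b14
  b21 : 0 ≤ c.b21
  b23 : 0 ≤ c.b23
  b24 : 0 ≤ c.b24
  b31 : 0 ≤ c.b31
  b32 : 0 ≤ c.b32
  b34 : 0 ≤ c.b34
  b41 : 0 ≤ c.b41
  b42 : 0 ≤ c.b42
  b43 : 0 ≤ c.b43
  c123 : 0 ≤ c.c123
  c124 : 0 ≤ c.c124
  c134 : 0 ≤ c.c134
  c234 : 0 ≤ c.c234
  d1 : 0 < c.d1
  d2 : 0 < c.d2
  d3 : 0 < c.d3
  d4 : 0 < c.d4
  a1 : 4 * (c.b12 + c.b13 + c.b14) + 2 * (c.c123 + c.c124 + c.c134) ≤ c.a1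
  a2 : 4 * (c.b21 + c.b23 + c.b24) + 2 * (c.c123 + c.c124 + c.c234) ≤ c.a2
  a3 : 4 * (c.b31 + c.b32 + c.b34) + 2 * (c.c123 + c.c134 + c.c234) ≤ c.a3
  a4 : 4 * (c.b41 + c.b42 + c.b43) + 2 * (c.c124 + c.c134 + c.c234) ≤ c.a4

variable {K : Type*} [Field K] [Algebra ℝ K]

/-- The four equations. -/
structure Sys4 (P : Pl K) (κ : ℝ →+* K) (c : Cf) (u1 u2 u3 u4 : K) : Prop where
  k : ∀ r : ℝ, P.Lim (κ r) r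
  h1 : u1 ≠ 0
  h2 : u2 ≠ 0
  h3 : u3 ≠ 0
  h4 : u4 ≠ 0
  e1 : κ c.a1 * u1 - 2 * κ c.b12 * (u1 ^ 2 / u2) - 2 * κ c.b13 * (u1 ^ 2 / u3)
    - 2 * κ c.b14 * (u1 ^ 2 / u4) + κ c.b21 * (u2 ^ 2 / u1) + κ c.b31 * (u3 ^ 2 / u1)
    + κ c.b41 * (u4 ^ 2 / u1) - κ c.c123 * (u1 * u2 / u3 + u1 * u3 / u2 - u2 * u3 / u1)
    - κ c.c124 * (u1 * u2 / u4 + u1 * u4 / u2 - u2 * u4 / u1)
    - κ c.c134 * (u1 * u3 / u4 + u1 * u4 / u3 - u3 * u4 / u1) = κ c.d1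
  e2 : κ c.a2 * u2 - 2 * κ c.b21 * (u2 ^ 2 / u1) - 2 * κ c.b23 * (u2 ^ 2 / u3)
    - 2 * κ c.b24 * (u2 ^ 2 / u4) + κ c.b12 * (u1 ^ 2 / u2) + κ c.b32 * (u3 ^ 2 / u2)
    + κ c.b42 * (u4 ^ 2 / u2) - κ c.c123 * (u2 * u1 / u3 + u2 * u3 / u1 - u1 * u3 / u2)
    - κ c.c124 * (u2 * u1 / u4 + u2 * u4 / u1 - u1 * u4 / u2)
    - κ c.c234 * (u2 * u3 / u4 + u2 * u4 / u3 - u3 * u4 / u2) = κ c.d2
  e3 : κ c.a3 * u3 - 2 * κ c.b31 * (u3 ^ 2 / u1) - 2 * κ c.b32 * (u3 ^ 2 / u2)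
    - 2 * κ c.b34 * (u3 ^ 2 / u4) + κ c.b13 * (u1 ^ 2 / u3) + κ c.b23 * (u2 ^ 2 / u3)
    + κ c.b43 * (u4 ^ 2 / u3) - κ c.c123 * (u3 * u1 / u2 + u3 * u2 / u1 - u1 * u2 / u3)
    - κ c.c134 * (u3 * u1 / u4 + u3 * u4 / u1 - u1 * u4 / u3)
    - κ c.c234 * (u3 * u2 / u4 + u3 * u4 / u2 - u2 * u4 / u3) = κ c.d3
  e4 : κ c.a4 * u4 - 2 * κ c.b41 * (u4 ^ 2 / u1) - 2 * κ c.b42 * (u4 ^ 2 / u2)
    - 2 * κ c.b43 * (u4 ^ 2 / u3) + κ c.b14 * (u1 ^ 2 / u4) + κ c.b24 * (u2 ^ 2 / u4)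
    + κ c.b34 * (u3 ^ 2 / u4) - κ c.c124 * (u4 * u1 / u2 + u4 * u2 / u1 - u1 * u2 / u4)
    - κ c.c134 * (u4 * u1 / u3 + u4 * u3 / u1 - u1 * u3 / u4)
    - κ c.c234 * (u4 * u2 / u3 + u4 * u3 / u2 - u2 * u3 / u4) = κ c.d4

end Four

namespace Pl

variable {K : Type*} [Field K] [Algebra ℝ K] {P : Pl K} {a b : K} {z w : ℂ}

theorem lim_ofNat (P : Pl K) (n : ℕ) [n.AtLeastTwo] :
    P.Lim (OfNat.ofNat n : K) (OfNat.ofNat n : ℂ) := by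
  have h := P.cst (OfNat.ofNat n : ℝ)
  rw [map_ofNat] at h
  simpa using h

theorem eq0 (h : a = 0) (ha : P.Lim a z) : z = 0 := by
  rw [h] at ha
  exact P.uniq ha P.lim_zero

theorem lim_eq (h : a = b) (hb : P.Lim b w) : P.Lim a w := h ▸ hb

theorem lim_val (ha : P.Lim a z) (h : z = w) : P.Lim a w := h ▸ ha

theorem lim_swap (h : P.Lim (a / b) z) (hz : z ≠ 0) : P.Lim (b / a) z⁻¹ := by
  rw [← inv_div]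
  exact P.lim_inv h hz

theorem real_of_mul {r s : ℝ} {z : ℂ} (hr : r ≠ 0) (h : (r : ℂ) * z + s = 0) :
    z = ((-s / r : ℝ) : ℂ) := by
  have h1 : (r : ℂ) ≠ 0 := by exact_mod_cast hr
  push_cast
  rw [eq_div_iff h1]
  linear_combination h

end Pl

end Pool.Agent.H.MP_deabf1_gt
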