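import Pool.Agent.H.MP_deabf1_gt.helper65.P211g

/-!
Two comparable large summands and two incomparable smaller ones: all data of the surviving
solutions.
-/

namespace Pool.Agent.H.MP_deabf1_gt.Four

section

variable {K : Type*} [Field K] [Algebra ℝ K] {P : Pl K} {κ : ℝ →+* K} {c : Cf}
  {u1 u2 u3 u4 : K}

theorem g211_of_eq (F : ∃ (h1 h2 g3 s3 s4 : K) (z1 z2 z3 r : ℂ),
    F211 P κ c u1 u2 u3 u4 h1 h2 g3 s3 s4 z1 z2 z3 r) {ρ φ : ℝ} (hρ : ρ < 0)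
    (Lρ : P.Lim (u1 / u2) ρ) (hb14 : 0 < c.b14) (hc124 : c.c124 = -2 * c.b14 * ρ)
    (hb24 : c.b24 = c.b14 * ρ ^ 2) (hν : c.b13 * ρ ^ 2 + c.c123 * ρ + c.b23 = 0)
    (hφ : φ = 2 * c.b13 * ρ + c.c123) :
    ∃ (h1 h2 g3 s3 s4 z : K) (z1 z2 z3 : ℂ), z = u1 - κ ρ * u2 ∧
      G211 P κ c u2 u3 u4 h1 h2 g3 s3 s4 z z1 z2 z3 ρ φ := by
  obtain ⟨h1, h2, g3, s3, s4, z1, z2, z3, r, F⟩ := F
  have hk := F.k
  have n2 := F.n2
  have n3 := F.n3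
  have n4 := F.n4
  have D1 := F.D1
  have D2 := F.D2
  have D3 := F.D3
  have D4 := F.D4
  have kc124 : κ c.c124 = -2 * κ c.b14 * κ ρ := by
    rw [hc124, map_mul, map_mul, map_neg, map_ofNat]
  have kb24 : κ c.b24 = κ c.b14 * κ ρ ^ 2 := by rw [hb24, map_mul, map_pow]
  have kφ : κ φ = 2 * κ c.b13 * κ ρ + κ c.c123 := by
    rw [hφ, map_add, map_mul, map_mul, map_ofNat]
  have kν : κ c.b23 = -(κ c.b13 * κ ρ ^ 2) - κ c.c123 * κ ρ := by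
    have h : c.b23 = -(c.b13 * ρ ^ 2) - c.c123 * ρ := by linarith
    rw [h, map_sub, map_neg, map_mul, map_mul, map_pow]
  have kΔ : κ (ρ * c.c134 + c.c234) = κ ρ * κ c.c134 + κ c.c234 := by rw [map_add, map_mul]
  obtain ⟨z, hz⟩ : ∃ z, z = u1 - κ ρ * u2 := ⟨_, rfl⟩
  have hu1 : u1 = κ ρ * u2 + z := by rw [hz]; ring
  have Lz : P.Lim (z / u2) 0 := by
    refine P.lim_val (P.lim_eq (b := u1 / u2 - κ ρ) ?_ (P.lim_sub Lρ (hk ρ))) (sub_self _)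
    rw [hz]
    field_simp
  rw [kc124, hu1] at D1 D2 D4
  rw [kb24] at D2 D4
  rw [kν] at D2 D3
  rw [hu1] at D3
  refine ⟨h1, h2, g3, s3, s4, z, z1, z2, z3, hz, hk, n2, n3, n4, hρ, F.L32, F.L43, F.Lη, F.L4, Lz,
    F.Lh1, F.Lh2, F.Lg3, F.Ls3, F.Ls4, hb14, ?_, ?_, ?_, ?_⟩
  · rw [kφ]
    linear_combination (norm := (field_simp; ring)) D1
  · rw [kφ, kΔ]
    linear_combination (norm := (field_simp; ring)) κ ρ * D1 + D2
  · rw [kφ, kΔ]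
    linear_combination (norm := (field_simp; ring)) D3
  · rw [kΔ]
    linear_combination (norm := (field_simp; ring)) D4

end

section

variable {K : Type*} [Field K] [Algebra ℝ K] {P : Pl K} {κ : ℝ →+* K} {c : Cf}
  {u1 u2 u3 u4 h1 h2 g3 s3 s4 z : K} {z1 z2 z3 : ℂ} {ρ φ : ℝ}

theorem g211_full (G : G211 P κ c u2 u3 u4 h1 h2 g3 s3 s4 z z1 z2 z3 ρ φ) (hc : c.Pos)
    (hφ : φ ≠ 0) :
    ¬ P.I u3 ∧ ((∃ θ : ℂ, θ ≠ 0 ∧ P.Lim (u3 ^ 2 / (u2 * u4)) θ) ∨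
      (c.c134 ^ 2 = 4 * c.b14 * c.b34 ∧ P.Lim (z + κ (c.c134 / (2 * c.b14)) * u3) 0 ∧
        ∃ τ : ℝ, 0 < τ ∧ P.Lim (u2 ^ 2 * u4 / u3 ^ 2) τ)) := by
  have := charZero_of_real K
  have hΔ := g211_delta G
  have hk := G.k
  have n2 := G.n2
  have n3 := G.n3
  have n4 := G.n4
  have L43 := G.L43
  have L4 := G.L4
  have Lh1 := G.Lh1
  have Lh2 := G.Lh2
  have Lg3 := G.Lg3
  have Ls3 := G.Ls3
  have Ls4 := G.Ls4
  have hb14 := G.hb14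
  have kb14 : κ c.b14 ≠ 0 := (map_ne_zero κ).2 hb14.ne'
  have cb14 : (c.b14 : ℂ) ≠ 0 := by exact_mod_cast hb14.ne'
  have kφ : κ φ ≠ 0 := (map_ne_zero κ).2 hφ
  have cφ : (φ : ℂ) ≠ 0 := by exact_mod_cast hφ
  have D1 := G.D1
  have KK := G.K
  have D3 := G.D3
  have D4 := G.D4
  rw [hΔ, map_zero] at KK D3 D4
  obtain ⟨ζ, hζ⟩ : ∃ ζ, ζ = z / u3 := ⟨_, rfl⟩
  have hzζ : z = ζ * u3 := by rw [hζ]; field_simp
  have Bζ : P.B ζ := by
    have h : ζ = (κ ρ * h1 + h2) / κ φ := by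
      rw [eq_div_iff kφ, hζ]
      linear_combination KK
    rw [h]
    exact ⟨_, P.lim_div (P.add (P.mul (hk _) Lh1) Lh2) (hk _) cφ⟩
  obtain ⟨ζ0, Lζ⟩ := Bζ
  rw [hzζ] at D1 D3 D4
  have hu3 : ¬ P.I u3 := by
    intro L3
    change P.Lim u3 0 at L3
    have E : κ c.b13 * ζ ^ 2 * u3 + 2 * (κ c.c134 * ζ * u4) - h1 * ζ * u3
        + (κ c.d3 + 2 * κ c.d4 + u3 * g3 + s3 + 2 * s4) = 0 := by
      linear_combination (norm := (field_simp; ring)) ζ * u3 * D1 - D3 - 2 * D4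
    have e := P.eq0 E (by
      apply_rules (maxDepth := 500) [P.add, P.mul, P.lim_sub, P.lim_neg, P.lim_pow,
        P.lim_ofNat])
    have e6 : ((c.d3 + 2 * c.d4 : ℝ) : ℂ) = 0 := by
      push_cast
      simpa using e
    have e7 : c.d3 + 2 * c.d4 = 0 := by exact_mod_cast e6
    have := hc.d3
    have := hc.d4
    linarith
  refine ⟨hu3, ?_⟩
  -- the inverse of `u3 ^ 2 / u4`
  have B3 : P.B (1 / u3) := by
    rw [one_div]
    exact Pl.inv_B hu3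
  obtain ⟨v3, Lv3⟩ := B3
  have LV : P.Lim (u4 / u3 ^ 2) 0 := by
    refine P.lim_val (P.lim_eq (b := u4 * (1 / u3) ^ 2) ?_ (P.mul L4 (P.lim_pow Lv3 2))) ?_
    · field_simp
    · simp
  -- the quadratic equation for `ζ`
  have E4 : κ c.b14 * ζ ^ 2 + κ c.c134 * ζ + κ c.b34
      = (κ c.d4 + s4) * (u4 / u3 ^ 2) + κ c.c134 * ζ * (u4 / u3) ^ 2 := by
    linear_combination (norm := (field_simp; ring)) (u4 / u3 ^ 2) * D4
  have e4 : (c.b14 : ℂ) * ζ0 ^ 2 + c.c134 * ζ0 + c.b34 = 0 := by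
    have h := P.eq0 (sub_eq_zero.2 E4) (by
      apply_rules (maxDepth := 500) [P.add, P.mul, P.lim_sub, P.lim_neg, P.lim_pow,
        P.lim_ofNat])
    simpa using h
  -- the ratio `σ`
  obtain ⟨σ, hσ⟩ : ∃ σ, σ = u2 * u4 / u3 ^ 2 := ⟨_, rfl⟩
  obtain ⟨h', hh'⟩ : ∃ h', h' = h1 - 2 * κ c.b13 * ζ - κ c.c134 * (u4 / u3) := ⟨_, rfl⟩
  have Bh' : P.B h' := by
    rw [hh']
    exact ⟨_, P.lim_sub (P.lim_sub Lh1 (P.mul (P.mul (P.lim_ofNat 2) (hk _)) Lζ))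
      (P.mul (hk _) L43)⟩
  obtain ⟨w', Lh'⟩ := Bh'
  have E1 : κ φ * σ = -(2 * κ c.b14 * ζ + κ c.c134) + (u4 / u3) * h' := by
    rw [hσ, hh']
    linear_combination (norm := (field_simp; ring)) (u4 / u3) * D1
  have Lσ : P.Lim σ (-(2 * c.b14 * ζ0 + c.c134) / φ) := by
    have h : σ = (-(2 * κ c.b14 * ζ + κ c.c134) + (u4 / u3) * h') / κ φ := by
      rw [eq_div_iff kφ]
      linear_combination E1
    refine P.lim_val (P.lim_eq h (P.lim_div (P.add (P.lim_neg (P.add (P.mul (P.mul (P.lim_ofNat 2)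
      (hk _)) Lζ) (hk _))) (P.mul L43 Lh')) (hk _) cφ)) ?_
    simp
  by_cases h0 : 2 * (c.b14 : ℂ) * ζ0 + c.c134 = 0
  · right
    -- the double root
    have e5 : ((c.c134 ^ 2 - 4 * c.b14 * c.b34 : ℝ) : ℂ) = 0 := by
      push_cast
      linear_combination (2 * (c.b14 : ℂ) * ζ0 + c.c134) * h0 - 4 * (c.b14 : ℂ) * e4
    have e6 : c.c134 ^ 2 - 4 * c.b14 * c.b34 = 0 := by exact_mod_cast e5
    have k6 : κ c.c134 ^ 2 = 4 * κ c.b14 * κ c.b34 := by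
      have h : c.c134 ^ 2 = 4 * c.b14 * c.b34 := by linarith
      rw [← map_pow, h, map_mul, map_mul, map_ofNat]
    obtain ⟨τ, hτ⟩ : ∃ τ, τ = u2 ^ 2 * u4 / u3 ^ 2 := ⟨_, rfl⟩
    obtain ⟨χ, hχ⟩ : ∃ χ, χ = u2 * u4 / u3 := ⟨_, rfl⟩
    have hχτ : χ ^ 2 = τ * u4 := by
      rw [hχ, hτ]
      field_simp
    have E5 : κ φ ^ 2 * τ - 2 * κ φ * χ * h' + u4 * h' ^ 2
        = 4 * κ c.b14 * (κ c.d4 + s4) + 4 * κ c.b14 * (κ c.c134 * ζ * u4) := by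
      have h3 : (κ φ * σ - (u4 / u3) * h') ^ 2 = 4 * κ c.b14 *
          (κ c.b14 * ζ ^ 2 + κ c.c134 * ζ + κ c.b34) := by
        have h4 : κ φ * σ - (u4 / u3) * h' = -(2 * κ c.b14 * ζ + κ c.c134) := by
          linear_combination E1
        rw [h4]
        linear_combination k6
      rw [E4] at h3
      have h5 : κ φ ^ 2 * τ - 2 * κ φ * χ * h' + u4 * h' ^ 2
          = (u3 ^ 2 / u4) * (κ φ * σ - (u4 / u3) * h') ^ 2 := by
        rw [hτ, hχ, hσ]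
        field_simp
        ring
      rw [h5, h3]
      field_simp
    have hd4 : (c.d4 : ℂ) ≠ 0 := by exact_mod_cast hc.d4.ne'
    have LR : P.Lim (4 * κ c.b14 * (κ c.d4 + s4) + 4 * κ c.b14 * (κ c.c134 * ζ * u4))
        (4 * c.b14 * c.d4) := by
      refine P.lim_val (P.add (P.mul (P.mul (P.lim_ofNat 4) (hk _)) (P.add (hk _) Ls4))
        (P.mul (P.mul (P.lim_ofNat 4) (hk _)) (P.mul (P.mul (hk _) Lζ) L4))) ?_
      simp
    have hR0 : (4 * (c.b14 : ℂ) * c.d4) ≠ 0 := mul_ne_zero (mul_ne_zero (by norm_num) cb14) hd4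
    have hτn : τ ≠ 0 := by
      rw [hτ]
      exact div_ne_zero (mul_ne_zero (pow_ne_zero 2 n2) n4) (pow_ne_zero 2 n3)
    have Bτ : P.B τ := by
      by_contra hτB
      have Lτ' : P.Lim τ⁻¹ 0 := Pl.inv_I hτB
      have Lχ : P.Lim (χ / τ) 0 := by
        apply I_of_sq
        refine P.lim_val (P.lim_eq (b := u4 * τ⁻¹) ?_ (P.mul L4 Lτ')) (mul_zero _)
        rw [div_pow, hχτ]
        field_simp
      have E6 : κ φ ^ 2 - 2 * κ φ * (χ / τ) * h' + u4 * h' ^ 2 * τ⁻¹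
          - (4 * κ c.b14 * (κ c.d4 + s4) + 4 * κ c.b14 * (κ c.c134 * ζ * u4)) * τ⁻¹ = 0 := by
        linear_combination (norm := (field_simp; ring)) τ⁻¹ * E5
      have e := P.eq0 E6 (P.lim_sub (P.add (P.lim_sub (P.lim_pow (hk _) 2) (P.mul (P.mul
        (P.mul (P.lim_ofNat 2) (hk _)) Lχ) Lh')) (P.mul (P.mul L4 (P.lim_pow Lh' 2)) Lτ'))
        (P.mul LR Lτ'))
      have e7 : (φ : ℂ) ^ 2 = 0 := by simpa using e
      exact cφ (pow_eq_zero_iff two_ne_zero |>.1 e7)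
    obtain ⟨τ0, Lτ⟩ := Bτ
    have Lχ : P.Lim χ 0 := by
      apply I_of_sq
      refine P.lim_val (P.lim_eq hχτ (P.mul Lτ L4)) (mul_zero _)
    have e := P.uniq (P.lim_eq E5.symm (P.add (P.lim_sub (P.mul (P.lim_pow (hk _) 2) Lτ)
      (P.mul (P.mul (P.mul (P.lim_ofNat 2) (hk _)) Lχ) Lh')) (P.mul L4 (P.lim_pow Lh' 2)))) LR
    have e' : (φ : ℂ) ^ 2 * τ0 = 4 * c.b14 * c.d4 := by
      rw [← e]
      simp
    have hφ2 : 0 < φ ^ 2 := by positivity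
    refine ⟨by linarith, ?_, 4 * c.b14 * c.d4 / φ ^ 2,
      div_pos (mul_pos (mul_pos (by norm_num) hb14) hc.d4) hφ2, ?_⟩
    · -- the linear form
      have kc : κ (c.c134 / (2 * c.b14)) = κ c.c134 / (2 * κ c.b14) := by
        rw [map_div₀, map_mul, map_ofNat]
      have E7 : z + κ (c.c134 / (2 * c.b14)) * u3
          = (-(κ φ * χ) + u4 * h') * (1 / (2 * κ c.b14)) := by
        have h4 : u3 * (2 * κ c.b14 * ζ + κ c.c134) = -(κ φ * χ) + u4 * h' := by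
          have h5 : χ = σ * u3 := by
            rw [hχ, hσ]
            field_simp
          rw [h5]
          linear_combination (norm := (field_simp; ring)) u3 * E1
        rw [← h4, kc, hzζ]
        field_simp
      have L7 := P.lim_div P.lim_one (P.mul (P.lim_ofNat 2) (hk c.b14))
        (mul_ne_zero two_ne_zero cb14)
      refine P.lim_val (P.lim_eq E7 (P.mul (P.add (P.lim_neg (P.mul (hk _) Lχ))
        (P.mul L4 Lh')) L7)) ?_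
      simp
    · rw [← hτ]
      refine P.lim_val Lτ ?_
      push_cast
      rw [eq_div_iff (pow_ne_zero 2 cφ), ← e']
      ring
  · left
    have hσ0 : -(2 * (c.b14 : ℂ) * ζ0 + c.c134) / φ ≠ 0 := div_ne_zero (neg_ne_zero.2 h0) cφ
    rw [hσ] at Lσ
    exact ⟨_, inv_ne_zero hσ0, P.lim_swap Lσ hσ0⟩

end

section

variable {K : Type*} [Field K] [Algebra ℝ K] {P : Pl K} {κ : ℝ →+* K} {c : Cf}
  {u1 u2 u3 u4 : K}

/-- The structure constants at an end of the second kind. -/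
structure D2 (c : Cf) (ρ m : ℝ) : Prop where
  hρ : ρ < 0
  hm : 0 ≤ m
  b14 : 0 < c.b14
  b24 : c.b24 = ρ ^ 2 * c.b14
  b34 : c.b34 = m ^ 2 * c.b14
  c124 : c.c124 = -2 * ρ * c.b14
  c134 : c.c134 = 2 * m * c.b14
  c234 : c.c234 = -2 * ρ * m * c.b14
  hf : c.b13 * ρ ^ 2 + c.c123 * ρ + c.b23 = 0
  hφ : 2 * c.b13 * ρ + c.c123 ≠ 0

/-- The limits at an end of the second kind. -/
structure L2 (P : Pl K) (κ : ℝ →+* K) (ρ m τ : ℝ) (γ : ℂ) (u1 u2 u3 u4 : K) : Prop where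
  hτ : 0 < τ
  hγ : γ ≠ 0
  Lr : P.Lim (u1 / u2) ρ
  L3 : P.Lim u3 γ
  Lτ : P.Lim (u2 ^ 2 * u4 / u3 ^ 2) τ
  Ly : P.Lim (u1 - κ ρ * u2 + κ m * u3) 0
  Lη : P.Lim (1 / u2) 0
  L4 : P.Lim u4 0

/-- The product of the unknowns is infinite for the first kind of solutions. -/
theorem prod_inf (n1 : u1 ≠ 0) (n2 : u2 ≠ 0) (n3 : u3 ≠ 0) (n4 : u4 ≠ 0) {r : ℂ} (hr : r ≠ 0)
    (Lr : P.Lim (u1 / u2) r) (Lη : P.Lim (1 / u2) 0) (h3 : ¬ P.I u3) {θ : ℂ}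
    (Lθ : P.Lim (u3 ^ 2 / (u2 * u4)) θ) : P.I (1 / (u1 * u2 * u3 * u4)) := by
  obtain ⟨v, Lv⟩ := Pl.inv_B h3
  refine P.lim_val (P.lim_eq (b := u2 / u1 * (u3 ^ 2 / (u2 * u4)) * (1 / u2) * u3⁻¹ ^ 3) ?_
    (P.mul (P.mul (P.mul (P.lim_swap Lr hr) Lθ) Lη) (P.lim_pow Lv 3))) ?_
  · field_simp
  · simp

theorem p211_full (S : Sys4 P κ c u1 u2 u3 u4) (hc : c.Pos) {r : ℂ} (hr : r ≠ 0)
    (Lr : P.Lim (u1 / u2) r) (L32 : P.Lim (u3 / u2) 0) (L43 : P.Lim (u4 / u3) 0)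
    (Lη : P.Lim (1 / u2) 0) (L4 : P.Lim u4 0) :
    P.I (1 / (u1 * u2 * u3 * u4)) ∨
      ∃ (ρ m τ : ℝ) (γ : ℂ), D2 c ρ m ∧ L2 P κ ρ m τ γ u1 u2 u3 u4 := by
  have n1 := S.h1
  have n2 := S.h2
  have n3 := S.h3
  have n4 := S.h4
  obtain ⟨h1, h2, g3, s3, s4, z1, z2, z3, F⟩ := f211_of S hr Lr L32 L43 Lη L4
  by_cases hn : c.b14 ≠ 0 ∨ c.c124 ≠ 0 ∨ c.b24 ≠ 0
  · have F' : ∃ (h1 h2 g3 s3 s4 : K) (z1 z2 z3 r : ℂ),
        F211 P κ c u1 u2 u3 u4 h1 h2 g3 s3 s4 z1 z2 z3 r :=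
      ⟨h1, h2, g3, s3, s4, z1, z2, z3, r, F⟩
    obtain ⟨ρ, hρ, Lρ, hb14, hc124, hb24⟩ := p211_double F' hc hn
    have hν := p211_nu F' Lρ hc124 hb24
    obtain ⟨φ, hφ⟩ : ∃ φ : ℝ, φ = 2 * c.b13 * ρ + c.c123 := ⟨_, rfl⟩
    obtain ⟨h1', h2', g3', s3', s4', z, z1', z2', z3', hz, G⟩ :=
      g211_of_eq F' hρ Lρ hb14 hc124 hb24 hν hφ
    by_cases hφ0 : φ = 0
    · exact (g211_double G hc hφ0).elim
    · obtain ⟨h3, ⟨θ, -, Lθ⟩ | ⟨h34, Ly, τ, hτ, Lτ⟩⟩ := g211_full G hc hφ0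
      · exact Or.inl (prod_inf n1 n2 n3 n4 hr Lr Lη h3 Lθ)
      · by_cases hB : P.B u3
        · right
          obtain ⟨γ, L3⟩ := hB
          have hΔ := g211_delta G
          refine ⟨ρ, c.c134 / (2 * c.b14), τ, γ, ⟨hρ, div_nonneg hc.c134 (by positivity), hb14,
            by rw [hb24]; ring, ?_, by rw [hc124]; ring, ?_, ?_, hν, hφ ▸ hφ0⟩,
            ⟨hτ, ?_, Lρ, L3, Lτ, ?_, Lη, L4⟩⟩
          · have h := hb14.ne'
            field_simp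
            linarith
          · have h := hb14.ne'
            field_simp
          · have h := hb14.ne'
            field_simp
            linarith
          · rintro rfl
            exact h3 L3
          · rw [← hz]
            exact Ly
        · left
          have L3' : P.Lim u3⁻¹ 0 := Pl.inv_I hB
          have cτ : (τ : ℂ) ≠ 0 := by exact_mod_cast hτ.ne'
          refine P.lim_val (P.lim_eq (b := u2 / u1 * (u3 ^ 2 / (u2 ^ 2 * u4)) * u3⁻¹ ^ 3) ?_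
            (P.mul (P.mul (P.lim_swap Lr hr) (P.lim_swap Lτ cτ)) (P.lim_pow L3' 3))) ?_
          · field_simp
          · simp
  · push Not at hn
    by_cases hl : c.c134 ≠ 0 ∨ c.c234 ≠ 0
    · have h := p211_case2a ⟨h1, h2, g3, s3, s4, z1, z2, z3, r, F⟩ hc hn.1 hn.2.1 hn.2.2 hl
      obtain ⟨θ, -, Lθ⟩ := h.2
      exact Or.inl (prod_inf n1 n2 n3 n4 hr Lr Lη h.1 Lθ)
    · push Not at hl
      exact (p211_case2b ⟨h1, h2, g3, s3, s4, z1, z2, z3, r, F⟩ hc hn.1 hn.2.1 hn.2.2 hl.1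
        hl.2).elim

end

end Pool.Agent.H.MP_deabf1_gt.Four
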