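import Pool.Agent.H.MP_deabf1_gt.helper65.P22x

/-!
Two comparable large summands, two comparable small ones: all data of the surviving solutions.
-/

namespace Pool.Agent.H.MP_deabf1_gt.Four

variable {K : Type*} [Field K] [Algebra ℝ K] {P : Pl K} {κ : ℝ →+* K} {c : Cf}
  {u1 u2 u3 u4 : K}

/-- The structure constants at an end of the first kind. -/
structure D1 (c : Cf) (ρ : ℝ) : Prop where
  hρ : ρ < 0
  b13 : 0 < c.b13
  b14 : 0 < c.b14
  b23 : c.b23 = ρ ^ 2 * c.b13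
  b24 : c.b24 = ρ ^ 2 * c.b14
  c123 : c.c123 = -2 * ρ * c.b13
  c124 : c.c124 = -2 * ρ * c.b14
  hΔ : ρ * c.c134 + c.c234 ≠ 0

/-- The limits at an end of the first kind. -/
structure L1 (P : Pl K) (κ : ℝ →+* K) (c : Cf) (ρ z0 θ : ℝ) (u1 u2 u3 u4 : K) : Prop where
  hθ : θ ≠ 0
  Lr : P.Lim (u1 / u2) ρ
  Ls : P.Lim (u3 / u4) ((-c.b13 / c.b14 : ℝ) : ℂ)
  Lz : P.Lim (u1 - κ ρ * u2) z0
  Lθ : P.Lim (u2 * u4) θ
  Lη : P.Lim (1 / u2) 0
  L4 : P.Lim u4 0

theorem p22_full (S : Sys4 P κ c u1 u2 u3 u4) (hc : c.Pos) (κ' : ℂ →+* K)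
    (hκ' : ∀ z : ℂ, P.Lim (κ' z) z) (hκκ : ∀ r : ℝ, κ' (r : ℂ) = κ r) {r s : ℂ} (hr : r ≠ 0)
    (hs : s ≠ 0) (Lr : P.Lim (u1 / u2) r) (Ls : P.Lim (u3 / u4) s) (Lη : P.Lim (1 / u2) 0)
    (L4 : P.Lim u4 0) :
    P.I (1 / (u1 * u2 * u3 * u4)) ∨
      ∃ ρ z0 θ : ℝ, D1 c ρ ∧ L1 P κ c ρ z0 θ u1 u2 u3 u4 := by
  have := charZero_of_real K
  obtain ⟨F1, g3, g4, s3, s4, y3, y4, F⟩ := f22_of S hr hs Lr Ls Lη L4
  have hk := F.k
  have n1 := F.n1
  have n2 := F.n2
  have n3 := F.n3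
  have n4 := F.n4
  have L3 := F.L3
  have Lr' := P.lim_swap Lr hr
  have Ls' := P.lim_swap Ls hs
  have hF1 := F.hF1
  have LF1 := F.LF1
  have Ls3 := F.Ls3
  have Ls4 := F.Ls4
  have D3 := F.D3
  have D4 := F.D4
  obtain ⟨D, hD⟩ : ∃ D : ℝ, D = c.d3 + c.d4 := ⟨_, rfl⟩
  have hD0 : D ≠ 0 := by
    rw [hD]
    exact (add_pos hc.d3 hc.d4).ne'
  have cD : (D : ℂ) ≠ 0 := by exact_mod_cast hD0
  -- the forms vanish at the ratio
  have e3 : (c.b13 : ℂ) * r ^ 2 + c.c123 * r + c.b23 = 0 := by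
    have E : κ c.b13 * (u1 / u2) ^ 2 + κ c.c123 * (u1 / u2) + κ c.b23
        - (κ c.c134 * (u1 / u2) + κ c.c234) * ((u3 / u4) - (u4 / u3)) * ((1 / u2) * u3)
        - (κ c.d3 + s3) * ((1 / u2) ^ 2 * u3) = 0 := by
      linear_combination (norm := (field_simp; ring)) (u3 / u2 ^ 2) * D3
    have e := P.eq0 E (by
      apply_rules (maxDepth := 500) [P.add, P.mul, P.lim_sub, P.lim_neg, P.lim_pow,
        P.lim_ofNat])
    simpa using e
  have e4 : (c.b14 : ℂ) * r ^ 2 + c.c124 * r + c.b24 = 0 := by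
    have E : κ c.b14 * (u1 / u2) ^ 2 + κ c.c124 * (u1 / u2) + κ c.b24
        + (κ c.c134 * (u1 / u2) + κ c.c234) * ((u3 / u4) - (u4 / u3)) * ((1 / u2) * u4)
        - (κ c.d4 + s4) * ((1 / u2) ^ 2 * u4) = 0 := by
      linear_combination (norm := (field_simp; ring)) (u4 / u2 ^ 2) * D4
    have e := P.eq0 E (by
      apply_rules (maxDepth := 500) [P.add, P.mul, P.lim_sub, P.lim_neg, P.lim_pow,
        P.lim_ofNat])
    simpa using e
  -- the shifted variable
  obtain ⟨z, hz⟩ : ∃ z, z = u1 - κ' r * u2 := ⟨_, rfl⟩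
  have hu1 : u1 = κ' r * u2 + z := by rw [hz]; ring
  have Lz : P.Lim (z / u2) 0 := by
    refine P.lim_val (P.lim_eq (b := u1 / u2 - κ' r) ?_ (P.lim_sub Lr (hκ' r))) (sub_self _)
    rw [hz]
    field_simp
  have k3 : κ c.b23 = -(κ c.b13 * κ' r ^ 2) - κ c.c123 * κ' r := by
    rw [← hκκ, ← hκκ, ← hκκ, ← map_pow, ← map_mul, ← map_mul, ← map_neg, ← map_sub]
    congr 1
    linear_combination e3
  have k4 : κ c.b24 = -(κ c.b14 * κ' r ^ 2) - κ c.c124 * κ' r := by
    rw [← hκκ, ← hκκ, ← hκκ, ← map_pow, ← map_mul, ← map_mul, ← map_neg, ← map_sub]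
    congr 1
    linear_combination e4
  have kφ3 : κ' (2 * c.b13 * r + c.c123) = 2 * κ c.b13 * κ' r + κ c.c123 := by
    rw [map_add, map_mul, map_mul, map_ofNat, hκκ, hκκ]
  have kφ4 : κ' (2 * c.b14 * r + c.c124) = 2 * κ c.b14 * κ' r + κ c.c124 := by
    rw [map_add, map_mul, map_mul, map_ofNat, hκκ, hκκ]
  have hN3 : κ c.b13 * u1 ^ 2 + κ c.c123 * (u1 * u2) + κ c.b23 * u2 ^ 2
      = z * (κ c.b13 * z + κ' (2 * c.b13 * r + c.c123) * u2) := by
    rw [k3, kφ3, hu1]
    ring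
  have hN4 : κ c.b14 * u1 ^ 2 + κ c.c124 * (u1 * u2) + κ c.b24 * u2 ^ 2
      = z * (κ c.b14 * z + κ' (2 * c.b14 * r + c.c124) * u2) := by
    rw [k4, kφ4, hu1]
    ring
  rw [hN3] at D3
  rw [hN4] at D4
  have hF1' : F1 = (2 * κ c.b13 * z + κ' (2 * c.b13 * r + c.c123) * u2) / u3
      + (2 * κ c.b14 * z + κ' (2 * c.b14 * r + c.c124) * u2) / u4 := by
    rw [hF1, kφ3, kφ4, hu1]
    ring
  obtain ⟨φ3, hφ3⟩ : ∃ φ3 : ℂ, φ3 = 2 * c.b13 * r + c.c123 := ⟨_, rfl⟩
  obtain ⟨φ4, hφ4⟩ : ∃ φ4 : ℂ, φ4 = 2 * c.b14 * r + c.c124 := ⟨_, rfl⟩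
  rw [← hφ3] at D3
  rw [← hφ4] at D4
  rw [← hφ3, ← hφ4] at hF1'
  -- the sum
  have E5 : z * F1 - z * (κ c.b13 * (z / u3) + κ c.b14 * (z / u4)) - κ c.d3 - κ c.d4 - s3 - s4
      = 0 := by
    rw [hF1']
    linear_combination (norm := (field_simp; ring)) D3 + D4
  by_cases h3 : φ3 = 0
  · by_cases h4 : φ4 = 0
    · rw [h3, map_zero] at hF1' D3
      rw [h4, map_zero] at hF1' D4
      -- both roots are double
      have E6 : z * F1 - 2 * (κ c.d3 + κ c.d4 + s3 + s4) = 0 := by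
        rw [hF1']
        linear_combination (norm := (field_simp; ring)) 2 * (D3 + D4)
      have LD : P.Lim (2 * (κ c.d3 + κ c.d4 + s3 + s4)) (2 * D) := by
        refine P.lim_val (P.mul (P.lim_ofNat 2) (P.add (P.add (P.add (hk _) (hk _)) Ls3) Ls4)) ?_
        rw [hD]
        push_cast
        ring
      have LzF : P.Lim (z * F1) (2 * D) := P.lim_eq (sub_eq_zero.1 E6) LD
      have c2D : (2 * (D : ℂ)) ≠ 0 := mul_ne_zero two_ne_zero cD
      have hz0 : z ≠ 0 := by
        rintro h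
        rw [h, zero_mul] at LzF
        exact c2D (P.uniq LzF P.lim_zero)
      have hzI : ¬ P.I z := by
        intro h
        have h5 := h.mul ⟨_, LF1⟩
        exact c2D (P.uniq LzF h5)
      have Bz' : P.B z⁻¹ := Pl.inv_B hzI
      obtain ⟨w, Lw⟩ := Bz'
      have hb13 : c.b13 ≠ 0 := by
        intro h
        rw [h, map_zero] at hF1'
        have h5 : 2 * κ c.b14 = F1 * u4 * z⁻¹ := by
          rw [hF1']
          field_simp
          ring
        have h6 := P.uniq (P.lim_eq h5 (P.mul (P.mul LF1 L4) Lw)) (P.mul (P.lim_ofNat 2) (hk _))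
        simp only [mul_zero, zero_mul] at h6
        have h7 : c.b14 = 0 := by
          rcases mul_eq_zero.1 h6.symm with h8 | h8
          · norm_num at h8
          · exact_mod_cast h8
        rw [h7, map_zero] at hF1'
        have h8 : F1 = 0 := by
          rw [hF1']
          ring
        rw [h8, mul_zero] at LzF
        exact c2D (P.uniq LzF P.lim_zero)
      have hb14 : c.b14 ≠ 0 := by
        intro h
        rw [h, map_zero] at hF1'
        have h5 : 2 * κ c.b13 = F1 * u3 * z⁻¹ := by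
          rw [hF1']
          field_simp
          ring
        have h6 := P.uniq (P.lim_eq h5 (P.mul (P.mul LF1 L3) Lw)) (P.mul (P.lim_ofNat 2) (hk _))
        simp only [mul_zero, zero_mul] at h6
        apply hb13
        rcases mul_eq_zero.1 h6.symm with h8 | h8
        · norm_num at h8
        · exact_mod_cast h8
      have cb13 : (c.b13 : ℂ) ≠ 0 := by exact_mod_cast hb13
      have cb14 : (c.b14 : ℂ) ≠ 0 := by exact_mod_cast hb14
      have kb14 : κ c.b14 ≠ 0 := (map_ne_zero κ).2 hb14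
      -- the ratio is real
      obtain ⟨ρ, hρ⟩ : ∃ ρ : ℝ, ρ = -c.c123 / (2 * c.b13) := ⟨_, rfl⟩
      have hrρ : r = (ρ : ℂ) := by
        rw [hρ]
        apply Pl.real_of_mul (mul_ne_zero two_ne_zero hb13)
        push_cast
        rw [← h3, hφ3]
      have hρ0 : ρ ≠ 0 := by
        rintro rfl
        exact hr (by simpa using hrρ)
      have hρn : ρ < 0 := by
        refine lt_of_le_of_ne ?_ hρ0
        rw [hρ]
        exact div_nonpos_of_nonpos_of_nonneg (neg_nonpos.2 hc.c123)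
          (mul_nonneg (by norm_num) hc.b13)
      have hc123 : c.c123 = -2 * c.b13 * ρ := by
        rw [hρ]
        field_simp
      have hc124 : c.c124 = -2 * c.b14 * ρ := by
        have h5 : ((2 * c.b14 * ρ + c.c124 : ℝ) : ℂ) = 0 := by
          push_cast
          rw [← hrρ, ← hφ4, h4]
        have h6 : 2 * c.b14 * ρ + c.c124 = 0 := by exact_mod_cast h5
        linarith
      have h123 : c.c123 ≠ 0 := by
        rw [hc123]
        exact mul_ne_zero (mul_ne_zero (by norm_num) hb13) hρ0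
      have h124 : c.c124 ≠ 0 := by
        rw [hc124]
        exact mul_ne_zero (mul_ne_zero (by norm_num) hb14) hρ0
      have hb24 : c.b24 = c.b14 * ρ ^ 2 := by
        have h5 : ((c.b14 * ρ ^ 2 + c.c124 * ρ + c.b24 : ℝ) : ℂ) = 0 := by
          push_cast
          rw [← hrρ]
          exact e4
        have h6 : c.b14 * ρ ^ 2 + c.c124 * ρ + c.b24 = 0 := by exact_mod_cast h5
        rw [hc124] at h6
        linarith
      have hb23 : c.b23 = c.b13 * ρ ^ 2 := by
        have h5 : ((c.b13 * ρ ^ 2 + c.c123 * ρ + c.b23 : ℝ) : ℂ) = 0 := by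
          push_cast
          rw [← hrρ]
          exact e3
        have h6 : c.b13 * ρ ^ 2 + c.c123 * ρ + c.b23 = 0 := by exact_mod_cast h5
        rw [hc123] at h6
        linarith
      -- the second ratio is real
      have E7 : 2 * κ c.b13 * (u4 / u3) + 2 * κ c.b14 - F1 * u4 * z⁻¹ = 0 := by
        rw [hF1']
        field_simp
        ring
      have e7 := P.eq0 E7 (P.lim_sub (P.add (P.mul (P.mul (P.lim_ofNat 2) (hk _)) Ls')
        (P.mul (P.lim_ofNat 2) (hk _))) (P.mul (P.mul LF1 L4) Lw))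
      obtain ⟨σ, hσ⟩ : ∃ σ : ℝ, σ = -c.b13 / c.b14 := ⟨_, rfl⟩
      have hsσ : s = (σ : ℂ) := by
        rw [hσ]
        apply Pl.real_of_mul hb14
        simp only [mul_zero, zero_mul, sub_zero] at e7
        have h5 : s * s⁻¹ = 1 := mul_inv_cancel₀ hs
        linear_combination (1 / 2 * s) * e7 - (c.b13 : ℂ) * h5
      have hσ0 : σ ≠ 0 := by
        rintro rfl
        exact hs (by simpa using hsσ)
      have hσn : σ < 0 := by
        refine lt_of_le_of_ne ?_ hσ0
        rw [hσ]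
        exact div_nonpos_of_nonpos_of_nonneg (neg_nonpos.2 hc.b13) hc.b14
      -- the limit of `F1` is positive
      obtain ⟨f1, hf1⟩ : ∃ f1 : ℝ, f1 = c.a1 - 2 * c.b12 * ρ + c.b21 * ρ⁻¹ ^ 2
          - c.c134 * (σ + σ⁻¹) := ⟨_, rfl⟩
      have hf1p : 0 < f1 := by
        have h5 := hc.a1
        have h6 := hc.b12
        have h7 := hc.b14
        have h8 := hc.c123
        have h9 := hc.c124
        have h10 := hc.c134
        have h11 : 0 < c.b13 := lt_of_le_of_ne hc.b13 hb13.symm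
        have h12 : 0 ≤ c.b12 * (-ρ) := mul_nonneg h6 (by linarith)
        have h13 : 0 ≤ c.b21 * ρ⁻¹ ^ 2 := mul_nonneg hc.b21 (sq_nonneg _)
        have h14 : 0 ≤ c.c134 * (-(σ + σ⁻¹)) := by
          apply mul_nonneg h10
          have h15 : σ⁻¹ < 0 := inv_lt_zero.2 hσn
          linarith
        rw [hf1]
        linarith
      have LF1' : P.Lim F1 f1 := by
        refine P.lim_val LF1 ?_
        rw [hf1, hrρ, hsσ]
        push_cast
        ring
      have cf1 : (f1 : ℂ) ≠ 0 := by exact_mod_cast hf1p.ne'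
      have kF1 : F1 ≠ 0 := Pl.ne_of_not_I (Pl.lim_ne LF1' cf1)
      obtain ⟨z0, hz0⟩ : ∃ z0 : ℝ, z0 = 2 * D / f1 := ⟨_, rfl⟩
      have Lz0 : P.Lim z z0 := by
        refine P.lim_val (P.lim_eq (b := z * F1 / F1) ?_ (P.lim_div LzF LF1' cf1)) ?_
        · field_simp
        · rw [hz0]
          push_cast
          rfl
      have hz00 : z0 ≠ 0 := by
        rw [hz0]
        exact div_ne_zero (mul_ne_zero two_ne_zero hD0) hf1p.ne'
      have cz0 : (z0 : ℂ) ≠ 0 := by exact_mod_cast hz00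
      -- the fourth equation
      obtain ⟨Δ, hΔ⟩ : ∃ Δ : ℝ, Δ = ρ * c.c134 + c.c234 := ⟨_, rfl⟩
      have kΔ : κ Δ = κ ρ * κ c.c134 + κ c.c234 := by rw [hΔ, map_add, map_mul]
      have hκρ : κ' r = κ ρ := by rw [hrρ, hκκ]
      have E8 : κ Δ * (u2 * u4 * (u3 / u4 - u4 / u3)) = -(κ c.b14 * z ^ 2)
          - κ c.c134 * z * u4 * (u3 / u4 - u4 / u3) + (κ c.d4 + s4) * u4 := by
        rw [kΔ]
        rw [hu1, hκρ] at D4
        linear_combination (norm := (field_simp; ring)) u4 * D4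
      have L8 : P.Lim (κ Δ * (u2 * u4 * (u3 / u4 - u4 / u3))) (-(c.b14 * z0 ^ 2 : ℂ)) := by
        refine P.lim_val (P.lim_eq E8 (P.add (P.lim_sub (P.lim_neg (P.mul (hk _)
          (P.lim_pow Lz0 2))) (P.mul (P.mul (P.mul (hk _) Lz0) L4) (P.lim_sub Ls Ls')))
          (P.mul (P.add (hk _) Ls4) L4))) ?_
        simp
      have h8 : -(c.b14 * z0 ^ 2 : ℂ) ≠ 0 := neg_ne_zero.2 (mul_ne_zero cb14 (pow_ne_zero 2 cz0))
      have hΔ0 : Δ ≠ 0 := by
        intro h
        rw [h, map_zero, zero_mul] at L8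
        exact h8 (P.uniq L8 P.lim_zero)
      have cΔ : (Δ : ℂ) ≠ 0 := by exact_mod_cast hΔ0
      have kΔ0 : κ Δ ≠ 0 := (map_ne_zero κ).2 hΔ0
      have L9 : P.Lim (u2 * u4 * (u3 / u4 - u4 / u3)) (-(c.b14 * z0 ^ 2 : ℂ) / Δ) := by
        refine P.lim_eq ?_ (P.lim_div L8 (hk Δ) cΔ)
        rw [mul_div_cancel_left₀ _ kΔ0]
      have h9 : -(c.b14 * z0 ^ 2 : ℂ) / Δ ≠ 0 := div_ne_zero h8 cΔ
      by_cases hσ1 : σ = -1
      · left
        -- the difference of the two small summands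
        have hbb : c.b13 = c.b14 := by
          rw [hσ] at hσ1
          field_simp at hσ1
          linarith
        have E10 : κ c.b14 * z ^ 2 * ((1 + u4 / u3) / u4) = κ c.d3 + κ c.d4 + s3 + s4 := by
          rw [hbb] at D3
          linear_combination (norm := (field_simp; ring)) D3 + D4
        have L10 : P.Lim (κ c.b14 * z ^ 2 * ((1 + u4 / u3) / u4)) D := by
          refine P.lim_val (P.lim_eq E10 (P.add (P.add (P.add (hk _) (hk _)) Ls3) Ls4)) ?_
          rw [hD]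
          push_cast
          ring
        have L11 : P.Lim ((1 + u4 / u3) / u4) (D / (c.b14 * z0 ^ 2)) := by
          refine P.lim_eq ?_ (P.lim_div L10 (P.mul (hk _) (P.lim_pow Lz0 2))
            (mul_ne_zero cb14 (pow_ne_zero 2 cz0)))
          rw [mul_div_cancel_left₀]
          exact mul_ne_zero kb14 (pow_ne_zero 2 (Pl.ne_of_not_I hzI))
        have h11 : ((D : ℂ) / (c.b14 * z0 ^ 2)) ≠ 0 :=
          div_ne_zero cD (mul_ne_zero cb14 (pow_ne_zero 2 cz0))
        have L12 : P.Lim ((1 + u4 / u3) / u4 * (u3 / u4 - 1)) (D / (c.b14 * z0 ^ 2) * (-2)) := by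
          refine P.lim_val (P.mul L11 (P.lim_sub Ls P.lim_one)) ?_
          rw [hsσ, hσ1]
          push_cast
          ring
        have h12 : (D : ℂ) / (c.b14 * z0 ^ 2) * (-2) ≠ 0 := mul_ne_zero h11 (by norm_num)
        have L13 : P.Lim (u2 * u4 ^ 2) (-(c.b14 * z0 ^ 2 : ℂ) / Δ
            / (D / (c.b14 * z0 ^ 2) * (-2))) := by
          refine P.lim_eq ?_ (P.lim_div L9 L12 h12)
          rw [eq_div_iff (Pl.ne_of_not_I (Pl.lim_ne L12 h12))]
          field_simp
          ring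
        have L14 := P.lim_inv L13 (div_ne_zero h9 h12)
        refine P.lim_val (P.lim_eq (b := u2 / u1 * (u4 / u3) * ((u2 * u4 ^ 2)⁻¹ * u4) ^ 2) ?_
          (P.mul (P.mul Lr' Ls') (P.lim_pow (P.mul L14 L4) 2))) ?_
        · field_simp
        · simp
      · right
        have L10 : P.Lim (u3 / u4 - u4 / u3) ((σ - σ⁻¹ : ℝ) : ℂ) := by
          refine P.lim_val (P.lim_sub Ls Ls') ?_
          rw [hsσ]
          push_cast
          rfl
        have h10 : σ - σ⁻¹ ≠ 0 := by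
          intro h
          have h5 : σ ^ 2 = 1 := by
            field_simp at h
            linarith
          have h6 : (σ + 1) * (σ - 1) = 0 := by linear_combination h5
          rcases mul_eq_zero.1 h6 with h7 | h7
          · exact hσ1 (by linarith)
          · linarith
        have h10' : ((σ - σ⁻¹ : ℝ) : ℂ) ≠ 0 := by exact_mod_cast h10
        have L11 : P.Lim (u2 * u4) ((-(c.b14 * z0 ^ 2) / Δ / (σ - σ⁻¹) : ℝ) : ℂ) := by
          refine P.lim_val (P.lim_eq ?_ (P.lim_div L9 L10 h10')) ?_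
          · rw [mul_div_cancel_right₀]
            exact Pl.ne_of_not_I (Pl.lim_ne L10 h10')
          · push_cast
            rfl
        refine ⟨ρ, z0, -(c.b14 * z0 ^ 2) / Δ / (σ - σ⁻¹),
          ⟨hρn, lt_of_le_of_ne hc.b13 hb13.symm, lt_of_le_of_ne hc.b14 hb14.symm, ?_, ?_, ?_, ?_,
            hΔ ▸ hΔ0⟩, ⟨?_, hrρ ▸ Lr, ?_, ?_, L11, Lη, L4⟩⟩
        · rw [hb23]
          ring
        · rw [hb24]
          ring
        · rw [hc123]
          ring
        · rw [hc124]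
          ring
        · exact div_ne_zero (div_ne_zero (neg_ne_zero.2 (mul_ne_zero hb14 (pow_ne_zero 2 hz00)))
            hΔ0) h10
        · rw [← hσ, ← hsσ]
          exact Ls
        · rw [← hκρ, ← hz]
          exact Lz0
    · exfalso
      -- simple root of the fourth form
      have Lm : P.Lim (κ c.b14 * (z / u2) + κ' φ4) φ4 := by
        refine P.lim_val (P.add (P.mul (hk _) Lz) (hκ' _)) ?_
        simp
      have E6 : z / u4 * (κ c.b14 * (z / u2) + κ' φ4)
          = -((κ c.c134 * (u1 / u2) + κ c.c234) * (u3 / u4 - u4 / u3))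
          + (κ c.d4 + s4) * (1 / u2) := by
        linear_combination (norm := (field_simp; ring)) (1 / u2) * D4
      have L6 : P.B (z / u4 * (κ c.b14 * (z / u2) + κ' φ4)) := by
        rw [E6]
        exact ⟨_, by
          apply_rules (maxDepth := 500) [P.add, P.mul, P.lim_sub, P.lim_neg, P.lim_pow,
            P.lim_ofNat]⟩
      obtain ⟨l, L6⟩ := L6
      have Lζ : P.Lim (z / u4) (l / φ4) := by
        refine P.lim_eq ?_ (P.lim_div L6 Lm h4)
        rw [mul_div_cancel_right₀ _ (Pl.ne_of_not_I (Pl.lim_ne Lm h4))]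
      have Lz1 : P.Lim z 0 := by
        refine P.lim_val (P.lim_eq (b := z / u4 * u4) ?_ (P.mul Lζ L4)) (mul_zero _)
        field_simp
      have Lζ3 : P.Lim (z / u3) (l / φ4 * s⁻¹) := by
        refine P.lim_eq ?_ (P.mul Lζ Ls')
        field_simp
      have e := P.eq0 E5 (P.lim_sub (P.lim_sub (P.lim_sub (P.lim_sub (P.lim_sub (P.mul Lz1 LF1)
        (P.mul Lz1 (P.add (P.mul (hk _) Lζ3) (P.mul (hk _) Lζ)))) (hk _)) (hk _)) Ls3) Ls4)
      have e6 : ((c.d3 + c.d4 : ℝ) : ℂ) = 0 := by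
        push_cast
        simp only [zero_mul, sub_zero, zero_sub] at e
        linear_combination -e
      have e7 : c.d3 + c.d4 = 0 := by exact_mod_cast e6
      exact hD0 (hD.trans e7)
  · exfalso
    -- simple root of the third form
    have Lm : P.Lim (κ c.b13 * (z / u2) + κ' φ3) φ3 := by
      refine P.lim_val (P.add (P.mul (hk _) Lz) (hκ' _)) ?_
      simp
    have E6 : z / u3 * (κ c.b13 * (z / u2) + κ' φ3)
        = (κ c.c134 * (u1 / u2) + κ c.c234) * (u3 / u4 - u4 / u3)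
        + (κ c.d3 + s3) * (1 / u2) := by
      linear_combination (norm := (field_simp; ring)) (1 / u2) * D3
    have L6 : P.B (z / u3 * (κ c.b13 * (z / u2) + κ' φ3)) := by
      rw [E6]
      exact ⟨_, by
        apply_rules (maxDepth := 500) [P.add, P.mul, P.lim_sub, P.lim_neg, P.lim_pow,
          P.lim_ofNat]⟩
    obtain ⟨l, L6⟩ := L6
    have Lζ : P.Lim (z / u3) (l / φ3) := by
      refine P.lim_eq ?_ (P.lim_div L6 Lm h3)
      rw [mul_div_cancel_right₀ _ (Pl.ne_of_not_I (Pl.lim_ne Lm h3))]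
    have Lz1 : P.Lim z 0 := by
      refine P.lim_val (P.lim_eq (b := z / u3 * u3) ?_ (P.mul Lζ L3)) (mul_zero _)
      field_simp
    have Lζ4 : P.Lim (z / u4) (l / φ3 * s) := by
      refine P.lim_eq ?_ (P.mul Lζ Ls)
      field_simp
    have e := P.eq0 E5 (P.lim_sub (P.lim_sub (P.lim_sub (P.lim_sub (P.lim_sub (P.mul Lz1 LF1)
      (P.mul Lz1 (P.add (P.mul (hk _) Lζ) (P.mul (hk _) Lζ4)))) (hk _)) (hk _)) Ls3) Ls4)
    have e6 : ((c.d3 + c.d4 : ℝ) : ℂ) = 0 := by
      push_cast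
      simp only [zero_mul, sub_zero, zero_sub] at e
      linear_combination -e
    have e7 : c.d3 + c.d4 = 0 := by exact_mod_cast e6
    exact hD0 (hD.trans e7)

end Pool.Agent.H.MP_deabf1_gt.Four
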