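import Pool.Agent.H.MP_deabf1_gt.helper65.Loc2
import Pool.Agent.H.MP_deabf1_gt.helper65.P211h
import Pool.Agent.H.MP_deabf1_gt.helper65.P22y
import Pool.Agent.H.MP_deabf1_gt.helper65.P121y

/-!
The ordered solutions at infinity with all data.
-/

namespace Pool.Agent.H.MP_deabf1_gt.Four

variable {K : Type*} [Field K] [Algebra ℝ K] {P : Pl K} {κ : ℝ →+* K} {c : Cf}
  {u1 u2 u3 u4 : K}

theorem sorted4_full (S : Sys4 P κ c u1 u2 u3 u4) (hc : c.Pos) (κ' : ℂ →+* K)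
    (hκ' : ∀ z : ℂ, P.Lim (κ' z) z) (hκκ : ∀ r : ℝ, κ' (r : ℂ) = κ r)
    (B21 : P.B (u2 / u1)) (B32 : P.B (u3 / u2)) (B43 : P.B (u4 / u3))
    (Lη : P.Lim (1 / u1) 0) (L4 : P.Lim u4 0) :
    P.I (1 / (u1 * u2 * u3 * u4)) ∨ (∃ p : ℝ, p < 0 ∧ P.Lim (u1 * u2 * u3 * u4) p) ∨
      (∃ ρ z0 θ : ℝ, D1 c ρ ∧ L1 P κ c ρ z0 θ u1 u2 u3 u4) ∨
      ∃ (ρ m τ : ℝ) (γ : ℂ), D2 c ρ m ∧ L2 P κ ρ m τ γ u1 u2 u3 u4 := by
  have n1 := S.h1
  have n2 := S.h2
  have n3 := S.h3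
  have n4 := S.h4
  by_cases I21 : P.I (u2 / u1)
  · by_cases I32 : P.I (u3 / u2)
    · exfalso
      by_cases I43 : P.I (u4 / u3)
      · exact p1111 S hc I21 I32 I43 Lη L4
      · obtain ⟨z, hz, -, Lz⟩ := lim_of_not_I B43 I43
        refine p112 S hc (inv_ne_zero hz) I21 ?_ Lz Lη L4
        have h := B43.mulI I32
        rwa [div_mul_div_cancel₀ n3] at h
    · obtain ⟨y, hy, Ly, Ly'⟩ := lim_of_not_I B32 I32
      by_cases I43 : P.I (u4 / u3)
      · have h := B32.mulI I21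
        rw [div_mul_div_cancel₀ n2] at h
        rcases p121_neg S hc (inv_ne_zero hy) h Ly' I43 Lη L4 with h | h
        · exact Or.inl h
        · exact Or.inr (Or.inl h)
      · exfalso
        obtain ⟨z, hz, Lz, -⟩ := lim_of_not_I B43 I43
        refine p13 S hc I21 hy (mul_ne_zero hz hy) Ly ?_ Lη L4
        have h := P.mul Lz Ly
        rwa [div_mul_div_cancel₀ n3] at h
  · obtain ⟨x, hx, Lx, Lx'⟩ := lim_of_not_I B21 I21
    have Lη2 : P.Lim (1 / u2) 0 := by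
      have h := P.mul Lη Lx'
      rw [zero_mul, div_mul_div_cancel₀ n1] at h
      exact h
    by_cases I32 : P.I (u3 / u2)
    · by_cases I43 : P.I (u4 / u3)
      · rcases p211_full S hc (inv_ne_zero hx) Lx' I32 I43 Lη2 L4 with h | h
        · exact Or.inl h
        · exact Or.inr (Or.inr (Or.inr h))
      · obtain ⟨z, hz, -, Lz⟩ := lim_of_not_I B43 I43
        rcases p22_full S hc κ' hκ' hκκ (inv_ne_zero hx) (inv_ne_zero hz) Lx' Lz Lη2 L4 with h | h
        · exact Or.inl h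
        · exact Or.inr (Or.inr (Or.inl h))
    · exfalso
      obtain ⟨y, hy, Ly, Ly'⟩ := lim_of_not_I B32 I32
      have L31 := P.mul Ly Lx
      rw [div_mul_div_cancel₀ n2] at L31
      by_cases I43 : P.I (u4 / u3)
      · exact p31 S hc hx (mul_ne_zero hy hx) Lx L31 Lη L4
      · obtain ⟨z, hz, -, Lz'⟩ := lim_of_not_I B43 I43
        have h := P.mul (P.mul (P.mul Lz' L4) (P.mul Ly' Lx')) Lη
        have h1 : u3 / u4 * u4 * (u2 / u3 * (u1 / u2)) * (1 / u1) = 1 := by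
          field_simp
        rw [h1] at h
        have h2 := P.uniq h P.lim_one
        simp at h2

end Pool.Agent.H.MP_deabf1_gt.Four
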