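import Mathlib

/-!
A function with zero differential on a complex algebraic set has finitely many values.
-/

namespace Pool.Agent.H.MP_deabf1_gt

open MvPolynomial

/-- A transcendental element has a nonzero differential. -/
theorem Vol1_trans {F : Type} [Field F] [Algebra ℂ F] [Algebra.EssFiniteType ℂ F] {x : F}
    (hx : KaehlerDifferential.D ℂ F x = 0) (ht : Transcendental ℂ x) : False := by
  let alg : Algebra (Polynomial ℂ) F := (Polynomial.aeval x).toRingHom.toAlgebra
  have hmap : ∀ p : Polynomial ℂ, algebraMap (Polynomial ℂ) F p = Polynomial.aeval x p :=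
    fun p => rfl
  have : IsScalarTower ℂ (Polynomial ℂ) F := IsScalarTower.of_algebraMap_eq (fun c => by
    rw [hmap]
    simp)
  have hinj : Function.Injective (algebraMap (Polynomial ℂ) F) :=
    transcendental_iff_injective.mp ht
  have : FaithfulSMul (Polynomial ℂ) F := (faithfulSMul_iff_algebraMap_injective _ _).mpr hinj
  let : Algebra (FractionRing (Polynomial ℂ)) F := FractionRing.liftAlgebra (Polynomial ℂ) F
  have : IsScalarTower (Polynomial ℂ) (FractionRing (Polynomial ℂ)) F :=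
    FractionRing.isScalarTower_liftAlgebra (Polynomial ℂ) F
  have : IsScalarTower ℂ (FractionRing (Polynomial ℂ)) F := IsScalarTower.of_algebraMap_eq
    (fun c => by
      rw [IsScalarTower.algebraMap_apply ℂ (Polynomial ℂ) F,
        IsScalarTower.algebraMap_apply ℂ (Polynomial ℂ) (FractionRing (Polynomial ℂ)),
        ← IsScalarTower.algebraMap_apply (Polynomial ℂ) (FractionRing (Polynomial ℂ)) F])
  have : Algebra.EssFiniteType (FractionRing (Polynomial ℂ)) F :=
    Algebra.EssFiniteType.of_comp ℂ (FractionRing (Polynomial ℂ)) F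
  have : CharZero (FractionRing (Polynomial ℂ)) :=
    charZero_of_injective_algebraMap
      (IsFractionRing.injective (Polynomial ℂ) (FractionRing (Polynomial ℂ)))
  have : Algebra.FormallySmooth (FractionRing (Polynomial ℂ)) F :=
    Algebra.FormallySmooth.of_perfectField
  have : Algebra.FormallySmooth (Polynomial ℂ) (FractionRing (Polynomial ℂ)) :=
    Algebra.FormallySmooth.of_isLocalization (nonZeroDivisors _)
  have : Algebra.FormallySmooth (Polynomial ℂ) F :=
    Algebra.FormallySmooth.comp (Polynomial ℂ) (FractionRing (Polynomial ℂ)) F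
  have key : Function.Injective (KaehlerDifferential.mapBaseChange ℂ (Polynomial ℂ) F) := by
    rw [injective_iff_map_eq_zero]
    intro y hy
    obtain ⟨z, rfl⟩ := (Algebra.H1Cotangent.exact_δ_mapBaseChange ℂ (Polynomial ℂ) F y).mp hy
    rw [Subsingleton.elim z 0, map_zero]
  have h1 : KaehlerDifferential.mapBaseChange ℂ (Polynomial ℂ) F
      (TensorProduct.tmul (Polynomial ℂ) (1 : F)
        (KaehlerDifferential.D ℂ (Polynomial ℂ) Polynomial.X)) = 0 := by
    rw [KaehlerDifferential.mapBaseChange_tmul, one_smul, KaehlerDifferential.map_D, hmap,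
      Polynomial.aeval_X]
    exact hx
  have h2 : TensorProduct.tmul (Polynomial ℂ) (1 : F)
        (KaehlerDifferential.D ℂ (Polynomial ℂ) Polynomial.X) = 0 :=
    key (by rw [h1, map_zero])
  have h3 := congrArg (fun t => TensorProduct.rid (Polynomial ℂ) F
    (LinearMap.lTensor F (KaehlerDifferential.polynomialEquiv ℂ).toLinearMap t)) h2
  simp at h3

/-- An element of a finitely generated field over `ℂ` with zero differential is a constant. -/
theorem const_of_D {F : Type} [Field F] [Algebra ℂ F] [Algebra.EssFiniteType ℂ F] {x : F}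
    (hx : KaehlerDifferential.D ℂ F x = 0) : ∃ c : ℂ, x = algebraMap ℂ F c := by
  by_contra hcon
  refine Vol1_trans hx ?_
  intro halg
  have hint : IsIntegral ℂ x := halg.isIntegral
  have h : (minpoly ℂ x).degree = 1 :=
    IsAlgClosed.degree_eq_one_of_irreducible ℂ (minpoly.irreducible hint)
  obtain ⟨c, hc⟩ := minpoly.mem_range_of_degree_eq_one ℂ x h
  exact hcon ⟨c, hc.symm⟩

/-- On an irreducible component the function is constant. -/
theorem Vol1_prime {σ : Type} [Finite σ] (I p : Ideal (MvPolynomial σ ℂ)) (hp : p.IsPrime)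
    (hIp : I ≤ p) (f : MvPolynomial σ ℂ)
    (hf : KaehlerDifferential.D ℂ (MvPolynomial σ ℂ ⧸ I) (Ideal.Quotient.mk I f) = 0) :
    ∃ c : ℂ, f - MvPolynomial.C c ∈ p := by
  let φ : (MvPolynomial σ ℂ ⧸ I) →ₐ[ℂ] FractionRing (MvPolynomial σ ℂ ⧸ p) :=
    (IsScalarTower.toAlgHom ℂ (MvPolynomial σ ℂ ⧸ p) (FractionRing (MvPolynomial σ ℂ ⧸ p))).comp
      (Ideal.Quotient.factorₐ ℂ hIp)
  let : Algebra (MvPolynomial σ ℂ ⧸ I) (FractionRing (MvPolynomial σ ℂ ⧸ p)) :=
    φ.toRingHom.toAlgebra
  have hmap : ∀ a, algebraMap (MvPolynomial σ ℂ ⧸ I) (FractionRing (MvPolynomial σ ℂ ⧸ p)) a =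
      φ a := fun a => rfl
  have : IsScalarTower ℂ (MvPolynomial σ ℂ ⧸ I) (FractionRing (MvPolynomial σ ℂ ⧸ p)) :=
    IsScalarTower.of_algebraMap_eq (R := ℂ) (S := MvPolynomial σ ℂ ⧸ I)
      (A := FractionRing (MvPolynomial σ ℂ ⧸ p)) (fun c => by rw [hmap, AlgHom.commutes])
  have h1 : KaehlerDifferential.D ℂ (FractionRing (MvPolynomial σ ℂ ⧸ p))
      (algebraMap (MvPolynomial σ ℂ ⧸ I) (FractionRing (MvPolynomial σ ℂ ⧸ p))
        (Ideal.Quotient.mk I f)) = 0 := by
    rw [← KaehlerDifferential.map_D ℂ ℂ, hf, map_zero]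
  obtain ⟨c, hc⟩ := const_of_D h1
  refine ⟨c, ?_⟩
  rw [← Ideal.Quotient.eq_zero_iff_mem]
  apply IsFractionRing.injective (MvPolynomial σ ℂ ⧸ p) (FractionRing (MvPolynomial σ ℂ ⧸ p))
  rw [map_zero, map_sub, map_sub, sub_eq_zero]
  rw [hmap] at hc
  have e1 : φ (Ideal.Quotient.mk I f) = algebraMap (MvPolynomial σ ℂ ⧸ p)
      (FractionRing (MvPolynomial σ ℂ ⧸ p)) (Ideal.Quotient.mk p f) := rfl
  rw [e1] at hc
  rw [hc, IsScalarTower.algebraMap_apply ℂ (MvPolynomial σ ℂ ⧸ p)
    (FractionRing (MvPolynomial σ ℂ ⧸ p))]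
  rfl

theorem finite_of_D {σ : Type} [Finite σ] (I : Ideal (MvPolynomial σ ℂ)) (f : MvPolynomial σ ℂ)
    (hf : KaehlerDifferential.D ℂ (MvPolynomial σ ℂ ⧸ I) (Ideal.Quotient.mk I f) = 0) :
    ((fun x : σ → ℂ => MvPolynomial.eval x f) '' zeroLocus ℂ I).Finite := by
  classical
  have hfin : I.minimalPrimes.Finite :=
    Ideal.finite_minimalPrimes_of_isNoetherianRing (MvPolynomial σ ℂ) I
  have hc : ∀ p : Ideal (MvPolynomial σ ℂ), ∃ c : ℂ, p ∈ I.minimalPrimes →
      f - MvPolynomial.C c ∈ p := by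
    intro p
    by_cases hp : p ∈ I.minimalPrimes
    · obtain ⟨c, hc⟩ := Vol1_prime I p hp.1.1 hp.1.2 f hf
      exact ⟨c, fun _ => hc⟩
    · exact ⟨0, fun h => absurd h hp⟩
  choose c hc using hc
  refine (hfin.image c).subset ?_
  rintro _ ⟨x, hx, rfl⟩
  have hker : (RingHom.ker (MvPolynomial.eval x)).IsPrime := RingHom.ker_isPrime _
  have hle : I ≤ RingHom.ker (MvPolynomial.eval x) := by
    intro g hg
    rw [RingHom.mem_ker]
    have := (mem_zeroLocus_iff.mp hx) g hg
    simpa [MvPolynomial.coe_aeval_eq_eval] using this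
  obtain ⟨p, hp, hpl⟩ := Ideal.exists_minimalPrimes_le hle
  refine ⟨p, hp, ?_⟩
  have h2 := hpl (hc p hp)
  rw [RingHom.mem_ker, map_sub, MvPolynomial.eval_C, sub_eq_zero] at h2
  exact h2.symm

end Pool.Agent.H.MP_deabf1_gt
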