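import Pool.Agent.H.MP_deabf1_gt.WE
import Pool.Agent.H.MP_deabf1_gt.helper65.Vol1

/-!
The volume has finitely many values on the solutions of the Einstein equations.
-/

namespace Pool.Agent.H.MP_deabf1_gt

open MvPolynomial

variable {ι : Type} [Fintype ι] [DecidableEq ι]

/-- A constant factor comes out of a derivation. -/
theorem Vol2_const {A M : Type*} [CommRing A] [Algebra ℂ A] [AddCommGroup M] [Module A M]
    [Module ℂ M] [IsScalarTower ℂ A M] (D : Derivation ℂ A M) (c : ℂ) (a : A) :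
    D (algebraMap ℂ A c * a) = algebraMap ℂ A c • D a := by
  rw [Derivation.leibniz, Derivation.map_algebraMap, smul_zero, add_zero]

/-- The derivation of a product with logarithmic derivatives. -/
theorem Vol2_prod {A M : Type*} [CommRing A] [Algebra ℂ A] [AddCommGroup M] [Module A M]
    [Module ℂ M] [IsScalarTower ℂ A M] (D : Derivation ℂ A M) (f : ι → A) (g : ι → M)
    (h : ∀ i, D (f i) = f i • g i) (s : Finset ι) :
    D (∏ i ∈ s, f i) = (∏ i ∈ s, f i) • ∑ i ∈ s, g i := by
  induction s using Finset.induction_on with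
  | empty => simp
  | insert a s ha ih =>
    rw [Finset.prod_insert ha, Finset.sum_insert ha, Derivation.leibniz, ih, h a]
    module

/-- The scalar curvature is a potential: the logarithmic derivative of the volume vanishes. -/
theorem vol_derivation {A M : Type*} [CommRing A] [Algebra ℂ A] [AddCommGroup M] [Module A M]
    [Module ℂ M] [IsScalarTower ℂ A M] (D : Derivation ℂ A M) {T : ι → ι → ι → ℝ} (hT : Sym T)
    {γ : ι → ℝ} {d : ι → ℕ} {x y : ι → A} (hxy : ∀ i, x i * y i = 1)
    (hE : ∀ i, algebraMap ℂ A (γ i : ℂ) * y i + algebraMap ℂ A (1 / 4) * ∑ j, ∑ k,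
      algebraMap ℂ A (T i j k : ℂ) * (2 * y i + x i * y j * y k - x j * y i * y k
        - x k * y i * y j) = algebraMap ℂ A (d i : ℂ)) :
    D (∏ i, x i ^ d i) = 0 := by
  -- the derivative of `x i`
  have hx1 : ∀ i, y i • D (x i) = - (x i • D (y i)) := by
    intro i
    have h1 : D (x i * y i) = 0 := by
      rw [hxy i]
      exact D.map_one_eq_zero
    rw [Derivation.leibniz] at h1
    rw [eq_neg_iff_add_eq_zero, add_comm]
    exact h1
  have hx2 : ∀ i, D (x i) = - ((x i * x i) • D (y i)) := by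
    intro i
    have h1 : (x i * y i) • D (x i) = D (x i) := by rw [hxy i, one_smul]
    rw [← h1, mul_smul, hx1 i, smul_neg, smul_smul]
  -- the constants
  let g : ι → A := fun i => algebraMap ℂ A (γ i : ℂ)
  let t : ι → ι → ι → A := fun i j k => algebraMap ℂ A (T i j k : ℂ)
  let q : A := algebraMap ℂ A (1 / 4)
  have ht1 : ∀ i j k, t i j k = t j i k := fun i j k => by
    simp only [t, hT.1 i j k]
  have ht2 : ∀ i j k, t i j k = t i k j := fun i j k => by
    simp only [t, hT.2 i j k]
  have ht3 : ∀ i j k, t i j k = t k j i := fun i j k => by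
    rw [ht1 i j k, ht2 j i k, ht1 j k i]
  have hE' : ∀ i, g i * y i + q * ∑ j, ∑ k, t i j k * (2 * y i + x i * y j * y k
      - x j * y i * y k - x k * y i * y j) = algebraMap ℂ A (d i : ℂ) := hE
  -- the potential
  have hS : ∑ i, g i * y i + q * ∑ i, ∑ j, ∑ k, t i j k * (2 * y i - x i * y j * y k) =
      algebraMap ℂ A (∑ i, (d i : ℂ)) := by
    rw [map_sum, ← Finset.sum_congr rfl (fun i _ => hE' i), Finset.sum_add_distrib,
      ← Finset.mul_sum]
    congr 2
    have e1 : ∑ i, ∑ j, ∑ k, t i j k * (x j * y i * y k) =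
        ∑ i, ∑ j, ∑ k, t i j k * (x i * y j * y k) := by
      rw [Finset.sum_comm]
      refine Finset.sum_congr rfl fun i _ => Finset.sum_congr rfl fun j _ =>
        Finset.sum_congr rfl fun k _ => ?_
      rw [ht1 j i k]
    have e2 : ∑ i, ∑ j, ∑ k, t i j k * (x k * y i * y j) =
        ∑ i, ∑ j, ∑ k, t i j k * (x i * y j * y k) := by
      rw [← e1]
      refine Finset.sum_congr rfl fun i _ => ?_
      rw [Finset.sum_comm]
      refine Finset.sum_congr rfl fun j _ => Finset.sum_congr rfl fun k _ => ?_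
      rw [ht2 i k j]
    have e3 : ∑ i, ∑ j, ∑ k, t i j k * (2 * y i + x i * y j * y k
        - x j * y i * y k - x k * y i * y j) =
        ∑ i, ∑ j, ∑ k, t i j k * (2 * y i) + ∑ i, ∑ j, ∑ k, t i j k * (x i * y j * y k)
        - ∑ i, ∑ j, ∑ k, t i j k * (x j * y i * y k)
        - ∑ i, ∑ j, ∑ k, t i j k * (x k * y i * y j) := by
      simp only [← Finset.sum_add_distrib, ← Finset.sum_sub_distrib]
      refine Finset.sum_congr rfl fun i _ => Finset.sum_congr rfl fun j _ =>
        Finset.sum_congr rfl fun k _ => ?_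
      ring
    have e4 : ∑ i, ∑ j, ∑ k, t i j k * (2 * y i - x i * y j * y k) =
        ∑ i, ∑ j, ∑ k, t i j k * (2 * y i) - ∑ i, ∑ j, ∑ k, t i j k * (x i * y j * y k) := by
      simp only [← Finset.sum_sub_distrib]
      refine Finset.sum_congr rfl fun i _ => Finset.sum_congr rfl fun j _ =>
        Finset.sum_congr rfl fun k _ => ?_
      ring
    rw [e3, e4, e1, e2]
    ring
  -- its derivative
  have hD : ∑ i, g i • D (y i) + q • ∑ i, ∑ j, ∑ k, t i j k • ((2 : A) • D (y i)
      + (x i * x i * y j * y k) • D (y i) - (x i * y k) • D (y j) - (x i * y j) • D (y k)) = 0 := by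
    have h1 := congrArg D hS
    rw [Derivation.map_algebraMap, map_add, map_sum] at h1
    rw [← h1]
    congr 1
    · refine Finset.sum_congr rfl fun i _ => ?_
      exact (Vol2_const D _ _).symm
    · rw [Vol2_const]
      congr 1
      simp only [map_sum]
      refine Finset.sum_congr rfl fun i _ => Finset.sum_congr rfl fun j _ =>
        Finset.sum_congr rfl fun k _ => ?_
      have h2 : D (2 : A) = 0 := by
        have := D.map_natCast 2
        exact_mod_cast this
      rw [Vol2_const, map_sub, Derivation.leibniz, Derivation.leibniz, Derivation.leibniz, h2,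
        hx2 i]
      congr 1
      module
  -- symmetrised
  have hD2 : ∑ i, g i • D (y i) + q • ∑ i, ∑ j, ∑ k, t i j k • ((2 : A) • D (y i)
      + (x i * x i * y j * y k) • D (y i) - (x j * y k) • D (y i) - (x k * y j) • D (y i)) = 0 := by
    rw [← hD]
    congr 2
    have f1 : ∑ i, ∑ j, ∑ k, t i j k • ((x i * y k) • D (y j)) =
        ∑ i, ∑ j, ∑ k, t i j k • ((x j * y k) • D (y i)) := by
      rw [Finset.sum_comm]
      refine Finset.sum_congr rfl fun i _ => Finset.sum_congr rfl fun j _ =>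
        Finset.sum_congr rfl fun k _ => ?_
      rw [ht1 j i k]
    have f2 : ∑ i, ∑ j, ∑ k, t i j k • ((x i * y j) • D (y k)) =
        ∑ i, ∑ j, ∑ k, t i j k • ((x k * y j) • D (y i)) := by
      have f3 : ∀ i, ∑ j, ∑ k, t i j k • ((x i * y j) • D (y k)) =
          ∑ k, ∑ j, t i j k • ((x i * y j) • D (y k)) := fun i => Finset.sum_comm
      rw [Finset.sum_congr rfl fun i _ => f3 i, Finset.sum_comm]
      refine Finset.sum_congr rfl fun i _ => ?_
      rw [Finset.sum_comm]
      refine Finset.sum_congr rfl fun j _ => Finset.sum_congr rfl fun k _ => ?_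
      rw [ht3 k j i]
    have f4 : ∀ (P Q : ι → ι → ι → M), ∑ i, ∑ j, ∑ k, t i j k • ((2 : A) • D (y i)
        + (x i * x i * y j * y k) • D (y i) - P i j k - Q i j k) =
        ∑ i, ∑ j, ∑ k, t i j k • ((2 : A) • D (y i) + (x i * x i * y j * y k) • D (y i))
        - ∑ i, ∑ j, ∑ k, t i j k • P i j k - ∑ i, ∑ j, ∑ k, t i j k • Q i j k := by
      intro P Q
      simp only [← Finset.sum_sub_distrib]
      refine Finset.sum_congr rfl fun i _ => Finset.sum_congr rfl fun j _ =>
        Finset.sum_congr rfl fun k _ => ?_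
      module
    rw [f4, f4, f1, f2]
  -- the sum of the equations
  have hD3 : ∑ i, (algebraMap ℂ A (d i : ℂ) * x i) • D (y i) = 0 := by
    rw [← hD2, Finset.smul_sum, ← Finset.sum_add_distrib]
    refine Finset.sum_congr rfl fun i _ => ?_
    rw [← hE' i]
    have h1 : q • ∑ j, ∑ k, t i j k • ((2 : A) • D (y i)
        + (x i * x i * y j * y k) • D (y i) - (x j * y k) • D (y i) - (x k * y j) • D (y i)) =
        (q * ∑ j, ∑ k, t i j k * (2 + x i * x i * y j * y k - x j * y k - x k * y j)) • D (y i) := by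
      rw [mul_smul, Finset.sum_smul]
      congr 1
      refine Finset.sum_congr rfl fun j _ => ?_
      rw [Finset.sum_smul]
      refine Finset.sum_congr rfl fun k _ => ?_
      module
    rw [h1, ← add_smul]
    congr 1
    rw [add_mul, mul_assoc q, Finset.sum_mul]
    congr 1
    · rw [mul_assoc, mul_comm (y i), hxy i, mul_one]
    · congr 1
      refine Finset.sum_congr rfl fun j _ => ?_
      rw [Finset.sum_mul]
      refine Finset.sum_congr rfl fun k _ => ?_
      linear_combination (t i j k * (2 - x j * y k - x k * y j)) * hxy i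
  -- the logarithmic derivative of the volume
  rw [Vol2_prod D (fun i => x i ^ d i) (fun i => - ((algebraMap ℂ A (d i : ℂ) * x i) • D (y i)))]
  · rw [Finset.sum_neg_distrib, hD3, neg_zero, smul_zero]
  · intro i
    change D (x i ^ d i) = x i ^ d i • (- ((algebraMap ℂ A (d i : ℂ) * x i) • D (y i)))
    rw [Derivation.leibniz_pow, map_natCast]
    rcases Nat.eq_zero_or_pos (d i) with h0 | h0
    · rw [h0]
      simp
    · obtain ⟨m, hm⟩ : ∃ m, d i = m + 1 := ⟨d i - 1, by omega⟩
      rw [hm, Nat.add_sub_cancel, hx2 i, ← Nat.cast_smul_eq_nsmul A]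
      rw [pow_succ]
      module

theorem vol_finite {T : ι → ι → ι → ℝ} (hT : Sym T) {γ : ι → ℝ} {d : ι → ℕ} :
    ((fun x : ι → ℂ => ∏ i, x i ^ d i) ''
      {x : ι → ℂ | Pl.Sys T γ (fun i => (d i : ℝ)) Finset.univ x 0}).Finite := by
  classical
  let p1 : ι → MvPolynomial (ι ⊕ ι) ℂ := fun i => X (Sum.inl i) * X (Sum.inr i) - 1
  let p2 : ι → MvPolynomial (ι ⊕ ι) ℂ := fun i => C (γ i : ℂ) * X (Sum.inr i) +
    C (1 / 4) * ∑ j, ∑ k, C (T i j k : ℂ) * (2 * X (Sum.inr i) +
      X (Sum.inl i) * X (Sum.inr j) * X (Sum.inr k) - X (Sum.inl j) * X (Sum.inr i) * X (Sum.inr k)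
      - X (Sum.inl k) * X (Sum.inr i) * X (Sum.inr j)) - C (d i : ℂ)
  let I : Ideal (MvPolynomial (ι ⊕ ι) ℂ) := Ideal.span (Set.range p1 ∪ Set.range p2)
  let f : MvPolynomial (ι ⊕ ι) ℂ := ∏ i, X (Sum.inl i) ^ d i
  have hto : ∀ x : ι → ℂ, Pl.Sys T γ (fun i => (d i : ℝ)) Finset.univ x 0 →
      (Sum.elim x fun i => (x i)⁻¹) ∈ zeroLocus ℂ I := by
    intro x hx
    rw [zeroLocus_span]
    rintro p (⟨i, rfl⟩ | ⟨i, rfl⟩)
    · simp only [p1, map_sub, map_mul, map_one, aeval_X, Sum.elim_inl, Sum.elim_inr]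
      rw [mul_inv_cancel₀ (hx i (Finset.mem_univ i)).1, sub_self]
    · have h1 := (hx i (Finset.mem_univ i)).2
      rw [mul_zero, add_zero] at h1
      simp only [p2, map_sub, map_add, map_mul, map_sum, map_ofNat, aeval_X, aeval_C,
        Sum.elim_inl, Sum.elim_inr]
      rw [sub_eq_zero]
      simpa [Pl.term] using h1
  have hf : KaehlerDifferential.D ℂ (MvPolynomial (ι ⊕ ι) ℂ ⧸ I) (Ideal.Quotient.mk I f) = 0 := by
    have h1 : Ideal.Quotient.mk I f = ∏ i, (Ideal.Quotient.mk I (X (Sum.inl i))) ^ d i := by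
      simp only [f, map_prod, map_pow]
    rw [h1]
    have halg : ∀ c : ℂ, algebraMap ℂ (MvPolynomial (ι ⊕ ι) ℂ ⧸ I) c =
        Ideal.Quotient.mk I (C c) := fun c => rfl
    refine vol_derivation (KaehlerDifferential.D ℂ (MvPolynomial (ι ⊕ ι) ℂ ⧸ I)) hT (γ := γ)
      (y := fun i => Ideal.Quotient.mk I (X (Sum.inr i))) ?_ ?_
    · intro i
      rw [← map_mul, ← map_one (Ideal.Quotient.mk I), Ideal.Quotient.eq]
      exact Ideal.subset_span (Or.inl ⟨i, rfl⟩)
    · intro i
      simp only [halg]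
      have h2 : Ideal.Quotient.mk I (p2 i) = 0 :=
        Ideal.Quotient.eq_zero_iff_mem.2 (Ideal.subset_span (Or.inr ⟨i, rfl⟩))
      simp only [p2, map_sub, map_add, map_mul, map_sum, map_ofNat] at h2
      exact sub_eq_zero.1 h2
  refine (finite_of_D I f hf).subset ?_
  rintro _ ⟨x, hx, rfl⟩
  refine ⟨_, hto x hx, ?_⟩
  simp [f]

end Pool.Agent.H.MP_deabf1_gt
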