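import Pool.Agent.H.MP_deabf1_gt.WJ
import Pool.Agent.H.MP_deabf1_gt.helper65.Vol2

/-!
From the local statement at infinity to finiteness.
-/

namespace Pool.Agent.H.MP_deabf1_gt

open Filter Topology MvPolynomial

variable {ι : Type} [Fintype ι] [DecidableEq ι]

/-- A coordinate that is bounded on the solutions has finitely many values. -/
theorem Glob_values {T : ι → ι → ι → ℝ} {γ d : ι → ℝ} (i : ι) {R : ℝ}
    (hR : ∀ x : ι → ℂ, Pl.Sys T γ d Finset.univ x 0 → ‖x i‖ ≤ R) :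
    ((fun x : ι → ℂ => x i) '' {x : ι → ℂ | Pl.Sys T γ d Finset.univ x 0}).Finite := by
  classical
  let p1 : ι → MvPolynomial (ι ⊕ ι) ℂ := fun i => X (Sum.inl i) * X (Sum.inr i) - 1
  let p2 : ι → MvPolynomial (ι ⊕ ι) ℂ := fun i => C (algebraMap ℝ ℂ (γ i)) * X (Sum.inr i) +
    C (1 / 4) * ∑ j, ∑ k, C (algebraMap ℝ ℂ (T i j k)) * (C 2 * X (Sum.inr i) +
      X (Sum.inl i) * X (Sum.inr j) * X (Sum.inr k) - X (Sum.inl j) * X (Sum.inr i) * X (Sum.inr k)
      - X (Sum.inl k) * X (Sum.inr i) * X (Sum.inr j)) - C (algebraMap ℝ ℂ (d i))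
  let I : Ideal (MvPolynomial (ι ⊕ ι) ℂ) := Ideal.span (Set.range p1 ∪ Set.range p2)
  have hI : ∀ z : ι ⊕ ι → ℂ, z ∈ zeroLocus ℂ I ↔
      (∀ i, z (Sum.inl i) * z (Sum.inr i) - 1 = 0) ∧ ∀ i,
      algebraMap ℝ ℂ (γ i) * z (Sum.inr i) + 1 / 4 * ∑ j, ∑ k, algebraMap ℝ ℂ (T i j k) *
        (2 * z (Sum.inr i) + z (Sum.inl i) * z (Sum.inr j) * z (Sum.inr k)
        - z (Sum.inl j) * z (Sum.inr i) * z (Sum.inr k)
        - z (Sum.inl k) * z (Sum.inr i) * z (Sum.inr j)) - algebraMap ℝ ℂ (d i) = 0 := by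
    intro z
    rw [zeroLocus_span]
    constructor
    · intro h
      refine ⟨fun i => ?_, fun i => ?_⟩
      · have h1 := h (p1 i) (Or.inl ⟨i, rfl⟩)
        simpa [p1] using h1
      · have h1 := h (p2 i) (Or.inr ⟨i, rfl⟩)
        simpa [p2] using h1
    · rintro ⟨h1, h2⟩ p (⟨i, rfl⟩ | ⟨i, rfl⟩)
      · simpa [p1] using h1 i
      · simpa [p2] using h2 i
  have hto : ∀ x : ι → ℂ, Pl.Sys T γ d Finset.univ x 0 →
      (Sum.elim x fun i => (x i)⁻¹) ∈ zeroLocus ℂ I := by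
    intro x hx
    rw [hI]
    refine ⟨fun i => ?_, fun i => ?_⟩
    · simp only [Sum.elim_inl, Sum.elim_inr]
      rw [mul_inv_cancel₀ (hx i (Finset.mem_univ i)).1, sub_self]
    · simp only [Sum.elim_inl, Sum.elim_inr]
      have h1 := (hx i (Finset.mem_univ i)).2
      rw [mul_zero, add_zero] at h1
      rw [sub_eq_zero]
      exact h1
  have hfrom : ∀ z ∈ zeroLocus ℂ I, Pl.Sys T γ d Finset.univ (fun i => z (Sum.inl i)) 0 := by
    intro z hz
    obtain ⟨h1, h2⟩ := (hI z).1 hz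
    have h3 : ∀ i, z (Sum.inl i) ≠ 0 := by
      intro i h0
      have h4 := h1 i
      rw [h0, zero_mul, zero_sub] at h4
      norm_num at h4
    have h4 : ∀ i, z (Sum.inr i) = (z (Sum.inl i))⁻¹ := fun i =>
      eq_inv_of_mul_eq_one_right (sub_eq_zero.1 (h1 i))
    intro i _
    refine ⟨h3 i, ?_⟩
    have h5 := h2 i
    simp only [h4] at h5
    rw [mul_zero, add_zero]
    exact sub_eq_zero.1 h5
  refine (finite_values I (Sum.inl i) (R := R) fun z hz => hR _ (hfrom z hz)).subset ?_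
  rintro _ ⟨x, hx, rfl⟩
  exact ⟨_, hto x hx, rfl⟩

/-- Along an ultrafilter a sequence in a finite set is eventually constant. -/
theorem Glob_const (F : Ultrafilter ℕ) {S : Set ℂ} (hS : S.Finite) {g : ℕ → ℂ}
    (hg : ∀ n, g n ∈ S) : ∃ c ∈ S, ∀ᶠ n in (F : Filter ℕ), g n = c := by
  have h1 : ∀ᶠ n in (F : Filter ℕ), ∃ c ∈ S, g n = c :=
    Eventually.of_forall fun n => ⟨g n, hg n, rfl⟩
  exact (Ultrafilter.eventually_exists_mem_iff hS).1 h1

theorem glob_finite {T : ι → ι → ι → ℝ} (hT : Sym T) {γ : ι → ℝ} {d : ι → ℕ}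
    (hloc : ∀ (F : Ultrafilter ℕ) (x : ι → Gm F),
      Pl.Sys T γ (fun i => (d i : ℝ)) Finset.univ x 0 →
      (∃ c : ℂ, c ≠ 0 ∧ (gmPl F).Lim (∏ i, x i ^ d i) c) →
      ∀ i, ¬ (gmPl F).B (x i) → ∃ j, (gmPl F).I (x j) ∧ d j < d i) :
    {x : ι → ℂ | Pl.Sys T γ (fun i => (d i : ℝ)) Finset.univ x 0}.Finite := by
  classical
  set V := {x : ι → ℂ | Pl.Sys T γ (fun i => (d i : ℝ)) Finset.univ x 0} with hV
  let N : Finset ι := Finset.univ.filter fun i => ¬ ((fun x : ι → ℂ => x i) '' V).Finite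
  have hNmem : ∀ j, j ∈ N ↔ ¬ ((fun x : ι → ℂ => x j) '' V).Finite := by
    intro j
    simp [N]
  rcases N.eq_empty_or_nonempty with hN | hN
  · have h1 : ∀ i, ((fun x : ι → ℂ => x i) '' V).Finite := by
      intro i
      by_contra h2
      have h3 := (hNmem i).2 h2
      rw [hN] at h3
      exact absurd h3 (Finset.notMem_empty i)
    refine (Set.Finite.pi' h1).subset ?_
    intro x hx i
    exact ⟨x, hx, rfl⟩
  · exfalso
    obtain ⟨i, hiN, hmin⟩ := N.exists_min_image d hN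
    have hub : ∀ n : ℕ, ∃ x : ι → ℂ, Pl.Sys T γ (fun i => (d i : ℝ)) Finset.univ x 0 ∧
        (n : ℝ) < ‖x i‖ := by
      intro n
      by_contra hne
      push Not at hne
      exact (hNmem i).1 hiN (Glob_values i (R := n) hne)
    choose xs hS hB using hub
    have hS0 : ∀ n j, xs n j ≠ 0 := fun n j => (hS n j (Finset.mem_univ j)).1
    let F : Ultrafilter ℕ := hyperfilter ℕ
    have hsys := sys_germ F hS
    -- the volume
    have hvol : ∃ c : ℂ, c ≠ 0 ∧
        (gmPl F).Lim (∏ j, (fun j => toGm F (fun n => xs n j)) j ^ d j) c := by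
      obtain ⟨c, -, hc⟩ := Glob_const F (vol_finite hT (γ := γ) (d := d))
        (g := fun n => ∏ j, xs n j ^ d j) (fun n => ⟨xs n, hS n, rfl⟩)
      refine ⟨c, ?_, fun n => ∏ j, xs n j ^ d j, ?_, ?_⟩
      · obtain ⟨n, hn⟩ := hc.exists
        rw [← hn]
        exact Finset.prod_ne_zero_iff.2 fun j _ => pow_ne_zero _ (hS0 n j)
      · have h1 : (fun n => ∏ j, xs n j ^ d j) = ∏ j, (fun n => xs n j) ^ d j := by
          funext n
          simp only [Finset.prod_apply, Pi.pow_apply]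
        rw [h1, map_prod]
        simp only [map_pow]
      · refine tendsto_const_nhds.congr' ?_
        filter_upwards [hc] with n hn
        exact hn.symm
    -- unbounded
    have hunb : ¬ (gmPl F).B ((fun j => toGm F (fun n => xs n j)) i) := by
      rintro ⟨c, g, hg, hc⟩
      have h1 : Tendsto (fun n => xs n i) F (𝓝 c) := hc.congr' (toGm_eq hg)
      have h2 : ∀ᶠ n in (F : Filter ℕ), ‖xs n i‖ < ‖c‖ + 1 :=
        h1.norm.eventually_lt_const (lt_add_one _)
      have h3 : ∀ᶠ n : ℕ in (F : Filter ℕ), ‖c‖ + 1 ≤ n := by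
        have h4 : ∀ᶠ n : ℕ in atTop, ‖c‖ + 1 ≤ n := by
          obtain ⟨M, hM⟩ := exists_nat_ge (‖c‖ + 1)
          filter_upwards [eventually_ge_atTop M] with n hn
          exact hM.trans (by exact_mod_cast hn)
        rw [← Nat.cofinite_eq_atTop] at h4
        exact (hyperfilter_le_cofinite (α := ℕ)) h4
      obtain ⟨n, hn1, hn2⟩ := (h2.and h3).exists
      exact absurd (hB n) (not_lt.2 ((hn1.le).trans hn2))
    obtain ⟨j, hj, hji⟩ := hloc F _ hsys hvol i hunb
    have hjN : j ∈ N := by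
      rw [hNmem]
      intro hfin
      obtain ⟨c, -, hc⟩ := Glob_const F hfin (g := fun n => xs n j)
        (fun n => ⟨xs n, hS n, rfl⟩)
      have h1 : (gmPl F).Lim (toGm F (fun n => xs n j)) c := by
        refine ⟨fun n => xs n j, rfl, ?_⟩
        refine tendsto_const_nhds.congr' ?_
        filter_upwards [hc] with n hn
        exact hn.symm
      have h2 : c = 0 := (gmPl F).uniq h1 hj
      obtain ⟨n, hn⟩ := hc.exists
      exact hS0 n j (by rw [← h2]; exact hn)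
    exact absurd hji (not_lt.2 (hmin j hjN))

end Pool.Agent.H.MP_deabf1_gt
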