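import Pool.Agent.H.MP_deabf1_gt.helper65.P121

/-!
Two comparable summands between a large and a small one: the surviving solutions.
-/

namespace Pool.Agent.H.MP_deabf1_gt.Four

variable {K : Type*} [Field K] [Algebra ℝ K] {P : Pl K} {κ : ℝ →+* K} {c : Cf}
  {u1 u2 u3 u4 : K}

theorem p121_ratios (S : Sys4 P κ c u1 u2 u3 u4) {y : ℂ} (hy : y ≠ 0)
    (h12 : c.b12 ≠ 0) (h13 : c.b13 ≠ 0) (h124 : c.c124 ≠ 0) (h134 : c.c134 ≠ 0)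
    (L31 : P.Lim (u3 / u1) 0) (Ly : P.Lim (u2 / u3) y) (L43 : P.Lim (u4 / u3) 0)
    (Lη : P.Lim (1 / u1) 0) (L4 : P.Lim u4 0) :
    c.b14 = 0 ∧ c.b12 * c.c124 = c.b13 * c.c134 ∧
      P.Lim (u2 / u3) ((-c.c134 / c.c124 : ℝ) : ℂ) ∧
      P.Lim (u1 * u4 / u2 ^ 2) ((c.c124 / c.b12 : ℝ) : ℂ) := by
  have hk := S.k
  have n1 := S.h1
  have n2 := S.h2
  have n3 := S.h3
  have n4 := S.h4
  have Ly' := P.lim_swap Ly hy
  have hb14 : c.b14 = 0 := by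
    have E : κ c.a4 * ((u3 / u1) ^ 2 * (u4 / u3) ^ 2)
        - 2 * κ c.b41 * ((u3 / u1) ^ 3 * (u4 / u3) ^ 3)
        - 2 * κ c.b42 * ((u3 / u1) ^ 2 * (u3 / u2) * (u4 / u3) ^ 3)
        - 2 * κ c.b43 * ((u3 / u1) ^ 2 * (u4 / u3) ^ 3) + κ c.b14
        + κ c.b24 * ((u3 / u1) ^ 2 * (u2 / u3) ^ 2) + κ c.b34 * ((u3 / u1) ^ 2)
        - κ c.c124 * ((u3 / u1) * (u3 / u2) * (u4 / u3) ^ 2)
        - κ c.c124 * ((u3 / u1) ^ 3 * (u2 / u3) * (u4 / u3) ^ 2)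
        + κ c.c124 * ((u3 / u1) * (u2 / u3)) - κ c.c134 * ((u3 / u1) * (u4 / u3) ^ 2)
        - κ c.c134 * ((u3 / u1) ^ 3 * (u4 / u3) ^ 2) + κ c.c134 * (u3 / u1)
        - κ c.c234 * ((u3 / u1) ^ 2 * (u2 / u3) * (u4 / u3) ^ 2)
        - κ c.c234 * ((u3 / u1) ^ 2 * (u3 / u2) * (u4 / u3) ^ 2)
        + κ c.c234 * ((u3 / u1) ^ 2 * (u2 / u3))
        - κ c.d4 * ((u3 / u1) * (u4 / u3) * (1 / u1)) = 0 := by
      linear_combination (norm := (field_simp; ring)) (u4 / u1 ^ 2) * S.e4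
    have h := P.eq0 E (by
      apply_rules (maxDepth := 500) [P.add, P.mul, P.lim_sub, P.lim_neg, P.lim_pow, P.lim_ofNat])
    simpa using h
  have e4 := S.e4
  rw [hb14, map_zero] at e4
  have hy1 : (c.c124 : ℂ) * y + c.c134 = 0 := by
    have E : κ c.a4 * ((u3 / u1) * (u4 / u3) ^ 2) - 2 * κ c.b41 * ((u3 / u1) ^ 2 * (u4 / u3) ^ 3)
        - 2 * κ c.b42 * ((u3 / u1) * (u3 / u2) * (u4 / u3) ^ 3)
        - 2 * κ c.b43 * ((u3 / u1) * (u4 / u3) ^ 3) + κ c.b24 * ((u3 / u1) * (u2 / u3) ^ 2)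
        + κ c.b34 * (u3 / u1) - κ c.c124 * ((u3 / u2) * (u4 / u3) ^ 2)
        - κ c.c124 * ((u3 / u1) ^ 2 * (u2 / u3) * (u4 / u3) ^ 2) + κ c.c124 * (u2 / u3)
        - κ c.c134 * ((u4 / u3) ^ 2) - κ c.c134 * ((u3 / u1) ^ 2 * (u4 / u3) ^ 2) + κ c.c134
        - κ c.c234 * ((u3 / u1) * (u2 / u3) * (u4 / u3) ^ 2)
        - κ c.c234 * ((u3 / u1) * (u3 / u2) * (u4 / u3) ^ 2) + κ c.c234 * ((u3 / u1) * (u2 / u3))
        - κ c.d4 * ((u4 / u3) * (1 / u1)) = 0 := by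
      linear_combination (norm := (field_simp; ring)) (u4 / (u1 * u3)) * e4
    have h := P.eq0 E (by
      apply_rules (maxDepth := 500) [P.add, P.mul, P.lim_sub, P.lim_neg, P.lim_pow, P.lim_ofNat])
    simpa using h
  have hy2 : y = ((-c.c134 / c.c124 : ℝ) : ℂ) := Pl.real_of_mul h124 hy1
  have k12 : κ c.b12 ≠ 0 := (map_ne_zero κ).2 h12
  have c12 : (c.b12 : ℂ) ≠ 0 := by exact_mod_cast h12
  -- the quantity `χ`
  have Bχ : P.B (u1 * u4 / u2 ^ 2) := by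
    -- the coefficient of `χ` in the second equation
    have E : (κ c.b12 + κ c.b32 * (u3 / u1) ^ 2 + κ c.b42 * ((u3 / u1) ^ 2 * (u4 / u3) ^ 2)
        + κ c.c123 * (u3 / u1) + κ c.c124 * ((u3 / u1) * (u4 / u3))
        + κ c.c234 * ((u3 / u1) ^ 2 * (u4 / u3))) * (u1 * u4 / u2 ^ 2)
        = -(κ c.a2 * ((u3 / u1) * (u4 / u3)))
        + 2 * κ c.b21 * ((u3 / u1) ^ 2 * (u2 / u3) * (u4 / u3))
        + 2 * κ c.b23 * ((u3 / u1) * (u2 / u3) * (u4 / u3))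
        + 2 * κ c.b24 * ((u3 / u1) * (u2 / u3)) + κ c.c123 * (u4 / u3)
        + κ c.c123 * ((u3 / u1) ^ 2 * (u4 / u3))
        + κ c.c124 + κ c.c124 * ((u3 / u1) ^ 2 * (u4 / u3) ^ 2) + κ c.c234 * (u3 / u1)
        + κ c.c234 * ((u3 / u1) * (u4 / u3) ^ 2)
        + κ c.d2 * ((u3 / u2) * (u4 / u3) * (1 / u1)) := by
      linear_combination (norm := (field_simp; ring)) (u4 / (u1 * u2)) * S.e2
    have L1 : P.Lim (κ c.b12 + κ c.b32 * (u3 / u1) ^ 2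
        + κ c.b42 * ((u3 / u1) ^ 2 * (u4 / u3) ^ 2) + κ c.c123 * (u3 / u1)
        + κ c.c124 * ((u3 / u1) * (u4 / u3)) + κ c.c234 * ((u3 / u1) ^ 2 * (u4 / u3)))
        c.b12 := by
      refine P.lim_val (by
        apply_rules (maxDepth := 500) [P.add, P.mul, P.lim_sub, P.lim_neg, P.lim_pow,
          P.lim_ofNat]) ?_
      simp
    refine Pl.B.of_mul ?_ (Pl.lim_ne L1 c12)
    rw [E]
    exact ⟨_, by
      apply_rules (maxDepth := 500) [P.add, P.mul, P.lim_sub, P.lim_neg, P.lim_pow,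
        P.lim_ofNat]⟩
  obtain ⟨x, Lχ⟩ := Bχ
  have hχ : x = ((c.c124 / c.b12 : ℝ) : ℂ) := by
    have E : κ c.a2 * ((u3 / u1) * (u4 / u3))
        - 2 * κ c.b21 * ((u3 / u1) ^ 2 * (u2 / u3) * (u4 / u3))
        - 2 * κ c.b23 * ((u3 / u1) * (u2 / u3) * (u4 / u3))
        - 2 * κ c.b24 * ((u3 / u1) * (u2 / u3)) + κ c.b12 * (u1 * u4 / u2 ^ 2)
        + κ c.b32 * ((u3 / u1) ^ 2 * (u1 * u4 / u2 ^ 2))
        + κ c.b42 * ((u3 / u1) ^ 2 * (u4 / u3) ^ 2 * (u1 * u4 / u2 ^ 2)) - κ c.c123 * (u4 / u3)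
        - κ c.c123 * ((u3 / u1) ^ 2 * (u4 / u3)) + κ c.c123 * ((u3 / u1) * (u1 * u4 / u2 ^ 2))
        - κ c.c124 - κ c.c124 * ((u3 / u1) ^ 2 * (u4 / u3) ^ 2)
        + κ c.c124 * ((u3 / u1) * (u4 / u3) * (u1 * u4 / u2 ^ 2)) - κ c.c234 * (u3 / u1)
        - κ c.c234 * ((u3 / u1) * (u4 / u3) ^ 2)
        + κ c.c234 * ((u3 / u1) ^ 2 * (u4 / u3) * (u1 * u4 / u2 ^ 2))
        - κ c.d2 * ((u3 / u2) * (u4 / u3) * (1 / u1)) = 0 := by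
      linear_combination (norm := (field_simp; ring)) (u4 / (u1 * u2)) * S.e2
    have h := P.eq0 E (by
      apply_rules (maxDepth := 500) [P.add, P.mul, P.lim_sub, P.lim_neg, P.lim_pow, P.lim_ofNat])
    have h1 : (c.b12 : ℂ) * x + ((-c.c124 : ℝ) : ℂ) = 0 := by
      push_cast
      rw [← sub_eq_add_neg]
      simpa using h
    have h2 := Pl.real_of_mul h12 h1
    rw [neg_neg] at h2
    exact h2
  have hE3 : (c.b13 : ℂ) * (y ^ 2 * x) - c.c134 = 0 := by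
    have E : κ c.a3 * ((u3 / u1) * (u4 / u3)) - 2 * κ c.b31 * ((u3 / u1) ^ 2 * (u4 / u3))
        - 2 * κ c.b32 * ((u3 / u1) * (u3 / u2) * (u4 / u3)) - 2 * κ c.b34 * (u3 / u1)
        + κ c.b13 * ((u2 / u3) ^ 2 * (u1 * u4 / u2 ^ 2))
        + κ c.b23 * ((u3 / u1) * (u2 / u3) ^ 2 * (u4 / u3))
        + κ c.b43 * ((u3 / u1) * (u4 / u3) ^ 3) - κ c.c123 * ((u3 / u2) * (u4 / u3))
        - κ c.c123 * ((u3 / u1) ^ 2 * (u2 / u3) * (u4 / u3)) + κ c.c123 * ((u2 / u3) * (u4 / u3))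
        - κ c.c134 - κ c.c134 * ((u3 / u1) ^ 2 * (u4 / u3) ^ 2) + κ c.c134 * ((u4 / u3) ^ 2)
        - κ c.c234 * ((u3 / u1) * (u2 / u3))
        - κ c.c234 * ((u3 / u1) * (u3 / u2) * (u4 / u3) ^ 2)
        + κ c.c234 * ((u3 / u1) * (u2 / u3) * (u4 / u3) ^ 2)
        - κ c.d3 * ((u4 / u3) * (1 / u1)) = 0 := by
      linear_combination (norm := (field_simp; ring)) (u4 / (u1 * u3)) * S.e3
    have h := P.eq0 E (by
      apply_rules (maxDepth := 500) [P.add, P.mul, P.lim_sub, P.lim_neg, P.lim_pow, P.lim_ofNat])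
    simpa using h
  refine ⟨hb14, ?_, hy2 ▸ Ly, hχ ▸ Lχ⟩
  rw [hy2, hχ] at hE3
  have h1 : ((c.b13 * ((-c.c134 / c.c124) ^ 2 * (c.c124 / c.b12)) - c.c134 : ℝ) : ℂ) = 0 := by
    push_cast
    push_cast at hE3
    exact hE3
  have h2 : c.b13 * ((-c.c134 / c.c124) ^ 2 * (c.c124 / c.b12)) - c.c134 = 0 := by
    exact_mod_cast h1
  field_simp at h2
  have h3 : c.c134 * (c.b13 * c.c134 - c.b12 * c.c124) = 0 := by linear_combination h2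
  rcases mul_eq_zero.1 h3 with h4 | h4
  · exact absurd h4 h134
  · linarith

/-- The middle summands are not infinitesimal. -/
theorem p121_not_I (S : Sys4 P κ c u1 u2 u3 u4) (hc : c.Pos)
    (h12 : c.b12 ≠ 0) (h124 : c.c124 ≠ 0) (h134 : c.c134 ≠ 0) (hb14 : c.b14 = 0)
    (L31 : P.Lim (u3 / u1) 0) (Ly : P.Lim (u2 / u3) ((-c.c134 / c.c124 : ℝ) : ℂ))
    (Lχ : P.Lim (u1 * u4 / u2 ^ 2) ((c.c124 / c.b12 : ℝ) : ℂ)) (L43 : P.Lim (u4 / u3) 0)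
    (Lη : P.Lim (1 / u1) 0) (L4 : P.Lim u4 0) : ¬ P.I u3 := by
  intro L3
  change P.Lim u3 0 at L3
  have := charZero_of_real K
  have hk := S.k
  have n1 := S.h1
  have n2 := S.h2
  have n3 := S.h3
  have n4 := S.h4
  have e1 := S.e1
  have e4 := S.e4
  rw [hb14, map_zero] at e1 e4
  obtain ⟨y0, hy0⟩ : ∃ y0 : ℝ, y0 = -c.c134 / c.c124 := ⟨_, rfl⟩
  obtain ⟨x0, hx0⟩ : ∃ x0 : ℝ, x0 = c.c124 / c.b12 := ⟨_, rfl⟩
  rw [← hy0] at Ly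
  rw [← hx0] at Lχ
  have hy00 : y0 ≠ 0 := by
    rw [hy0]
    exact div_ne_zero (neg_ne_zero.2 h134) h124
  have hx00 : x0 ≠ 0 := by
    rw [hx0]
    exact div_ne_zero h124 h12
  have cy0 : (y0 : ℂ) ≠ 0 := by exact_mod_cast hy00
  have cx0 : (x0 : ℂ) ≠ 0 := by exact_mod_cast hx00
  have ky0 : κ y0 ≠ 0 := (map_ne_zero κ).2 hy00
  have kx0 : κ x0 ≠ 0 := (map_ne_zero κ).2 hx00
  have k124 : κ c.c124 ≠ 0 := (map_ne_zero κ).2 h124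
  have k12 : κ c.b12 ≠ 0 := (map_ne_zero κ).2 h12
  have c124 : (c.c124 : ℂ) ≠ 0 := by exact_mod_cast h124
  have c12 : (c.b12 : ℂ) ≠ 0 := by exact_mod_cast h12
  have Ly' := P.lim_swap Ly cy0
  have L2 : P.Lim u2 0 := by
    refine P.lim_val (P.lim_eq (b := u2 / u3 * u3) ?_ (P.mul Ly L3)) (mul_zero _)
    field_simp
  have k134 : κ c.c134 = -κ c.c124 * κ y0 := by
    have h : c.c134 = -c.c124 * y0 := by
      rw [hy0]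
      field_simp
    rw [h, map_mul, map_neg]
  have kb12 : κ c.c124 = κ c.b12 * κ x0 := by
    have h : c.c124 = c.b12 * x0 := by
      rw [hx0]
      field_simp
    rw [h, map_mul]
  -- the first deviation
  obtain ⟨δ1, hδ1⟩ : ∃ δ1, δ1 = u1 * (u2 / u3 - κ y0) := ⟨_, rfl⟩
  have Lδ1 : P.Lim δ1 0 := by
    have E : δ1 = (1 / κ c.c124) * u2 * (-(κ c.a4 * ((u3 / u2) * (u4 / u3) ^ 2))
        + 2 * κ c.b41 * ((u3 / u1) * (u3 / u2) * (u4 / u3) ^ 3)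
        + 2 * κ c.b42 * ((u3 / u1) * (u4 / u3) ^ 2 * (u1 * u4 / u2 ^ 2))
        + 2 * κ c.b43 * ((u3 / u2) * (u4 / u3) ^ 3) - κ c.b24 * (u2 / u3) - κ c.b34 * (u3 / u2)
        + κ c.c124 * ((u4 / u3) * (u1 * u4 / u2 ^ 2)) + κ c.c124 * ((u3 / u1) * (u4 / u3) ^ 2)
        + κ c.c134 * ((u2 / u3) * (u4 / u3) * (u1 * u4 / u2 ^ 2))
        + κ c.c134 * ((u3 / u1) * (u3 / u2) * (u4 / u3) ^ 2)
        + κ c.c234 * ((u4 / u3) ^ 2) + κ c.c234 * ((u3 / u1) * (u4 / u3) * (u1 * u4 / u2 ^ 2))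
        - κ c.c234 + κ c.d4 * ((u2 / u3) * (1 / u1) * (u1 * u4 / u2 ^ 2))) := by
      have E1 : (u1 / u2) * (κ c.c124 * (u2 / u3) + κ c.c134)
          = -(κ c.a4 * ((u3 / u2) * (u4 / u3) ^ 2))
          + 2 * κ c.b41 * ((u3 / u1) * (u3 / u2) * (u4 / u3) ^ 3)
          + 2 * κ c.b42 * ((u3 / u1) * (u4 / u3) ^ 2 * (u1 * u4 / u2 ^ 2))
          + 2 * κ c.b43 * ((u3 / u2) * (u4 / u3) ^ 3) - κ c.b24 * (u2 / u3) - κ c.b34 * (u3 / u2)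
          + κ c.c124 * ((u4 / u3) * (u1 * u4 / u2 ^ 2)) + κ c.c124 * ((u3 / u1) * (u4 / u3) ^ 2)
          + κ c.c134 * ((u2 / u3) * (u4 / u3) * (u1 * u4 / u2 ^ 2))
          + κ c.c134 * ((u3 / u1) * (u3 / u2) * (u4 / u3) ^ 2)
          + κ c.c234 * ((u4 / u3) ^ 2) + κ c.c234 * ((u3 / u1) * (u4 / u3) * (u1 * u4 / u2 ^ 2))
          - κ c.c234 + κ c.d4 * ((u2 / u3) * (1 / u1) * (u1 * u4 / u2 ^ 2)) := by
        linear_combination (norm := (field_simp; ring)) (u4 / (u2 * u3)) * e4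
      rw [← E1, hδ1, k134]
      field_simp
      ring
    have L1 := P.lim_div P.lim_one (hk c.c124) c124
    refine P.lim_val (P.lim_eq E (by
      apply_rules (maxDepth := 500) [P.add, P.mul, P.lim_sub, P.lim_neg, P.lim_pow,
        P.lim_ofNat])) ?_
    simp
  -- the second deviation
  obtain ⟨δ2, hδ2⟩ : ∃ δ2, δ2 = u1 * (u3 / u2 - (κ y0)⁻¹) := ⟨_, rfl⟩
  have Ly0i : P.Lim (κ y0)⁻¹ (y0 : ℂ)⁻¹ := P.lim_inv (hk y0) cy0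
  have Lx0i : P.Lim (κ x0)⁻¹ (x0 : ℂ)⁻¹ := P.lim_inv (hk x0) cx0
  have Lδ2 : P.Lim δ2 0 := by
    have E : δ2 = -(δ1 * (u3 / u2) * (κ y0)⁻¹) := by
      rw [hδ1, hδ2]
      field_simp
      ring
    refine P.lim_val (P.lim_eq E (P.lim_neg (P.mul (P.mul Lδ1 Ly') Ly0i))) ?_
    simp
  -- the third deviation
  obtain ⟨δ3, hδ3⟩ : ∃ δ3, δ3 = u1 * (u2 ^ 2 / (u1 * u4) - (κ x0)⁻¹) := ⟨_, rfl⟩
  have Lχ' : P.Lim (u2 ^ 2 / (u1 * u4)) (x0 : ℂ)⁻¹ := P.lim_swap Lχ cx0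
  have Lδ3 : P.Lim δ3 0 := by
    have E : δ3 = -((1 / κ c.b12) * u2 * (-(κ c.a2 * ((u3 / u2) * (u4 / u3)))
        + 2 * κ c.b21 * ((u3 / u1) * (u4 / u3))
        + 2 * κ c.b23 * (u4 / u3) + 2 * κ c.b24
        - κ c.b32 * ((u3 / u1) * (u3 / u2) * (u1 * u4 / u2 ^ 2))
        - κ c.b42 * ((u3 / u1) * (u3 / u2) * (u4 / u3) ^ 2 * (u1 * u4 / u2 ^ 2))
        + κ c.c123 * ((u2 / u3) * (u1 * u4 / u2 ^ 2))
        + κ c.c123 * ((u3 / u1) * (u3 / u2) * (u4 / u3))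
        - κ c.c123 * ((u3 / u2) * (u1 * u4 / u2 ^ 2))
        + κ c.c124 * ((u3 / u1) * (u3 / u2) * (u4 / u3) ^ 2)
        - κ c.c124 * ((u3 / u2) * (u4 / u3) * (u1 * u4 / u2 ^ 2)) + κ c.c234 * (u3 / u2)
        + κ c.c234 * ((u3 / u2) * (u4 / u3) ^ 2)
        - κ c.c234 * ((u3 / u1) * (u3 / u2) * (u4 / u3) * (u1 * u4 / u2 ^ 2))
        + κ c.d2 * ((1 / u1) * (u1 * u4 / u2 ^ 2))) * (u2 ^ 2 / (u1 * u4)) * (κ x0)⁻¹) := by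
      have E1 : (u1 / u2) * (κ c.b12 * (u1 * u4 / u2 ^ 2) - κ c.c124)
          = -(κ c.a2 * ((u3 / u2) * (u4 / u3)))
          + 2 * κ c.b21 * ((u3 / u1) * (u4 / u3))
          + 2 * κ c.b23 * (u4 / u3) + 2 * κ c.b24
          - κ c.b32 * ((u3 / u1) * (u3 / u2) * (u1 * u4 / u2 ^ 2))
          - κ c.b42 * ((u3 / u1) * (u3 / u2) * (u4 / u3) ^ 2 * (u1 * u4 / u2 ^ 2))
          + κ c.c123 * ((u2 / u3) * (u1 * u4 / u2 ^ 2))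
          + κ c.c123 * ((u3 / u1) * (u3 / u2) * (u4 / u3))
          - κ c.c123 * ((u3 / u2) * (u1 * u4 / u2 ^ 2))
          + κ c.c124 * ((u3 / u1) * (u3 / u2) * (u4 / u3) ^ 2)
          - κ c.c124 * ((u3 / u2) * (u4 / u3) * (u1 * u4 / u2 ^ 2)) + κ c.c234 * (u3 / u2)
          + κ c.c234 * ((u3 / u2) * (u4 / u3) ^ 2)
          - κ c.c234 * ((u3 / u1) * (u3 / u2) * (u4 / u3) * (u1 * u4 / u2 ^ 2))
          + κ c.d2 * ((1 / u1) * (u1 * u4 / u2 ^ 2)) := by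
        linear_combination (norm := (field_simp; ring)) (u4 / u2 ^ 2) * S.e2
      rw [← E1, hδ3, kb12]
      field_simp
      ring
    have L1 := P.lim_div P.lim_one (hk c.b12) c12
    refine P.lim_val (P.lim_eq E (by
      apply_rules (maxDepth := 500) [P.add, P.mul, P.lim_sub, P.lim_neg, P.lim_pow,
        P.lim_ofNat])) ?_
    simp
  -- the combination
  obtain ⟨Ψ, hΨ⟩ : ∃ Ψ : ℝ, Ψ = c.a1 - c.c123 * (y0 + y0⁻¹)
      - x0⁻¹ * (c.b24 + c.c234 * y0⁻¹ + c.b34 * y0⁻¹ ^ 2) := ⟨_, rfl⟩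
  have kΨ : κ Ψ = κ c.a1 - κ c.c123 * (κ y0 + (κ y0)⁻¹)
      - (κ x0)⁻¹ * (κ c.b24 + κ c.c234 * (κ y0)⁻¹ + κ c.b34 * (κ y0)⁻¹ ^ 2) := by
    rw [hΨ]
    simp only [map_sub, map_add, map_mul, map_inv₀, map_pow]
  have E : κ Ψ * u1 = κ c.d1 + 2 * κ c.d2 + 2 * κ c.d3 + 3 * κ c.d4
      + κ c.c123 * (δ1 + δ2)
      + (δ3 * (κ c.b24 + κ c.c234 * (u3 / u2) + κ c.b34 * (u3 / u2) ^ 2)
        + (κ x0)⁻¹ * (κ c.c234 * δ2 + κ c.b34 * δ2 * ((u3 / u2) + (κ y0)⁻¹)))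
      + 3 * κ c.b21 * ((u3 / u1) * (u2 / u3) * u2)
      + 3 * κ c.b31 * ((u3 / u1) * u3) + 5 * κ c.b41 * ((u3 / u1) * (u4 / u3) * u4)
      + 3 * κ c.c123 * ((u3 / u1) * u2) + 2 * κ c.c124 * ((u1 * u4 / u2 ^ 2) * u2)
      + 4 * κ c.c124 * ((u3 / u1) * (u2 / u3) * u4)
      + 2 * κ c.c134 * ((u2 / u3) * (u1 * u4 / u2 ^ 2) * u2) + 4 * κ c.c134 * ((u3 / u1) * u4)
      - 2 * κ c.a2 * u2 + 2 * κ c.b23 * ((u2 / u3) * u2)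
      + 2 * κ c.b32 * ((u3 / u2) * u3) + 4 * κ c.b42 * ((u3 / u2) * (u4 / u3) * u4)
      + 3 * κ c.c234 * ((u2 / u3) * u4)
      + 3 * κ c.c234 * ((u3 / u2) * u4) - 2 * κ c.a3 * u3
      + 4 * κ c.b43 * ((u4 / u3) * u4) - 3 * κ c.a4 * u4 := by
    rw [kΨ, hδ1, hδ2, hδ3]
    linear_combination (norm := (field_simp; ring)) e1 + 2 * S.e2 + 2 * S.e3 + 3 * e4
  have L : P.Lim (κ Ψ * u1) ((c.d1 + 2 * c.d2 + 2 * c.d3 + 3 * c.d4 : ℝ) : ℂ) := by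
    refine P.lim_val (P.lim_eq E (by
      apply_rules (maxDepth := 500) [P.add, P.mul, P.lim_sub, P.lim_neg, P.lim_pow,
        P.lim_ofNat])) ?_
    push_cast
    simp
  have hd : (0 : ℝ) < c.d1 + 2 * c.d2 + 2 * c.d3 + 3 * c.d4 := by
    have := hc.d1
    have := hc.d2
    have := hc.d3
    have := hc.d4
    linarith
  have h0 : P.Lim (κ Ψ * u1 * (1 / u1)) Ψ := by
    refine P.lim_eq ?_ (hk Ψ)
    field_simp
  have h1 := P.uniq h0 (P.mul L Lη)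
  rw [mul_zero] at h1
  have h2 : Ψ = 0 := by exact_mod_cast h1
  rw [h2, map_zero, zero_mul] at L
  have h3 := P.uniq L P.lim_zero
  have h4 : c.d1 + 2 * c.d2 + 2 * c.d3 + 3 * c.d4 = 0 := by exact_mod_cast h3
  linarith

theorem p121_general (S : Sys4 P κ c u1 u2 u3 u4) (hc : c.Pos) {y : ℂ} (hy : y ≠ 0)
    (L31 : P.Lim (u3 / u1) 0) (Ly : P.Lim (u2 / u3) y) (L43 : P.Lim (u4 / u3) 0)
    (Lη : P.Lim (1 / u1) 0) (L4 : P.Lim u4 0) :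
    c.b12 ≠ 0 ∧ c.b13 ≠ 0 ∧ c.c124 ≠ 0 ∧ c.c134 ≠ 0 ∧ c.b12 * c.c124 = c.b13 * c.c134 ∧
      ¬ P.I u3 ∧ ∃ χ : ℂ, χ ≠ 0 ∧ P.Lim (u1 * u4 / u2 ^ 2) χ := by
  by_cases h : c.b12 ≠ 0 ∧ c.b13 ≠ 0 ∧ c.c124 ≠ 0 ∧ c.c134 ≠ 0
  · obtain ⟨h12, h13, h124, h134⟩ := h
    obtain ⟨hb14, h5, Ly1, Lχ⟩ := p121_ratios S hy h12 h13 h124 h134 L31 Ly L43 Lη L4
    refine ⟨h12, h13, h124, h134, h5, p121_not_I S hc h12 h124 h134 hb14 L31 Ly1 Lχ L43 Lη L4,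
      _, ?_, Lχ⟩
    exact_mod_cast div_ne_zero h124 h12
  · exfalso
    refine p121 S hc ?_ hy L31 Ly L43 Lη L4
    intro h12 h13 h124
    by_contra h134
    exact h ⟨h12, h13, h124, h134⟩

end Pool.Agent.H.MP_deabf1_gt.Four
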