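import Pool.Agent.H.MP_deabf1_gt.helper65.P211f

/-!
Two comparable large summands and two incomparable smaller ones: the general statement.
-/

namespace Pool.Agent.H.MP_deabf1_gt.Four

variable {K : Type*} [Field K] [Algebra ℝ K] {P : Pl K} {κ : ℝ →+* K} {c : Cf}
  {u1 u2 u3 u4 : K}

theorem p211_general (S : Sys4 P κ c u1 u2 u3 u4) (hc : c.Pos) {r : ℂ} (hr : r ≠ 0)
    (Lr : P.Lim (u1 / u2) r) (L32 : P.Lim (u3 / u2) 0) (L43 : P.Lim (u4 / u3) 0)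
    (Lη : P.Lim (1 / u2) 0) (L4 : P.Lim u4 0) :
    ¬ P.I u3 ∧ ((∃ θ : ℂ, θ ≠ 0 ∧ P.Lim (u3 ^ 2 / (u2 * u4)) θ) ∨
      ((c.c123 ≠ 0 ∧ (c.b13 ≠ 0 ∨ c.b23 ≠ 0) ∧ c.b14 ≠ 0 ∧ c.b24 ≠ 0 ∧ c.c124 ≠ 0 ∧
        c.c124 ^ 2 = 4 * c.b14 * c.b24) ∧
        ∃ τ : ℂ, τ ≠ 0 ∧ P.Lim (u2 ^ 2 * u4 / u3 ^ 2) τ)) := by
  obtain ⟨h1, h2, g3, s3, s4, z1, z2, z3, F⟩ := f211_of S hr Lr L32 L43 Lη L4
  by_cases hn : c.b14 ≠ 0 ∨ c.c124 ≠ 0 ∨ c.b24 ≠ 0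
  · have F' : ∃ (h1 h2 g3 s3 s4 : K) (z1 z2 z3 r : ℂ),
        F211 P κ c u1 u2 u3 u4 h1 h2 g3 s3 s4 z1 z2 z3 r :=
      ⟨h1, h2, g3, s3, s4, z1, z2, z3, r, F⟩
    obtain ⟨ρ, hρ, Lρ, hb14, hc124, hb24⟩ := p211_double F' hc hn
    have hν := p211_nu F' Lρ hc124 hb24
    obtain ⟨φ, hφ⟩ : ∃ φ : ℝ, φ = 2 * c.b13 * ρ + c.c123 := ⟨_, rfl⟩
    obtain ⟨h1', h2', g3', s3', s4', z, z1', z2', z3', G⟩ := g211_of F' hρ Lρ hb14 hc124 hb24 hν hφ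
    by_cases hφ0 : φ = 0
    · exact (g211_double G hc hφ0).elim
    · obtain ⟨h3, h4⟩ := g211_simple G hc hφ0
      have hρ2 : 0 < ρ ^ 2 := by nlinarith
      have h123 : c.c123 ≠ 0 := by
        intro h
        rw [h, zero_mul, add_zero] at hν
        have h5 := mul_nonneg hc.b13 hρ2.le
        have h6 := hc.b23
        have h7 : c.b13 * ρ ^ 2 = 0 := by linarith
        have h8 : c.b13 = 0 := by
          rcases mul_eq_zero.1 h7 with h9 | h9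
          · exact h9
          · exact absurd h9 hρ2.ne'
        apply hφ0
        rw [hφ, h, h8]
        ring
      have hb3 : c.b13 ≠ 0 ∨ c.b23 ≠ 0 := by
        by_contra h
        push Not at h
        rw [h.1, h.2, zero_mul, zero_add, add_zero] at hν
        rcases mul_eq_zero.1 hν with h5 | h5
        · exact h123 h5
        · exact hρ.ne h5
      refine ⟨h3, h4.imp id fun h => ⟨⟨h123, hb3, hb14.ne', ?_, ?_, ?_⟩, h⟩⟩
      · rw [hb24]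
        exact mul_ne_zero hb14.ne' hρ2.ne'
      · rw [hc124]
        exact mul_ne_zero (mul_ne_zero (by norm_num) hb14.ne') hρ.ne
      · rw [hc124, hb24]
        ring
  · push Not at hn
    by_cases hl : c.c134 ≠ 0 ∨ c.c234 ≠ 0
    · have h := p211_case2a ⟨h1, h2, g3, s3, s4, z1, z2, z3, r, F⟩ hc hn.1 hn.2.1 hn.2.2 hl
      exact ⟨h.1, Or.inl h.2⟩
    · push Not at hl
      exact (p211_case2b ⟨h1, h2, g3, s3, s4, z1, z2, z3, r, F⟩ hc hn.1 hn.2.1 hn.2.2 hl.1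
        hl.2).elim

end Pool.Agent.H.MP_deabf1_gt.Four
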