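import Pool.Agent.H.MP_deabf1_gt.helper65.Loc2
import Pool.Agent.H.MP_deabf1_gt.helper65.P211g
import Pool.Agent.H.MP_deabf1_gt.helper65.P22x
import Pool.Agent.H.MP_deabf1_gt.helper65.P121x

/-!
The ordered solutions at infinity: the general statement.
-/

namespace Pool.Agent.H.MP_deabf1_gt.Four

variable {K : Type*} [Field K] [Algebra ℝ K] {P : Pl K} {κ : ℝ →+* K} {c : Cf}
  {u1 u2 u3 u4 : K}

theorem sorted4_general (S : Sys4 P κ c u1 u2 u3 u4) (hc : c.Pos) (κ' : ℂ →+* K)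
    (hκ' : ∀ z : ℂ, P.Lim (κ' z) z) (hκκ : ∀ r : ℝ, κ' (r : ℂ) = κ r)
    (B21 : P.B (u2 / u1)) (B32 : P.B (u3 / u2)) (B43 : P.B (u4 / u3))
    (Lη : P.Lim (1 / u1) 0) (L4 : P.Lim u4 0) :
    ((∃ r : ℂ, r ≠ 0 ∧ P.Lim (u1 / u2) r) ∧ ¬ P.I u3 ∧
      ((∃ θ : ℂ, θ ≠ 0 ∧ P.Lim (u3 ^ 2 / (u2 * u4)) θ) ∨
      ((c.c123 ≠ 0 ∧ (c.b13 ≠ 0 ∨ c.b23 ≠ 0) ∧ c.b14 ≠ 0 ∧ c.b24 ≠ 0 ∧ c.c124 ≠ 0 ∧
        c.c124 ^ 2 = 4 * c.b14 * c.b24) ∧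
        ∃ τ : ℂ, τ ≠ 0 ∧ P.Lim (u2 ^ 2 * u4 / u3 ^ 2) τ))) ∨
    ((∃ r : ℂ, r ≠ 0 ∧ P.Lim (u1 / u2) r) ∧ (∃ s : ℂ, s ≠ 0 ∧ P.Lim (u3 / u4) s) ∧
      (c.b13 ≠ 0 ∧ c.b14 ≠ 0 ∧ c.c123 ≠ 0 ∧ c.c124 ≠ 0 ∧ c.b13 * c.c124 = c.b14 * c.c123 ∧
      c.c124 ^ 2 = 4 * c.b14 * c.b24 ∧
      ((∃ θ : ℂ, θ ≠ 0 ∧ P.Lim (u2 * u4) θ) ∨ ∃ θ : ℂ, θ ≠ 0 ∧ P.Lim (u2 * u4 ^ 2) θ))) ∨
    ((∃ y : ℂ, y ≠ 0 ∧ P.Lim (u2 / u3) y) ∧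
      (c.b12 ≠ 0 ∧ c.b13 ≠ 0 ∧ c.c124 ≠ 0 ∧ c.c134 ≠ 0 ∧ c.b12 * c.c124 = c.b13 * c.c134 ∧
      ¬ P.I u3 ∧ ∃ χ : ℂ, χ ≠ 0 ∧ P.Lim (u1 * u4 / u2 ^ 2) χ)) := by
  have n1 := S.h1
  have n2 := S.h2
  have n3 := S.h3
  have n4 := S.h4
  by_cases I21 : P.I (u2 / u1)
  · by_cases I32 : P.I (u3 / u2)
    · exfalso
      by_cases I43 : P.I (u4 / u3)
      · exact p1111 S hc I21 I32 I43 Lη L4
      · obtain ⟨z, hz, -, Lz⟩ := lim_of_not_I B43 I43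
        refine p112 S hc (inv_ne_zero hz) I21 ?_ Lz Lη L4
        have h := B43.mulI I32
        rwa [div_mul_div_cancel₀ n3] at h
    · obtain ⟨y, hy, Ly, Ly'⟩ := lim_of_not_I B32 I32
      by_cases I43 : P.I (u4 / u3)
      · right
        right
        refine ⟨⟨_, inv_ne_zero hy, Ly'⟩, p121_general S hc (inv_ne_zero hy) ?_ Ly' I43 Lη L4⟩
        have h := B32.mulI I21
        rwa [div_mul_div_cancel₀ n2] at h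
      · exfalso
        obtain ⟨z, hz, Lz, -⟩ := lim_of_not_I B43 I43
        refine p13 S hc I21 hy (mul_ne_zero hz hy) Ly ?_ Lη L4
        have h := P.mul Lz Ly
        rwa [div_mul_div_cancel₀ n3] at h
  · obtain ⟨x, hx, Lx, Lx'⟩ := lim_of_not_I B21 I21
    have Lη2 : P.Lim (1 / u2) 0 := by
      have h := P.mul Lη Lx'
      rw [zero_mul, div_mul_div_cancel₀ n1] at h
      exact h
    by_cases I32 : P.I (u3 / u2)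
    · by_cases I43 : P.I (u4 / u3)
      · left
        exact ⟨⟨_, inv_ne_zero hx, Lx'⟩, p211_general S hc (inv_ne_zero hx) Lx' I32 I43 Lη2 L4⟩
      · right
        left
        obtain ⟨z, hz, -, Lz⟩ := lim_of_not_I B43 I43
        exact ⟨⟨_, inv_ne_zero hx, Lx'⟩, ⟨_, inv_ne_zero hz, Lz⟩,
          p22_general S hc κ' hκ' hκκ (inv_ne_zero hx) (inv_ne_zero hz) Lx' Lz Lη2 L4⟩
    · exfalso
      obtain ⟨y, hy, Ly, Ly'⟩ := lim_of_not_I B32 I32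
      have L31 := P.mul Ly Lx
      rw [div_mul_div_cancel₀ n2] at L31
      by_cases I43 : P.I (u4 / u3)
      · exact p31 S hc hx (mul_ne_zero hy hx) Lx L31 Lη L4
      · obtain ⟨z, hz, -, Lz'⟩ := lim_of_not_I B43 I43
        have h := P.mul (P.mul (P.mul Lz' L4) (P.mul Ly' Lx')) Lη
        have h1 : u3 / u4 * u4 * (u2 / u3 * (u1 / u2)) * (1 / u1) = 1 := by
          field_simp
        rw [h1] at h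
        have h2 := P.uniq h P.lim_one
        simp at h2

/-- The product of powers of comparable elements. -/
theorem lim_pow_swap {a b : K} {z : ℂ} (h : P.Lim (a / b) z) (hz : z ≠ 0) (n : ℕ) :
    P.Lim ((b / a) ^ n) (z⁻¹ ^ n) := P.lim_pow (P.lim_swap h hz) n

theorem not_B_pow {a : K} (h : P.Lim (1 / a) 0) (ha : a ≠ 0) {n : ℕ} (hn : n ≠ 0) :
    ¬ P.B (a ^ n) := by
  intro h1
  have h2 := h1.mulI (Pl.I.pow h hn)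
  rw [← mul_pow, mul_one_div_cancel ha, one_pow] at h2
  exact Pl.one_not_I h2

/-- The inequality in the second case of the first pattern. -/
theorem vol_ineq2 {d1 d2 d3 d4 : ℕ} (n1 : u1 ≠ 0) (n2 : u2 ≠ 0) (n3 : u3 ≠ 0)
    (h12 : ∃ r : ℂ, r ≠ 0 ∧ P.Lim (u1 / u2) r) (h3 : ¬ P.I u3)
    (hτ : ∃ τ : ℂ, τ ≠ 0 ∧ P.Lim (u2 ^ 2 * u4 / u3 ^ 2) τ) (Lη : P.Lim (1 / u1) 0)
    (hv : P.B (u1 ^ d1 * u2 ^ d2 * u3 ^ d3 * u4 ^ d4)) : d1 + d2 ≤ 2 * d4 := by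
  by_contra hlt
  push Not at hlt
  obtain ⟨r, hr, Lr⟩ := h12
  obtain ⟨τ, hτ, Lτ⟩ := hτ
  have Lr' := P.lim_swap Lr hr
  have Lτ' := P.lim_swap Lτ hτ
  have Lη2 : P.Lim (1 / u2) 0 := by
    have h := P.mul Lη Lr
    rw [zero_mul, div_mul_div_cancel₀ n1] at h
    exact h
  obtain ⟨m, hm⟩ : ∃ m, d1 + d2 = 2 * d4 + (m + 1) := ⟨d1 + d2 - 2 * d4 - 1, by omega⟩
  by_cases n4 : u4 = 0
  · rw [n4, mul_zero, zero_div] at Lτ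
    exact hτ (P.uniq Lτ P.lim_zero)
  have h1 : P.B (u3 ^ (d3 + 2 * d4) * u2 ^ (m + 1)) := by
    have h := (hv.mul ((Pl.B.pow ⟨_, Lr'⟩ d1))).mul (Pl.B.pow ⟨_, Lτ'⟩ d4)
    have h2 : u1 ^ d1 * u2 ^ d2 * u3 ^ d3 * u4 ^ d4 * (u2 / u1) ^ d1
        * (u3 ^ 2 / (u2 ^ 2 * u4)) ^ d4 = u3 ^ (d3 + 2 * d4) * u2 ^ (m + 1) := by
      have h3 : u1 ^ d1 * (u2 / u1) ^ d1 = u2 ^ d1 := by
        rw [← mul_pow, mul_div_cancel₀ _ n1]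
      have h4 : u4 ^ d4 * (u3 ^ 2 / (u2 ^ 2 * u4)) ^ d4 * u2 ^ (2 * d4) = u3 ^ (2 * d4) := by
        rw [pow_mul, pow_mul, ← mul_pow, ← mul_pow]
        congr 1
        field_simp
      have h5 : u2 ^ d1 * u2 ^ d2 = u2 ^ (2 * d4) * u2 ^ (m + 1) := by
        rw [← pow_add, hm, pow_add]
      calc u1 ^ d1 * u2 ^ d2 * u3 ^ d3 * u4 ^ d4 * (u2 / u1) ^ d1
            * (u3 ^ 2 / (u2 ^ 2 * u4)) ^ d4
          = (u1 ^ d1 * (u2 / u1) ^ d1) * u2 ^ d2 * u3 ^ d3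
            * (u4 ^ d4 * (u3 ^ 2 / (u2 ^ 2 * u4)) ^ d4) := by ring
        _ = (u2 ^ d1 * u2 ^ d2) * u3 ^ d3 * (u4 ^ d4 * (u3 ^ 2 / (u2 ^ 2 * u4)) ^ d4) := by
          rw [h3]
        _ = u3 ^ d3 * (u4 ^ d4 * (u3 ^ 2 / (u2 ^ 2 * u4)) ^ d4 * u2 ^ (2 * d4))
            * u2 ^ (m + 1) := by
          rw [h5]
          ring
        _ = u3 ^ (d3 + 2 * d4) * u2 ^ (m + 1) := by
          rw [h4, pow_add u3]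
    rw [h2] at h
    exact h
  exact not_B_pow Lη2 n2 (Nat.succ_ne_zero m) (h1.of_mul fun h => h3 (I_of_pow h))

/-- The equality for two pairs. -/
theorem vol_pairs {d1 d2 d3 d4 n : ℕ} (hn : n ≠ 0) (n1 : u1 ≠ 0) (n2 : u2 ≠ 0) (n3 : u3 ≠ 0)
    (n4 : u4 ≠ 0) (h12 : ∃ r : ℂ, r ≠ 0 ∧ P.Lim (u1 / u2) r)
    (h34 : ∃ s : ℂ, s ≠ 0 ∧ P.Lim (u3 / u4) s)
    (hθ : ∃ θ : ℂ, θ ≠ 0 ∧ P.Lim (u2 * u4 ^ n) θ) (L4 : P.Lim u4 0)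
    (hv : ∃ v : ℂ, v ≠ 0 ∧ P.Lim (u1 ^ d1 * u2 ^ d2 * u3 ^ d3 * u4 ^ d4) v) :
    d3 + d4 = n * (d1 + d2) := by
  obtain ⟨r, hr, Lr⟩ := h12
  obtain ⟨s, hs, Ls⟩ := h34
  obtain ⟨θ, hθ, Lθ⟩ := hθ
  obtain ⟨v, hv, Lv⟩ := hv
  -- the product in terms of `u4`
  have key : u1 ^ d1 * u2 ^ d2 * u3 ^ d3 * u4 ^ d4 * u4 ^ (n * (d1 + d2))
      = (u1 / u2) ^ d1 * (u3 / u4) ^ d3 * (u2 * u4 ^ n) ^ (d1 + d2) * u4 ^ (d3 + d4) := by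
    rw [div_pow, div_pow, mul_pow, ← pow_mul]
    field_simp
    ring
  have L := P.mul (P.mul (P.lim_pow Lr d1) (P.lim_pow Ls d3)) (P.lim_pow Lθ (d1 + d2))
  have hL : r ^ d1 * s ^ d3 * θ ^ (d1 + d2) ≠ 0 :=
    mul_ne_zero (mul_ne_zero (pow_ne_zero _ hr) (pow_ne_zero _ hs)) (pow_ne_zero _ hθ)
  rcases lt_trichotomy (d3 + d4) (n * (d1 + d2)) with h | h | h
  · exfalso
    obtain ⟨m, hm⟩ : ∃ m, n * (d1 + d2) = (d3 + d4) + (m + 1) :=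
      ⟨n * (d1 + d2) - (d3 + d4) - 1, by omega⟩
    rw [hm, pow_add _ (d3 + d4), ← mul_assoc, mul_right_comm] at key
    have key' := mul_right_cancel₀ (pow_ne_zero (d3 + d4) n4) key
    have h1 := P.mul Lv (P.lim_pow L4 (m + 1))
    rw [key', zero_pow (Nat.succ_ne_zero m), mul_zero] at h1
    exact hL (P.uniq L h1)
  · exact h
  · exfalso
    obtain ⟨m, hm⟩ : ∃ m, d3 + d4 = n * (d1 + d2) + (m + 1) :=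
      ⟨d3 + d4 - n * (d1 + d2) - 1, by omega⟩
    rw [hm, pow_add _ (n * (d1 + d2)), ← mul_assoc, mul_right_comm _ (u4 ^ (n * (d1 + d2)))] at key
    have key' := mul_right_cancel₀ (pow_ne_zero (n * (d1 + d2)) n4) key
    have h1 := P.mul L (P.lim_pow L4 (m + 1))
    rw [← key', zero_pow (Nat.succ_ne_zero m), mul_zero] at h1
    exact hv (P.uniq Lv h1)

/-- The inequality for the third pattern. -/
theorem vol_mid {d1 d2 d3 d4 : ℕ} (n1 : u1 ≠ 0) (n2 : u2 ≠ 0) (n3 : u3 ≠ 0) (n4 : u4 ≠ 0)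
    (h23 : ∃ y : ℂ, y ≠ 0 ∧ P.Lim (u2 / u3) y) (h3 : ¬ P.I u3)
    (hχ : ∃ χ : ℂ, χ ≠ 0 ∧ P.Lim (u1 * u4 / u2 ^ 2) χ) (Lη : P.Lim (1 / u1) 0)
    (hv : P.B (u1 ^ d1 * u2 ^ d2 * u3 ^ d3 * u4 ^ d4)) : d1 ≤ d4 := by
  by_contra hlt
  push Not at hlt
  obtain ⟨y, hy, Ly⟩ := h23
  obtain ⟨χ, hχ, Lχ⟩ := hχ
  obtain ⟨m, hm⟩ : ∃ m, d1 = d4 + (m + 1) := ⟨d1 - d4 - 1, by omega⟩
  have Lχ' := P.lim_swap Lχ hχ
  have Ly' := P.lim_swap Ly hy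
  have h1 : P.B (u3 ^ (d2 + d3 + 2 * d4) * u1 ^ (m + 1)) := by
    have h := (hv.mul ((Pl.B.pow ⟨_, Ly'⟩ (d2 + 2 * d4)))).mul (Pl.B.pow ⟨_, Lχ'⟩ d4)
    have h2 : u1 ^ d1 * u2 ^ d2 * u3 ^ d3 * u4 ^ d4 * (u3 / u2) ^ (d2 + 2 * d4)
        * (u2 ^ 2 / (u1 * u4)) ^ d4 = u3 ^ (d2 + d3 + 2 * d4) * u1 ^ (m + 1) := by
      rw [hm, div_pow, div_pow, mul_pow, ← pow_mul]
      field_simp
      ring
    rw [h2] at h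
    exact h
  exact not_B_pow Lη n1 (Nat.succ_ne_zero m) (h1.of_mul fun h => h3 (I_of_pow h))

end Pool.Agent.H.MP_deabf1_gt.Four
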