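import Pool.Agent.H.MP_deabf1_gt.helper65.Loc3
import Pool.Agent.H.MP_deabf1_gt.helper65.SortedX

/-!
The local statement at infinity for four summands, without a condition on the configuration.
-/

namespace Pool.Agent.H.MP_deabf1_gt.Four

open Finset (univ)

/-- The excluded coincidences. -/
def NoCoinc (d : Fin 4 → ℕ) (T : Fin 4 → Fin 4 → Fin 4 → ℝ) : Prop :=
  ∀ i a b c, i ≠ a → i ≠ b → i ≠ c → a ≠ b → a ≠ c → b ≠ c →
    T i i a ≠ 0 → T i i b ≠ 0 → T i a c ≠ 0 → T i b c ≠ 0 →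
      ¬ (d i = d c ∧ T i i a * T i a c = T i i b * T i b c) ∧
      ¬ ((d a + d b = d i + d c ∨ d a + d b = 2 * (d i + d c)) ∧
        T i i a * T i b c = T i i b * T i a c ∧ T i b c ^ 2 = T i i b * T c c b) ∧
      ¬ (d i = d b ∧ d i = d c ∧ T i b c ^ 2 = T i i b * T c c b)

variable {K : Type*} [Field K] [Algebra ℝ K]

theorem local4x (P : Pl K) (κ' : ℂ →+* K) (hκ' : ∀ z : ℂ, P.Lim (κ' z) z)
    (hκκ : ∀ r : ℝ, κ' (r : ℂ) = algebraMap ℝ K r) {T : Fin 4 → Fin 4 → Fin 4 → ℝ} (hT : Sym T)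
    (hT0 : ∀ i j k, 0 ≤ T i j k) {γ : Fin 4 → ℝ} (hγ : ∀ i, 0 ≤ γ i) {d : Fin 4 → ℕ}
    (hd : ∀ i, 0 < d i) (hD : NoCoinc d T) {x : Fin 4 → K}
    (hS : Pl.Sys T γ (fun i => (d i : ℝ)) univ x 0)
    (hv : ∃ c : ℂ, c ≠ 0 ∧ P.Lim (∏ i, x i ^ d i) c) (i : Fin 4) (hi : ¬ P.B (x i)) :
    ∃ j, P.I (x j) ∧ d j < d i := by
  have hx : ∀ i, x i ≠ 0 := fun i => (hS i (Finset.mem_univ i)).1
  obtain ⟨a, b, c, e, hab, hac, hae, hbc, hbe, hce, B1, B2, B3⟩ :=
    exists_sorted (fun i j => P.B (x i / x j)) (fun i j => by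
      rcases Pl.B_total P (x i) (x j) with h | h
      · right
        rwa [← div_eq_mul_inv] at h
      · left
        rwa [← div_eq_mul_inv] at h) (fun i j k h1 h2 => by
      have h := h1.mul h2
      rwa [div_mul_div_cancel₀ (hx j)] at h)
  -- products
  have hdiv : ∀ {y z : K}, z ≠ 0 → P.B (y / z) → P.B z → P.B y := by
    intro y z hz h1 h2
    have h := h1.mul h2
    rwa [div_mul_cancel₀ _ hz] at h
  have hdivI : ∀ {y z : K}, z ≠ 0 → P.B (y / z) → P.I z → P.I y := by
    intro y z hz h1 h2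
    have h := h1.mulI h2
    rwa [div_mul_cancel₀ _ hz] at h
  have hcov : i = a ∨ i = b ∨ i = c ∨ i = e := by
    have h : ∀ a b c e i : Fin 4, a ≠ b → a ≠ c → a ≠ e → b ≠ c → b ≠ e → c ≠ e →
        i = a ∨ i = b ∨ i = c ∨ i = e := by decide
    exact h a b c e i hab hac hae hbc hbe hce
  have he : ¬ P.B (x e) := by
    intro h
    have h1 := hdiv (hx e) B3 h
    have h2 := hdiv (hx c) B2 h1
    have h3 := hdiv (hx b) B1 h2
    rcases hcov with h4 | h4 | h4 | h4
    · exact hi (h4 ▸ h3)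
    · exact hi (h4 ▸ h2)
    · exact hi (h4 ▸ h1)
    · exact hi (h4 ▸ h)
  -- the volume
  have hprod : ∏ i, x i ^ d i = x a ^ d a * x b ^ d b * x c ^ d c * x e ^ d e := by
    have h : ∀ a b c e : Fin 4, a ≠ b → a ≠ c → a ≠ e → b ≠ c → b ≠ e → c ≠ e →
        (Finset.univ : Finset (Fin 4)) = {a, b, c, e} := by decide
    rw [h a b c e hab hac hae hbc hbe hce, Finset.prod_insert, Finset.prod_insert,
      Finset.prod_insert, Finset.prod_singleton]
    · simp only [mul_assoc]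
    · simpa using hce
    · simp only [Finset.mem_insert, Finset.mem_singleton, not_or]
      exact ⟨hbc, hbe⟩
    · simp only [Finset.mem_insert, Finset.mem_singleton, not_or]
      exact ⟨hab, hac, hae⟩
  rw [hprod] at hv
  obtain ⟨v, hv0, hv⟩ := hv
  have hIa : P.I (x a) := by
    by_contra ha
    have hb : ¬ P.I (x b) := fun h => ha (hdivI (hx b) B1 h)
    have hc : ¬ P.I (x c) := fun h => hb (hdivI (hx c) B2 h)
    have h1 : ¬ P.I (x a ^ d a * x b ^ d b * x c ^ d c) :=
      not_I_mul (not_I_mul (fun h => ha (I_of_pow h)) (fun h => hb (I_of_pow h)))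
        (fun h => hc (I_of_pow h))
    exact he (B_of_pow (hd e).ne' (Pl.B.of_mul ⟨v, hv⟩ h1))
  have hS4 := sys4_of P hT hS hab hac hae hbc hbe hce
  have hpos := cf_pos hT0 hγ hd a b c e
  have hdual : ∀ i j, P.B (x i / x j) → P.B ((x j)⁻¹ / (x i)⁻¹) := by
    intro i j h
    rwa [inv_div_inv]
  have hη : P.Lim (1 / (x a)⁻¹) 0 := by
    rw [one_div, inv_inv]
    exact hIa
  have hvL : P.Lim ((x a)⁻¹ ^ d a * (x b)⁻¹ ^ d b * (x c)⁻¹ ^ d c * (x e)⁻¹ ^ d e) v⁻¹ := by
    have h := P.lim_inv hv hv0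
    simp only [mul_inv] at h
    simp only [inv_pow]
    exact h
  have na := inv_ne_zero (hx a)
  have nb := inv_ne_zero (hx b)
  have nc := inv_ne_zero (hx c)
  have ne := inv_ne_zero (hx e)
  have hde := hd e
  have hda := hd a
  have hdb := hd b
  rcases sorted4_general hS4 hpos κ' hκ' hκκ (hdual _ _ B1) (hdual _ _ B2) (hdual _ _ B3) hη
    (Pl.inv_I he) with ⟨h12, h3, hθ⟩ | ⟨h12, h34, hb13, hb14, hc123, hc124, hE1, hE2, hθ⟩ |
    ⟨h23, hb12, hb13, hc124, hc134, hE, h3, hχ⟩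
  · -- the first pattern
    have hie : i = e := by
      rcases hcov with h4 | h4 | h4 | h4
      · exact absurd (h4 ▸ hIa.B) hi
      · exfalso
        apply hi
        rw [h4]
        obtain ⟨r, -, Lr⟩ := h12
        rw [inv_div_inv] at Lr
        exact hdiv (hx a) ⟨r, Lr⟩ hIa.B
      · exfalso
        apply hi
        rw [h4]
        have h5 := Pl.inv_B h3
        rwa [inv_inv] at h5
      · exact h4
    have hIb : P.I (x b) := by
      obtain ⟨r, -, Lr⟩ := h12
      rw [inv_div_inv] at Lr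
      exact hdivI (hx a) ⟨r, Lr⟩ hIa
    rw [hie]
    rcases hθ with hθ | ⟨⟨hc123, hb, hb14, hb24, hc124, hE⟩, hτ⟩
    · have hvol : d a + d b ≤ d e :=
        vol_ineq (P := P) (d3 := d c) na nb nc ne h12 h3 hθ hη ⟨_, hvL⟩
      exact ⟨a, hIa, by omega⟩
    · have hvol : d a + d b ≤ 2 * d e :=
        vol_ineq2 (P := P) (d3 := d c) na nb nc h12 h3 hτ hη ⟨_, hvL⟩
      by_cases h5 : d a < d e
      · exact ⟨a, hIa, h5⟩
      by_cases h6 : d b < d e
      · exact ⟨b, hIb, h6⟩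
      exfalso
      have h7 : d a = d e := by omega
      have h8 : d b = d e := by omega
      simp only [cf, ne_eq, div_eq_zero_iff, OfNat.ofNat_ne_zero, or_false] at hc123 hb hb14 hb24 hc124 hE
      rcases hb with hb13 | hb23
      · refine (hD a c e b hac hae hab hce hbc.symm hbe.symm hb13 hb14 (by rwa [hT.2 a c b])
          (by rwa [hT.2 a e b])).2.2 ⟨h7, h7.trans h8.symm, ?_⟩
        rw [hT.2 a e b]
        linear_combination 4 * hE
      · refine (hD b c e a hbc hbe hab.symm hce hac.symm hae.symm hb23 hb24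
          (by rwa [hT.2 b c a, hT.1 b a c]) (by rwa [hT.2 b e a, hT.1 b a e])).2.2
          ⟨h8, h8.trans h7.symm, ?_⟩
        rw [hT.2 b e a, hT.1 b a e]
        linear_combination 4 * hE
  · -- the second pattern
    exfalso
    simp only [cf, ne_eq, div_eq_zero_iff, OfNat.ofNat_ne_zero, or_false] at hb13 hb14 hc123 hc124 hE1 hE2
    have hvol : d c + d e = d a + d b ∨ d c + d e = 2 * (d a + d b) := by
      rcases hθ with hθ | hθ
      · left
        have h := vol_pairs (P := P) one_ne_zero na nb nc ne h12 h34 (by simpa using hθ)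
          (Pl.inv_I he) ⟨_, inv_ne_zero hv0, hvL⟩
        rwa [one_mul] at h
      · right
        exact vol_pairs (P := P) two_ne_zero na nb nc ne h12 h34 hθ
          (Pl.inv_I he) ⟨_, inv_ne_zero hv0, hvL⟩
    refine (hD a c e b hac hae hab hce hbc.symm hbe.symm hb13 hb14 (by rwa [hT.2 a c b])
          (by rwa [hT.2 a e b])).2.1 ⟨hvol, ?_, ?_⟩
    · rw [hT.2 a e b, hT.2 a c b]
      linear_combination 8 * hE1
    · rw [hT.2 a e b]
      linear_combination 4 * hE2
  · -- the third pattern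
    simp only [cf, ne_eq, div_eq_zero_iff, OfNat.ofNat_ne_zero, or_false] at hb12 hb13 hc124 hc134 hE
    have hBc : P.B (x c) := by
      have h5 := Pl.inv_B h3
      rwa [inv_inv] at h5
    have hie : i = e := by
      rcases hcov with h4 | h4 | h4 | h4
      · exact absurd (h4 ▸ hIa.B) hi
      · exfalso
        apply hi
        rw [h4]
        obtain ⟨y, hy, Ly⟩ := h23
        have Ly' := P.lim_swap Ly hy
        rw [inv_div_inv] at Ly'
        exact hdiv (hx c) ⟨_, Ly'⟩ hBc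
      · exfalso
        apply hi
        rw [h4]
        exact hBc
      · exact h4
    rw [hie]
    have hvol : d a ≤ d e :=
      vol_mid (P := P) (d2 := d b) (d3 := d c) na nb nc ne h23 h3 hχ hη ⟨_, hvL⟩
    refine ⟨a, hIa, lt_of_le_of_ne hvol ?_⟩
    intro h7
    refine (hD a b c e hab hac hae hbc hbe hce hb12 hb13 hc124 hc134).1 ⟨h7, ?_⟩
    linear_combination 8 * hE

end Pool.Agent.H.MP_deabf1_gt.Four
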