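import Pool.Agent.H.MP_deabf1_gt.WL
import Pool.Agent.H.MP_deabf1_gt.helper65.Glob
import Pool.Agent.H.MP_deabf1_gt.helper65.Loc3x

/-!
Finiteness of the number of invariant Einstein metrics for four summands.
-/

namespace Pool.Agent.H.MP_deabf1_gt

open LinearMap (BilinForm)
open Filter Topology

/-- The complex constants in the field of germs. -/
noncomputable def gmC (F : Ultrafilter ℕ) : ℂ →+* Gm F := (toGm F).comp (Pi.constRingHom ℕ ℂ)

/-- From complex solutions to positive solutions. -/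
theorem eqL_finite_of {ι : Type} [Fintype ι] [DecidableEq ι] {T : ι → ι → ι → ℝ} {γ d : ι → ℝ}
    (h1 : {x : ι → ℂ | Pl.Sys T γ d Finset.univ x 0}.Finite) :
    {u : ι → ℝ | (∀ i, 0 < u i) ∧ ∀ i, eqL T γ u i = d i}.Finite := by
  let φ : (ι → ℝ) → ι → ℂ := fun u i => ((u i : ℂ))⁻¹
  have hφ : Set.InjOn φ {u : ι → ℝ | (∀ i, 0 < u i) ∧ ∀ i, eqL T γ u i = d i} := by
    intro u _ v _ huv
    funext i
    have h2 : ((u i : ℂ))⁻¹ = ((v i : ℂ))⁻¹ := congrFun huv i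
    exact_mod_cast inv_injective h2
  refine Set.Finite.of_finite_image (h1.subset ?_) hφ
  rintro _ ⟨u, ⟨hu, hE⟩, rfl⟩
  intro i _
  have hu0 : ∀ j, (u j : ℂ) ≠ 0 := fun j => by exact_mod_cast (hu j).ne'
  refine ⟨inv_ne_zero (hu0 i), ?_⟩
  rw [mul_zero, add_zero]
  have h2 : ((eqL T γ u i : ℝ) : ℂ) = ((d i : ℝ) : ℂ) := by rw [hE i]
  rw [show algebraMap ℝ ℂ (d i) = ((d i : ℝ) : ℂ) from rfl, ← h2]
  unfold eqL
  push_cast
  simp only [φ, inv_inv]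
  congr 1
  congr 1
  apply Finset.sum_congr rfl
  intro j _
  apply Finset.sum_congr rfl
  intro k _
  unfold Pl.term
  rw [show algebraMap ℝ ℂ (T i j k) = ((T i j k : ℝ) : ℂ) from rfl]
  simp only [inv_inv]
  have h3 := hu0 i
  have h4 := hu0 j
  have h5 := hu0 k
  field_simp

/-- The Einstein equations for four summands have finitely many positive solutions. -/
theorem eqL_finite4 {T : Fin 4 → Fin 4 → Fin 4 → ℝ} (hT : Sym T) (hT0 : ∀ i j k, 0 ≤ T i j k)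
    {γ : Fin 4 → ℝ} (hγ : ∀ i, 0 ≤ γ i) {d : Fin 4 → ℕ} (hd : ∀ i, 0 < d i)
    (hD : Four.NoCoinc d T) :
    {u : Fin 4 → ℝ | (∀ i, 0 < u i) ∧ ∀ i, eqL T γ u i = (d i : ℝ)}.Finite := by
  apply eqL_finite_of (d := fun i => (d i : ℝ))
  apply glob_finite hT
  intro F x hS hv i hi
  exact Four.local4x (gmPl F) (gmC F) (fun z => ⟨fun _ => z, rfl, tendsto_const_nhds⟩)
    (fun r => rfl) hT hT0 hγ hd hD hS hv i hi

namespace HomData

variable {𝔤 K : Type*} [LieRing 𝔤] [LieAlgebra ℝ 𝔤] [Group K] (D : HomData 𝔤 K)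
  [Module.Finite ℝ 𝔤]

/-- Finiteness of the number of invariant Einstein metrics for four summands. -/
theorem finite_einstein_four {m : Fin 4 → Submodule ℝ 𝔤} (hm : D.Decomp m)
    (hflat : ∃ x ∈ D.𝔪, ∃ y : 𝔤, ⁅x, y⁆ ≠ 0) {d : Fin 4 → ℕ} {f : ∀ i, Fin (d i) → 𝔤}
    (hf : ∀ i, IsONB D.Q (m i) (f i)) (hD : Four.NoCoinc d (D.TT f)) :
    ∃ F : Finset (BilinForm ℝ 𝔤), ∀ (g : BilinForm ℝ 𝔤) (lam : ℝ), D.IsMetric g →
      D.IsEinstein g lam → ∃ c : ℝ, 0 < c ∧ c • g ∈ F := by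
  classical
  obtain ⟨z, hz⟩ := onb_exists (g := D.Q) D.Q_symm D.𝔨.toSubmodule (fun x _ hx => D.Q_pos x hx)
  have hQo : ∀ i j, i ≠ j → ∀ v ∈ m i, ∀ w ∈ m j, D.Q v w = 0 := fun i j hij =>
    D.schur_off (hm.irr i) (hm.irr j) (hm.inequiv i j hij) D.Q_Ad
  have hd : ∀ i, 0 < d i := by
    intro i
    rw [Nat.pos_iff_ne_zero]
    intro h0
    apply (hm.irr i).ne
    rw [Submodule.eq_bot_iff]
    intro x hx
    have : IsEmpty (Fin (d i)) := by
      rw [h0]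
      infer_instance
    rw [(hf i).exp x hx]
    exact Fintype.sum_empty _
  have hU := eqL_finite4 (D.TT_sym f) (D.TT_nonneg f) (D.GG_nonneg f z) hd hD
  set U := {u : Fin 4 → ℝ | (∀ i, 0 < u i) ∧ ∀ i, eqL (D.TT f) (D.GG f z) u i =
    (d i : ℝ)} with hUdef
  have hfin : (⋃ u ∈ U, {g : BilinForm ℝ 𝔤 | D.IsMetric g ∧
      ∀ i, ∀ v ∈ m i, ∀ w ∈ m i, g v w = 1 / u i * D.Q v w}).Finite := by
    refine Set.Finite.biUnion hU fun u _ => Set.Subsingleton.finite ?_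
    rintro g ⟨hg, h1⟩ g' ⟨hg', h2⟩
    exact D.metric_ext hm hg hg' h1 h2
  refine ⟨hfin.toFinset, ?_⟩
  intro g lam hg hE
  obtain ⟨x, hx, hgd, hgo⟩ := D.metric_diag hm hg
  have hlam : 0 < lam := by
    by_contra h0
    have hEq := D.einstein_eq hm.sup hf hz hQo hg hx hgd hgo hE
    have h1 := lam_pos (D.TT_sym f) (D.TT_nonneg f) (D.GG_nonneg f z)
      (fun i => one_div_pos.2 (hx i)) (not_lt.1 h0) hEq
    obtain ⟨y, hy, y', hyy⟩ := hflat
    exact hyy (D.central_of hm.sup hf hz hQo (fun i => (h1 i).2) (fun i => (h1 i).1) y hy y')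
  refine ⟨lam, hlam, ?_⟩
  obtain ⟨hg', hE'⟩ := D.einstein_smul hlam hg hE
  have hx' : ∀ i, 0 < lam * x i := fun i => mul_pos hlam (hx i)
  have hgd' : ∀ i, ∀ v ∈ m i, ∀ w ∈ m i, (lam • g) v w = lam * x i * D.Q v w := by
    intro i v hv w hw
    rw [LinearMap.smul_apply, LinearMap.smul_apply, smul_eq_mul, hgd i v hv w hw, mul_assoc]
  have hgo' : ∀ i j, i ≠ j → ∀ v ∈ m i, ∀ w ∈ m j, (lam • g) v w = 0 := by
    intro i j hij v hv w hw
    rw [LinearMap.smul_apply, LinearMap.smul_apply, smul_eq_mul, hgo i j hij v hv w hw, mul_zero]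
  have hEq := D.einstein_eq hm.sup hf hz hQo hg' hx' hgd' hgo' hE'
  rw [Set.Finite.mem_toFinset]
  refine Set.mem_iUnion₂.2 ⟨fun j => 1 / (lam * x j), ?_, hg', ?_⟩
  · refine ⟨fun i => one_div_pos.2 (hx' i), fun i => ?_⟩
    rw [hEq i, div_self hlam.ne', mul_one]
  · intro i v hv w hw
    rw [hgd' i v hv w hw, one_div_one_div]

end HomData

end Pool.Agent.H.MP_deabf1_gt
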