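import Pool.Agent.H.MP_deabf1_gt.helper65.Loc3
import Pool.Agent.H.MP_deabf1_gt.helper65.Ends
import Pool.Agent.H.MP_deabf1_gt.helper94.Ends

/-!
The complete local theorem at infinity for four summands.
-/

namespace Pool.Agent.H.MP_deabf1_gt.Four

open Finset (univ)

variable {K : Type*} [Field K] [Algebra ℝ K]

/-- The product over all indices. -/
theorem prod4 {M : Type*} [CommMonoid M] (f : Fin 4 → M) {a b c e : Fin 4} (hab : a ≠ b)
    (hac : a ≠ c) (hae : a ≠ e) (hbc : b ≠ c) (hbe : b ≠ e) (hce : c ≠ e) :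
    ∏ i, f i = f a * f b * f c * f e := by
  have h : ∀ a b c e : Fin 4, a ≠ b → a ≠ c → a ≠ e → b ≠ c → b ≠ e → c ≠ e →
      (Finset.univ : Finset (Fin 4)) = {a, b, c, e} := by decide
  rw [h a b c e hab hac hae hbc hbe hce, Finset.prod_insert, Finset.prod_insert,
    Finset.prod_insert, Finset.prod_singleton]
  · simp only [mul_assoc]
  · simpa using hce
  · simp only [Finset.mem_insert, Finset.mem_singleton, not_or]
    exact ⟨hbc, hbe⟩
  · simp only [Finset.mem_insert, Finset.mem_singleton, not_or]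
    exact ⟨hab, hac, hae⟩

theorem e1_of (P : Pl K) {T : Fin 4 → Fin 4 → Fin 4 → ℝ} {γ : Fin 4 → ℝ} {d : Fin 4 → ℕ}
    {a b c e : Fin 4} {ρ z0 θ : ℝ} (u : Fin 4 → K) (hD : D1 (cf T γ d a b c e) ρ)
    (hL : L1 P (algebraMap ℝ K) (cf T γ d a b c e) ρ z0 θ (u a) (u b) (u c) (u e)) :
    E1 P T u a b c e (-ρ) := by
  have h1 := hD.b13
  have h2 := hD.b14
  have h3 := hD.b23
  have h4 := hD.b24
  have h5 := hD.c123
  have h6 := hD.c124
  have h7 := hD.hΔ
  have hLs := hL.Ls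
  simp only [cf] at h1 h2 h3 h4 h5 h6 h7 hLs
  refine ⟨neg_pos.2 hD.hρ, by linarith, by linarith, by linarith, by linarith, by linarith,
    by linarith, ?_, ?_, ?_, hL.Lη, hL.L4, ⟨θ, by exact_mod_cast hL.hθ, hL.Lθ⟩, ?_⟩
  · intro h
    apply h7
    rw [h]
    ring
  · rw [neg_neg]
    exact hL.Lr
  · refine P.lim_val hLs ?_
    congr 1
    have h8 : T a a e ≠ 0 := by
      intro h
      rw [h] at h2
      norm_num at h2
    field_simp
  · rw [map_neg, neg_mul, ← sub_eq_add_neg]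
    exact ⟨_, hL.Lz⟩

theorem e3_of (P : Pl K) {T : Fin 4 → Fin 4 → Fin 4 → ℝ} {γ : Fin 4 → ℝ} {d : Fin 4 → ℕ}
    {a b c e : Fin 4} {ρ m τ : ℝ} {z : ℂ} (u : Fin 4 → K) (hu : u c ≠ 0)
    (hD : D2 (cf T γ d a b c e) ρ m)
    (hL : L2 P (algebraMap ℝ K) ρ m τ z (u a) (u b) (u c) (u e)) :
    E3 P T u a b c e (-ρ) m := by
  have h1 := hD.b14
  have h2 := hD.b24
  have h3 := hD.b34
  have h4 := hD.c124
  have h5 := hD.c134
  have h6 := hD.c234
  have h7 := hD.hf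
  have h8 := hD.hφ
  simp only [cf] at h1 h2 h3 h4 h5 h6 h7 h8
  refine ⟨neg_pos.2 hD.hρ, hD.hm, by linarith, by linarith, by linarith, by linarith,
    by linarith, by linarith, by linarith, ?_, ?_, hL.Lη, ⟨z, τ, hL.hγ, hL.hτ, hL.L3, ?_⟩, ?_⟩
  · intro h
    apply h8
    rw [h]
    ring
  · rw [neg_neg]
    exact hL.Lr
  · refine P.lim_eq ?_ (P.mul hL.Lτ (P.lim_pow hL.L3 2))
    field_simp
  · refine P.lim_eq ?_ hL.Ly
    rw [map_neg]
    ring

/-- The dichotomy at a place: all unknowns are finite, or one of four cases. -/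
theorem local_full (P : Pl K) (κ' : ℂ →+* K) (hκ' : ∀ z : ℂ, P.Lim (κ' z) z)
    (hκκ : ∀ r : ℝ, κ' (r : ℂ) = algebraMap ℝ K r) {T : Fin 4 → Fin 4 → Fin 4 → ℝ} (hT : Sym T)
    (hT0 : ∀ i j k, 0 ≤ T i j k) {γ : Fin 4 → ℝ} (hγ : ∀ i, 0 ≤ γ i) {d : Fin 4 → ℕ}
    (hd : ∀ i, 0 < d i) {x : Fin 4 → K}
    (hS : Pl.Sys T γ (fun i => (d i : ℝ)) univ x 0)
    (hv : ∃ c : ℂ, c ≠ 0 ∧ P.Lim (∏ i, x i ^ d i) c) :
    ((∀ i, P.B (x i)) ∧ ∀ i, P.B (x i)⁻¹) ∨ P.I (∏ i, x i) ∨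
      (∃ p : ℝ, p < 0 ∧ P.Lim (∏ i, x i) p) ∨
      ((∃ z : ℂ, P.Lim (∏ i, x i) z) ∧ IsEnd P T fun i => (x i)⁻¹) := by
  have hx : ∀ i, x i ≠ 0 := fun i => (hS i (Finset.mem_univ i)).1
  obtain ⟨a, b, c, e, hab, hac, hae, hbc, hbe, hce, B1, B2, B3⟩ :=
    exists_sorted (fun i j => P.B (x i / x j)) (fun i j => by
      rcases Pl.B_total P (x i) (x j) with h | h
      · right
        rwa [← div_eq_mul_inv] at h
      · left
        rwa [← div_eq_mul_inv] at h) (fun i j k h1 h2 => by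
      have h := h1.mul h2
      rwa [div_mul_div_cancel₀ (hx j)] at h)
  -- products
  have hdiv : ∀ {y z : K}, z ≠ 0 → P.B (y / z) → P.B z → P.B y := by
    intro y z hz h1 h2
    have h := h1.mul h2
    rwa [div_mul_cancel₀ _ hz] at h
  have hdivI : ∀ {y z : K}, z ≠ 0 → P.B (y / z) → P.I z → P.I y := by
    intro y z hz h1 h2
    have h := h1.mulI h2
    rwa [div_mul_cancel₀ _ hz] at h
  have hcov : ∀ i, i = a ∨ i = b ∨ i = c ∨ i = e := by
    intro i
    have h : ∀ a b c e i : Fin 4, a ≠ b → a ≠ c → a ≠ e → b ≠ c → b ≠ e → c ≠ e →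
        i = a ∨ i = b ∨ i = c ∨ i = e := by decide
    exact h a b c e i hab hac hae hbc hbe hce
  obtain ⟨v, hv0, hv⟩ := hv
  by_cases he : P.B (x e)
  · left
    have h1 := hdiv (hx e) B3 he
    have h2 := hdiv (hx c) B2 h1
    have h3 := hdiv (hx b) B1 h2
    have hB : ∀ i, P.B (x i) := by
      intro i
      rcases hcov i with rfl | rfl | rfl | rfl
      · exact h3
      · exact h2
      · exact h1
      · exact he
    refine ⟨hB, fun i => Pl.inv_B fun hI => ?_⟩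
    have h4 : P.I (∏ j, x j ^ d j) := by
      rw [← Finset.mul_prod_erase univ _ (Finset.mem_univ i)]
      refine (hI.pow (hd i).ne').mul ?_
      have h5 : ∀ s : Finset (Fin 4), P.B (∏ j ∈ s, x j ^ d j) := by
        intro s
        induction s using Finset.induction_on with
        | empty =>
          rw [Finset.prod_empty]
          exact ⟨_, P.lim_one⟩
        | insert j s hj ih =>
          rw [Finset.prod_insert hj]
          exact (Pl.B.pow (hB j) _).mul ih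
      exact h5 _
    exact hv0 (P.uniq hv h4)
  · right
    have hprod : ∏ i, x i ^ d i = x a ^ d a * x b ^ d b * x c ^ d c * x e ^ d e :=
      prod4 _ hab hac hae hbc hbe hce
    rw [hprod] at hv
    have hIa : P.I (x a) := by
      by_contra ha
      have hb : ¬ P.I (x b) := fun h => ha (hdivI (hx b) B1 h)
      have hc : ¬ P.I (x c) := fun h => hb (hdivI (hx c) B2 h)
      have h1 : ¬ P.I (x a ^ d a * x b ^ d b * x c ^ d c) :=
        not_I_mul (not_I_mul (fun h => ha (I_of_pow h)) (fun h => hb (I_of_pow h)))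
          (fun h => hc (I_of_pow h))
      exact he (B_of_pow (hd e).ne' (Pl.B.of_mul ⟨v, hv⟩ h1))
    have hS4 := sys4_of P hT hS hab hac hae hbc hbe hce
    have hpos := cf_pos hT0 hγ hd a b c e
    have hdual : ∀ i j, P.B (x i / x j) → P.B ((x j)⁻¹ / (x i)⁻¹) := by
      intro i j h
      rwa [inv_div_inv]
    have hη : P.Lim (1 / (x a)⁻¹) 0 := by
      rw [one_div, inv_inv]
      exact hIa
    have hP : ∏ i, x i = 1 / ((x a)⁻¹ * (x b)⁻¹ * (x c)⁻¹ * (x e)⁻¹) := by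
      rw [prod4 x hab hac hae hbc hbe hce]
      have := hx a
      have := hx b
      have := hx c
      have := hx e
      field_simp
    have na := inv_ne_zero (hx a)
    have nb := inv_ne_zero (hx b)
    have nc := inv_ne_zero (hx c)
    have ne := inv_ne_zero (hx e)
    rcases sorted4_full hS4 hpos κ' hκ' hκκ (hdual _ _ B1) (hdual _ _ B2) (hdual _ _ B3) hη
      (Pl.inv_I he) with h | ⟨p, hp, h⟩ | ⟨ρ, z0, θ, hD, hL⟩ | ⟨ρ, m, τ, z, hD, hL⟩
    · left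
      rw [hP]
      exact h
    · right
      left
      refine ⟨p⁻¹, inv_lt_zero.2 hp, ?_⟩
      rw [hP, one_div, Complex.ofReal_inv]
      exact P.lim_inv h (by exact_mod_cast hp.ne)
    · right
      right
      refine ⟨?_, a, b, c, e, ⟨hab, hac, hae, hbc, hbe, hce⟩, Or.inl ⟨-ρ, e1_of P _ hD hL⟩⟩
      have h1 := P.mul (P.mul hL.Lr hL.Ls) (P.lim_pow hL.Lθ 2)
      have cρ : (ρ : ℂ) ≠ 0 := by exact_mod_cast hD.hρ.ne
      have cs : (((-(cf T γ d a b c e).b13 / (cf T γ d a b c e).b14 : ℝ)) : ℂ) ≠ 0 := by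
        exact_mod_cast div_ne_zero (neg_ne_zero.2 hD.b13.ne') hD.b14.ne'
      have cθ : (θ : ℂ) ≠ 0 := by exact_mod_cast hL.hθ
      refine ⟨_, P.lim_eq ?_ (P.lim_inv h1 (mul_ne_zero (mul_ne_zero cρ cs)
        (pow_ne_zero 2 cθ)))⟩
      rw [hP]
      field_simp
    · right
      right
      refine ⟨?_, a, b, c, e, ⟨hab, hac, hae, hbc, hbe, hce⟩, Or.inr ⟨-ρ, m, e3_of P _ nc hD hL⟩⟩
      have h1 := P.mul (P.mul hL.Lr hL.Lτ) (P.lim_pow hL.L3 3)
      have cρ : (ρ : ℂ) ≠ 0 := by exact_mod_cast hD.hρ.ne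
      have cτ : (τ : ℂ) ≠ 0 := by exact_mod_cast hL.hτ.ne'
      refine ⟨_, P.lim_eq ?_ (P.lim_inv h1 (mul_ne_zero (mul_ne_zero cρ cτ)
        (pow_ne_zero 3 hL.hγ)))⟩
      rw [hP]
      field_simp

/-- The inverse of the product is bounded. -/
theorem local_B (P : Pl K) (κ' : ℂ →+* K) (hκ' : ∀ z : ℂ, P.Lim (κ' z) z)
    (hκκ : ∀ r : ℝ, κ' (r : ℂ) = algebraMap ℝ K r) {T : Fin 4 → Fin 4 → Fin 4 → ℝ} (hT : Sym T)
    (hT0 : ∀ i j k, 0 ≤ T i j k) {γ : Fin 4 → ℝ} (hγ : ∀ i, 0 ≤ γ i) {d : Fin 4 → ℕ}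
    (hd : ∀ i, 0 < d i) {x : Fin 4 → K}
    (hS : Pl.Sys T γ (fun i => (d i : ℝ)) univ x 0)
    (hv : ∃ c : ℂ, c ≠ 0 ∧ P.Lim (∏ i, x i ^ d i) c) : P.B (∏ i, x i) := by
  rcases local_full P κ' hκ' hκκ hT hT0 hγ hd hS hv with h | h | ⟨p, -, h⟩ | h
  · have h5 : ∀ s : Finset (Fin 4), P.B (∏ j ∈ s, x j) := by
      intro s
      induction s using Finset.induction_on with
      | empty =>
        rw [Finset.prod_empty]
        exact ⟨_, P.lim_one⟩
      | insert j s hj ih =>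
        rw [Finset.prod_insert hj]
        exact (h.1 j).mul ih
    exact h5 _
  · exact h.B
  · exact ⟨_, h⟩
  · exact h.1

/-- If the product is a positive constant then all unknowns are finite, or the place is one of the
two kinds of ends. -/
theorem local_end (P : Pl K) (κ' : ℂ →+* K) (hκ' : ∀ z : ℂ, P.Lim (κ' z) z)
    (hκκ : ∀ r : ℝ, κ' (r : ℂ) = algebraMap ℝ K r) {T : Fin 4 → Fin 4 → Fin 4 → ℝ} (hT : Sym T)
    (hT0 : ∀ i j k, 0 ≤ T i j k) {γ : Fin 4 → ℝ} (hγ : ∀ i, 0 ≤ γ i) {d : Fin 4 → ℕ}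
    (hd : ∀ i, 0 < d i) {x : Fin 4 → K}
    (hS : Pl.Sys T γ (fun i => (d i : ℝ)) univ x 0)
    (hv : ∃ c : ℂ, c ≠ 0 ∧ P.Lim (∏ i, x i ^ d i) c) {p : ℝ} (hp : 0 < p)
    (hP : ∏ i, x i = algebraMap ℝ K p) :
    (∀ i, P.B (x i) ∧ P.B (x i)⁻¹) ∨ IsEnd P T fun i => (x i)⁻¹ := by
  rcases local_full P κ' hκ' hκκ hT hT0 hγ hd hS hv with h | h | ⟨p', hp', h⟩ | h
  · exact Or.inl fun i => ⟨h.1 i, h.2 i⟩
  · exfalso
    rw [hP] at h
    exact Pl.cst_not_I hp.ne' h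
  · exfalso
    rw [hP] at h
    have h1 := P.uniq h (P.cst p)
    have h2 : p' = p := by exact_mod_cast h1
    linarith
  · exact Or.inr h.2

end Pool.Agent.H.MP_deabf1_gt.Four
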