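import Pool.Agent.H.MP_deabf1_gt.WJ
import Pool.Agent.H.MP_deabf1_gt.helper65.Vol2
import Pool.Agent.H.MP_deabf1_gt.helper65.Loc4
import Pool.Agent.H.MP_deabf1_gt.helper94.Zar
import Pool.Agent.H.MP_deabf1_gt.helper94.Main

/-!
The Einstein equations for four summands have finitely many positive solutions.
-/

namespace Pool.Agent.H.MP_deabf1_gt

open Filter Topology

/-- The complex constants in the field of germs. -/
noncomputable def gmCst (F : Ultrafilter ℕ) : ℂ →+* Gm F := (toGm F).comp (Pi.constRingHom ℕ ℂ)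

/-- A positive solution in terms of the complex numbers. -/
theorem sys_of_pos {ι : Type} [Fintype ι] {T : ι → ι → ι → ℝ} {γ d : ι → ℝ} {u : ι → ℝ}
    (hu : ∀ i, 0 < u i) (hE : ∀ i, eqL T γ u i = d i) :
    Pl.Sys T γ d Finset.univ (fun i => ((u i : ℂ))⁻¹) 0 := by
  intro i _
  have hu0 : ∀ j, (u j : ℂ) ≠ 0 := fun j => by exact_mod_cast (hu j).ne'
  refine ⟨inv_ne_zero (hu0 i), ?_⟩
  rw [mul_zero, add_zero]
  have h2 : ((eqL T γ u i : ℝ) : ℂ) = ((d i : ℝ) : ℂ) := by rw [hE i]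
  rw [show algebraMap ℝ ℂ (d i) = ((d i : ℝ) : ℂ) from rfl, ← h2]
  unfold eqL
  push_cast
  simp only [inv_inv]
  congr 1
  congr 1
  apply Finset.sum_congr rfl
  intro j _
  apply Finset.sum_congr rfl
  intro k _
  unfold Pl.term
  rw [show algebraMap ℝ ℂ (T i j k) = ((T i j k : ℝ) : ℂ) from rfl]
  simp only [inv_inv]
  have h3 := hu0 i
  have h4 := hu0 j
  have h5 := hu0 k
  field_simp

/-- The left hand sides of the equations are regular functions. -/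
theorem reg_sys {ι : Type} [Fintype ι] (T : ι → ι → ι → ℝ) (γ : ι → ℝ) (i : ι) :
    Reg (fun x : ι → ℂ => algebraMap ℝ ℂ (γ i) * (x i)⁻¹ +
      1 / 4 * ∑ j, ∑ k, algebraMap ℝ ℂ (T i j k) * Pl.term x i j k) := by
  refine ((Reg.const _).mul (Reg.icrd i)).add ((Reg.const _).mul (Reg.sum _ fun j _ =>
    Reg.sum _ fun k _ => (Reg.const _).mul ?_))
  unfold Pl.term
  exact ((((Reg.const 2).mul (Reg.icrd i)).add (((Reg.crd i).mul (Reg.icrd j)).mul
    (Reg.icrd k))).sub (((Reg.crd j).mul (Reg.icrd i)).mul (Reg.icrd k))).sub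
    (((Reg.crd k).mul (Reg.icrd i)).mul (Reg.icrd j))

/-- The Einstein equations for four summands have finitely many positive solutions. -/
theorem eqL_finite_four {T : Fin 4 → Fin 4 → Fin 4 → ℝ} (hT : Sym T)
    (hT0 : ∀ i j k, 0 ≤ T i j k) {γ : Fin 4 → ℝ} (hγ : ∀ i, 0 ≤ γ i) {d : Fin 4 → ℕ}
    (hd : ∀ i, 0 < d i) :
    {u : Fin 4 → ℝ | (∀ i, 0 < u i) ∧ ∀ i, eqL T γ u i = (d i : ℝ)}.Finite := by
  classical
  by_contra hinf
  let φ : (Fin 4 → ℝ) → Fin 4 → ℂ := fun u i => ((u i : ℂ))⁻¹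
  have hφ : Set.InjOn φ {u : Fin 4 → ℝ | (∀ i, 0 < u i) ∧ ∀ i, eqL T γ u i = (d i : ℝ)} := by
    intro u _ v _ huv
    funext i
    have h2 : ((u i : ℂ))⁻¹ = ((v i : ℂ))⁻¹ := congrFun huv i
    exact_mod_cast inv_injective h2
  have hV := Set.Infinite.image hφ hinf
  set V := φ '' {u : Fin 4 → ℝ | (∀ i, 0 < u i) ∧ ∀ i, eqL T γ u i = (d i : ℝ)} with hVdef
  have hVE : ∀ x ∈ V, Pl.Sys T γ (fun i => (d i : ℝ)) Finset.univ x 0 := by
    rintro _ ⟨u, ⟨hu, hE⟩, rfl⟩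
    exact sys_of_pos (d := fun i => (d i : ℝ)) hu hE
  have hV0 : ∀ x ∈ V, ∀ i, x i ≠ 0 := fun x hx i => (hVE x hx i (Finset.mem_univ i)).1
  obtain ⟨S, Z, hSV, hZ⟩ := exists_cl hV hV0
  -- the points of `S` are positive
  have hSpos : ∀ x ∈ S, ∃ y : Fin 4 → ℝ, (∀ i, 0 < y i) ∧ x = fun i => (y i : ℂ) := by
    intro x hx
    obtain ⟨u, ⟨hu, -⟩, rfl⟩ := hSV hx
    refine ⟨fun i => (u i)⁻¹, fun i => inv_pos.2 (hu i), ?_⟩
    funext i
    simp only [φ, Complex.ofReal_inv]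
  -- the equations
  have hZE : ∀ x ∈ Z, Pl.Sys T γ (fun i => (d i : ℝ)) Finset.univ x 0 := by
    intro x hx i hi
    refine ⟨hZ.ne x hx i, ?_⟩
    rw [mul_zero, add_zero]
    refine hZ.ext (reg_sys T γ i) (Reg.const _) (fun y hy => ?_) x hx
    have h1 := (hVE y (hSV hy) i hi).2
    rwa [mul_zero, add_zero] at h1
  -- the volume
  obtain ⟨v, -, hv⟩ := hZ.const_of_finite (h := fun x => ∏ i, x i ^ d i)
    (Reg.prod _ fun i _ => (Reg.crd i).pow (d i)) (vol_finite hT (γ := γ) (d := d))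
    (fun x hx => ⟨x, hVE x (hSV hx), rfl⟩)
  have hv0 : v ≠ 0 := by
    obtain ⟨x, hx⟩ := hZ.nonempty
    rw [← hv x (hZ.sub hx)]
    exact Finset.prod_ne_zero_iff.2 fun i _ => pow_ne_zero _ (hZ.ne x (hZ.sub hx) i)
  have hsys : ∀ xs : ℕ → Fin 4 → ℂ, (∀ n, xs n ∈ Z) →
      Pl.Sys T γ (fun i => (d i : ℝ)) Finset.univ
        (fun i => toGm (hyperfilter ℕ) fun n => xs n i) 0 := fun xs hxs =>
    sys_germ (hyperfilter ℕ) fun n => hZE _ (hxs n)
  have hprod : ∀ (xs : ℕ → Fin 4 → ℂ) (e : Fin 4 → ℕ),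
      ∏ i, (toGm (hyperfilter ℕ) fun n => xs n i) ^ e i
        = toGm (hyperfilter ℕ) fun n => ∏ i, xs n i ^ e i := by
    intro xs e
    have h1 : (fun n => ∏ i, xs n i ^ e i) = ∏ i, (fun n => xs n i) ^ e i := by
      funext n
      simp only [Finset.prod_apply, Pi.pow_apply]
    rw [h1, map_prod]
    simp only [map_pow]
  have hvol : ∀ xs : ℕ → Fin 4 → ℂ, (∀ n, xs n ∈ Z) → ∃ c : ℂ, c ≠ 0 ∧
      (gmPl (hyperfilter ℕ)).Lim (∏ i, (toGm (hyperfilter ℕ) fun n => xs n i) ^ d i) c := by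
    intro xs hxs
    refine ⟨v, hv0, ?_⟩
    rw [hprod]
    exact toGm_const_lim fun n => hv _ (hxs n)
  have hκ : ∀ z : ℂ, (gmPl (hyperfilter ℕ)).Lim (gmCst (hyperfilter ℕ) z) z := fun z =>
    ⟨fun _ => z, rfl, tendsto_const_nhds⟩
  have hprod1 : ∀ xs : ℕ → Fin 4 → ℂ, ∏ i, (toGm (hyperfilter ℕ) fun n => xs n i)
      = toGm (hyperfilter ℕ) fun n => ∏ i, xs n i := by
    intro xs
    have h1 := hprod xs fun _ => 1
    simpa using h1
  -- the product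
  obtain ⟨p', hp'⟩ := hZ.const_of_places (h := fun x => ∏ i, x i)
    (Reg.prod _ fun i _ => Reg.crd i) (by
      intro xs hxs
      rw [← hprod1]
      exact Four.local_B (gmPl (hyperfilter ℕ)) (gmCst (hyperfilter ℕ)) hκ (fun r => rfl) hT hT0
        hγ hd (hsys xs hxs) (hvol xs hxs))
  obtain ⟨p, hp, rfl⟩ := hZ.const_pos hp' (by
    intro x hx
    obtain ⟨y, hy, rfl⟩ := hSpos x hx
    refine ⟨∏ i, y i, Finset.prod_pos fun i _ => hy i, ?_⟩
    push_cast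
    rfl)
  refine Four.no_cl hT hT0 hγ hd hZ hSpos hZE hp hp' fun xs hxs => ?_
  refine Four.local_end (gmPl (hyperfilter ℕ)) (gmCst (hyperfilter ℕ)) hκ (fun r => rfl) hT hT0
    hγ hd (hsys xs hxs) (hvol xs hxs) hp ?_
  rw [hprod1, ← toGm_alg]
  congr 1
  funext n
  exact hp' _ (hxs n)

end Pool.Agent.H.MP_deabf1_gt
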