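import Pool.Agent.H.MP_deabf1_gt.QH
import Pool.Agent.H.MP_deabf1_gt.helper65.Full4

/-!
The Einstein equations have finitely many positive solutions with at most four different values.
-/

namespace Pool.Agent.H.MP_deabf1_gt

/-- The structure constants of a partition are symmetric. -/
theorem block_sym {q r : ℕ} (π : Fin q → Fin r) {T : Fin q → Fin q → Fin q → ℝ} (hT : Sym T) :
    Sym (fun a b c => ∑ i, ∑ j, ∑ k, if π i = a ∧ π j = b ∧ π k = c then T i j k else 0) := by
  refine ⟨fun a b c => ?_, fun a b c => ?_⟩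
  · change ∑ i, ∑ j, ∑ k, (if π i = a ∧ π j = b ∧ π k = c then T i j k else 0) =
      ∑ i, ∑ j, ∑ k, if π i = b ∧ π j = a ∧ π k = c then T i j k else 0
    rw [Finset.sum_comm]
    refine Finset.sum_congr rfl fun i _ => Finset.sum_congr rfl fun j _ =>
      Finset.sum_congr rfl fun k _ => ?_
    rw [hT.1 j i k]
    refine if_congr ?_ rfl rfl
    tauto
  · change ∑ i, ∑ j, ∑ k, (if π i = a ∧ π j = b ∧ π k = c then T i j k else 0) =
      ∑ i, ∑ j, ∑ k, if π i = a ∧ π j = c ∧ π k = b then T i j k else 0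
    refine Finset.sum_congr rfl fun i _ => ?_
    rw [Finset.sum_comm]
    refine Finset.sum_congr rfl fun j _ => Finset.sum_congr rfl fun k _ => ?_
    rw [hT.2 i k j]
    refine if_congr ?_ rfl rfl
    tauto

/-- At most four summands. -/
theorem eqL_finite_le {r : ℕ} (hr : r ≤ 4) {T : Fin r → Fin r → Fin r → ℝ} (hT : Sym T)
    (hT0 : ∀ i j k, 0 ≤ T i j k) {γ : Fin r → ℝ} (hγ : ∀ i, 0 ≤ γ i) {d : Fin r → ℕ}
    (hd : ∀ i, 0 < d i) :
    {u : Fin r → ℝ | (∀ i, 0 < u i) ∧ ∀ i, eqL T γ u i = (d i : ℝ)}.Finite := by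
  rcases Nat.lt_or_ge r 4 with h | h
  · refine eqL_finite hT hT0 (d := fun i => (d i : ℝ)) hγ (fun i => by exact_mod_cast hd i)
      (f := fun _ => 0) ⟨fun i j k h1 => absurd h1 (lt_irrefl 0), fun n => ?_,
      fun i k l j h1 => absurd h1 (lt_irrefl 0)⟩
    rcases Nat.eq_zero_or_pos n with rfl | hn
    · right
      refine ⟨(Finset.card_filter_le _ _).trans ?_, fun i j k _ h1 => absurd h1 (lt_irrefl 0)⟩
      rw [Finset.card_univ, Fintype.card_fin]
      omega
    · left
      intro i j h1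
      exact absurd h1 hn.ne
  · obtain rfl : r = 4 := le_antisymm hr h
    exact eqL_finite_four hT hT0 hγ hd

/-- A vector with at most four values factors through a set of at most four elements. -/
theorem enum4 {q : ℕ} (u : Fin q → ℝ) (S : Finset ℝ) (hS : S.card ≤ 4) (hu : ∀ i, u i ∈ S) :
    ∃ (r : Fin 5) (π : Fin q → Fin r) (y : Fin r → ℝ), Function.Surjective π ∧ y ∘ π = u := by
  classical
  have hV : (Finset.univ.image u).card ≤ 4 := by
    refine (Finset.card_le_card ?_).trans hS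
    intro v hv
    obtain ⟨i, -, rfl⟩ := Finset.mem_image.1 hv
    exact hu i
  have hmem : ∀ i, u i ∈ Finset.univ.image u := fun i =>
    Finset.mem_image_of_mem u (Finset.mem_univ i)
  let e : (Finset.univ.image u : Finset ℝ) ≃ Fin (Finset.univ.image u).card :=
    Finset.equivFinOfCardEq rfl
  refine ⟨⟨(Finset.univ.image u).card, by omega⟩, fun i => e ⟨u i, hmem i⟩,
    fun a => ((e.symm a : (Finset.univ.image u : Finset ℝ)) : ℝ), ?_, ?_⟩
  · intro a
    obtain ⟨i, -, hi⟩ := Finset.mem_image.1 (e.symm a).2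
    refine ⟨i, ?_⟩
    change e ⟨u i, hmem i⟩ = a
    rw [← Equiv.eq_symm_apply]
    exact Subtype.ext hi
  · funext i
    change ((e.symm (e ⟨u i, hmem i⟩) : (Finset.univ.image u : Finset ℝ)) : ℝ) = u i
    rw [Equiv.symm_apply_apply]

/-- The Einstein equations have finitely many positive solutions with at most four values. -/
theorem eqL_finite_vals {q : ℕ} {T : Fin q → Fin q → Fin q → ℝ} (hT : Sym T)
    (hT0 : ∀ i j k, 0 ≤ T i j k) {γ : Fin q → ℝ} (hγ : ∀ i, 0 ≤ γ i) {d : Fin q → ℕ}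
    (hd : ∀ i, 0 < d i) :
    {u : Fin q → ℝ | (∀ i, 0 < u i) ∧ (∃ S : Finset ℝ, S.card ≤ 4 ∧ ∀ i, u i ∈ S) ∧
      ∀ i, eqL T γ u i = (d i : ℝ)}.Finite := by
  classical
  have hfin : (⋃ r : Fin 5, ⋃ π : {π : Fin q → Fin r // Function.Surjective π},
      (fun y : Fin r → ℝ => y ∘ π.1) '' {y : Fin r → ℝ | (∀ i, 0 < y i) ∧ ∀ a,
          eqL (fun a b c => ∑ i, ∑ j, ∑ k, if π.1 i = a ∧ π.1 j = b ∧ π.1 k = c then T i j k else 0)
            (fun a => ∑ i, if π.1 i = a then γ i else 0) y a =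
            ((∑ i, if π.1 i = a then d i else 0 : ℕ) : ℝ)}).Finite := by
    refine Set.finite_iUnion fun r => Set.finite_iUnion fun π => Set.Finite.image _ ?_
    refine eqL_finite_le (by omega) (block_sym π.1 hT) ?_ ?_ ?_
    · intro a b c
      refine Finset.sum_nonneg fun i _ => Finset.sum_nonneg fun j _ => Finset.sum_nonneg fun k _ => ?_
      split_ifs
      · exact hT0 i j k
      · exact le_rfl
    · intro a
      refine Finset.sum_nonneg fun i _ => ?_
      split_ifs
      · exact hγ i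
      · exact le_rfl
    · intro a
      obtain ⟨i, hi⟩ := π.2 a
      refine Finset.sum_pos' (fun _ _ => Nat.zero_le _) ⟨i, Finset.mem_univ i, ?_⟩
      rw [if_pos hi]
      exact hd i
  refine hfin.subset ?_
  rintro u ⟨hu, ⟨S, hS, huS⟩, hE⟩
  obtain ⟨r, π, y, hπ, hyπ⟩ := enum4 u S hS huS
  refine Set.mem_iUnion.2 ⟨r, Set.mem_iUnion.2 ⟨⟨π, hπ⟩, y, ⟨?_, ?_⟩, hyπ⟩⟩
  · intro a
    obtain ⟨i, rfl⟩ := hπ a
    have h1 : y (π i) = u i := congrFun hyπ i
    rw [h1]
    exact hu i
  · intro a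
    rw [eqL_block, hyπ]
    change (∑ i, if π i = a then eqL T γ u i else 0) =
      ((∑ i, if π i = a then d i else 0 : ℕ) : ℝ)
    rw [Nat.cast_sum]
    refine Finset.sum_congr rfl fun i _ => ?_
    split_ifs with h
    · exact hE i
    · simp

end Pool.Agent.H.MP_deabf1_gt
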