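import Pool.Agent.H.MP_deabf1_gt.WL
import Pool.Agent.H.MP_deabf1_gt.helper65.Merge4

/-!
Finiteness of the number of invariant Einstein metrics with at most four eigenvalues.
-/

namespace Pool.Agent.H.MP_deabf1_gt.HomData

open LinearMap (BilinForm)

variable {𝔤 K : Type*} [LieRing 𝔤] [LieAlgebra ℝ 𝔤] [Module.Finite ℝ 𝔤] [Group K]
  (D : HomData 𝔤 K) {q : ℕ}

theorem finite_einstein_vals {m : Fin q → Submodule ℝ 𝔤} (hm : D.Decomp m)
    (hflat : ∃ x ∈ D.𝔪, ∃ y : 𝔤, ⁅x, y⁆ ≠ 0) :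
    ∃ F : Finset (BilinForm ℝ 𝔤), ∀ (g : BilinForm ℝ 𝔤) (lam : ℝ), D.IsMetric g →
      D.IsEinstein g lam →
      (q ≤ 4 ∨ ∃ S : Finset ℝ, S.card ≤ 4 ∧ ∀ i, ∃ a ∈ S, ∀ x ∈ m i, g x x = a * D.Q x x) →
      ∃ c : ℝ, 0 < c ∧ c • g ∈ F := by
  classical
  choose f hf using fun i => onb_exists (g := D.Q) D.Q_symm (m i) (fun x _ hx => D.Q_pos x hx)
  obtain ⟨z, hz⟩ := onb_exists (g := D.Q) D.Q_symm D.𝔨.toSubmodule (fun x _ hx => D.Q_pos x hx)
  have hQo : ∀ i j, i ≠ j → ∀ v ∈ m i, ∀ w ∈ m j, D.Q v w = 0 := fun i j hij =>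
    D.schur_off (hm.irr i) (hm.irr j) (hm.inequiv i j hij) D.Q_Ad
  have hne : ∀ i, ∃ v ∈ m i, v ≠ 0 := fun i => (Submodule.ne_bot_iff _).1 (hm.irr i).ne
  have hd : ∀ i, 0 < Module.finrank ℝ (m i) := by
    intro i
    rw [Nat.pos_iff_ne_zero]
    intro h0
    exact (hm.irr i).ne (Submodule.finrank_eq_zero.1 h0)
  have hU := eqL_finite_vals (D.TT_sym f) (D.TT_nonneg f) (D.GG_nonneg f z) hd
  set U := {u : Fin q → ℝ | (∀ i, 0 < u i) ∧ (∃ S : Finset ℝ, S.card ≤ 4 ∧ ∀ i, u i ∈ S) ∧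
    ∀ i, eqL (D.TT f) (D.GG f z) u i = (Module.finrank ℝ (m i) : ℝ)} with hUdef
  have hfin : (⋃ u ∈ U, {g : BilinForm ℝ 𝔤 | D.IsMetric g ∧
      ∀ i, ∀ v ∈ m i, ∀ w ∈ m i, g v w = 1 / u i * D.Q v w}).Finite := by
    refine Set.Finite.biUnion hU fun u _ => Set.Subsingleton.finite ?_
    rintro g ⟨hg, h1⟩ g' ⟨hg', h2⟩
    exact D.metric_ext hm hg hg' h1 h2
  refine ⟨hfin.toFinset, ?_⟩
  intro g lam hg hE hS
  obtain ⟨x, hx, hgd, hgo⟩ := D.metric_diag hm hg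
  have hlam : 0 < lam := by
    by_contra h0
    have hEq := D.einstein_eq hm.sup hf hz hQo hg hx hgd hgo hE
    have h1 := lam_pos (D.TT_sym f) (D.TT_nonneg f) (D.GG_nonneg f z)
      (fun i => one_div_pos.2 (hx i)) (not_lt.1 h0) hEq
    obtain ⟨y, hy, y', hyy⟩ := hflat
    exact hyy (D.central_of hm.sup hf hz hQo (fun i => (h1 i).2) (fun i => (h1 i).1) y hy y')
  refine ⟨lam, hlam, ?_⟩
  obtain ⟨hg', hE'⟩ := D.einstein_smul hlam hg hE
  have hx' : ∀ i, 0 < lam * x i := fun i => mul_pos hlam (hx i)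
  have hgd' : ∀ i, ∀ v ∈ m i, ∀ w ∈ m i, (lam • g) v w = lam * x i * D.Q v w := by
    intro i v hv w hw
    rw [LinearMap.smul_apply, LinearMap.smul_apply, smul_eq_mul, hgd i v hv w hw, mul_assoc]
  have hgo' : ∀ i j, i ≠ j → ∀ v ∈ m i, ∀ w ∈ m j, (lam • g) v w = 0 := by
    intro i j hij v hv w hw
    rw [LinearMap.smul_apply, LinearMap.smul_apply, smul_eq_mul, hgo i j hij v hv w hw, mul_zero]
  have hEq := D.einstein_eq hm.sup hf hz hQo hg' hx' hgd' hgo' hE'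
  rw [Set.Finite.mem_toFinset]
  refine Set.mem_iUnion₂.2 ⟨fun j => 1 / (lam * x j), ?_, hg', ?_⟩
  · refine ⟨fun i => one_div_pos.2 (hx' i), ?_, fun i => ?_⟩
    · rcases hS with h3 | ⟨S, hS3, hSm⟩
      · refine ⟨Finset.univ.image (fun j => 1 / (lam * x j)), ?_, ?_⟩
        · refine Finset.card_image_le.trans ?_
          rw [Finset.card_univ, Fintype.card_fin]
          exact h3
        · intro i
          exact Finset.mem_image_of_mem _ (Finset.mem_univ i)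
      · refine ⟨S.image (fun a => 1 / (lam * a)), Finset.card_image_le.trans hS3, ?_⟩
        intro i
        obtain ⟨a, ha, hav⟩ := hSm i
        obtain ⟨v, hv, hv0⟩ := hne i
        have h1 := hav v hv
        rw [hgd i v hv v hv] at h1
        have h2 : x i = a := mul_right_cancel₀ (D.Q_pos v hv0).ne' h1
        rw [Finset.mem_image]
        refine ⟨a, ha, ?_⟩
        show 1 / (lam * a) = 1 / (lam * x i)
        rw [h2]
    · rw [hEq i, div_self hlam.ne', mul_one]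
  · intro i v hv w hw
    rw [hgd' i v hv w hw, one_div_one_div]

end Pool.Agent.H.MP_deabf1_gt.HomData
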