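import Pool.Agent.H.MP_deabf1_gt.PDefs

/-!
Monomial curves of positive solutions do not exist: coefficients of the equations.
-/

namespace Pool.Agent.H.MP_deabf1_gt.Gn

variable {ι k : Type*} [Field k] [LinearOrder k] [IsStrictOrderedRing k]

/-- The coefficient of `w ^ e` in a term of the equation along `u i = c i * w ^ r i`. -/
def br (c : ι → k) (r : ι → ℤ) (i j l : ι) (e : ℤ) : k :=
  (if r i = e then 2 * c i else 0) + (if r j + r l - r i = e then c j * c l / c i else 0)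
    - (if r i + r l - r j = e then c i * c l / c j else 0)
    - (if r i + r j - r l = e then c i * c j / c l else 0)

/-- The coefficient of `w ^ e` in the equation along `u i = c i * w ^ r i`. -/
def cf (s : Finset ι) (T : ι → ι → ι → k) (γ c : ι → k) (r : ι → ℤ) (i : ι) (e : ℤ) : k :=
  (if r i = e then γ i * c i else 0) + 1 / 4 * ∑ j ∈ s, ∑ l ∈ s, T i j l * br c r i j l e

omit [LinearOrder k] [IsStrictOrderedRing k] in
theorem br_swap (c : ι → k) (r : ι → ℤ) (i j l : ι) (e : ℤ) : br c r i j l e = br c r i l j e := by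
  unfold br
  rw [add_comm (r j) (r l), mul_comm (c j) (c l)]
  ring

/-- A double sum of nonnegative terms which vanishes. -/
theorem sum_zero {s : Finset ι} {f : ι → ι → k} (h0 : ∀ a ∈ s, ∀ b ∈ s, 0 ≤ f a b)
    (hs : ∑ a ∈ s, ∑ b ∈ s, f a b = 0) {a b : ι} (ha : a ∈ s) (hb : b ∈ s) : f a b = 0 := by
  have h1 := (Finset.sum_eq_zero_iff_of_nonneg fun a ha => Finset.sum_nonneg fun b hb =>
    h0 a ha b hb).1 hs a ha
  exact (Finset.sum_eq_zero_iff_of_nonneg fun b hb => h0 a ha b hb).1 h1 b hb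

variable {s : Finset ι} {T : ι → ι → ι → k} {γ c : ι → k} {r : ι → ℤ} {p : ℤ}

/-- If the linear term is absent and all terms are nonnegative, they vanish. -/
theorem cf_zero {i : ι} {e : ℤ} (hg : 0 ≤ if r i = e then γ i * c i else 0)
    (h0 : ∀ a ∈ s, ∀ b ∈ s, 0 ≤ T i a b * br c r i a b e) (h : cf s T γ c r i e = 0) :
    (if r i = e then γ i * c i else 0) = 0 ∧ ∀ a ∈ s, ∀ b ∈ s, T i a b * br c r i a b e = 0 := by
  unfold cf at h
  have h1 : 0 ≤ ∑ j ∈ s, ∑ l ∈ s, T i j l * br c r i j l e :=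
    Finset.sum_nonneg fun a ha => Finset.sum_nonneg fun b hb => h0 a ha b hb
  have h2 : ∑ j ∈ s, ∑ l ∈ s, T i j l * br c r i j l e = 0 := by linarith
  refine ⟨by linarith, fun a ha b hb => sum_zero h0 h2 ha hb⟩

theorem step_a (hT : Sym T) (hT0 : ∀ i j l, 0 ≤ T i j l) (hc : ∀ i, 0 < c i)
    (hcf : ∀ i ∈ s, ∀ e : ℤ, e < 0 → cf s T γ c r i e = 0) (hp : 0 < p) (hr : ∀ i ∈ s, -p ≤ r i)
    {i j l : ι} (hi : i ∈ s) (hj : j ∈ s) (hl : l ∈ s) (h : T i j l ≠ 0) :
    -p ≤ r i + r j - r l := by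
  classical
  by_contra hlt
  push Not at hlt
  set P := (s ×ˢ (s ×ˢ s)).filter fun x => T x.1 x.2.1 x.2.2 ≠ 0 with hP
  have hmem : ∀ {a b d : ι}, a ∈ s → b ∈ s → d ∈ s → T a b d ≠ 0 → (a, b, d) ∈ P := by
    intro a b d ha hb hd h1
    rw [hP, Finset.mem_filter, Finset.mem_product, Finset.mem_product]
    exact ⟨⟨ha, hb, hd⟩, h1⟩
  obtain ⟨x0, hx0, hmin⟩ := P.exists_min_image (fun x => r x.1 + r x.2.1 - r x.2.2)
    ⟨_, hmem hi hj hl h⟩
  set e := r x0.1 + r x0.2.1 - r x0.2.2 with he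
  obtain ⟨x, hx, hmax⟩ := (P.filter fun x => r x.1 + r x.2.1 - r x.2.2 = e).exists_max_image
    (fun x => r x.2.2) ⟨x0, Finset.mem_filter.2 ⟨hx0, rfl⟩⟩
  obtain ⟨hxP, hxe⟩ := Finset.mem_filter.1 hx
  have hxP' := hxP
  rw [hP, Finset.mem_filter, Finset.mem_product, Finset.mem_product] at hxP'
  obtain ⟨⟨ha, hb, hd⟩, hne⟩ := hxP'
  have hep : e < -p := lt_of_le_of_lt (hmin _ (hmem hi hj hl h)) hlt
  have hne' : ∀ a ∈ s, ∀ b ∈ s, T x.2.2 a b ≠ 0 → ¬ (r x.2.2 + r b - r a = e) := by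
    intro a ha' b hb' h1 h2
    have h3 := hmax (x.2.2, b, a) (Finset.mem_filter.2 ⟨hmem hd hb' ha' (by rwa [hT.2]), h2⟩)
    have h4 := hr b hb'
    simp only at h3
    linarith
  have hval : ∀ a ∈ s, ∀ b ∈ s, T x.2.2 a b * br c r x.2.2 a b e =
      T x.2.2 a b * (if r a + r b - r x.2.2 = e then c a * c b / c x.2.2 else 0) := by
    intro a ha' b hb'
    by_cases h1 : T x.2.2 a b = 0
    · rw [h1, zero_mul, zero_mul]
    · unfold br
      rw [if_neg (by have := hr _ hd; intro h2; rw [h2] at this; exact absurd this (not_le.2 hep)),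
        if_neg (hne' a ha' b hb' h1), if_neg (hne' b hb' a ha' (by rwa [hT.2]))]
      ring
  have hnn : ∀ a ∈ s, ∀ b ∈ s, 0 ≤ T x.2.2 a b * br c r x.2.2 a b e := by
    intro a ha' b hb'
    rw [hval a ha' b hb']
    refine mul_nonneg (hT0 _ _ _) ?_
    split_ifs
    · exact (div_pos (mul_pos (hc _) (hc _)) (hc _)).le
    · exact le_rfl
  have hg : (if r x.2.2 = e then γ x.2.2 * c x.2.2 else 0) = 0 :=
    if_neg (by have := hr _ hd; intro h2; rw [h2] at this; exact absurd this (not_le.2 hep))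
  have h5 := (cf_zero (by rw [hg]) hnn (hcf x.2.2 hd e (by linarith))).2 x.1 ha x.2.1 hb
  rw [hval _ ha _ hb, if_pos hxe] at h5
  have h6 : T x.2.2 x.1 x.2.1 ≠ 0 := by
    rw [hT.1, hT.2]
    exact hne
  exact mul_ne_zero h6 (div_pos (mul_pos (hc _) (hc _)) (hc _)).ne' h5

end Pool.Agent.H.MP_deabf1_gt.Gn
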