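import Pool.Agent.H.MP_deabf1_gt.helper65.Gn1

/-!
Monomial curves of positive solutions do not exist: the lowest order.
-/

namespace Pool.Agent.H.MP_deabf1_gt.Gn

variable {ι k : Type*} [Field k] [LinearOrder k] [IsStrictOrderedRing k]
  {s : Finset ι} {T : ι → ι → ι → k} {γ c : ι → k} {r : ι → ℤ} {p : ℤ}

/-- The two exceptional configurations at the index `l`. -/
def Bad (s : Finset ι) (T : ι → ι → ι → k) (c : ι → k) (r : ι → ℤ) (p : ℤ) (l : ι) : Prop :=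
  ∃ a ∈ s, ∃ b ∈ s, T l a b ≠ 0 ∧
    ((-p < r a ∧ -p < r b ∧ r a + r b - r l = -p) ∨ (r a = -p ∧ c b ≠ c l))

theorem step_b (hT : Sym T) (hT0 : ∀ i j l, 0 ≤ T i j l) (hc : ∀ i, 0 < c i)
    (hcf : ∀ i ∈ s, ∀ e : ℤ, e < 0 → cf s T γ c r i e = 0) (hp : 0 < p) (hr : ∀ i ∈ s, -p ≤ r i)
    {l : ι} (hl : l ∈ s) (hlp : -p < r l) : ¬ Bad s T c r p l := by
  classical
  intro hbad
  have hA : ∀ {i j l : ι}, i ∈ s → j ∈ s → l ∈ s → T i j l ≠ 0 → -p ≤ r i + r j - r l :=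
    fun hi hj hl h => step_a hT hT0 hc hcf hp hr hi hj hl h
  set P := s.filter fun x => -p < r x ∧ Bad s T c r p x with hP
  obtain ⟨x0, hx0, hmax⟩ := P.exists_max_image r ⟨l, Finset.mem_filter.2 ⟨hl, hlp, hbad⟩⟩
  obtain ⟨x, hx, hmin⟩ := (P.filter fun x => r x = r x0).exists_min_image c
    ⟨x0, Finset.mem_filter.2 ⟨hx0, rfl⟩⟩
  obtain ⟨hxP, hxe⟩ := Finset.mem_filter.1 hx
  obtain ⟨hxs, hxp, hxbad⟩ := Finset.mem_filter.1 hxP
  -- indices `a` with `r a = -p` give `r b = r x`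
  have hlev : ∀ {a b : ι}, a ∈ s → b ∈ s → T x a b ≠ 0 → r a = -p → r b = r x := by
    intro a b ha hb h1 h2
    have h3 := hA ha hxs hb (by rwa [hT.1])
    have h4 := hA ha hb hxs (by rwa [hT.2, hT.1])
    linarith
  have hB : ∀ {a b : ι}, a ∈ s → b ∈ s → T x a b ≠ 0 → r a = -p → c b ≠ c x → c x < c b := by
    intro a b ha hb h1 h2 h3
    have h4 := hlev ha hb h1 h2
    have h5 : T b a x ≠ 0 := by rwa [hT.2, hT.1, hT.2]
    refine lt_of_le_of_ne (hmin b (Finset.mem_filter.2 ⟨Finset.mem_filter.2 ⟨hb, ?_, ?_⟩, ?_⟩))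
      (Ne.symm h3)
    · rw [h4]
      exact hxp
    · exact ⟨a, ha, x, hxs, h5, Or.inr ⟨h2, Ne.symm h3⟩⟩
    · rw [h4, hxe]
  have hC : ∀ {a b : ι}, a ∈ s → b ∈ s → T x a b ≠ 0 → -p < r b → r x + r b - r a ≠ -p := by
    intro a b ha hb h1 h2 h3
    have h5 : T a x b ≠ 0 := by rwa [hT.1]
    have h6 := hmax a (Finset.mem_filter.2 ⟨ha, by linarith, x, hxs, b, hb, h5,
      Or.inl ⟨hxp, h2, h3⟩⟩)
    rw [← hxe] at h6
    linarith
  have hval1 : ∀ {a b : ι}, a ∈ s → b ∈ s → T x a b ≠ 0 → r a = -p →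
      br c r x a b (-p) = c a * (c b / c x - c x / c b) := by
    intro a b ha hb h1 h2
    have h3 := hlev ha hb h1 h2
    unfold br
    rw [if_neg (by linarith), if_pos (by linarith), if_neg (by linarith), if_pos (by linarith)]
    ring
  have hdiff : ∀ {b : ι}, c x < c b → 0 < c b / c x - c x / c b := by
    intro b h
    have h1 : c x / c b < 1 := (div_lt_one (hc b)).2 h
    have h2 : 1 < c b / c x := (one_lt_div (hc x)).2 h
    linarith
  have hval2 : ∀ {a b : ι}, a ∈ s → b ∈ s → T x a b ≠ 0 → -p < r a → -p < r b →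
      br c r x a b (-p) = if r a + r b - r x = -p then c a * c b / c x else 0 := by
    intro a b ha hb h1 h2 h3
    unfold br
    rw [if_neg (by linarith), if_neg (hC ha hb h1 h3), if_neg (hC hb ha (by rwa [hT.2]) h2)]
    ring
  have hnn1 : ∀ {a b : ι}, a ∈ s → b ∈ s → T x a b ≠ 0 → r a = -p → 0 ≤ br c r x a b (-p) := by
    intro a b ha hb h1 h2
    rw [hval1 ha hb h1 h2]
    by_cases h3 : c b = c x
    · rw [h3, sub_self, mul_zero]
    · exact (mul_pos (hc a) (hdiff (hB ha hb h1 h2 h3))).le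
  have hnn : ∀ a ∈ s, ∀ b ∈ s, 0 ≤ T x a b * br c r x a b (-p) := by
    intro a ha b hb
    by_cases h1 : T x a b = 0
    · rw [h1, zero_mul]
    refine mul_nonneg (hT0 _ _ _) ?_
    rcases (hr a ha).lt_or_eq with h2 | h2
    · rcases (hr b hb).lt_or_eq with h3 | h3
      · rw [hval2 ha hb h1 h2 h3]
        split_ifs
        · exact (div_pos (mul_pos (hc _) (hc _)) (hc _)).le
        · exact le_rfl
      · rw [br_swap]
        exact hnn1 hb ha (by rwa [hT.2]) h3.symm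
    · exact hnn1 ha hb h1 h2.symm
  have hg : (if r x = -p then γ x * c x else 0) = 0 := if_neg (by linarith)
  obtain ⟨a, ha, b, hb, h1, h2⟩ := hxbad
  have h5 := (cf_zero (by rw [hg]) hnn (hcf x hxs (-p) (by linarith))).2 a ha b hb
  rcases h2 with ⟨h2, h3, h4⟩ | ⟨h2, h3⟩
  · rw [hval2 ha hb h1 h2 h3, if_pos h4] at h5
    exact mul_ne_zero h1 (div_pos (mul_pos (hc _) (hc _)) (hc _)).ne' h5
  · rw [hval1 ha hb h1 h2] at h5
    exact mul_ne_zero h1 (mul_pos (hc a) (hdiff (hB ha hb h1 h2 h3))).ne' h5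

/-- The term with the largest eigenvalue is positive. -/
theorem term_pos {a b c : k} (ha : 0 < a) (hb : a ≤ b) (hc : a ≤ c) :
    0 < 2 * a + b * c / a - a * c / b - a * b / c := by
  have hb0 : 0 < b := lt_of_lt_of_le ha hb
  have hc0 : 0 < c := lt_of_lt_of_le ha hc
  have e1 : 2 * a + b * c / a - a * c / b - a * b / c =
      ((a * c + b * (c - a)) * (a * b + c * (b - a))) / (a * b * c) := by
    field_simp
    ring
  rw [e1]
  have e2 : 0 ≤ b * (c - a) := mul_nonneg hb0.le (sub_nonneg.2 hc)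
  have e3 : 0 ≤ c * (b - a) := mul_nonneg hc0.le (sub_nonneg.2 hb)
  have e4 : 0 < a * c := mul_pos ha hc0
  have e5 : 0 < a * b := mul_pos ha hb0
  exact div_pos (mul_pos (by linarith) (by linarith)) (by positivity)

theorem step_c (hT : Sym T) (hT0 : ∀ i j l, 0 ≤ T i j l) (hγ : ∀ i ∈ s, 0 ≤ γ i)
    (hc : ∀ i, 0 < c i)
    (hcf : ∀ i ∈ s, ∀ e : ℤ, e < 0 → cf s T γ c r i e = 0) (hp : 0 < p) (hr : ∀ i ∈ s, -p ≤ r i)
    {i : ι} (hi : i ∈ s) (hip : r i = -p) :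
    γ i = 0 ∧ ∀ a ∈ s, ∀ b ∈ s, T i a b ≠ 0 → r a = r b ∧ -p < r a ∧ c a = c b := by
  classical
  have hA : ∀ {i j l : ι}, i ∈ s → j ∈ s → l ∈ s → T i j l ≠ 0 → -p ≤ r i + r j - r l :=
    fun hi hj hl h => step_a hT hT0 hc hcf hp hr hi hj hl h
  have hlev : ∀ {i a b : ι}, i ∈ s → a ∈ s → b ∈ s → T i a b ≠ 0 → r i = -p → r a = r b := by
    intro i a b hi ha hb h1 h2
    have h3 := hA hi ha hb h1
    have h4 := hA hi hb ha (by rwa [hT.2])
    linarith
  have heq : ∀ {i a b : ι}, i ∈ s → a ∈ s → b ∈ s → T i a b ≠ 0 → r i = -p → -p < r a →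
      c a = c b := by
    intro i a b hi ha hb h1 h2 h3
    by_contra h4
    exact step_b hT hT0 hc hcf hp hr ha h3 ⟨i, hi, b, hb, by rwa [hT.1], Or.inr ⟨h2, Ne.symm h4⟩⟩
  have key : ∀ {i : ι}, i ∈ s → r i = -p → ¬ (γ i ≠ 0 ∨ ∃ a ∈ s, ∃ b ∈ s, T i a b ≠ 0 ∧ r a = -p) := by
    intro i hi hip hbad
    obtain ⟨x, hx, hmin⟩ := (s.filter fun x => r x = -p ∧ (γ x ≠ 0 ∨ ∃ a ∈ s, ∃ b ∈ s,
      T x a b ≠ 0 ∧ r a = -p)).exists_min_image c ⟨i, Finset.mem_filter.2 ⟨hi, hip, hbad⟩⟩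
    obtain ⟨hxs, hxp, hxbad⟩ := Finset.mem_filter.1 hx
    have hval : ∀ {a b : ι}, a ∈ s → b ∈ s → T x a b ≠ 0 → r a = -p →
        0 < br c r x a b (-p) := by
      intro a b ha hb h1 h2
      have h3 := hlev hxs ha hb h1 hxp
      have h4 : br c r x a b (-p) = 2 * c x + c a * c b / c x - c x * c b / c a - c x * c a / c b := by
        unfold br
        rw [if_pos hxp, if_pos (by linarith), if_pos (by linarith), if_pos (by linarith)]
      rw [h4]
      refine term_pos (hc x) (hmin a ?_) (hmin b ?_)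
      · exact Finset.mem_filter.2 ⟨ha, h2, Or.inr ⟨x, hxs, b, hb, by rwa [hT.1], hxp⟩⟩
      · refine Finset.mem_filter.2 ⟨hb, by rw [← h3, h2], Or.inr ⟨x, hxs, a, ha, ?_, hxp⟩⟩
        rwa [hT.1, hT.2]
    have hval0 : ∀ {a b : ι}, a ∈ s → b ∈ s → T x a b ≠ 0 → -p < r a →
        br c r x a b (-p) = 0 := by
      intro a b ha hb h1 h2
      have h3 := hlev hxs ha hb h1 hxp
      have h4 := heq hxs ha hb h1 hxp h2
      unfold br
      rw [if_pos hxp, if_neg (by linarith), if_pos (by linarith), if_pos (by linarith), ← h4,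
        mul_div_assoc, div_self (hc a).ne']
      ring
    have hnn : ∀ a ∈ s, ∀ b ∈ s, 0 ≤ T x a b * br c r x a b (-p) := by
      intro a ha b hb
      by_cases h1 : T x a b = 0
      · rw [h1, zero_mul]
      refine mul_nonneg (hT0 _ _ _) ?_
      rcases (hr a ha).lt_or_eq with h2 | h2
      · rw [hval0 ha hb h1 h2]
      · exact (hval ha hb h1 h2.symm).le
    obtain ⟨h5, h6⟩ := cf_zero (by rw [if_pos hxp]; exact mul_nonneg (hγ x hxs) (hc x).le) hnn
      (hcf x hxs (-p) (by linarith))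
    rcases hxbad with h7 | ⟨a, ha, b, hb, h7, h8⟩
    · rw [if_pos hxp] at h5
      exact mul_ne_zero h7 (hc x).ne' h5
    · exact mul_ne_zero h7 (hval ha hb h7 h8).ne' (h6 a ha b hb)
  refine ⟨?_, fun a ha b hb h1 => ?_⟩
  · by_contra h1
    exact key hi hip (Or.inl h1)
  · have h2 : -p < r a := by
      rcases (hr a ha).lt_or_eq with h2 | h2
      · exact h2
      · exact absurd (Or.inr ⟨a, ha, b, hb, h1, h2.symm⟩) (key hi hip)
    exact ⟨hlev hi ha hb h1 hip, h2, heq hi ha hb h1 hip h2⟩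

end Pool.Agent.H.MP_deabf1_gt.Gn
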