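import Pool.Agent.H.MP_deabf1_gt.helper65.Gn2

/-!
Monomial curves of positive solutions do not exist: induction.
-/

namespace Pool.Agent.H.MP_deabf1_gt.Gn

variable {ι k : Type*} [Field k] [LinearOrder k] [IsStrictOrderedRing k]
  {s : Finset ι} {T : ι → ι → ι → k} {γ c d : ι → k} {r : ι → ℤ} {p : ℤ}

theorem step_d (hT : Sym T) (hT0 : ∀ i j l, 0 ≤ T i j l) (hγ : ∀ i ∈ s, 0 ≤ γ i)
    (hc : ∀ i, 0 < c i) (hd : ∀ i ∈ s, 0 < d i)
    (hcf : ∀ i ∈ s, ∀ e : ℤ, cf s T γ c r i e = if e = 0 then d i else 0) (hp : 0 < p)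
    (hr : ∀ i ∈ s, -p ≤ r i) {i : ι} (hi : i ∈ s) (hip : r i = -p) :
    γ i = 0 ∧ (∀ a ∈ s, ∀ b ∈ s, T i a b ≠ 0 → 2 * r a = -p ∧ 2 * r b = -p ∧ c a = c b) ∧
      ∃ a ∈ s, ∃ b ∈ s, T i a b ≠ 0 := by
  have hcf' : ∀ i ∈ s, ∀ e : ℤ, e < 0 → cf s T γ c r i e = 0 := by
    intro i hi e he
    rw [hcf i hi e, if_neg he.ne]
  obtain ⟨hg, hab⟩ := step_c hT hT0 hγ hc hcf' hp hr hi hip
  have hval : ∀ e : ℤ, ∀ a ∈ s, ∀ b ∈ s, T i a b * br c r i a b e =
      T i a b * (if 2 * r a + p = e then c a * c a / c i else 0) := by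
    intro e a ha b hb
    by_cases h1 : T i a b = 0
    · rw [h1, zero_mul, zero_mul]
    obtain ⟨h2, h3, h4⟩ := hab a ha b hb h1
    congr 1
    unfold br
    rw [← h2, ← h4, hip]
    simp only [add_sub_cancel_right, mul_div_assoc, div_self (hc a).ne', mul_one]
    rw [show r a + r a - -p = 2 * r a + p by ring]
    split_ifs <;> ring
  have hcfv : ∀ e : ℤ, cf s T γ c r i e = 1 / 4 * ∑ a ∈ s, ∑ b ∈ s,
      T i a b * (if 2 * r a + p = e then c a * c a / c i else 0) := by
    intro e
    unfold cf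
    rw [hg, zero_mul, ite_self, zero_add]
    congr 1
    exact Finset.sum_congr rfl fun a ha => Finset.sum_congr rfl fun b hb => hval e a ha b hb
  have hnn : ∀ e : ℤ, ∀ a ∈ s, ∀ b ∈ s,
      0 ≤ T i a b * (if 2 * r a + p = e then c a * c a / c i else 0) := by
    intro e a _ b _
    refine mul_nonneg (hT0 _ _ _) ?_
    split_ifs
    · exact (div_pos (mul_pos (hc _) (hc _)) (hc _)).le
    · exact le_rfl
  have hz : ∀ a ∈ s, ∀ b ∈ s, T i a b ≠ 0 → 2 * r a + p = 0 := by
    intro a ha b hb h1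
    by_contra h2
    have h3 : cf s T γ c r i (2 * r a + p) = 0 := by rw [hcf i hi, if_neg h2]
    rw [hcfv] at h3
    have h4 : ∑ a' ∈ s, ∑ b ∈ s, T i a' b *
        (if 2 * r a' + p = 2 * r a + p then c a' * c a' / c i else 0) = 0 := by linarith
    have h5 := sum_zero (hnn _) h4 ha hb
    rw [if_pos rfl] at h5
    exact mul_ne_zero h1 (div_pos (mul_pos (hc _) (hc _)) (hc _)).ne' h5
  refine ⟨hg, fun a ha b hb h1 => ?_, ?_⟩
  · obtain ⟨h2, h3, h4⟩ := hab a ha b hb h1
    have h5 := hz a ha b hb h1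
    exact ⟨by linarith, by linarith, h4⟩
  · by_contra h1
    push Not at h1
    have h2 := hcf i hi 0
    rw [if_pos rfl, hcfv, Finset.sum_eq_zero fun a ha => Finset.sum_eq_zero fun b hb => by
      rw [h1 a ha b hb, zero_mul], mul_zero] at h2
    exact (hd i hi).ne h2

/-- The exponents of a monomial curve of positive solutions are not negative. -/
theorem nonneg (hT : Sym T) (hT0 : ∀ i j l, 0 ≤ T i j l) (hc : ∀ i, 0 < c i) (s : Finset ι) :
    ∀ (γ d : ι → k), (∀ i ∈ s, 0 ≤ γ i) → (∀ i ∈ s, 0 < d i) →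
      (∀ i ∈ s, ∀ e : ℤ, cf s T γ c r i e = if e = 0 then d i else 0) → ∀ i ∈ s, 0 ≤ r i := by
  classical
  induction s using Finset.strongInduction with
  | H s ih =>
    intro γ d hγ hd hcf i0 hi0
    by_contra hneg
    push Not at hneg
    obtain ⟨x, hx, hmin⟩ := s.exists_min_image r ⟨i0, hi0⟩
    obtain ⟨p, hp⟩ : ∃ p : ℤ, r x = -p := ⟨-r x, by ring⟩
    have hxneg : r x < 0 := lt_of_le_of_lt (hmin i0 hi0) hneg
    have hp0 : 0 < p := by linarith
    have hr : ∀ i ∈ s, -p ≤ r i := fun i hi => hp ▸ hmin i hi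
    have hD : ∀ {i : ι}, i ∈ s → r i = -p → γ i = 0 ∧
        (∀ a ∈ s, ∀ b ∈ s, T i a b ≠ 0 → 2 * r a = -p ∧ 2 * r b = -p ∧ c a = c b) ∧
        ∃ a ∈ s, ∃ b ∈ s, T i a b ≠ 0 := fun hi h => step_d hT hT0 hγ hc hd hcf hp0 hr hi h
    -- the remaining indices
    have hsub : s.filter (fun i => r i ≠ -p) ⊂ s := by
      refine Finset.filter_ssubset.2 ⟨x, hx, ?_⟩
      rw [not_not]
      exact hp
    obtain ⟨-, h1, a, ha, b, hb, hab⟩ := hD hx hp
    have h2 := (h1 a ha b hb hab).1
    have h3 := ih _ hsub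
      (fun l => γ l + ∑ i ∈ s.filter (fun i => r i = -p), ∑ j ∈ s.filter (fun i => r i ≠ -p), T l i j)
      (fun l => d l + 1 / 2 * ∑ i ∈ s.filter (fun i => r i = -p),
        ∑ j ∈ s.filter (fun i => r i ≠ -p), T l i j * (c l * c l / c i)) ?_ ?_ ?_ a
      (Finset.mem_filter.2 ⟨ha, by intro h4; rw [h4] at h2; linarith⟩)
    · linarith
    · intro i hi
      exact add_nonneg (hγ i (Finset.mem_filter.1 hi).1) (Finset.sum_nonneg fun _ _ =>
        Finset.sum_nonneg fun _ _ => hT0 _ _ _)
    · intro i hi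
      refine add_pos_of_pos_of_nonneg (hd i (Finset.mem_filter.1 hi).1) (mul_nonneg (by norm_num)
        (Finset.sum_nonneg fun _ _ => Finset.sum_nonneg fun _ _ => mul_nonneg (hT0 _ _ _) ?_))
      exact (div_pos (mul_pos (hc _) (hc _)) (hc _)).le
    · intro l hl e
      obtain ⟨hls, hlp⟩ := Finset.mem_filter.1 hl
      have hold := hcf l hls e
      set I := s.filter (fun i => r i = -p) with hI
      set J := s.filter (fun i => r i ≠ -p) with hJ
      have hsplit : ∀ f : ι → k, ∑ a ∈ s, f a = ∑ a ∈ I, f a + ∑ a ∈ J, f a := fun f =>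
        (Finset.sum_filter_add_sum_filter_not s (fun i => r i = -p) f).symm
      have hII : ∀ a ∈ I, ∀ b ∈ I, T l a b = 0 := by
        intro a ha b hb
        obtain ⟨ha1, ha2⟩ := Finset.mem_filter.1 ha
        obtain ⟨hb1, hb2⟩ := Finset.mem_filter.1 hb
        by_contra h4
        have h5 := ((hD ha1 ha2).2.1 l hls b hb1 (by rwa [hT.1])).2.1
        rw [hb2] at h5
        linarith
      have hIJ : ∀ a ∈ I, ∀ b ∈ J, T l a b * br c r l a b e =
          T l a b * (2 * (if r l = e then c l else 0) - if e = 0 then c l * c l / c a else 0) := by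
        intro a ha b hb
        obtain ⟨ha1, ha2⟩ := Finset.mem_filter.1 ha
        obtain ⟨hb1, hb2⟩ := Finset.mem_filter.1 hb
        by_cases h4 : T l a b = 0
        · rw [h4, zero_mul, zero_mul]
        obtain ⟨h5, h6, h7⟩ := (hD ha1 ha2).2.1 l hls b hb1 (by rwa [hT.1])
        have h8 : r b = r l := by linarith
        congr 1
        unfold br
        rw [← h7, h8, ha2, show -p + r l - r l = -p by ring, show r l + r l - -p = 0 by linarith,
          show r l + -p - r l = -p by ring, mul_div_assoc (c a), div_self (hc l).ne',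
          mul_comm (c l) (c a), mul_div_assoc (c a) (c l), div_self (hc l).ne']
        by_cases h9 : e = 0
        · subst h9
          rw [if_pos rfl]
          split_ifs <;> ring
        · rw [if_neg (Ne.symm h9), if_neg h9]
          split_ifs <;> ring
      have hnew : cf s T γ c r l e = cf J T (fun l => γ l + ∑ i ∈ I, ∑ j ∈ J, T l i j) c r l e -
          (if e = 0 then 1 / 2 * ∑ i ∈ I, ∑ j ∈ J, T l i j * (c l * c l / c i) else 0) := by
        have e1 : ∑ a ∈ s, ∑ b ∈ s, T l a b * br c r l a b e =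
            2 * (∑ a ∈ I, ∑ b ∈ J, T l a b * br c r l a b e) +
              ∑ a ∈ J, ∑ b ∈ J, T l a b * br c r l a b e := by
          rw [hsplit]
          simp only [hsplit (fun b => T l _ b * br c r l _ b e)]
          rw [Finset.sum_add_distrib, Finset.sum_add_distrib,
            Finset.sum_eq_zero fun a ha => Finset.sum_eq_zero fun b hb => by
              rw [hII a ha b hb, zero_mul]]
          have e2 : ∑ a ∈ J, ∑ b ∈ I, T l a b * br c r l a b e =
              ∑ a ∈ I, ∑ b ∈ J, T l a b * br c r l a b e := by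
            rw [Finset.sum_comm]
            refine Finset.sum_congr rfl fun a _ => Finset.sum_congr rfl fun b _ => ?_
            rw [hT.2 l b a, br_swap]
          rw [e2]
          ring
        have e3 : ∑ a ∈ I, ∑ b ∈ J, T l a b * br c r l a b e =
            2 * (if r l = e then c l else 0) * (∑ a ∈ I, ∑ b ∈ J, T l a b) -
              if e = 0 then ∑ a ∈ I, ∑ b ∈ J, T l a b * (c l * c l / c a) else 0 := by
          rw [Finset.sum_congr rfl fun a ha => Finset.sum_congr rfl fun b hb => hIJ a ha b hb]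
          by_cases h9 : e = 0
          · simp only [if_pos h9, mul_sub, Finset.sum_sub_distrib, Finset.mul_sum]
            congr 1
            exact Finset.sum_congr rfl fun a _ => Finset.sum_congr rfl fun b _ => by ring
          · simp only [if_neg h9, sub_zero, Finset.mul_sum]
            exact Finset.sum_congr rfl fun a _ => Finset.sum_congr rfl fun b _ => by ring
        unfold cf
        rw [e1, e3]
        split_ifs <;> ring
      rw [hnew] at hold
      have hJe : cf J T (fun l => γ l + ∑ i ∈ I, ∑ j ∈ J, T l i j) c r l e =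
          (if e = 0 then d l else 0) +
          (if e = 0 then 1 / 2 * ∑ i ∈ I, ∑ j ∈ J, T l i j * (c l * c l / c i) else 0) := by
        rw [← hold]
        ring
      rw [hJe]
      split_ifs
      · rfl
      · ring

end Pool.Agent.H.MP_deabf1_gt.Gn
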