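import Pool.Agent.H.MP_deabf1_gt.helper65.Gn3

/-!
The equations along a monomial curve as Laurent polynomials.
-/

namespace Pool.Agent.H.MP_deabf1_gt.Gn

open Finsupp Polynomial

/-- A Laurent polynomial with infinitely many zeros vanishes. -/
theorem lau_zero {k : Type*} [Field k] (f : ℤ →₀ k)
    (h : {w : k | w ≠ 0 ∧ linearCombination k (fun e : ℤ => w ^ e) f = 0}.Infinite) : f = 0 := by
  classical
  obtain ⟨N, hN⟩ : ∃ N : ℕ, ∀ e ∈ f.support, 0 ≤ e + N := by
    refine ⟨f.support.sup (fun e => (-e).toNat), fun e he => ?_⟩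
    have h1 : (-e).toNat ≤ f.support.sup (fun e => (-e).toNat) :=
      Finset.le_sup (f := fun e : ℤ => (-e).toNat) he
    have h2 : -e ≤ ((-e).toNat : ℤ) := Int.self_le_toNat _
    have h3 : ((-e).toNat : ℤ) ≤ (f.support.sup (fun e => (-e).toNat) : ℕ) := by exact_mod_cast h1
    linarith
  set P : k[X] := ∑ e ∈ f.support, monomial (e + N).toNat (f e) with hP
  have hev : ∀ w : k, w ≠ 0 → P.eval w = w ^ N * linearCombination k (fun e : ℤ => w ^ e) f := by
    intro w hw
    rw [hP, eval_finsetSum, linearCombination_apply, Finsupp.sum, Finset.mul_sum]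
    refine Finset.sum_congr rfl fun e he => ?_
    rw [eval_monomial, smul_eq_mul]
    have h1 : w ^ (e + N).toNat = w ^ (e + N : ℤ) := by
      rw [← zpow_natCast, Int.toNat_of_nonneg (hN e he)]
    rw [h1, zpow_add₀ hw, zpow_natCast]
    ring
  have hP0 : P = 0 := by
    refine eq_zero_of_infinite_isRoot P (h.mono ?_)
    rintro w ⟨hw, h0⟩
    change P.eval w = 0
    rw [hev w hw, h0, mul_zero]
  ext e
  by_contra hne
  have he : e ∈ f.support := Finsupp.mem_support_iff.2 hne
  have h1 : P.coeff (e + N).toNat = f e := by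
    rw [hP, finsetSum_coeff, Finset.sum_eq_single e]
    · rw [coeff_monomial, if_pos rfl]
    · intro e' he' hne'
      rw [coeff_monomial, if_neg]
      intro h2
      apply hne'
      have h3 := hN e he
      have h4 := hN e' he'
      omega
    · intro h2
      exact absurd he h2
  rw [hP0, coeff_zero] at h1
  exact hne h1.symm

variable {ι k : Type*} [Fintype ι] [Field k]

/-- The equation along a monomial curve. -/
noncomputable def fl (T : ι → ι → ι → k) (γ c : ι → k) (r : ι → ℤ) (i : ι) : ℤ →₀ k :=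
  single (r i) (γ i * c i) + (1 / 4 : k) • ∑ j, ∑ l, T i j l •
    (single (r i) (2 * c i) + single (r j + r l - r i) (c j * c l / c i) -
      single (r i + r l - r j) (c i * c l / c j) - single (r i + r j - r l) (c i * c j / c l))

theorem fl_apply [LinearOrder k] [IsStrictOrderedRing k] (T : ι → ι → ι → k) (γ c : ι → k)
    (r : ι → ℤ) (i : ι) (e : ℤ) :
    fl T γ c r i e = cf Finset.univ T γ c r i e := by
  classical
  unfold fl cf br
  simp only [Finsupp.add_apply, Finsupp.smul_apply, Finsupp.finsetSum_apply, Finsupp.sub_apply,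
    Finsupp.single_apply, smul_eq_mul]

theorem eqL_curve {T : ι → ι → ι → k} {γ c : ι → k} {r : ι → ℤ} (_hc : ∀ i, c i ≠ 0) {w : k}
    (hw : w ≠ 0) (i : ι) : eqL T γ (fun i => c i * w ^ r i) i =
      linearCombination k (fun e : ℤ => w ^ e) (fl T γ c r i) := by
  classical
  unfold eqL fl
  simp only [map_add, map_smul, map_sum, map_sub, linearCombination_single, smul_eq_mul]
  have hwr : ∀ e : ℤ, w ^ e ≠ 0 := fun e => zpow_ne_zero e hw
  have h1 : ∀ a b d : ι, c a * w ^ r a * (c b * w ^ r b) / (c d * w ^ r d) =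
      c a * c b / c d * w ^ (r a + r b - r d) := by
    intro a b d
    rw [zpow_sub₀ hw, zpow_add₀ hw]
    field_simp
  congr 1
  · ring
  congr 1
  refine Finset.sum_congr rfl fun j _ => Finset.sum_congr rfl fun l _ => ?_
  rw [h1, h1, h1]
  ring

/-- Comparison of coefficients. -/
theorem coeffs [LinearOrder k] [IsStrictOrderedRing k] {T : ι → ι → ι → k} {γ c : ι → k}
    {r : ι → ℤ} (hc : ∀ i, c i ≠ 0) {d : k} {i : ι}
    (h : {w : k | w ≠ 0 ∧ eqL T γ (fun i => c i * w ^ r i) i = d}.Infinite) (e : ℤ) :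
    cf Finset.univ T γ c r i e = if e = 0 then d else 0 := by
  classical
  have h1 : fl T γ c r i - single 0 d = 0 := by
    refine lau_zero _ (h.mono ?_)
    rintro w ⟨hw, h0⟩
    refine ⟨hw, ?_⟩
    rw [map_sub, ← eqL_curve hc hw, h0, linearCombination_single, zpow_zero, smul_eq_mul, mul_one,
      sub_self]
  rw [← fl_apply, sub_eq_zero.1 h1, Finsupp.single_apply]
  exact if_congr eq_comm rfl rfl

end Pool.Agent.H.MP_deabf1_gt.Gn
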