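import Pool.Agent.H.MP_deabf1_gt.helper65.Gn4

/-!
Finiteness if the integer relations between the dimensions are proportional.
-/

namespace Pool.Agent.H.MP_deabf1_gt.Gn

/-- The pigeonhole principle. -/
theorem fibre {α β : Type*} {S : Set α} (hS : S.Infinite) {f : α → β} (hf : (f '' S).Finite) :
    ∃ b, {a | a ∈ S ∧ f a = b}.Infinite := by
  by_contra h
  push Not at h
  refine hS ((hf.biUnion fun b _ => h b).subset ?_)
  intro a ha
  exact Set.mem_biUnion (Set.mem_image_of_mem f ha) ⟨ha, rfl⟩

theorem finite_of_rank {q : ℕ} {k : Type*} [Field k] [LinearOrder k] [IsStrictOrderedRing k]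
    {T : Fin q → Fin q → Fin q → k} (hT : Sym T) (hT0 : ∀ i j l, 0 ≤ T i j l)
    {γ d : Fin q → k} (hγ : ∀ i, 0 ≤ γ i) (hd : ∀ i, 0 < d i)
    (hmono : ∀ a : Fin q → ℤ, (∀ n : Fin q → ℤ, ∑ i, (n i : k) * d i = 0 → ∑ i, a i * n i = 0) →
      ((fun u : Fin q → k => ∏ i, u i ^ a i) ''
        {u | (∀ i, 0 < u i) ∧ ∀ i, eqL T γ u i = d i}).Finite)
    (hrel : ∀ n n' : Fin q → ℤ, ∑ i, (n i : k) * d i = 0 → ∑ i, (n' i : k) * d i = 0 →
      ∀ i j, n i * n' j = n j * n' i) :
    {u : Fin q → k | (∀ i, 0 < u i) ∧ ∀ i, eqL T γ u i = d i}.Finite := by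
  classical
  set S := {u : Fin q → k | (∀ i, 0 < u i) ∧ ∀ i, eqL T γ u i = d i} with hS
  by_contra hinf
  by_cases hex : ∃ n : Fin q → ℤ, n ≠ 0 ∧ ∑ i, (n i : k) * d i = 0
  · obtain ⟨n0, hn0, hn0d⟩ := hex
    obtain ⟨i0, hi0⟩ : ∃ i, n0 i ≠ 0 := by
      by_contra h
      push Not at h
      exact hn0 (funext h)
    obtain ⟨n, hn, hgcd⟩ := Finset.extract_gcd (s := Finset.univ) n0 ⟨i0, Finset.mem_univ _⟩
    obtain ⟨m, hm⟩ := Finset.gcd_eq_sum_mul Finset.univ n
    rw [hgcd] at hm
    have hg : Finset.univ.gcd n0 ≠ 0 := by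
      intro h
      exact hi0 (Finset.gcd_eq_zero_iff.1 h i0 (Finset.mem_univ _))
    have hnd : ∑ i, (n i : k) * d i = 0 := by
      have h1 : ((Finset.univ.gcd n0 : ℤ) : k) * ∑ i, (n i : k) * d i = 0 := by
        rw [Finset.mul_sum, ← hn0d]
        refine Finset.sum_congr rfl fun i _ => ?_
        rw [hn i (Finset.mem_univ i)]
        push_cast
        ring
      exact (mul_eq_zero.1 h1).resolve_left (by exact_mod_cast hg)
    -- all monomials orthogonal to `n` take finitely many values
    have hfin : ((fun (u : Fin q → k) (x : Fin q × Fin q) => u x.1 ^ n x.2 * u x.2 ^ (-n x.1)) ''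
        S).Finite := by
      refine (Set.Finite.pi' (fun x : Fin q × Fin q => hmono
        (fun t => (if t = x.1 then n x.2 else 0) + (if t = x.2 then -n x.1 else 0)) ?_)).subset ?_
      · intro n' hn'
        simp only [add_mul, ite_mul, zero_mul, Finset.sum_add_distrib, Finset.sum_ite_eq',
          Finset.mem_univ, if_true]
        have h1 := hrel n n' hnd hn' x.2 x.1
        linarith
      · rintro _ ⟨u, hu, rfl⟩ x
        refine ⟨u, hu, ?_⟩
        have hu0 : ∀ i, u i ≠ 0 := fun i => (hu.1 i).ne'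
        simp only [zpow_add₀ (hu0 _), Finset.prod_mul_distrib]
        congr 1
        · rw [Finset.prod_eq_single x.1]
          · rw [if_pos rfl]
          · intro t _ ht
            rw [if_neg ht, zpow_zero]
          · intro h
            exact absurd (Finset.mem_univ _) h
        · rw [Finset.prod_eq_single x.2]
          · rw [if_pos rfl]
          · intro t _ ht
            rw [if_neg ht, zpow_zero]
          · intro h
            exact absurd (Finset.mem_univ _) h
    obtain ⟨κ, hκ⟩ := fibre hinf hfin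
    obtain ⟨c, hcS, hcκ⟩ := hκ.nonempty
    have hc : ∀ i, 0 < c i := hcS.1
    -- the parameter
    set W : (Fin q → k) → k := fun u => ∏ j, (u j / c j) ^ m j with hW
    have hpar : ∀ u ∈ {a | a ∈ S ∧ (fun (u : Fin q → k) (x : Fin q × Fin q) =>
        u x.1 ^ n x.2 * u x.2 ^ (-n x.1)) a = κ}, (∀ i, u i = c i * W u ^ n i) ∧ W u ≠ 0 := by
      rintro u ⟨huS, huκ⟩
      have hu : ∀ i, 0 < u i := huS.1
      have hv : ∀ i, u i / c i ≠ 0 := fun i => (div_pos (hu i) (hc i)).ne'
      have hW0 : W u ≠ 0 := Finset.prod_ne_zero_iff.2 fun j _ => zpow_ne_zero _ (hv j)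
      refine ⟨fun i => ?_, hW0⟩
      have h1 : ∀ j, (u j / c j) ^ n i = (u i / c i) ^ n j := by
        intro j
        have h2 : u j ^ n i * u i ^ (-n j) = c j ^ n i * c i ^ (-n j) := by
          have h3 := congrFun (huκ.trans hcκ.symm) (j, i)
          exact h3
        rw [zpow_neg, zpow_neg] at h2
        rw [div_zpow, div_zpow]
        have e1 : u i ^ n j ≠ 0 := zpow_ne_zero _ (hu i).ne'
        have e2 : c i ^ n j ≠ 0 := zpow_ne_zero _ (hc i).ne'
        have e3 : c j ^ n i ≠ 0 := zpow_ne_zero _ (hc j).ne'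
        field_simp at h2 ⊢
        linear_combination h2
      have h2 : W u ^ n i = u i / c i := by
        rw [hW]
        simp only
        rw [← Finset.prod_zpow]
        have h3 : ∀ j ∈ Finset.univ, ((u j / c j) ^ m j) ^ n i = (u i / c i) ^ (n j * m j) := by
          intro j _
          rw [← zpow_mul, mul_comm (m j), zpow_mul, h1 j, ← zpow_mul]
        rw [Finset.prod_congr rfl h3]
        have h4 : ∀ s : Finset (Fin q), ∏ j ∈ s, (u i / c i) ^ (n j * m j) =
            (u i / c i) ^ ∑ j ∈ s, n j * m j := by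
          intro s
          induction s using Finset.induction_on with
          | empty => simp
          | insert a s ha ih => rw [Finset.prod_insert ha, Finset.sum_insert ha, ih, zpow_add₀ (hv i)]
        rw [h4, ← hm, zpow_one]
      rw [h2, mul_div_assoc']
      exact (mul_div_cancel_left₀ (u i) (hc i).ne').symm
    have hWinf : (W '' {a | a ∈ S ∧ (fun (u : Fin q → k) (x : Fin q × Fin q) =>
        u x.1 ^ n x.2 * u x.2 ^ (-n x.1)) a = κ}).Infinite := by
      refine Set.Infinite.image ?_ hκ
      intro u hu u' hu' h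
      funext i
      rw [(hpar u hu).1 i, (hpar u' hu').1 i, h]
    have hcoef : ∀ i ∈ Finset.univ, ∀ e : ℤ, cf Finset.univ T γ c n i e = if e = 0 then d i else 0 := by
      intro i _ e
      refine coeffs (fun i => (hc i).ne') (hWinf.mono ?_) e
      rintro _ ⟨u, hu, rfl⟩
      refine ⟨(hpar u hu).2, ?_⟩
      have h1 : (fun i => c i * W u ^ n i) = u := funext fun i => ((hpar u hu).1 i).symm
      rw [h1]
      exact hu.1.2 i
    have hnn := nonneg hT hT0 hc Finset.univ γ d (fun i _ => hγ i) (fun i _ => hd i) hcoef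
    have h0 : ∀ i ∈ Finset.univ, (n i : k) * d i = 0 :=
      (Finset.sum_eq_zero_iff_of_nonneg fun i hi => mul_nonneg (by exact_mod_cast hnn i hi)
        (hd i).le).1 hnd
    have h1 : n i0 = 0 := by
      have h2 := (mul_eq_zero.1 (h0 i0 (Finset.mem_univ _))).resolve_right (hd i0).ne'
      exact_mod_cast h2
    rw [hn i0 (Finset.mem_univ _), h1, mul_zero] at hi0
    exact hi0 rfl
  · push Not at hex
    apply hinf
    have h0 : ∀ n : Fin q → ℤ, ∑ i, (n i : k) * d i = 0 → n = 0 := by
      intro n hn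
      by_contra h
      exact hex n h hn
    refine (Set.Finite.pi' (fun i : Fin q => hmono (fun t => if t = i then 1 else 0) ?_)).subset ?_
    · intro n hn
      rw [h0 n hn]
      simp
    · intro u hu i
      refine ⟨u, hu, ?_⟩
      change ∏ t, u t ^ (if t = i then (1 : ℤ) else 0) = u i
      rw [Finset.prod_eq_single i]
      · rw [if_pos rfl, zpow_one]
      · intro t _ ht
        rw [if_neg ht, zpow_zero]
      · intro h
        exact absurd (Finset.mem_univ _) h

end Pool.Agent.H.MP_deabf1_gt.Gn
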