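import Pool.Agent.H.MP_deabf1_gt.helper65.Gn5

/-!
Uniformity: the hyperreal numbers.
-/

namespace Pool.Agent.H.MP_deabf1_gt.Gn

open Filter

/-- The hyperreal numbers. -/
abbrev HR : Type := Germ (hyperfilter ℕ : Filter ℕ) ℝ

/-- The class of a sequence. -/
noncomputable def cl : (ℕ → ℝ) →+* HR := Germ.coeRingHom _

theorem cl_div (f g : ℕ → ℝ) : cl (fun n => f n / g n) = cl f / cl g := Germ.coe_div f g

theorem cl_eq {f g : ℕ → ℝ} : cl f = cl g ↔ ∀ᶠ n in (hyperfilter ℕ : Filter ℕ), f n = g n :=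
  Germ.coe_eq

theorem cl_nonneg {f : ℕ → ℝ} (h : ∀ n, 0 ≤ f n) : 0 ≤ cl f :=
  Germ.coe_le.2 (Eventually.of_forall h)

theorem cl_pos {f : ℕ → ℝ} (h : ∀ n, 0 < f n) : 0 < cl f :=
  Germ.coe_pos.2 (Eventually.of_forall h)

theorem cl_eqL {q : ℕ} (T : ℕ → Fin q → Fin q → Fin q → ℝ) (γ u : ℕ → Fin q → ℝ) (i : Fin q) :
    eqL (fun i j l => cl fun n => T n i j l) (fun i => cl fun n => γ n i)
      (fun i => cl fun n => u n i) i = cl fun n => eqL (T n) (γ n) (u n) i := by
  have h : (fun n => eqL (T n) (γ n) (u n) i) =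
      (fun n => γ n i) * (fun n => u n i) + (1 / 4 : ℕ → ℝ) * ∑ j, ∑ l, (fun n => T n i j l) *
        (2 * (fun n => u n i) + (fun n => u n j) * (fun n => u n l) / (fun n => u n i) -
          (fun n => u n i) * (fun n => u n l) / (fun n => u n j) -
          (fun n => u n i) * (fun n => u n j) / (fun n => u n l)) := by
    funext n
    unfold eqL
    simp only [Pi.add_apply, Pi.mul_apply, Finset.sum_apply, Pi.sub_apply, Pi.div_apply,
      Pi.one_apply, Pi.ofNat_apply]
  rw [h]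
  have hdiv : ∀ f g : ℕ → ℝ, cl (f / g) = cl f / cl g := fun f g => Germ.coe_div f g
  simp only [map_add, map_mul, map_sum, map_sub, hdiv, map_one, map_ofNat]
  rfl

/-- Finiteness of the number of positive solutions of the Einstein equations if all small integer
relations between the dimensions are proportional. -/
theorem real_finite (q : ℕ)
    (hmono : ∀ (T : Fin q → Fin q → Fin q → HR) (γ d : Fin q → HR) (S : Set (Fin q → HR)), Sym T →
      (∀ u ∈ S, (∀ i, u i ≠ 0) ∧ ∀ i, eqL T γ u i = d i) → ∀ a : Fin q → ℤ,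
      (∀ n : Fin q → ℤ, ∑ i, (n i : HR) * d i = 0 → ∑ i, a i * n i = 0) →
      ((fun u : Fin q → HR => ∏ i, u i ^ a i) '' S).Finite) :
    ∃ N : ℕ, ∀ (T : Fin q → Fin q → Fin q → ℝ) (γ : Fin q → ℝ) (d : Fin q → ℕ), Sym T →
      (∀ i j l, 0 ≤ T i j l) → (∀ i, 0 ≤ γ i) → (∀ i, 0 < d i) →
      (∀ n n' : Fin q → ℤ, (∀ i, |n i| ≤ N) → (∀ i, |n' i| ≤ N) → ∑ i, n i * (d i : ℤ) = 0 →
        ∑ i, n' i * (d i : ℤ) = 0 → ∀ i j, n i * n' j = n j * n' i) →
      {u : Fin q → ℝ | (∀ i, 0 < u i) ∧ ∀ i, eqL T γ u i = (d i : ℝ)}.Finite := by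
  classical
  by_contra hcon
  push Not at hcon
  choose T γ d hT hT0 hγ hd hrel hinf using hcon
  have hinf' : ∀ N, {u : Fin q → ℝ | (∀ i, 0 < u i) ∧ ∀ i, eqL (T N) (γ N) u i =
      (d N i : ℝ)}.Infinite := fun N => hinf N
  set x : ∀ N, ℕ → Fin q → ℝ := fun N m => ((hinf' N).natEmbedding _ m : Fin q → ℝ) with hx
  have hxS : ∀ N m, (∀ i, 0 < x N m i) ∧ ∀ i, eqL (T N) (γ N) (x N m) i = (d N i : ℝ) := fun N m =>
    ((hinf' N).natEmbedding _ m).2
  have hxinj : ∀ N, Function.Injective (x N) := fun N =>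
    Subtype.val_injective.comp ((hinf' N).natEmbedding _).injective
  set Ts : Fin q → Fin q → Fin q → HR := fun i j l => cl fun n => T n i j l with hTs
  set γs : Fin q → HR := fun i => cl fun n => γ n i with hγs
  set ds : Fin q → HR := fun i => cl fun n => (d n i : ℝ) with hds
  have hTsym : Sym Ts := by
    refine ⟨fun i j l => ?_, fun i j l => ?_⟩
    · exact congrArg cl (funext fun n => (hT n).1 i j l)
    · exact congrArg cl (funext fun n => (hT n).2 i j l)
  have hdspos : ∀ i, 0 < ds i := fun i => cl_pos fun n => by exact_mod_cast hd n i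
  have hrelcl : ∀ n : Fin q → ℤ, ∑ i, (n i : HR) * ds i = 0 →
      ∀ᶠ N in (hyperfilter ℕ : Filter ℕ), ∑ i, n i * (d N i : ℤ) = 0 := by
    intro n hn
    have h1 : cl (fun N => ((∑ i, n i * (d N i : ℤ) : ℤ) : ℝ)) = cl 0 := by
      rw [map_zero, ← hn]
      have h2 : (fun N => ((∑ i, n i * (d N i : ℤ) : ℤ) : ℝ)) =
          ∑ i, ((n i : ℤ) : ℕ → ℝ) * fun N => (d N i : ℝ) := by
        funext N
        simp
      rw [h2, map_sum]
      refine Finset.sum_congr rfl fun i _ => ?_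
      rw [map_mul, map_intCast]
    filter_upwards [cl_eq.1 h1] with N hN
    simp only [Pi.zero_apply] at hN
    exact_mod_cast hN
  have hfin := finite_of_rank (T := Ts) (γ := γs) (d := ds) hTsym
    (fun i j l => cl_nonneg fun n => hT0 n i j l) (fun i => cl_nonneg fun n => hγ n i) hdspos
    (fun a ha => hmono Ts γs ds _ hTsym (fun u hu => ⟨fun i => (hu.1 i).ne', hu.2⟩) a ha) ?_
  · refine Set.infinite_of_injective_forall_mem (f := fun m : ℕ => fun i => cl fun N => x N m i)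
      ?_ ?_ hfin
    · intro m m' h
      have h1 : ∀ᶠ N in (hyperfilter ℕ : Filter ℕ), ∀ i, x N m i = x N m' i := by
        rw [eventually_all]
        intro i
        exact cl_eq.1 (congrFun h i)
      obtain ⟨N, hN⟩ := h1.exists
      exact hxinj N (funext hN)
    · intro m
      refine ⟨fun i => cl_pos fun N => (hxS N m).1 i, fun i => ?_⟩
      rw [hTs, hγs, cl_eqL T γ (fun N => x N m) i, hds]
      exact congrArg cl (funext fun N => (hxS N m).2 i)
  · intro n n' hn hn' i j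
    have hbig : ∀ᶠ N : ℕ in (hyperfilter ℕ : Filter ℕ), ∀ i, |n i| ≤ (N : ℤ) ∧ |n' i| ≤ (N : ℤ) := by
      refine Eventually.filter_mono Nat.hyperfilter_le_atTop ?_
      rw [eventually_all]
      intro i
      filter_upwards [eventually_ge_atTop ((|n i|).toNat + (|n' i|).toNat)] with N hN
      have h1 : |n i| = ((|n i|).toNat : ℤ) := (Int.toNat_of_nonneg (abs_nonneg _)).symm
      have h2 : |n' i| = ((|n' i|).toNat : ℤ) := (Int.toNat_of_nonneg (abs_nonneg _)).symm
      have h3 : (((|n i|).toNat + (|n' i|).toNat : ℕ) : ℤ) ≤ N := by exact_mod_cast hN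
      push_cast at h3
      constructor <;> omega
    obtain ⟨N, h1, h2, h3⟩ := (hbig.and ((hrelcl n hn).and (hrelcl n' hn'))).exists
    exact hrel N n n' (fun i => (h1 i).1) (fun i => (h1 i).2) h2 h3 i j

end Pool.Agent.H.MP_deabf1_gt.Gn
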