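import Pool.Agent.H.MP_deabf1_gt.WL
import Pool.Agent.H.MP_deabf1_gt.QH
import Pool.Agent.H.MP_deabf1_gt.helper65.Gn6

/-!
Finiteness of the number of invariant Einstein metrics outside codimension two.
-/

namespace Pool.Agent.H.MP_deabf1_gt

open LinearMap (BilinForm)

/-- The statement about monomials of solutions over the hyperreal numbers. -/
def Gn.MonoFin (q : ℕ) : Prop :=
  ∀ (T : Fin q → Fin q → Fin q → Gn.HR) (γ d : Fin q → Gn.HR) (S : Set (Fin q → Gn.HR)), Sym T →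
    (∀ u ∈ S, (∀ i, u i ≠ 0) ∧ ∀ i, eqL T γ u i = d i) → ∀ a : Fin q → ℤ,
    (∀ n : Fin q → ℤ, ∑ i, (n i : Gn.HR) * d i = 0 → ∑ i, a i * n i = 0) →
    ((fun u : Fin q → Gn.HR => ∏ i, u i ^ a i) '' S).Finite

/-- The structure constants of a partition are symmetric. -/
theorem Gn.blk_sym {q r : ℕ} (π : Fin q → Fin r) {T : Fin q → Fin q → Fin q → ℝ} (hT : Sym T) :
    Sym (fun a b c => ∑ i, ∑ j, ∑ k, if π i = a ∧ π j = b ∧ π k = c then T i j k else 0) := by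
  refine ⟨fun a b c => ?_, fun a b c => ?_⟩
  · change ∑ i, ∑ j, ∑ k, (if π i = a ∧ π j = b ∧ π k = c then T i j k else 0) =
      ∑ i, ∑ j, ∑ k, if π i = b ∧ π j = a ∧ π k = c then T i j k else 0
    rw [Finset.sum_comm]
    refine Finset.sum_congr rfl fun i _ => Finset.sum_congr rfl fun j _ =>
      Finset.sum_congr rfl fun k _ => ?_
    rw [hT.1 j i k]
    refine if_congr ?_ rfl rfl
    tauto
  · change ∑ i, ∑ j, ∑ k, (if π i = a ∧ π j = b ∧ π k = c then T i j k else 0) =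
      ∑ i, ∑ j, ∑ k, if π i = a ∧ π j = c ∧ π k = b then T i j k else 0
    refine Finset.sum_congr rfl fun i _ => ?_
    rw [Finset.sum_comm]
    refine Finset.sum_congr rfl fun j _ => Finset.sum_congr rfl fun k _ => ?_
    rw [hT.2 i k j]
    refine if_congr ?_ rfl rfl
    tauto

/-- Finitely many positive solutions which are constant on the classes of a partition. -/
theorem Gn.part_finite {r : ℕ} (hmono : Gn.MonoFin r) :
    ∃ N : ℕ, ∀ {q : ℕ} (π : Fin q → Fin r), Function.Surjective π →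
      ∀ (T : Fin q → Fin q → Fin q → ℝ) (γ : Fin q → ℝ) (d : Fin q → ℕ), Sym T →
      (∀ i j l, 0 ≤ T i j l) → (∀ i, 0 ≤ γ i) → (∀ i, 0 < d i) →
      (∀ n n' : Fin r → ℤ, (∀ a, |n a| ≤ N) → (∀ a, |n' a| ≤ N) → ∑ i, n (π i) * (d i : ℤ) = 0 →
        ∑ i, n' (π i) * (d i : ℤ) = 0 → ∀ a b, n a * n' b = n b * n' a) →
      {u : Fin q → ℝ | (∀ i, 0 < u i) ∧ (∃ y : Fin r → ℝ, u = y ∘ π) ∧
        ∀ i, eqL T γ u i = (d i : ℝ)}.Finite := by
  classical
  obtain ⟨N, hN⟩ := Gn.real_finite r hmono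
  refine ⟨N, fun {q} π hπ T γ d hT hT0 hγ hd hrel => ?_⟩
  have hsum : ∀ n : Fin r → ℤ, ∑ a, n a * (((∑ i, if π i = a then d i else 0 : ℕ)) : ℤ) =
      ∑ i, n (π i) * (d i : ℤ) := by
    intro n
    push_cast
    simp only [Finset.mul_sum]
    rw [Finset.sum_comm]
    refine Finset.sum_congr rfl fun i _ => ?_
    rw [Finset.sum_eq_single (π i)]
    · rw [if_pos rfl]
    · intro a _ ha
      rw [if_neg (Ne.symm ha), mul_zero]
    · intro h
      exact absurd (Finset.mem_univ _) h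
  have h1 := hN (fun a b c => ∑ i, ∑ j, ∑ k, if π i = a ∧ π j = b ∧ π k = c then T i j k else 0)
    (fun a => ∑ i, if π i = a then γ i else 0) (fun a => ∑ i, if π i = a then d i else 0)
    (Gn.blk_sym π hT) ?_ ?_ ?_ ?_
  · refine (h1.image (fun y : Fin r → ℝ => y ∘ π)).subset ?_
    rintro u ⟨hu, ⟨y, rfl⟩, hE⟩
    refine ⟨y, ⟨fun a => ?_, fun a => ?_⟩, rfl⟩
    · obtain ⟨i, rfl⟩ := hπ a
      exact hu i
    · rw [eqL_block]
      rw [Nat.cast_sum]
      refine Finset.sum_congr rfl fun i _ => ?_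
      split_ifs with h
      · exact hE i
      · simp
  · intro a b c
    refine Finset.sum_nonneg fun i _ => Finset.sum_nonneg fun j _ => Finset.sum_nonneg fun k _ => ?_
    split_ifs
    · exact hT0 i j k
    · exact le_rfl
  · intro a
    refine Finset.sum_nonneg fun i _ => ?_
    split_ifs
    · exact hγ i
    · exact le_rfl
  · intro a
    obtain ⟨i, hi⟩ := hπ a
    refine Finset.sum_pos' (fun _ _ => Nat.zero_le _) ⟨i, Finset.mem_univ i, ?_⟩
    rw [if_pos hi]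
    exact hd i
  · intro n n' hn hn' h2 h3
    exact hrel n n' hn hn' ((hsum n).symm.trans h2) ((hsum n').symm.trans h3)

namespace HomData

theorem finite_einstein_generic {r : ℕ} (hmono : Gn.MonoFin r) :
    ∃ N : ℕ, ∀ {𝔤 K : Type*} [LieRing 𝔤] [LieAlgebra ℝ 𝔤] [Module.Finite ℝ 𝔤] [Group K]
      (D : HomData 𝔤 K) {q : ℕ} {m : Fin q → Submodule ℝ 𝔤}, D.Decomp m →
      (∃ x ∈ D.𝔪, ∃ y : 𝔤, ⁅x, y⁆ ≠ 0) → ∀ {π : Fin q → Fin r}, Function.Surjective π →
      (∀ n n' : Fin r → ℤ, (∀ a, |n a| ≤ N) → (∀ a, |n' a| ≤ N) →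
        ∑ i, n (π i) * (Module.finrank ℝ (m i) : ℤ) = 0 →
        ∑ i, n' (π i) * (Module.finrank ℝ (m i) : ℤ) = 0 → ∀ a b, n a * n' b = n b * n' a) →
      ∃ F : Finset (BilinForm ℝ 𝔤), ∀ (g : BilinForm ℝ 𝔤) (lam : ℝ), D.IsMetric g →
        D.IsEinstein g lam →
        (Function.Injective π ∨ ∃ a : Fin r → ℝ, ∀ i, ∀ x ∈ m i, g x x = a (π i) * D.Q x x) →
        ∃ c : ℝ, 0 < c ∧ c • g ∈ F := by
  classical
  obtain ⟨N, hN⟩ := Gn.part_finite hmono
  refine ⟨N, fun {𝔤 K} _ _ _ _ D {q} {m} hm hflat {π} hπ hrel => ?_⟩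
  choose f hf using fun i => onb_exists (g := D.Q) D.Q_symm (m i) (fun x _ hx => D.Q_pos x hx)
  obtain ⟨z, hz⟩ := onb_exists (g := D.Q) D.Q_symm D.𝔨.toSubmodule (fun x _ hx => D.Q_pos x hx)
  have hQo : ∀ i j, i ≠ j → ∀ v ∈ m i, ∀ w ∈ m j, D.Q v w = 0 := fun i j hij =>
    D.schur_off (hm.irr i) (hm.irr j) (hm.inequiv i j hij) D.Q_Ad
  have hne : ∀ i, ∃ v ∈ m i, v ≠ 0 := fun i => (Submodule.ne_bot_iff _).1 (hm.irr i).ne
  have hd : ∀ i, 0 < Module.finrank ℝ (m i) := by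
    intro i
    rw [Nat.pos_iff_ne_zero]
    intro h0
    exact (hm.irr i).ne (Submodule.finrank_eq_zero.1 h0)
  have hU := hN π hπ (D.TT f) (D.GG f z) (fun i => Module.finrank ℝ (m i)) (D.TT_sym f)
    (D.TT_nonneg f) (D.GG_nonneg f z) hd hrel
  set U := {u : Fin q → ℝ | (∀ i, 0 < u i) ∧ (∃ y : Fin r → ℝ, u = y ∘ π) ∧
    ∀ i, eqL (D.TT f) (D.GG f z) u i = (Module.finrank ℝ (m i) : ℝ)} with hUdef
  have hfin : (⋃ u ∈ U, {g : BilinForm ℝ 𝔤 | D.IsMetric g ∧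
      ∀ i, ∀ v ∈ m i, ∀ w ∈ m i, g v w = 1 / u i * D.Q v w}).Finite := by
    refine Set.Finite.biUnion hU fun u _ => Set.Subsingleton.finite ?_
    rintro g ⟨hg, h1⟩ g' ⟨hg', h2⟩
    exact D.metric_ext hm hg hg' h1 h2
  refine ⟨hfin.toFinset, ?_⟩
  intro g lam hg hE hS
  obtain ⟨x, hx, hgd, hgo⟩ := D.metric_diag hm hg
  have hlam : 0 < lam := by
    by_contra h0
    have hEq := D.einstein_eq hm.sup hf hz hQo hg hx hgd hgo hE
    have h1 := lam_pos (D.TT_sym f) (D.TT_nonneg f) (D.GG_nonneg f z)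
      (fun i => one_div_pos.2 (hx i)) (not_lt.1 h0) hEq
    obtain ⟨y, hy, y', hyy⟩ := hflat
    exact hyy (D.central_of hm.sup hf hz hQo (fun i => (h1 i).2) (fun i => (h1 i).1) y hy y')
  refine ⟨lam, hlam, ?_⟩
  obtain ⟨hg', hE'⟩ := D.einstein_smul hlam hg hE
  have hx' : ∀ i, 0 < lam * x i := fun i => mul_pos hlam (hx i)
  have hgd' : ∀ i, ∀ v ∈ m i, ∀ w ∈ m i, (lam • g) v w = lam * x i * D.Q v w := by
    intro i v hv w hw
    rw [LinearMap.smul_apply, LinearMap.smul_apply, smul_eq_mul, hgd i v hv w hw, mul_assoc]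
  have hgo' : ∀ i j, i ≠ j → ∀ v ∈ m i, ∀ w ∈ m j, (lam • g) v w = 0 := by
    intro i j hij v hv w hw
    rw [LinearMap.smul_apply, LinearMap.smul_apply, smul_eq_mul, hgo i j hij v hv w hw, mul_zero]
  have hEq := D.einstein_eq hm.sup hf hz hQo hg' hx' hgd' hgo' hE'
  -- the eigenvalues are constant on the classes
  have hcls : ∃ y : Fin r → ℝ, ∀ i, x i = y (π i) := by
    rcases hS with h3 | ⟨a, ha⟩
    · refine ⟨fun a => x (Function.surjInv hπ a), fun i => ?_⟩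
      change x i = x (Function.surjInv hπ (π i))
      rw [h3 (Function.surjInv_eq hπ (π i))]
    · refine ⟨a, fun i => ?_⟩
      obtain ⟨v, hv, hv0⟩ := hne i
      have h1 := ha i v hv
      rw [hgd i v hv v hv] at h1
      exact mul_right_cancel₀ (D.Q_pos v hv0).ne' h1
  obtain ⟨y, hy⟩ := hcls
  rw [Set.Finite.mem_toFinset]
  refine Set.mem_iUnion₂.2 ⟨fun j => 1 / (lam * x j), ?_, hg', ?_⟩
  · refine ⟨fun i => one_div_pos.2 (hx' i), ⟨fun a => 1 / (lam * y a), ?_⟩, fun i => ?_⟩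
    · funext i
      change 1 / (lam * x i) = 1 / (lam * y (π i))
      rw [hy i]
    · rw [hEq i, div_self hlam.ne', mul_one]
  · intro i v hv w hw
    rw [hgd' i v hv w hw, one_div_one_div]

end HomData

end Pool.Agent.H.MP_deabf1_gt
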