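import Pool.Agent.H.MP_deabf1_gt.helper65.Base
import Pool.Agent.H.MP_deabf1_gt.WE

/-!
The Einstein equations of four summands in explicit form.
-/

namespace Pool.Agent.H.MP_deabf1_gt.Four

open Finset (univ)

/-- The coefficients, with the summands in the order `a`, `b`, `c`, `e`. -/
noncomputable def cf (T : Fin 4 → Fin 4 → Fin 4 → ℝ) (γ : Fin 4 → ℝ) (d : Fin 4 → ℕ)
    (a b c e : Fin 4) : Cf where
  a1 := γ a + T a a a / 4 + (T a a b + T a a c + T a a e) + (T a b c + T a b e + T a c e)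
  a2 := γ b + T b b b / 4 + (T b b a + T b b c + T b b e) + (T a b c + T a b e + T b c e)
  a3 := γ c + T c c c / 4 + (T c c a + T c c b + T c c e) + (T a b c + T a c e + T b c e)
  a4 := γ e + T e e e / 4 + (T e e a + T e e b + T e e c) + (T a b e + T a c e + T b c e)
  b12 := T a a b / 4
  b13 := T a a c / 4
  b14 := T a a e / 4
  b21 := T b b a / 4
  b23 := T b b c / 4
  b24 := T b b e / 4
  b31 := T c c a / 4
  b32 := T c c b / 4
  b34 := T c c e / 4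
  b41 := T e e a / 4
  b42 := T e e b / 4
  b43 := T e e c / 4
  c123 := T a b c / 2
  c124 := T a b e / 2
  c134 := T a c e / 2
  c234 := T b c e / 2
  d1 := d a
  d2 := d b
  d3 := d c
  d4 := d e

theorem cf_pos {T : Fin 4 → Fin 4 → Fin 4 → ℝ} (hT0 : ∀ i j k, 0 ≤ T i j k) {γ : Fin 4 → ℝ}
    (hγ : ∀ i, 0 ≤ γ i) {d : Fin 4 → ℕ} (hd : ∀ i, 0 < d i) (a b c e : Fin 4) :
    (cf T γ d a b c e).Pos := by
  have hd' : ∀ i, (0 : ℝ) < d i := fun i => by exact_mod_cast hd i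
  refine ⟨?_, ?_, ?_, ?_, ?_, ?_, ?_, ?_, ?_, ?_, ?_, ?_, ?_, ?_, ?_, ?_, hd' a, hd' b, hd' c,
    hd' e, ?_, ?_, ?_, ?_⟩
  · exact div_nonneg (hT0 _ _ _) (by norm_num)
  · exact div_nonneg (hT0 _ _ _) (by norm_num)
  · exact div_nonneg (hT0 _ _ _) (by norm_num)
  · exact div_nonneg (hT0 _ _ _) (by norm_num)
  · exact div_nonneg (hT0 _ _ _) (by norm_num)
  · exact div_nonneg (hT0 _ _ _) (by norm_num)
  · exact div_nonneg (hT0 _ _ _) (by norm_num)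
  · exact div_nonneg (hT0 _ _ _) (by norm_num)
  · exact div_nonneg (hT0 _ _ _) (by norm_num)
  · exact div_nonneg (hT0 _ _ _) (by norm_num)
  · exact div_nonneg (hT0 _ _ _) (by norm_num)
  · exact div_nonneg (hT0 _ _ _) (by norm_num)
  · exact div_nonneg (hT0 _ _ _) (by norm_num)
  · exact div_nonneg (hT0 _ _ _) (by norm_num)
  · exact div_nonneg (hT0 _ _ _) (by norm_num)
  · exact div_nonneg (hT0 _ _ _) (by norm_num)
  · have h1 := hγ a
    have h2 := hT0 a a a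
    simp only [cf]
    linarith
  · have h1 := hγ b
    have h2 := hT0 b b b
    simp only [cf]
    linarith
  · have h1 := hγ c
    have h2 := hT0 c c c
    simp only [cf]
    linarith
  · have h1 := hγ e
    have h2 := hT0 e e e
    simp only [cf]
    linarith

theorem sum4 {M : Type*} [AddCommMonoid M] (f : Fin 4 → M) {a b c e : Fin 4} (hab : a ≠ b)
    (hac : a ≠ c) (hae : a ≠ e) (hbc : b ≠ c) (hbe : b ≠ e) (hce : c ≠ e) :
    ∑ i, f i = f a + f b + f c + f e := by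
  have h : ∀ a b c e : Fin 4, a ≠ b → a ≠ c → a ≠ e → b ≠ c → b ≠ e → c ≠ e →
      (Finset.univ : Finset (Fin 4)) = {a, b, c, e} := by decide
  rw [h a b c e hab hac hae hbc hbe hce, Finset.sum_insert, Finset.sum_insert, Finset.sum_insert,
    Finset.sum_singleton]
  · simp only [add_assoc]
  · simpa using hce
  · simp only [Finset.mem_insert, Finset.mem_singleton, not_or]
    exact ⟨hbc, hbe⟩
  · simp only [Finset.mem_insert, Finset.mem_singleton, not_or]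
    exact ⟨hab, hac, hae⟩

variable {K : Type*} [Field K] [Algebra ℝ K]

/-- One equation in explicit form. -/
theorem eq_expand {T : Fin 4 → Fin 4 → Fin 4 → ℝ} (hT : Sym T) {γ d : Fin 4 → ℝ} {x : Fin 4 → K}
    (hS : Pl.Sys T γ d univ x 0) {a b c e : Fin 4} (hab : a ≠ b) (hac : a ≠ c) (hae : a ≠ e)
    (hbc : b ≠ c) (hbe : b ≠ e) (hce : c ≠ e) :
    algebraMap ℝ K (γ a + T a a a / 4 + (T a a b + T a a c + T a a e)
      + (T a b c + T a b e + T a c e)) * (x a)⁻¹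
    - 2 * algebraMap ℝ K (T a a b / 4) * ((x a)⁻¹ ^ 2 / (x b)⁻¹)
    - 2 * algebraMap ℝ K (T a a c / 4) * ((x a)⁻¹ ^ 2 / (x c)⁻¹)
    - 2 * algebraMap ℝ K (T a a e / 4) * ((x a)⁻¹ ^ 2 / (x e)⁻¹)
    + algebraMap ℝ K (T b b a / 4) * ((x b)⁻¹ ^ 2 / (x a)⁻¹)
    + algebraMap ℝ K (T c c a / 4) * ((x c)⁻¹ ^ 2 / (x a)⁻¹)
    + algebraMap ℝ K (T e e a / 4) * ((x e)⁻¹ ^ 2 / (x a)⁻¹)
    - algebraMap ℝ K (T a b c / 2) * ((x a)⁻¹ * (x b)⁻¹ / (x c)⁻¹ + (x a)⁻¹ * (x c)⁻¹ / (x b)⁻¹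
      - (x b)⁻¹ * (x c)⁻¹ / (x a)⁻¹)
    - algebraMap ℝ K (T a b e / 2) * ((x a)⁻¹ * (x b)⁻¹ / (x e)⁻¹ + (x a)⁻¹ * (x e)⁻¹ / (x b)⁻¹
      - (x b)⁻¹ * (x e)⁻¹ / (x a)⁻¹)
    - algebraMap ℝ K (T a c e / 2) * ((x a)⁻¹ * (x c)⁻¹ / (x e)⁻¹ + (x a)⁻¹ * (x e)⁻¹ / (x c)⁻¹
      - (x c)⁻¹ * (x e)⁻¹ / (x a)⁻¹) = algebraMap ℝ K (d a) := by
  have := charZero_of_real K
  have ha := (hS a (Finset.mem_univ a)).1
  have hb := (hS b (Finset.mem_univ b)).1
  have hc := (hS c (Finset.mem_univ c)).1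
  have he := (hS e (Finset.mem_univ e)).1
  have h1 := (hS a (Finset.mem_univ a)).2
  rw [mul_zero, add_zero] at h1
  simp only [sum4 _ hab hac hae hbc hbe hce, Pl.term] at h1
  rw [hT.2 a b a, hT.2 a c a, hT.2 a e a, hT.2 a c b, hT.2 a e b, hT.2 a e c, hT.1 a b b,
    hT.2 b a b, hT.1 a c c, hT.2 c a c, hT.1 a e e, hT.2 e a e] at h1
  simp only [map_add, map_div₀, map_ofNat]
  rw [← h1]
  field_simp
  ring

theorem sys4_of (P : Pl K) {T : Fin 4 → Fin 4 → Fin 4 → ℝ} (hT : Sym T) {γ : Fin 4 → ℝ}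
    {d : Fin 4 → ℕ} {x : Fin 4 → K} (hS : Pl.Sys T γ (fun i => (d i : ℝ)) univ x 0)
    {a b c e : Fin 4} (hab : a ≠ b) (hac : a ≠ c) (hae : a ≠ e) (hbc : b ≠ c) (hbe : b ≠ e)
    (hce : c ≠ e) :
    Sys4 P (algebraMap ℝ K) (cf T γ d a b c e) (x a)⁻¹ (x b)⁻¹ (x c)⁻¹ (x e)⁻¹ := by
  refine ⟨P.cst, inv_ne_zero (hS a (Finset.mem_univ a)).1, inv_ne_zero (hS b (Finset.mem_univ b)).1,
    inv_ne_zero (hS c (Finset.mem_univ c)).1, inv_ne_zero (hS e (Finset.mem_univ e)).1, ?_, ?_, ?_,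
    ?_⟩
  · exact eq_expand hT hS hab hac hae hbc hbe hce
  · have h := eq_expand hT hS hab.symm hbc hbe hac hae hce
    rw [hT.1 b a c, hT.1 b a e] at h
    simp only [cf]
    exact h
  · have h := eq_expand hT hS hac.symm hbc.symm hce hab hae hbe
    rw [hT.1 c a b, hT.2 a c b, hT.1 c a e, hT.1 c b e] at h
    simp only [cf]
    exact h
  · have h := eq_expand hT hS hae.symm hbe.symm hce.symm hab hac hbc
    rw [hT.1 e a b, hT.2 a e b, hT.1 e a c, hT.2 a e c, hT.1 e b c, hT.2 b e c] at h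
    simp only [cf]
    exact h

end Pool.Agent.H.MP_deabf1_gt.Four
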