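import Pool.Agent.H.MP_deabf1_gt.helper65.Base

/-!
Four incomparable summands.
-/

namespace Pool.Agent.H.MP_deabf1_gt.Four

variable {K : Type*} [Field K] [Algebra ℝ K] {P : Pl K} {κ : ℝ →+* K} {c : Cf}
  {u1 u2 u3 u4 : K}

theorem P1111_solve {a X R : K} {w z : ℂ} (E : a * X + R = 0) (La : P.Lim a w) (hw : w ≠ 0)
    (LR : P.Lim R z) : P.Lim X (-z / w) := by
  have ha : a ≠ 0 := by
    rintro rfl
    exact hw (P.uniq La P.lim_zero)
  have h : X = -R / a := by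
    rw [eq_div_iff ha]
    linear_combination E
  rw [h]
  exact P.lim_div (P.lim_neg LR) La hw

theorem P1111_sq {a : K} (h : P.Lim (a ^ 2) 0) : P.Lim a 0 := by
  by_contra h0
  have h1 := Pl.inv_B (P := P) h0
  have ha : a ≠ 0 := Pl.ne_of_not_I h0
  have h2 : P.I (a⁻¹ * a ^ 2) := h1.mulI h
  rw [pow_two, inv_mul_cancel_left₀ ha] at h2
  exact h0 h2

theorem P1111_b14 (S : Sys4 P κ c u1 u2 u3 u4) (L21 : P.Lim (u2 / u1) 0)
    (L32 : P.Lim (u3 / u2) 0) (L43 : P.Lim (u4 / u3) 0) (Lη : P.Lim (1 / u1) 0) :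
    c.b14 = 0 := by
  have hk := S.k
  have h1 := S.h1
  have h2 := S.h2
  have h3 := S.h3
  have h4 := S.h4
  have e4 := S.e4
  have E : κ c.a4 * ((u2 / u1) ^ 2 * (u3 / u2) ^ 2 * (u4 / u3) ^ 2)
      - 2 * κ c.b41 * ((u2 / u1) ^ 3 * (u3 / u2) ^ 3 * (u4 / u3) ^ 3)
      - 2 * κ c.b42 * ((u2 / u1) ^ 2 * (u3 / u2) ^ 3 * (u4 / u3) ^ 3)
      - 2 * κ c.b43 * ((u2 / u1) ^ 2 * (u3 / u2) ^ 2 * (u4 / u3) ^ 3) + κ c.b14
      + κ c.b24 * ((u2 / u1) ^ 2) + κ c.b34 * ((u2 / u1) ^ 2 * (u3 / u2) ^ 2)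
      - κ c.c124 * ((u2 / u1) * (u3 / u2) ^ 2 * (u4 / u3) ^ 2)
      - κ c.c124 * ((u2 / u1) ^ 3 * (u3 / u2) ^ 2 * (u4 / u3) ^ 2) + κ c.c124 * (u2 / u1)
      - κ c.c134 * ((u2 / u1) * (u3 / u2) * (u4 / u3) ^ 2)
      - κ c.c134 * ((u2 / u1) ^ 3 * (u3 / u2) ^ 3 * (u4 / u3) ^ 2)
      + κ c.c134 * ((u2 / u1) * (u3 / u2))
      - κ c.c234 * ((u2 / u1) ^ 2 * (u3 / u2) * (u4 / u3) ^ 2)
      - κ c.c234 * ((u2 / u1) ^ 2 * (u3 / u2) ^ 3 * (u4 / u3) ^ 2)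
      + κ c.c234 * ((u2 / u1) ^ 2 * (u3 / u2))
      - κ c.d4 * ((u2 / u1) * (u3 / u2) * (u4 / u3) * (1 / u1)) = 0 := by
    linear_combination (norm := (field_simp; ring)) (u4 / u1 ^ 2) * e4
  have h := P.eq0 E (by
    apply_rules (maxDepth := 500) [P.add, P.mul, P.lim_sub, P.lim_neg, P.lim_pow, P.lim_ofNat])
  simpa using h

theorem P1111_c124 (S : Sys4 P κ c u1 u2 u3 u4) (L21 : P.Lim (u2 / u1) 0)
    (L32 : P.Lim (u3 / u2) 0) (L43 : P.Lim (u4 / u3) 0) (Lη : P.Lim (1 / u1) 0)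
    (hb14 : c.b14 = 0) : c.c124 = 0 := by
  have hk := S.k
  have h1 := S.h1
  have h2 := S.h2
  have h3 := S.h3
  have h4 := S.h4
  have e4 := S.e4
  simp only [hb14, map_zero] at e4
  have E : κ c.a4 * ((u2 / u1) * (u3 / u2) ^ 2 * (u4 / u3) ^ 2)
      - 2 * κ c.b41 * ((u2 / u1) ^ 2 * (u3 / u2) ^ 3 * (u4 / u3) ^ 3)
      - 2 * κ c.b42 * ((u2 / u1) * (u3 / u2) ^ 3 * (u4 / u3) ^ 3)
      - 2 * κ c.b43 * ((u2 / u1) * (u3 / u2) ^ 2 * (u4 / u3) ^ 3) + κ c.b24 * (u2 / u1)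
      + κ c.b34 * ((u2 / u1) * (u3 / u2) ^ 2) - κ c.c124 * ((u3 / u2) ^ 2 * (u4 / u3) ^ 2)
      - κ c.c124 * ((u2 / u1) ^ 2 * (u3 / u2) ^ 2 * (u4 / u3) ^ 2) + κ c.c124
      - κ c.c134 * ((u3 / u2) * (u4 / u3) ^ 2)
      - κ c.c134 * ((u2 / u1) ^ 2 * (u3 / u2) ^ 3 * (u4 / u3) ^ 2) + κ c.c134 * (u3 / u2)
      - κ c.c234 * ((u2 / u1) * (u3 / u2) * (u4 / u3) ^ 2)
      - κ c.c234 * ((u2 / u1) * (u3 / u2) ^ 3 * (u4 / u3) ^ 2)
      + κ c.c234 * ((u2 / u1) * (u3 / u2)) - κ c.d4 * ((u3 / u2) * (u4 / u3) * (1 / u1)) = 0 := by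
    linear_combination (norm := (field_simp; ring)) (u4 / (u1 * u2)) * e4
  have h := P.eq0 E (by
    apply_rules (maxDepth := 500) [P.add, P.mul, P.lim_sub, P.lim_neg, P.lim_pow, P.lim_ofNat])
  simpa using h

theorem P1111_b13 (S : Sys4 P κ c u1 u2 u3 u4) (L21 : P.Lim (u2 / u1) 0)
    (L32 : P.Lim (u3 / u2) 0) (L43 : P.Lim (u4 / u3) 0) (Lη : P.Lim (1 / u1) 0)
    (hb14 : c.b14 = 0) (hc124 : c.c124 = 0) :
    c.b13 = 0 ∧ (c.c134 ≠ 0 → P.Lim (u3 ^ 2 / (u1 * u4)) 0) := by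
  have hk := S.k
  have h1 := S.h1
  have h2 := S.h2
  have h3 := S.h3
  have h4 := S.h4
  have e1 := S.e1
  have e3 := S.e3
  by_cases hc134 : c.c134 = 0
  · refine ⟨?_, fun h => absurd hc134 h⟩
    simp only [hb14, hc124, hc134, map_zero] at e1
    have E : κ c.a1 * ((u2 / u1) * (u3 / u2)) - 2 * κ c.b12 * (u3 / u2) - 2 * κ c.b13
        + κ c.b21 * ((u2 / u1) ^ 3 * (u3 / u2)) + κ c.b31 * ((u2 / u1) ^ 3 * (u3 / u2) ^ 3)
        + κ c.b41 * ((u2 / u1) ^ 3 * (u3 / u2) ^ 3 * (u4 / u3) ^ 2) - κ c.c123 * (u2 / u1)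
        - κ c.c123 * ((u2 / u1) * (u3 / u2) ^ 2) + κ c.c123 * ((u2 / u1) ^ 3 * (u3 / u2) ^ 2)
        - κ c.d1 * ((u2 / u1) * (u3 / u2) * (1 / u1)) = 0 := by
      linear_combination (norm := (field_simp; ring)) (u3 / u1 ^ 2) * e1
    have h := P.eq0 E (by
      apply_rules (maxDepth := 500) [P.add, P.mul, P.lim_sub, P.lim_neg, P.lim_pow, P.lim_ofNat])
    simpa using h
  · simp only [hb14, hc124, map_zero] at e1 e3
    have cc : (c.c134 : ℂ) ≠ 0 := by exact_mod_cast hc134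
    have E : κ c.c134 * (u3 ^ 2 / (u1 * u4)) +
          (-κ c.a1 * ((u2 / u1) * (u3 / u2)) + 2 * κ c.b12 * (u3 / u2) + 2 * κ c.b13
            - κ c.b21 * ((u2 / u1) ^ 3 * (u3 / u2)) - κ c.b31 * ((u2 / u1) ^ 3 * (u3 / u2) ^ 3)
            - κ c.b41 * ((u2 / u1) ^ 3 * (u3 / u2) ^ 3 * (u4 / u3) ^ 2) + κ c.c123 * (u2 / u1)
            + κ c.c123 * ((u2 / u1) * (u3 / u2) ^ 2)
            - κ c.c123 * ((u2 / u1) ^ 3 * (u3 / u2) ^ 2)
            + κ c.c134 * ((u2 / u1) * (u3 / u2) * (u4 / u3))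
            - κ c.c134 * ((u2 / u1) ^ 3 * (u3 / u2) ^ 3 * (u4 / u3))
            + κ c.d1 * ((u2 / u1) * (u3 / u2) * (1 / u1))) = 0 := by
      linear_combination (norm := (field_simp; ring)) -((u3 / u1 ^ 2) * e1)
    have Lξ : P.Lim (u3 ^ 2 / (u1 * u4)) (-(2 * c.b13) / c.c134) := by
      refine P.lim_val (P1111_solve E (hk _) cc (by
        apply_rules (maxDepth := 500) [P.add, P.mul, P.lim_sub, P.lim_neg, P.lim_pow,
          P.lim_ofNat])) ?_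
      simp
    have F : κ c.a3 * ((u4 / u3) ^ 2 * (u3 ^ 2 / (u1 * u4)) ^ 2)
        - 2 * κ c.b31 * ((u4 / u3) ^ 3 * (u3 ^ 2 / (u1 * u4)) ^ 3)
        - 2 * κ c.b32 * ((u3 / u2) * (u4 / u3) ^ 2 * (u3 ^ 2 / (u1 * u4)) ^ 2)
        - 2 * κ c.b34 * ((u4 / u3) * (u3 ^ 2 / (u1 * u4)) ^ 2) + κ c.b13
        + κ c.b23 * ((u2 / u1) ^ 2) + κ c.b43 * ((u4 / u3) ^ 4 * (u3 ^ 2 / (u1 * u4)) ^ 2)
        - κ c.c123 * ((u3 / u2) * (u4 / u3) * (u3 ^ 2 / (u1 * u4)))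
        - κ c.c123 * ((u2 / u1) * (u4 / u3) ^ 2 * (u3 ^ 2 / (u1 * u4)) ^ 2)
        + κ c.c123 * (u2 / u1) - κ c.c134 * ((u3 ^ 2 / (u1 * u4)))
        - κ c.c134 * ((u4 / u3) ^ 4 * (u3 ^ 2 / (u1 * u4)) ^ 3)
        + κ c.c134 * ((u4 / u3) ^ 2 * (u3 ^ 2 / (u1 * u4)))
        - κ c.c234 * ((u2 / u1) * (u3 ^ 2 / (u1 * u4)))
        - κ c.c234 * ((u3 / u2) * (u4 / u3) ^ 3 * (u3 ^ 2 / (u1 * u4)) ^ 2)
        + κ c.c234 * ((u2 / u1) * (u4 / u3) ^ 2 * (u3 ^ 2 / (u1 * u4)))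
        - κ c.d3 * ((u4 / u3) * (1 / u1) * (u3 ^ 2 / (u1 * u4))) = 0 := by
      linear_combination (norm := (field_simp; ring)) (u3 / u1 ^ 2) * e3
    have h := P.eq0 F (by
      apply_rules (maxDepth := 500) [P.add, P.mul, P.lim_sub, P.lim_neg, P.lim_pow, P.lim_ofNat])
    have h5 : (c.b13 : ℂ) - c.c134 * (-(2 * c.b13) / c.c134) = 0 := by simpa using h
    rw [mul_div_cancel₀ _ cc] at h5
    have h6 : ((3 * c.b13 : ℝ) : ℂ) = 0 := by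
      push_cast
      linear_combination h5
    have h7 : 3 * c.b13 = 0 := by exact_mod_cast h6
    have hb13 : c.b13 = 0 := by linarith
    refine ⟨hb13, fun _ => ?_⟩
    simpa [hb13] using Lξ

theorem P1111_X (S : Sys4 P κ c u1 u2 u3 u4) (hc : c.Pos) (L21 : P.Lim (u2 / u1) 0)
    (L32 : P.Lim (u3 / u2) 0) (L43 : P.Lim (u4 / u3) 0) (Lη : P.Lim (1 / u1) 0)
    (hb14 : c.b14 = 0) (hc124 : c.c124 = 0) (hb13 : c.b13 = 0) (hc134 : c.c134 ≠ 0)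
    (Lξ : P.Lim (u3 ^ 2 / (u1 * u4)) 0) : False := by
  have hk := S.k
  have h1 := S.h1
  have h2 := S.h2
  have h3 := S.h3
  have h4 := S.h4
  have e1 := S.e1
  have e2 := S.e2
  have e3 := S.e3
  have e4 := S.e4
  simp only [hb14, hc124, hb13, map_zero] at e1 e2 e3 e4
  have cc : (c.c134 : ℂ) ≠ 0 := by exact_mod_cast hc134
  -- the limit of `u2 ^ 2 / (u1 * u3)`
  have E4 : κ c.b24 * (u2 ^ 2 / (u1 * u3)) +
        (κ c.a4 * ((u2 / u1) * (u3 / u2) * (u4 / u3) ^ 2)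
          - 2 * κ c.b41 * ((u2 / u1) ^ 2 * (u3 / u2) ^ 2 * (u4 / u3) ^ 3)
          - 2 * κ c.b42 * ((u2 / u1) * (u3 / u2) ^ 2 * (u4 / u3) ^ 3)
          - 2 * κ c.b43 * ((u2 / u1) * (u3 / u2) * (u4 / u3) ^ 3)
          + κ c.b34 * ((u2 / u1) * (u3 / u2)) - κ c.c134 * ((u4 / u3) ^ 2)
          - κ c.c134 * ((u2 / u1) ^ 2 * (u3 / u2) ^ 2 * (u4 / u3) ^ 2) + κ c.c134
          - κ c.c234 * ((u2 / u1) * (u4 / u3) ^ 2)
          - κ c.c234 * ((u2 / u1) * (u3 / u2) ^ 2 * (u4 / u3) ^ 2) + κ c.c234 * (u2 / u1)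
          - κ c.d4 * ((u4 / u3) * (1 / u1))) = 0 := by
    linear_combination (norm := (field_simp; ring)) (u4 / (u1 * u3)) * e4
  have hb24 : c.b24 ≠ 0 := by
    intro h0
    have Lz : P.Lim (κ c.b24 * (u2 ^ 2 / (u1 * u3))) 0 := by
      rw [h0, map_zero, zero_mul]
      exact P.lim_zero
    have h := P.eq0 E4 (P.add Lz (by
      apply_rules (maxDepth := 500) [P.add, P.mul, P.lim_sub, P.lim_neg, P.lim_pow, P.lim_ofNat]))
    exact cc (by simpa using h)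
  have cb24 : (c.b24 : ℂ) ≠ 0 := by exact_mod_cast hb24
  have Lψ : P.Lim (u2 ^ 2 / (u1 * u3)) (-c.c134 / c.b24) := by
    refine P.lim_val (P1111_solve E4 (hk _) cb24 (by
      apply_rules (maxDepth := 500) [P.add, P.mul, P.lim_sub, P.lim_neg, P.lim_pow,
        P.lim_ofNat])) ?_
    simp
  have E3 : κ c.c123 * (u2 * u4 / u3 ^ 2) +
        (κ c.a3 * ((u2 / u1) * (u3 / u2) * (u4 / u3))
          - 2 * κ c.b31 * ((u2 / u1) ^ 2 * (u3 / u2) ^ 2 * (u4 / u3))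
          - 2 * κ c.b32 * ((u2 / u1) * (u3 / u2) ^ 2 * (u4 / u3))
          - 2 * κ c.b34 * ((u2 / u1) * (u3 / u2)) + κ c.b23 * ((u4 / u3) * (u2 ^ 2 / (u1 * u3)))
          + κ c.b43 * ((u2 / u1) * (u3 / u2) * (u4 / u3) ^ 3)
          - κ c.c123 * ((u3 / u2) * (u4 / u3))
          - κ c.c123 * ((u2 / u1) ^ 2 * (u3 / u2) * (u4 / u3)) - κ c.c134
          - κ c.c134 * ((u2 / u1) ^ 2 * (u3 / u2) ^ 2 * (u4 / u3) ^ 2)
          + κ c.c134 * ((u4 / u3) ^ 2) - κ c.c234 * (u2 / u1)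
          - κ c.c234 * ((u2 / u1) * (u3 / u2) ^ 2 * (u4 / u3) ^ 2)
          + κ c.c234 * ((u2 / u1) * (u4 / u3) ^ 2) - κ c.d3 * ((u4 / u3) * (1 / u1))) = 0 := by
    linear_combination (norm := (field_simp; ring)) (u4 / (u1 * u3)) * e3
  have hc123 : c.c123 ≠ 0 := by
    intro h0
    have Lz : P.Lim (κ c.c123 * (u2 * u4 / u3 ^ 2)) 0 := by
      rw [h0, map_zero, zero_mul]
      exact P.lim_zero
    have h := P.eq0 E3 (P.add Lz (by
      apply_rules (maxDepth := 500) [P.add, P.mul, P.lim_sub, P.lim_neg, P.lim_pow, P.lim_ofNat]))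
    exact cc (by simpa using h)
  have cc123 : (c.c123 : ℂ) ≠ 0 := by exact_mod_cast hc123
  have Lχ : P.Lim (u2 * u4 / u3 ^ 2) (c.c134 / c.c123) := by
    refine P.lim_val (P1111_solve E3 (hk _) cc123 (by
      apply_rules (maxDepth := 500) [P.add, P.mul, P.lim_sub, P.lim_neg, P.lim_pow,
        P.lim_ofNat])) ?_
    simp
  have E1 : (2 * κ c.b12) * (u1 * u4 / (u2 * u3)) +
        (-κ c.a1 * (u4 / u3) - κ c.b21 * ((u2 / u1) ^ 2 * (u4 / u3))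
          - κ c.b31 * ((u2 / u1) ^ 2 * (u3 / u2) ^ 2 * (u4 / u3))
          - κ c.b41 * ((u2 / u1) ^ 2 * (u3 / u2) ^ 2 * (u4 / u3) ^ 3)
          + κ c.c123 * ((u2 * u4 / u3 ^ 2)) + κ c.c123 * ((u3 / u2) * (u4 / u3))
          - κ c.c123 * ((u2 / u1) ^ 2 * (u3 / u2) * (u4 / u3)) + κ c.c134
          + κ c.c134 * ((u4 / u3) ^ 2)
          - κ c.c134 * ((u2 / u1) ^ 2 * (u3 / u2) ^ 2 * (u4 / u3) ^ 2)
          + κ c.d1 * ((u4 / u3) * (1 / u1))) = 0 := by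
    linear_combination (norm := (field_simp; ring)) -((u4 / (u1 * u3)) * e1)
  have hb12 : c.b12 ≠ 0 := by
    intro h0
    have Lz : P.Lim ((2 * κ c.b12) * (u1 * u4 / (u2 * u3))) 0 := by
      rw [h0, map_zero, mul_zero, zero_mul]
      exact P.lim_zero
    have h := P.eq0 E1 (P.add Lz (by
      apply_rules (maxDepth := 500) [P.add, P.mul, P.lim_sub, P.lim_neg, P.lim_pow, P.lim_ofNat]))
    have h5 : (c.c123 : ℂ) * (c.c134 / c.c123) + c.c134 = 0 := by simpa using h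
    rw [mul_div_cancel₀ _ cc123] at h5
    have h6 : (c.c134 : ℂ) = 0 := by linear_combination h5 / 2
    exact cc h6
  have cb12 : (c.b12 : ℂ) ≠ 0 := by exact_mod_cast hb12
  have Lζ : P.Lim (u1 * u4 / (u2 * u3)) (-c.c134 / c.b12) := by
    refine P.lim_val (P1111_solve E1 (P.mul (P.lim_ofNat 2) (hk _))
      (mul_ne_zero two_ne_zero cb12) (by
      apply_rules (maxDepth := 500) [P.add, P.mul, P.lim_sub, P.lim_neg, P.lim_pow,
        P.lim_ofNat])) ?_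
    field_simp
    ring
  have Lι := P.lim_swap Lζ (div_ne_zero (neg_ne_zero.2 cc) cb12)
  have E : κ c.a1 - 3 * κ c.b21 * ((u2 / u1) ^ 2)
      - 5 * κ c.b31 * ((u4 / u3) ^ 2 * (u3 ^ 2 / (u1 * u4)) ^ 2)
      - 7 * κ c.b41 * ((u4 / u3) ^ 4 * (u3 ^ 2 / (u1 * u4)) ^ 2) - 2 * κ c.c123 * (u3 / u2)
      - 4 * κ c.c123 * ((u2 / u1) * (u4 / u3) * (u3 ^ 2 / (u1 * u4))) - 2 * κ c.c134 * (u4 / u3)
      - 6 * κ c.c134 * ((u4 / u3) ^ 3 * (u3 ^ 2 / (u1 * u4)) ^ 2) - κ c.d1 * (1 / u1)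
      + 2 * κ c.a2 * (u2 / u1) - κ c.b23 * ((u2 ^ 2 / (u1 * u3)))
      - 4 * κ c.b32 * ((u3 / u2) * (u4 / u3) * (u3 ^ 2 / (u1 * u4)))
      - 6 * κ c.b42 * ((u3 / u2) * (u4 / u3) ^ 3 * (u3 ^ 2 / (u1 * u4)))
      - κ c.c234 * ((u2 * u3 / (u1 * u4))) - 3 * κ c.c234 * ((u2 / u1) * (u4 / u3))
      - 5 * κ c.c234 * ((u3 / u2) * (u4 / u3) ^ 2 * (u3 ^ 2 / (u1 * u4)))
      - 2 * κ c.d2 * (1 / u1) + 3 * κ c.a3 * ((u4 / u3) * (u3 ^ 2 / (u1 * u4)))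
      - 2 * κ c.b34 * ((u3 ^ 2 / (u1 * u4)))
      - 5 * κ c.b43 * ((u4 / u3) ^ 3 * (u3 ^ 2 / (u1 * u4))) - 3 * κ c.d3 * (1 / u1)
      + 4 * κ c.a4 * ((u4 / u3) ^ 2 * (u3 ^ 2 / (u1 * u4))) - 4 * κ c.d4 * (1 / u1) = 0 := by
    linear_combination (norm := (field_simp; ring)) (1 / u1) * (e1 + 2 * e2 + 3 * e3 + 4 * e4)
  have h := P.eq0 E (by
    apply_rules (maxDepth := 500) [P.add, P.mul, P.lim_sub, P.lim_neg, P.lim_pow, P.lim_ofNat])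
  have h5 : (c.a1 : ℂ) - c.b23 * (-c.c134 / c.b24) - c.c234 * (-c.c134 / c.b12)⁻¹ = 0 := by
    simpa using h
  have h6 : ((c.a1 + c.b23 * c.c134 / c.b24 + c.c234 * c.b12 / c.c134 : ℝ) : ℂ) = 0 := by
    rw [← h5]
    push_cast
    field_simp
    ring
  have h7 : c.a1 + c.b23 * c.c134 / c.b24 + c.c234 * c.b12 / c.c134 = 0 := by
    exact_mod_cast h6
  have p12 : 0 < c.b12 := lt_of_le_of_ne hc.b12 (Ne.symm hb12)
  have q1 : 0 ≤ c.b23 * c.c134 / c.b24 := div_nonneg (mul_nonneg hc.b23 hc.c134) hc.b24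
  have q2 : 0 ≤ c.c234 * c.b12 / c.c134 := div_nonneg (mul_nonneg hc.c234 hc.b12) hc.c134
  have := hc.a1
  have := hc.b13
  have := hc.b14
  have := hc.c123
  have := hc.c124
  have := hc.c134
  linarith

theorem P1111_Y0 (S : Sys4 P κ c u1 u2 u3 u4) (L21 : P.Lim (u2 / u1) 0)
    (L32 : P.Lim (u3 / u2) 0) (L43 : P.Lim (u4 / u3) 0) (L4 : P.Lim u4 0)
    (hb14 : c.b14 = 0) (hc124 : c.c124 = 0) (hb13 : c.b13 = 0) (hc134 : c.c134 = 0) :
    P.B (κ c.b24 * (u2 ^ 2 / u4)) ∧ P.B (κ c.c234 * (u2 * u3 / u4)) ∧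
      P.B (κ c.b34 * (u3 ^ 2 / u4)) := by
  have hk := S.k
  have h1 := S.h1
  have h2 := S.h2
  have h3 := S.h3
  have h4 := S.h4
  have e4 := S.e4
  simp only [hb14, hc124, hb13, hc134, map_zero] at e4
  by_cases hb24 : c.b24 = 0
  · simp only [hb24, map_zero] at e4
    refine ⟨?_, ?_⟩
    · rw [hb24, map_zero, zero_mul]
      exact Pl.B.zero
    by_cases hc234 : c.c234 = 0
    · simp only [hc234, map_zero] at e4
      refine ⟨?_, ?_⟩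
      · rw [hc234, map_zero, zero_mul]
        exact Pl.B.zero
      have E : κ c.b34 * (u3 ^ 2 / u4) =
          -κ c.a4 * u4 + 2 * κ c.b41 * ((u2 / u1) * (u3 / u2) * (u4 / u3) * u4)
          + 2 * κ c.b42 * ((u3 / u2) * (u4 / u3) * u4) + 2 * κ c.b43 * ((u4 / u3) * u4) + κ c.d4 := by
        linear_combination (norm := (field_simp; ring)) e4
      rw [E]
      exact ⟨_, by
        apply_rules (maxDepth := 500) [P.add, P.mul, P.lim_sub, P.lim_neg, P.lim_pow,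
          P.lim_ofNat]⟩
    · have BM : P.B (u2 * u3 / u4) := by
        by_contra hB
        have Li : P.Lim (u4 / (u2 * u3)) 0 := by
          have h := Pl.inv_I hB
          rw [inv_div] at h
          exact h
        have E : κ c.a4 * ((u3 / u2) * (u4 / u3) ^ 2)
            - 2 * κ c.b41 * ((u2 / u1) * (u3 / u2) ^ 2 * (u4 / u3) ^ 3)
            - 2 * κ c.b42 * ((u3 / u2) ^ 2 * (u4 / u3) ^ 3)
            - 2 * κ c.b43 * ((u3 / u2) * (u4 / u3) ^ 3) + κ c.b34 * (u3 / u2)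
            - κ c.c234 * ((u4 / u3) ^ 2) - κ c.c234 * ((u3 / u2) ^ 2 * (u4 / u3) ^ 2) + κ c.c234
            - κ c.d4 * ((u4 / (u2 * u3))) = 0 := by
          linear_combination (norm := (field_simp; ring)) (u4 / (u2 * u3)) * e4
        have h := P.eq0 E (by
          apply_rules (maxDepth := 500) [P.add, P.mul, P.lim_sub, P.lim_neg, P.lim_pow,
            P.lim_ofNat])
        exact hc234 (by simpa using h)
      refine ⟨Pl.B.mul ⟨_, hk _⟩ BM, Pl.B.mul ⟨_, hk _⟩ ?_⟩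
      have h : u3 ^ 2 / u4 = u2 * u3 / u4 * (u3 / u2) := by
        field_simp
      rw [h]
      exact BM.mul ⟨_, L32⟩
  · have BM : P.B (u2 ^ 2 / u4) := by
      by_contra hB
      have Li : P.Lim (u4 / u2 ^ 2) 0 := by
        have h := Pl.inv_I hB
        rw [inv_div] at h
        exact h
      have E : κ c.a4 * ((u3 / u2) ^ 2 * (u4 / u3) ^ 2)
          - 2 * κ c.b41 * ((u2 / u1) * (u3 / u2) ^ 3 * (u4 / u3) ^ 3)
          - 2 * κ c.b42 * ((u3 / u2) ^ 3 * (u4 / u3) ^ 3)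
          - 2 * κ c.b43 * ((u3 / u2) ^ 2 * (u4 / u3) ^ 3) + κ c.b24 + κ c.b34 * ((u3 / u2) ^ 2)
          - κ c.c234 * ((u3 / u2) * (u4 / u3) ^ 2) - κ c.c234 * ((u3 / u2) ^ 3 * (u4 / u3) ^ 2)
          + κ c.c234 * (u3 / u2) - κ c.d4 * ((u4 / u2 ^ 2)) = 0 := by
        linear_combination (norm := (field_simp; ring)) (u4 / u2 ^ 2) * e4
      have h := P.eq0 E (by
        apply_rules (maxDepth := 500) [P.add, P.mul, P.lim_sub, P.lim_neg, P.lim_pow,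
          P.lim_ofNat])
      exact hb24 (by simpa using h)
    refine ⟨Pl.B.mul ⟨_, hk _⟩ BM, Pl.B.mul ⟨_, hk _⟩ ?_, Pl.B.mul ⟨_, hk _⟩ ?_⟩
    · have h : u2 * u3 / u4 = u2 ^ 2 / u4 * (u3 / u2) := by
        field_simp
      rw [h]
      exact BM.mul ⟨_, L32⟩
    · have h : u3 ^ 2 / u4 = u2 ^ 2 / u4 * (u3 / u2) ^ 2 := by
        field_simp
      rw [h]
      exact BM.mul ⟨_, P.lim_pow L32 2⟩

theorem P1111_c123 (S : Sys4 P κ c u1 u2 u3 u4) (L21 : P.Lim (u2 / u1) 0)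
    (L32 : P.Lim (u3 / u2) 0) (L43 : P.Lim (u4 / u3) 0) (Lη : P.Lim (1 / u1) 0)
    (hb14 : c.b14 = 0) (hc124 : c.c124 = 0) (hb13 : c.b13 = 0) (hc134 : c.c134 = 0)
    {w w' : ℂ} (Lw : P.Lim (κ c.b34 * (u3 ^ 2 / u4)) w)
    (Lw' : P.Lim (κ c.c234 * (u2 * u3 / u4)) w') : c.c123 = 0 := by
  have hk := S.k
  have h1 := S.h1
  have h2 := S.h2
  have h3 := S.h3
  have h4 := S.h4
  have e3 := S.e3
  simp only [hb14, hc124, hb13, hc134, map_zero] at e3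
  have E : κ c.a3 * ((u2 / u1) * (u3 / u2) ^ 2) - 2 * κ c.b31 * ((u2 / u1) ^ 2 * (u3 / u2) ^ 3)
      - 2 * κ c.b32 * ((u2 / u1) * (u3 / u2) ^ 3) + κ c.b23 * (u2 / u1)
      + κ c.b43 * ((u2 / u1) * (u3 / u2) ^ 2 * (u4 / u3) ^ 2) - κ c.c123 * ((u3 / u2) ^ 2)
      - κ c.c123 * ((u2 / u1) ^ 2 * (u3 / u2) ^ 2) + κ c.c123
      - κ c.c234 * ((u2 / u1) * (u3 / u2) ^ 3 * (u4 / u3))
      + κ c.c234 * ((u2 / u1) * (u3 / u2) * (u4 / u3)) - κ c.d3 * ((u3 / u2) * (1 / u1))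
      - 2 * ((κ c.b34 * (u3 ^ 2 / u4)) * ((u3 / u2) * (1 / u1)))
      - (κ c.c234 * (u2 * u3 / u4)) * ((u3 / u2) * (1 / u1))
      = 0 := by
    linear_combination (norm := (field_simp; ring)) (u3 / (u1 * u2)) * e3
  have h := P.eq0 E (by
    apply_rules (maxDepth := 500) [P.add, P.mul, P.lim_sub, P.lim_neg, P.lim_pow, P.lim_ofNat])
  simpa using h

theorem P1111_Y (S : Sys4 P κ c u1 u2 u3 u4) (hc : c.Pos) (L21 : P.Lim (u2 / u1) 0)
    (L32 : P.Lim (u3 / u2) 0) (L43 : P.Lim (u4 / u3) 0) (Lη : P.Lim (1 / u1) 0)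
    (L4 : P.Lim u4 0)
    (hb14 : c.b14 = 0) (hc124 : c.c124 = 0) (hb13 : c.b13 = 0) (hc134 : c.c134 = 0) : False := by
  obtain ⟨B24, B234, B34⟩ := P1111_Y0 S L21 L32 L43 L4 hb14 hc124 hb13 hc134
  have hc123 : c.c123 = 0 := by
    obtain ⟨w, Lw⟩ := B34
    obtain ⟨w', Lw'⟩ := B234
    exact P1111_c123 S L21 L32 L43 Lη hb14 hc124 hb13 hc134 Lw Lw'
  have hk := S.k
  have h1 := S.h1
  have h2 := S.h2
  have h3 := S.h3
  have h4 := S.h4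
  have e1 := S.e1
  have e2 := S.e2
  have e3 := S.e3
  have e4 := S.e4
  simp only [hb14, hc124, hb13, hc134, hc123, map_zero] at e1 e2 e3 e4
  have hb12 : c.b12 = 0 := by
    have E : κ c.a1 * (u2 / u1) - 2 * κ c.b12 + κ c.b21 * ((u2 / u1) ^ 3)
        + κ c.b31 * ((u2 / u1) ^ 3 * (u3 / u2) ^ 2)
        + κ c.b41 * ((u2 / u1) ^ 3 * (u3 / u2) ^ 2 * (u4 / u3) ^ 2)
        - κ c.d1 * ((u2 / u1) * (1 / u1)) = 0 := by
      linear_combination (norm := (field_simp; ring)) (u2 / u1 ^ 2) * e1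
    have h := P.eq0 E (by
      apply_rules (maxDepth := 500) [P.add, P.mul, P.lim_sub, P.lim_neg, P.lim_pow, P.lim_ofNat])
    simpa using h
  simp only [hb12, map_zero] at e1 e2
  have ha1 : c.a1 = 0 := by
    have E : κ c.a1 + κ c.b21 * ((u2 / u1) ^ 2) + κ c.b31 * ((u2 / u1) ^ 2 * (u3 / u2) ^ 2)
        + κ c.b41 * ((u2 / u1) ^ 2 * (u3 / u2) ^ 2 * (u4 / u3) ^ 2) - κ c.d1 * (1 / u1) = 0 := by
      linear_combination (norm := (field_simp; ring)) (1 / u1) * e1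
    have h := P.eq0 E (by
      apply_rules (maxDepth := 500) [P.add, P.mul, P.lim_sub, P.lim_neg, P.lim_pow, P.lim_ofNat])
    simpa using h
  simp only [ha1, map_zero] at e1
  have cd1 : (c.d1 : ℂ) ≠ 0 := by exact_mod_cast hc.d1.ne'
  -- `u2 ^ 2 / u1` is not infinitesimal
  have hN : ¬ P.I (u2 ^ 2 / u1) := by
    intro hI
    change P.Lim (u2 ^ 2 / u1) 0 at hI
    have E : κ c.b21 * ((u2 ^ 2 / u1)) + κ c.b31 * ((u3 / u2) ^ 2 * (u2 ^ 2 / u1))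
        + κ c.b41 * ((u3 / u2) ^ 2 * (u4 / u3) ^ 2 * (u2 ^ 2 / u1)) - κ c.d1 = 0 := by
      linear_combination (norm := (field_simp; ring)) e1
    have h := P.eq0 E (by
      apply_rules (maxDepth := 500) [P.add, P.mul, P.lim_sub, P.lim_neg, P.lim_pow, P.lim_ofNat])
    exact cd1 (by simpa using h)
  have Li2 : P.Lim (1 / u2) 0 := by
    have hB := Pl.inv_B hN
    have h : P.I ((u2 / u1) * (u2 ^ 2 / u1)⁻¹) := Pl.I.mul L21 hB
    have h5 : (u2 / u1) * (u2 ^ 2 / u1)⁻¹ = 1 / u2 := by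
      field_simp
    rw [h5] at h
    exact h
  have hb24 : c.b24 = 0 := by
    by_contra h0
    have kb : κ c.b24 ≠ 0 := (map_ne_zero κ).2 h0
    obtain ⟨w, Lw⟩ := B24
    have h : P.Lim (κ c.b24) (w * (0 * 0 ^ 2)) := by
      refine P.lim_eq ?_ (P.mul Lw (P.mul L4 (P.lim_pow Li2 2)))
      field_simp
    have h5 := P.uniq h (hk _)
    exact h0 (by
      have h6 : (c.b24 : ℂ) = 0 := by
        rw [← h5]
        simp
      exact_mod_cast h6)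
  have hc234 : c.c234 = 0 := by
    by_contra h0
    have kb : κ c.c234 ≠ 0 := (map_ne_zero κ).2 h0
    obtain ⟨w, Lw⟩ := B234
    have h : P.Lim (κ c.c234) (w * (0 * 0)) := by
      refine P.lim_eq ?_ (P.mul Lw (P.mul L43 Li2))
      field_simp
    have h5 := P.uniq h (hk _)
    exact h0 (by
      have h6 : (c.c234 : ℂ) = 0 := by
        rw [← h5]
        simp
      exact_mod_cast h6)
  simp only [hb24, hc234, map_zero] at e2 e3 e4
  have cd4 : (c.d4 : ℂ) ≠ 0 := by exact_mod_cast hc.d4.ne'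
  have E4 : κ c.b34 * (u3 ^ 2 / u4) +
        (κ c.a4 * u4 - 2 * κ c.b41 * ((u2 / u1) * (u3 / u2) * (u4 / u3) * u4)
          - 2 * κ c.b42 * ((u3 / u2) * (u4 / u3) * u4) - 2 * κ c.b43 * ((u4 / u3) * u4) - κ c.d4) = 0 := by
    linear_combination (norm := (field_simp; ring)) e4
  have hb34 : c.b34 ≠ 0 := by
    intro h0
    have Lz : P.Lim (κ c.b34 * (u3 ^ 2 / u4)) 0 := by
      rw [h0, map_zero, zero_mul]
      exact P.lim_zero
    have h := P.eq0 E4 (P.add Lz (by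
      apply_rules (maxDepth := 500) [P.add, P.mul, P.lim_sub, P.lim_neg, P.lim_pow, P.lim_ofNat]))
    exact cd4 (by simpa using h)
  have cb34 : (c.b34 : ℂ) ≠ 0 := by exact_mod_cast hb34
  have LM : P.Lim (u3 ^ 2 / u4) (c.d4 / c.b34) := by
    refine P.lim_val (P1111_solve E4 (hk _) cb34 (by
      apply_rules (maxDepth := 500) [P.add, P.mul, P.lim_sub, P.lim_neg, P.lim_pow,
        P.lim_ofNat])) ?_
    simp
  have L3 : P.Lim u3 0 := by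
    apply P1111_sq
    refine P.lim_val (P.lim_eq (b := u3 ^ 2 / u4 * u4) ?_ (P.mul LM L4)) (mul_zero _)
    field_simp
  have hb21 : c.b21 ≠ 0 := by
    intro h0
    simp only [h0, map_zero] at e1
    have E : κ c.b31 * ((u2 / u1) * (u3 / u2) * u3)
        + κ c.b41 * ((u2 / u1) * (u3 / u2) * (u4 / u3) ^ 2 * u3) - κ c.d1 = 0 := by
      linear_combination (norm := (field_simp; ring)) e1
    have h := P.eq0 E (by
      apply_rules (maxDepth := 500) [P.add, P.mul, P.lim_sub, P.lim_neg, P.lim_pow, P.lim_ofNat])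
    exact cd1 (by simpa using h)
  have hb23 : c.b23 = 0 := by
    have E : κ c.a3 * ((u3 / u2) ^ 2) - 2 * κ c.b31 * ((u2 / u1) * (u3 / u2) ^ 3)
        - 2 * κ c.b32 * ((u3 / u2) ^ 3) - 2 * κ c.b34 * ((u3 / u2) * (1 / u2) * (u3 ^ 2 / u4))
        + κ c.b23 + κ c.b43 * ((u3 / u2) ^ 2 * (u4 / u3) ^ 2) - κ c.d3 * ((u3 / u2) * (1 / u2)) = 0 := by
      linear_combination (norm := (field_simp; ring)) (u3 / u2 ^ 2) * e3
    have h := P.eq0 E (by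
      apply_rules (maxDepth := 500) [P.add, P.mul, P.lim_sub, P.lim_neg, P.lim_pow, P.lim_ofNat])
    simpa using h
  simp only [hb23, map_zero] at e2
  have ha2 : c.a2 = 0 := by
    have E : κ c.a2 - 2 * κ c.b21 * (u2 / u1) + κ c.b32 * ((u3 / u2) ^ 2)
        + κ c.b42 * ((u3 / u2) ^ 2 * (u4 / u3) ^ 2) - κ c.d2 * (1 / u2) = 0 := by
      linear_combination (norm := (field_simp; ring)) (1 / u2) * e2
    have h := P.eq0 E (by
      apply_rules (maxDepth := 500) [P.add, P.mul, P.lim_sub, P.lim_neg, P.lim_pow, P.lim_ofNat])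
    simpa using h
  have p21 : 0 < c.b21 := lt_of_le_of_ne hc.b21 (Ne.symm hb21)
  have := hc.a2
  have := hc.b23
  have := hc.b24
  have := hc.c123
  have := hc.c124
  have := hc.c234
  linarith

theorem p1111 (S : Sys4 P κ c u1 u2 u3 u4) (hc : c.Pos) (L21 : P.Lim (u2 / u1) 0)
    (L32 : P.Lim (u3 / u2) 0) (L43 : P.Lim (u4 / u3) 0) (Lη : P.Lim (1 / u1) 0)
    (L4 : P.Lim u4 0) : False := by
  have hb14 := P1111_b14 S L21 L32 L43 Lη
  have hc124 := P1111_c124 S L21 L32 L43 Lη hb14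
  obtain ⟨hb13, hξ⟩ := P1111_b13 S L21 L32 L43 Lη hb14 hc124
  by_cases hc134 : c.c134 = 0
  · exact P1111_Y S hc L21 L32 L43 Lη L4 hb14 hc124 hb13 hc134
  · exact P1111_X S hc L21 L32 L43 Lη hb14 hc124 hb13 hc134 (hξ hc134)

end Pool.Agent.H.MP_deabf1_gt.Four
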