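import Pool.Agent.H.MP_deabf1_gt.helper65.Base

/-!
Two comparable small summands and two incomparable larger ones.
-/

namespace Pool.Agent.H.MP_deabf1_gt.Four

variable {K : Type*} [Field K] [Algebra ℝ K] {P : Pl K} {κ : ℝ →+* K} {c : Cf}
  {u1 u2 u3 u4 : K}

theorem p112 (S : Sys4 P κ c u1 u2 u3 u4) (hc : c.Pos) {s : ℂ} (hs : s ≠ 0)
    (L21 : P.Lim (u2 / u1) 0) (L42 : P.Lim (u4 / u2) 0) (Ls : P.Lim (u3 / u4) s)
    (Lη : P.Lim (1 / u1) 0) (L4 : P.Lim u4 0) : False := by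
  have hk := S.k
  have h1 := S.h1
  have h2 := S.h2
  have h3 := S.h3
  have h4 := S.h4
  have Ls' := P.lim_swap Ls hs
  have e1 := S.e1
  have e2 := S.e2
  have e3 := S.e3
  have e4 := S.e4
  have hb13 : c.b13 = 0 := by
    have E : κ c.a3 * ((u2 / u1) ^ 2 * (u4 / u2) ^ 2 * (u3 / u4) ^ 2)
        - 2 * κ c.b31 * ((u2 / u1) ^ 3 * (u4 / u2) ^ 3 * (u3 / u4) ^ 3)
        - 2 * κ c.b32 * ((u2 / u1) ^ 2 * (u4 / u2) ^ 3 * (u3 / u4) ^ 3)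
        - 2 * κ c.b34 * ((u2 / u1) ^ 2 * (u4 / u2) ^ 2 * (u3 / u4) ^ 3) + κ c.b13
        + κ c.b23 * ((u2 / u1) ^ 2) + κ c.b43 * ((u2 / u1) ^ 2 * (u4 / u2) ^ 2)
        - κ c.c123 * ((u2 / u1) * (u4 / u2) ^ 2 * (u3 / u4) ^ 2)
        - κ c.c123 * ((u2 / u1) ^ 3 * (u4 / u2) ^ 2 * (u3 / u4) ^ 2) + κ c.c123 * (u2 / u1)
        - κ c.c134 * ((u2 / u1) * (u4 / u2) * (u3 / u4) ^ 2)
        - κ c.c134 * ((u2 / u1) ^ 3 * (u4 / u2) ^ 3 * (u3 / u4) ^ 2)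
        + κ c.c134 * ((u2 / u1) * (u4 / u2))
        - κ c.c234 * ((u2 / u1) ^ 2 * (u4 / u2) * (u3 / u4) ^ 2)
        - κ c.c234 * ((u2 / u1) ^ 2 * (u4 / u2) ^ 3 * (u3 / u4) ^ 2)
        + κ c.c234 * ((u2 / u1) ^ 2 * (u4 / u2))
        - κ c.d3 * ((u2 / u1) * (u4 / u2) * (u3 / u4) * (1 / u1)) = 0 := by
      linear_combination (norm := (field_simp; ring)) (u3 / u1 ^ 2) * e3
    have h := P.eq0 E (by
      apply_rules (maxDepth := 500) [P.add, P.mul, P.lim_sub, P.lim_neg, P.lim_pow, P.lim_ofNat])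
    simpa using h
  have hb14 : c.b14 = 0 := by
    have E : κ c.a4 * ((u2 / u1) ^ 2 * (u4 / u2) ^ 2)
        - 2 * κ c.b41 * ((u2 / u1) ^ 3 * (u4 / u2) ^ 3)
        - 2 * κ c.b42 * ((u2 / u1) ^ 2 * (u4 / u2) ^ 3)
        - 2 * κ c.b43 * ((u2 / u1) ^ 2 * (u4 / u2) ^ 2 * (u4 / u3)) + κ c.b14
        + κ c.b24 * ((u2 / u1) ^ 2) + κ c.b34 * ((u2 / u1) ^ 2 * (u4 / u2) ^ 2 * (u3 / u4) ^ 2)
        - κ c.c124 * ((u2 / u1) * (u4 / u2) ^ 2) - κ c.c124 * ((u2 / u1) ^ 3 * (u4 / u2) ^ 2)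
        + κ c.c124 * (u2 / u1) - κ c.c134 * ((u2 / u1) * (u4 / u2) * (u4 / u3))
        - κ c.c134 * ((u2 / u1) ^ 3 * (u4 / u2) ^ 3 * (u3 / u4))
        + κ c.c134 * ((u2 / u1) * (u4 / u2) * (u3 / u4))
        - κ c.c234 * ((u2 / u1) ^ 2 * (u4 / u2) * (u4 / u3))
        - κ c.c234 * ((u2 / u1) ^ 2 * (u4 / u2) ^ 3 * (u3 / u4))
        + κ c.c234 * ((u2 / u1) ^ 2 * (u4 / u2) * (u3 / u4))
        - κ c.d4 * ((u2 / u1) * (u4 / u2) * (1 / u1)) = 0 := by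
      linear_combination (norm := (field_simp; ring)) (u4 / u1 ^ 2) * e4
    have h := P.eq0 E (by
      apply_rules (maxDepth := 500) [P.add, P.mul, P.lim_sub, P.lim_neg, P.lim_pow, P.lim_ofNat])
    simpa using h
  simp only [hb13, hb14, map_zero] at e1 e3 e4
  have hc123 : c.c123 = 0 := by
    have E : κ c.a3 * ((u2 / u1) * (u4 / u2) ^ 2 * (u3 / u4) ^ 2)
        - 2 * κ c.b31 * ((u2 / u1) ^ 2 * (u4 / u2) ^ 3 * (u3 / u4) ^ 3)
        - 2 * κ c.b32 * ((u2 / u1) * (u4 / u2) ^ 3 * (u3 / u4) ^ 3)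
        - 2 * κ c.b34 * ((u2 / u1) * (u4 / u2) ^ 2 * (u3 / u4) ^ 3) + κ c.b23 * (u2 / u1)
        + κ c.b43 * ((u2 / u1) * (u4 / u2) ^ 2) - κ c.c123 * ((u4 / u2) ^ 2 * (u3 / u4) ^ 2)
        - κ c.c123 * ((u2 / u1) ^ 2 * (u4 / u2) ^ 2 * (u3 / u4) ^ 2) + κ c.c123
        - κ c.c134 * ((u4 / u2) * (u3 / u4) ^ 2)
        - κ c.c134 * ((u2 / u1) ^ 2 * (u4 / u2) ^ 3 * (u3 / u4) ^ 2) + κ c.c134 * (u4 / u2)
        - κ c.c234 * ((u2 / u1) * (u4 / u2) * (u3 / u4) ^ 2)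
        - κ c.c234 * ((u2 / u1) * (u4 / u2) ^ 3 * (u3 / u4) ^ 2)
        + κ c.c234 * ((u2 / u1) * (u4 / u2)) - κ c.d3 * ((u4 / u2) * (u3 / u4) * (1 / u1)) = 0 := by
      linear_combination (norm := (field_simp; ring)) (u3 / (u1 * u2)) * e3
    have h := P.eq0 E (by
      apply_rules (maxDepth := 500) [P.add, P.mul, P.lim_sub, P.lim_neg, P.lim_pow, P.lim_ofNat])
    simpa using h
  have hc124 : c.c124 = 0 := by
    have E : κ c.a4 * ((u2 / u1) * (u4 / u2) ^ 2) - 2 * κ c.b41 * ((u2 / u1) ^ 2 * (u4 / u2) ^ 3)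
        - 2 * κ c.b42 * ((u2 / u1) * (u4 / u2) ^ 3)
        - 2 * κ c.b43 * ((u2 / u1) * (u4 / u2) ^ 2 * (u4 / u3)) + κ c.b24 * (u2 / u1)
        + κ c.b34 * ((u2 / u1) * (u4 / u2) ^ 2 * (u3 / u4) ^ 2) - κ c.c124 * ((u4 / u2) ^ 2)
        - κ c.c124 * ((u2 / u1) ^ 2 * (u4 / u2) ^ 2) + κ c.c124 - κ c.c134 * ((u4 / u2) * (u4 / u3))
        - κ c.c134 * ((u2 / u1) ^ 2 * (u4 / u2) ^ 3 * (u3 / u4))
        + κ c.c134 * ((u4 / u2) * (u3 / u4)) - κ c.c234 * ((u2 / u1) * (u4 / u2) * (u4 / u3))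
        - κ c.c234 * ((u2 / u1) * (u4 / u2) ^ 3 * (u3 / u4))
        + κ c.c234 * ((u2 / u1) * (u4 / u2) * (u3 / u4)) - κ c.d4 * ((u4 / u2) * (1 / u1)) = 0 := by
      linear_combination (norm := (field_simp; ring)) (u4 / (u1 * u2)) * e4
    have h := P.eq0 E (by
      apply_rules (maxDepth := 500) [P.add, P.mul, P.lim_sub, P.lim_neg, P.lim_pow, P.lim_ofNat])
    simpa using h
  simp only [hc123, hc124, map_zero] at e1 e2 e3 e4
  have hb12 : c.b12 = 0 := by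
    have E : κ c.a1 * (u2 / u1) - 2 * κ c.b12 + κ c.b21 * ((u2 / u1) ^ 3)
        + κ c.b31 * ((u2 / u1) ^ 3 * (u4 / u2) ^ 2 * (u3 / u4) ^ 2)
        + κ c.b41 * ((u2 / u1) ^ 3 * (u4 / u2) ^ 2) - κ c.c134 * ((u2 / u1) * (u3 / u4))
        - κ c.c134 * ((u2 / u1) * (u4 / u3))
        + κ c.c134 * ((u2 / u1) ^ 3 * (u4 / u2) ^ 2 * (u3 / u4)) - κ c.d1 * ((u2 / u1) * (1 / u1)) = 0 := by
      linear_combination (norm := (field_simp; ring)) (u2 / u1 ^ 2) * e1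
    have h := P.eq0 E (by
      apply_rules (maxDepth := 500) [P.add, P.mul, P.lim_sub, P.lim_neg, P.lim_pow, P.lim_ofNat])
    simpa using h
  simp only [hb12, map_zero] at e1 e2
  have := hc.d1
  have := hc.d2
  have := hc.d3
  have := hc.d4
  by_cases hI : P.I u2
  · have L2 : P.Lim u2 0 := hI
    have E : κ c.a2 * u2 - 2 * κ c.b21 * ((u2 / u1) * u2)
        - 3 * κ c.b32 * ((u4 / u2) ^ 2 * (u3 / u4) ^ 2 * u2) - 3 * κ c.b42 * ((u4 / u2) ^ 2 * u2)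
        - κ c.c234 * ((u3 / u4) * u2) - κ c.c234 * ((u4 / u3) * u2)
        - 3 * κ c.c234 * ((u4 / u2) ^ 2 * (u3 / u4) * u2) - κ c.d2
        + 2 * κ c.a3 * ((u4 / u2) * (u3 / u4) * u2)
        - 4 * κ c.b31 * ((u2 / u1) * (u4 / u2) ^ 2 * (u3 / u4) ^ 2 * u2)
        - 2 * κ c.b34 * ((u4 / u2) * (u3 / u4) ^ 2 * u2)
        - 2 * κ c.b43 * ((u4 / u2) * (u4 / u3) * u2)
        - 4 * κ c.c134 * ((u2 / u1) * (u4 / u2) ^ 2 * (u3 / u4) * u2) - 2 * κ c.d3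
        + 2 * κ c.a4 * ((u4 / u2) * u2) - 4 * κ c.b41 * ((u2 / u1) * (u4 / u2) ^ 2 * u2)
        - 2 * κ c.d4 = 0 := by
      linear_combination (norm := (field_simp; ring)) e2 + 2 * e3 + 2 * e4
    have h := P.eq0 E (by
      apply_rules (maxDepth := 500) [P.add, P.mul, P.lim_sub, P.lim_neg, P.lim_pow, P.lim_ofNat])
    have h' : -c.d2 - 2 * c.d3 - 2 * c.d4 = 0 := by
      have h5 : ((-c.d2 - 2 * c.d3 - 2 * c.d4 : ℝ) : ℂ) = 0 := by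
        push_cast
        simpa using h
      exact_mod_cast h5
    linarith
  obtain ⟨w, hw⟩ := Pl.inv_B hI
  rw [← one_div] at hw
  have hbs : (c.b23 : ℂ) * s⁻¹ + c.b24 = 0 := by
    have E : κ c.a3 * ((u4 / u2) ^ 2 * (u3 / u4))
        - 2 * κ c.b31 * ((u2 / u1) * (u4 / u2) ^ 3 * (u3 / u4) ^ 2)
        - 2 * κ c.b32 * ((u4 / u2) ^ 3 * (u3 / u4) ^ 2) - κ c.b34 * ((u4 / u2) ^ 2 * (u3 / u4) ^ 2)
        + κ c.b23 * (u4 / u3) - κ c.b43 * ((u4 / u2) ^ 2 * (u4 / u3))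
        - 2 * κ c.c134 * ((u2 / u1) * (u4 / u2) ^ 3 * (u3 / u4))
        - 2 * κ c.c234 * ((u4 / u2) ^ 3 * (u3 / u4)) - κ c.d3 * ((u4 / u2) * (1 / u2))
        + κ c.a4 * ((u4 / u2) ^ 2) - 2 * κ c.b41 * ((u2 / u1) * (u4 / u2) ^ 3)
        - 2 * κ c.b42 * ((u4 / u2) ^ 3) + κ c.b24 - κ c.d4 * ((u4 / u2) * (1 / u2)) = 0 := by
      linear_combination (norm := (field_simp; ring)) (u4 / u2 ^ 2) * (e3 + e4)
    have h := P.eq0 E (by
      apply_rules (maxDepth := 500) [P.add, P.mul, P.lim_sub, P.lim_neg, P.lim_pow, P.lim_ofNat])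
    simpa using h
  have hbs' : (c.b24 : ℂ) * s + c.b23 = 0 := by
    have h := congrArg (· * s) hbs
    simp only [add_mul, zero_mul, mul_assoc, inv_mul_cancel₀ hs, mul_one] at h
    linear_combination h
  have hb24 : 0 < c.b24 := by
    rcases hc.b24.lt_or_eq with h | h
    · exact h
    exfalso
    have hb24 := h.symm
    have hb23 : c.b23 = 0 := by
      rw [hb24] at hbs'
      simpa using hbs'
    simp only [hb23, hb24, map_zero] at e3 e4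
    have E : κ c.a3 * ((u3 / u4) * u4) - 2 * κ c.b31 * ((u2 / u1) * (u4 / u2) * (u3 / u4) ^ 2 * u4)
        - 2 * κ c.b32 * ((u4 / u2) * (u3 / u4) ^ 2 * u4) - κ c.b34 * ((u3 / u4) ^ 2 * u4)
        - κ c.b43 * ((u4 / u3) * u4) - 2 * κ c.c134 * ((u2 / u1) * (u4 / u2) * (u3 / u4) * u4)
        - 2 * κ c.c234 * ((u4 / u2) * (u3 / u4) * u4) - κ c.d3 + κ c.a4 * u4
        - 2 * κ c.b41 * ((u2 / u1) * (u4 / u2) * u4) - 2 * κ c.b42 * ((u4 / u2) * u4) - κ c.d4 = 0 := by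
      linear_combination (norm := (field_simp; ring)) e3 + e4
    have h := P.eq0 E (by
      apply_rules (maxDepth := 500) [P.add, P.mul, P.lim_sub, P.lim_neg, P.lim_pow, P.lim_ofNat])
    have h' : -c.d3 - c.d4 = 0 := by
      have h5 : ((-c.d3 - c.d4 : ℝ) : ℂ) = 0 := by
        push_cast
        simpa using h
      exact_mod_cast h5
    linarith
  have hs' : s = ((-c.b23 / c.b24 : ℝ) : ℂ) := Pl.real_of_mul hb24.ne' hbs'
  obtain ⟨σ, hσ⟩ : ∃ σ : ℝ, σ = -c.b23 / c.b24 := ⟨_, rfl⟩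
  rw [← hσ] at hs'
  have hσ0 : σ ≠ 0 := by
    rintro rfl
    exact hs (by simpa using hs')
  have hσneg : σ < 0 := by
    refine lt_of_le_of_ne ?_ hσ0
    rw [hσ]
    exact div_nonpos_of_nonpos_of_nonneg (by linarith [hc.b23]) hb24.le
  have hσ2 : σ + σ⁻¹ < 0 := by
    have := inv_lt_zero.2 hσneg
    linarith
  subst hs'
  have ha1 : c.a1 = c.c134 * (σ + σ⁻¹) := by
    have E : κ c.a1 + κ c.b21 * ((u2 / u1) ^ 2)
        + κ c.b31 * ((u2 / u1) ^ 2 * (u4 / u2) ^ 2 * (u3 / u4) ^ 2)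
        + κ c.b41 * ((u2 / u1) ^ 2 * (u4 / u2) ^ 2) - κ c.c134 * (u3 / u4) - κ c.c134 * (u4 / u3)
        + κ c.c134 * ((u2 / u1) ^ 2 * (u4 / u2) ^ 2 * (u3 / u4)) - κ c.d1 * (1 / u1) = 0 := by
      linear_combination (norm := (field_simp; ring)) (1 / u1) * e1
    have h := P.eq0 E (by
      apply_rules (maxDepth := 500) [P.add, P.mul, P.lim_sub, P.lim_neg, P.lim_pow, P.lim_ofNat])
    have h5 : ((c.a1 - c.c134 * σ - c.c134 * σ⁻¹ : ℝ) : ℂ) = 0 := by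
      push_cast
      simpa using h
    have h6 : c.a1 - c.c134 * σ - c.c134 * σ⁻¹ = 0 := by exact_mod_cast h5
    linear_combination h6
  have hc134 : c.c134 = 0 := by
    have g1 := hc.a1
    have g2 := hc.c134
    have g3 := mul_nonpos_of_nonneg_of_nonpos g2 hσ2.le
    linarith [hc.b12, hc.b13, hc.b14, hc.c123, hc.c124]
  have ha1' : c.a1 = 0 := by rw [ha1, hc134, zero_mul]
  simp only [hc134, ha1', map_zero] at e1 e3 e4
  have hnB : ¬ P.B u2 := by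
    rintro ⟨z, hz⟩
    have E : κ c.b21 * ((1 / u1) * u2 ^ 2)
        + κ c.b31 * ((1 / u1) * (u4 / u2) ^ 2 * (u3 / u4) ^ 2 * u2 ^ 2)
        + κ c.b41 * ((1 / u1) * (u4 / u2) ^ 2 * u2 ^ 2) - κ c.d1 = 0 := by
      linear_combination (norm := (field_simp; ring)) e1
    have h := P.eq0 E (by
      apply_rules (maxDepth := 500) [P.add, P.mul, P.lim_sub, P.lim_neg, P.lim_pow, P.lim_ofNat])
    have h' : c.d1 = 0 := by simpa using h
    linarith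
  have hV : P.Lim (1 / u2) 0 := by
    rw [one_div]
    exact Pl.inv_I hnB
  clear hw

  have E : κ c.a2 - 2 * κ c.b21 * (u2 / u1) - 3 * κ c.b32 * ((u4 / u2) ^ 2 * (u3 / u4) ^ 2)
      - 3 * κ c.b42 * ((u4 / u2) ^ 2) - κ c.c234 * (u3 / u4) - κ c.c234 * (u4 / u3)
      - 3 * κ c.c234 * ((u4 / u2) ^ 2 * (u3 / u4)) - κ c.d2 * (1 / u2)
      + 2 * κ c.a3 * ((u4 / u2) * (u3 / u4))
      - 4 * κ c.b31 * ((u2 / u1) * (u4 / u2) ^ 2 * (u3 / u4) ^ 2)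
      - 2 * κ c.b34 * ((u4 / u2) * (u3 / u4) ^ 2) - 2 * κ c.b43 * ((u4 / u2) * (u4 / u3))
      - 2 * κ c.d3 * (1 / u2) + 2 * κ c.a4 * (u4 / u2) - 4 * κ c.b41 * ((u2 / u1) * (u4 / u2) ^ 2)
      - 2 * κ c.d4 * (1 / u2) = 0 := by
    linear_combination (norm := (field_simp; ring)) (1 / u2) * (e2 + 2 * e3 + 2 * e4)
  have h := P.eq0 E (by
    apply_rules (maxDepth := 500) [P.add, P.mul, P.lim_sub, P.lim_neg, P.lim_pow, P.lim_ofNat])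
  have ha2 : c.a2 = c.c234 * (σ + σ⁻¹) := by
    have h5 : ((c.a2 - c.c234 * σ - c.c234 * σ⁻¹ : ℝ) : ℂ) = 0 := by
      push_cast
      simpa using h
    have h6 : c.a2 - c.c234 * σ - c.c234 * σ⁻¹ = 0 := by exact_mod_cast h5
    linear_combination h6
  have g1 := hc.a2
  have g3 := mul_nonpos_of_nonneg_of_nonpos hc.c234 hσ2.le
  linarith [hc.b21, hc.b23, hc.c123, hc.c124, hc.c234]

end Pool.Agent.H.MP_deabf1_gt.Four
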