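import Pool.Agent.H.MP_deabf1_gt.helper65.P31

/-!
Two comparable summands between a large and a small one.
-/

namespace Pool.Agent.H.MP_deabf1_gt.Four

variable {K : Type*} [Field K] [Algebra ℝ K] {P : Pl K} {κ : ℝ →+* K} {c : Cf}
  {u1 u2 u3 u4 : K}

theorem p121 (S : Sys4 P κ c u1 u2 u3 u4) (hc : c.Pos)
    (hD : c.b12 ≠ 0 → c.b13 ≠ 0 → c.c124 ≠ 0 → c.c134 = 0) {y : ℂ} (hy : y ≠ 0)
    (L31 : P.Lim (u3 / u1) 0) (Ly : P.Lim (u2 / u3) y) (L43 : P.Lim (u4 / u3) 0)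
    (Lη : P.Lim (1 / u1) 0) (L4 : P.Lim u4 0) : False := by
  have hk := S.k
  have h1 := S.h1
  have h2 := S.h2
  have h3 := S.h3
  have h4 := S.h4
  have Ly' := P.lim_swap Ly hy
  have hb14 : c.b14 = 0 := by
    have E : κ c.a4 * ((u3 / u1) ^ 2 * (u4 / u3) ^ 2)
        - 2 * κ c.b41 * ((u3 / u1) ^ 3 * (u4 / u3) ^ 3)
        - 2 * κ c.b42 * ((u3 / u1) ^ 2 * (u3 / u2) * (u4 / u3) ^ 3)
        - 2 * κ c.b43 * ((u3 / u1) ^ 2 * (u4 / u3) ^ 3) + κ c.b14
        + κ c.b24 * ((u3 / u1) ^ 2 * (u2 / u3) ^ 2) + κ c.b34 * ((u3 / u1) ^ 2)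
        - κ c.c124 * ((u3 / u1) * (u3 / u2) * (u4 / u3) ^ 2)
        - κ c.c124 * ((u3 / u1) ^ 3 * (u2 / u3) * (u4 / u3) ^ 2)
        + κ c.c124 * ((u3 / u1) * (u2 / u3)) - κ c.c134 * ((u3 / u1) * (u4 / u3) ^ 2)
        - κ c.c134 * ((u3 / u1) ^ 3 * (u4 / u3) ^ 2) + κ c.c134 * (u3 / u1)
        - κ c.c234 * ((u3 / u1) ^ 2 * (u2 / u3) * (u4 / u3) ^ 2)
        - κ c.c234 * ((u3 / u1) ^ 2 * (u3 / u2) * (u4 / u3) ^ 2)
        + κ c.c234 * ((u3 / u1) ^ 2 * (u2 / u3))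
        - κ c.d4 * ((u3 / u1) * (u4 / u3) * (1 / u1)) = 0 := by
      linear_combination (norm := (field_simp; ring)) (u4 / u1 ^ 2) * S.e4
    have h := P.eq0 E (by
      apply_rules (maxDepth := 500) [P.add, P.mul, P.lim_sub, P.lim_neg, P.lim_pow, P.lim_ofNat])
    simpa using h
  have e1 := S.e1
  have e2 := S.e2
  have e3 := S.e3
  have e4 := S.e4
  rw [hb14, map_zero] at e1 e4
  -- the two mixed coefficients
  have hmix : (c.c124 : ℂ) * y + c.c134 = 0 := by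
    have E : κ c.a4 * ((u3 / u1) * (u4 / u3) ^ 2) - 2 * κ c.b41 * ((u3 / u1) ^ 2 * (u4 / u3) ^ 3)
        - 2 * κ c.b42 * ((u3 / u1) * (u3 / u2) * (u4 / u3) ^ 3)
        - 2 * κ c.b43 * ((u3 / u1) * (u4 / u3) ^ 3) + κ c.b24 * ((u3 / u1) * (u2 / u3) ^ 2)
        + κ c.b34 * (u3 / u1) - κ c.c124 * ((u3 / u2) * (u4 / u3) ^ 2)
        - κ c.c124 * ((u3 / u1) ^ 2 * (u2 / u3) * (u4 / u3) ^ 2) + κ c.c124 * (u2 / u3)
        - κ c.c134 * ((u4 / u3) ^ 2) - κ c.c134 * ((u3 / u1) ^ 2 * (u4 / u3) ^ 2) + κ c.c134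
        - κ c.c234 * ((u3 / u1) * (u2 / u3) * (u4 / u3) ^ 2)
        - κ c.c234 * ((u3 / u1) * (u3 / u2) * (u4 / u3) ^ 2) + κ c.c234 * ((u3 / u1) * (u2 / u3))
        - κ c.d4 * ((u4 / u3) * (1 / u1)) = 0 := by
      linear_combination (norm := (field_simp; ring)) (u4 / (u1 * u3)) * e4
    have h := P.eq0 E (by
      apply_rules (maxDepth := 500) [P.add, P.mul, P.lim_sub, P.lim_neg, P.lim_pow, P.lim_ofNat])
    simpa using h
  have hc124 : c.c124 = 0 := by
    by_contra hn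
    have hn' : c.c134 ≠ 0 := by
      intro h0
      rw [h0, Complex.ofReal_zero, add_zero] at hmix
      rcases mul_eq_zero.mp hmix with h5 | h5
      · exact hn (by exact_mod_cast h5)
      · exact hy h5
    have hb12 : c.b12 ≠ 0 := by
      intro h0
      rw [h0, map_zero] at e2
      apply hn
      have E : κ c.a2 * ((u3 / u1) * (u4 / u3))
          - 2 * κ c.b21 * ((u3 / u1) ^ 2 * (u2 / u3) * (u4 / u3))
          - 2 * κ c.b23 * ((u3 / u1) * (u2 / u3) * (u4 / u3)) - 2 * κ c.b24 * ((u3 / u1) * (u2 / u3))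
          + κ c.b32 * ((u3 / u1) * (u3 / u2) ^ 2 * (u4 / u3))
          + κ c.b42 * ((u3 / u1) * (u3 / u2) ^ 2 * (u4 / u3) ^ 3) - κ c.c123 * (u4 / u3)
          - κ c.c123 * ((u3 / u1) ^ 2 * (u4 / u3)) + κ c.c123 * ((u3 / u2) ^ 2 * (u4 / u3))
          - κ c.c124
          - κ c.c124 * ((u3 / u1) ^ 2 * (u4 / u3) ^ 2) + κ c.c124 * ((u3 / u2) ^ 2 * (u4 / u3) ^ 2)
          - κ c.c234 * (u3 / u1) - κ c.c234 * ((u3 / u1) * (u4 / u3) ^ 2)
          + κ c.c234 * ((u3 / u1) * (u3 / u2) ^ 2 * (u4 / u3) ^ 2)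
          - κ c.d2 * ((u3 / u2) * (u4 / u3) * (1 / u1)) = 0 := by
        linear_combination (norm := (field_simp; ring)) (u4 / (u1 * u2)) * e2
      have h := P.eq0 E (by
        apply_rules (maxDepth := 500) [P.add, P.mul, P.lim_sub, P.lim_neg, P.lim_pow, P.lim_ofNat])
      simpa using h
    have hb13 : c.b13 ≠ 0 := by
      intro h0
      rw [h0, map_zero] at e3
      apply hn'
      have E : κ c.a3 * ((u3 / u1) * (u4 / u3)) - 2 * κ c.b31 * ((u3 / u1) ^ 2 * (u4 / u3))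
          - 2 * κ c.b32 * ((u3 / u1) * (u3 / u2) * (u4 / u3)) - 2 * κ c.b34 * (u3 / u1)
          + κ c.b23 * ((u3 / u1) * (u2 / u3) ^ 2 * (u4 / u3))
          + κ c.b43 * ((u3 / u1) * (u4 / u3) ^ 3)
          - κ c.c123 * ((u3 / u2) * (u4 / u3)) - κ c.c123 * ((u3 / u1) ^ 2 * (u2 / u3) * (u4 / u3))
          + κ c.c123 * ((u2 / u3) * (u4 / u3)) - κ c.c134
          - κ c.c134 * ((u3 / u1) ^ 2 * (u4 / u3) ^ 2)
          + κ c.c134 * ((u4 / u3) ^ 2) - κ c.c234 * ((u3 / u1) * (u2 / u3))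
          - κ c.c234 * ((u3 / u1) * (u3 / u2) * (u4 / u3) ^ 2)
          + κ c.c234 * ((u3 / u1) * (u2 / u3) * (u4 / u3) ^ 2)
          - κ c.d3 * ((u4 / u3) * (1 / u1)) = 0 := by
        linear_combination (norm := (field_simp; ring)) (u4 / (u1 * u3)) * e3
      have h := P.eq0 E (by
        apply_rules (maxDepth := 500) [P.add, P.mul, P.lim_sub, P.lim_neg, P.lim_pow, P.lim_ofNat])
      simpa using h
    exact hn' (hD hb12 hb13 hn)
  have hc134 : c.c134 = 0 := by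
    rw [hc124, Complex.ofReal_zero, zero_mul, zero_add] at hmix
    exact_mod_cast hmix
  rw [hc124, map_zero] at e1 e2 e4
  rw [hc134, map_zero] at e1 e3 e4
  -- the coefficients of the large summand
  have hlin : (c.b12 : ℂ) + c.b13 * y = 0 := by
    have E : κ c.a1 * (u3 / u1) - 2 * κ c.b12 * (u3 / u2) - 2 * κ c.b13
        + κ c.b21 * ((u3 / u1) ^ 3 * (u2 / u3) ^ 2) + κ c.b31 * ((u3 / u1) ^ 3)
        + κ c.b41 * ((u3 / u1) ^ 3 * (u4 / u3) ^ 2) - κ c.c123 * ((u3 / u1) * (u2 / u3))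
        - κ c.c123 * ((u3 / u1) * (u3 / u2)) + κ c.c123 * ((u3 / u1) ^ 3 * (u2 / u3))
        - κ c.d1 * ((u3 / u1) * (1 / u1)) = 0 := by
      linear_combination (norm := (field_simp; ring)) (u3 / u1 ^ 2) * e1
    have h := P.eq0 E (by
      apply_rules (maxDepth := 500) [P.add, P.mul, P.lim_sub, P.lim_neg, P.lim_pow, P.lim_ofNat])
    have h5 : -(2 * (c.b12 : ℂ) * y⁻¹) - 2 * c.b13 = 0 := by simpa using h
    field_simp at h5
    linear_combination (-1 / 2) * h5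
  have hb12 : c.b12 = 0 := by
    by_contra hn
    have hb13 : c.b13 ≠ 0 := by
      intro h0
      rw [h0, Complex.ofReal_zero, zero_mul, add_zero] at hlin
      exact hn (by exact_mod_cast hlin)
    have p12 : 0 < c.b12 := lt_of_le_of_ne hc.b12 (Ne.symm hn)
    have p13 : 0 < c.b13 := lt_of_le_of_ne hc.b13 (Ne.symm hb13)
    have hyr := Pl.real_of_mul (s := c.b12) (z := y) hb13 (by linear_combination hlin)
    have E : κ c.a1 - 3 * κ c.b21 * ((u3 / u1) ^ 2 * (u2 / u3) ^ 2)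
        - 3 * κ c.b31 * ((u3 / u1) ^ 2)
        - 7 * κ c.b41 * ((u3 / u1) ^ 2 * (u4 / u3) ^ 2) - κ c.c123 * (u2 / u3)
        - κ c.c123 * (u3 / u2) - 3 * κ c.c123 * ((u3 / u1) ^ 2 * (u2 / u3)) - κ c.d1 * (1 / u1)
        + 2 * κ c.a2 * ((u3 / u1) * (u2 / u3)) - 2 * κ c.b23 * ((u3 / u1) * (u2 / u3) ^ 2)
        - 2 * κ c.b32 * ((u3 / u1) * (u3 / u2))
        - 6 * κ c.b42 * ((u3 / u1) * (u3 / u2) * (u4 / u3) ^ 2)
        - 4 * κ c.c234 * ((u3 / u1) * (u2 / u3) * (u4 / u3))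
        - 4 * κ c.c234 * ((u3 / u1) * (u3 / u2) * (u4 / u3)) - 2 * κ c.d2 * (1 / u1)
        + 2 * κ c.a3 * (u3 / u1) - 6 * κ c.b43 * ((u3 / u1) * (u4 / u3) ^ 2)
        - 2 * κ c.d3 * (1 / u1)
        + 4 * κ c.a4 * ((u3 / u1) * (u4 / u3)) - 4 * κ c.d4 * (1 / u1) = 0 := by
      linear_combination (norm := (field_simp; ring)) (1 / u1) * (e1 + 2 * e2 + 2 * e3 + 4 * e4)
    have h := P.eq0 E (by
      apply_rules (maxDepth := 500) [P.add, P.mul, P.lim_sub, P.lim_neg, P.lim_pow, P.lim_ofNat])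
    have h5 : (c.a1 : ℂ) - c.c123 * y - c.c123 * y⁻¹ = 0 := by simpa using h
    rw [hyr] at h5
    have h6 : c.a1 - c.c123 * (-c.b12 / c.b13) - c.c123 * (-c.b12 / c.b13)⁻¹ = 0 := by
      exact_mod_cast h5
    have h7 : 0 ≤ c.c123 * (c.b12 / c.b13) := mul_nonneg hc.c123 (div_nonneg p12.le p13.le)
    have h8 : 0 ≤ c.c123 * (c.b12 / c.b13)⁻¹ :=
      mul_nonneg hc.c123 (inv_nonneg.mpr (div_nonneg p12.le p13.le))
    have h9 : c.a1 + c.c123 * (c.b12 / c.b13) + c.c123 * (c.b12 / c.b13)⁻¹ = 0 := by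
      rw [neg_div, inv_neg] at h6
      linear_combination h6
    have := hc.a1
    have := hc.b13
    have := hc.b14
    have := hc.c123
    have := hc.c124
    have := hc.c134
    linarith
  have hb13 : c.b13 = 0 := by
    rw [hb12, Complex.ofReal_zero, zero_add] at hlin
    rcases mul_eq_zero.mp hlin with h5 | h5
    · exact_mod_cast h5
    · exact absurd h5 hy
  rw [hb12, map_zero] at e1 e2
  rw [hb13, map_zero] at e1 e3
  by_cases L3 : P.Lim u3 0
  · have E : κ c.a2 * ((u2 / u3) * u3) - 2 * κ c.b21 * ((u3 / u1) * (u2 / u3) ^ 2 * u3)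
        - κ c.b23 * ((u2 / u3) ^ 2 * u3) - κ c.b32 * ((u3 / u2) * u3)
        - 3 * κ c.b42 * ((u3 / u2) * (u4 / u3) ^ 2 * u3)
        - 2 * κ c.c123 * ((u3 / u1) * (u2 / u3) * u3) - 2 * κ c.c234 * ((u2 / u3) * (u4 / u3) * u3)
        - 2 * κ c.c234 * ((u3 / u2) * (u4 / u3) * u3) - κ c.d2 + κ c.a3 * u3
        - 2 * κ c.b31 * ((u3 / u1) * u3) - 3 * κ c.b43 * ((u4 / u3) ^ 2 * u3) - κ c.d3
        + 2 * κ c.a4 * ((u4 / u3) * u3) - 4 * κ c.b41 * ((u3 / u1) * (u4 / u3) ^ 2 * u3)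
        - 2 * κ c.d4 = 0 := by
      linear_combination (norm := (field_simp; ring)) (1) * (e2 + e3 + 2 * e4)
    have h := P.eq0 E (by
      apply_rules (maxDepth := 500) [P.add, P.mul, P.lim_sub, P.lim_neg, P.lim_pow, P.lim_ofNat])
    have h' : -c.d2 - c.d3 - 2 * c.d4 = 0 := by
      have h5 : ((-c.d2 - c.d3 - 2 * c.d4 : ℝ) : ℂ) = 0 := by
        push_cast
        simpa using h
      exact_mod_cast h5
    have := hc.d2
    have := hc.d3
    have := hc.d4
    linarith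
  · obtain ⟨v, Lv⟩ : P.B (1 / u3) := by
      rw [one_div]
      exact Pl.inv_B L3
    by_cases h123 : c.c123 = 0
    · rw [h123, map_zero] at e1 e2 e3
      have hB : ∀ r : ℝ, P.B (κ r) := fun r => ⟨_, hk r⟩
      have two : P.B (2 : K) := Pl.B.ofNat 2
      have B31 : P.B (u3 / u1) := ⟨_, L31⟩
      have B23 : P.B (u2 / u3) := ⟨_, Ly⟩
      have B32 : P.B (u3 / u2) := ⟨_, Ly'⟩
      have B43 : P.B (u4 / u3) := ⟨_, L43⟩
      have B3 : P.B (1 / u3) := ⟨_, Lv⟩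
      obtain ⟨g2, bg2, hg2⟩ : ∃ g2 : K, P.B g2 ∧
          2 * κ c.b24 * u2 + κ c.c234 * u3 = u4 * g2 := by
        refine ⟨κ c.a2 - 2 * κ c.b21 * ((u3 / u1) * (u2 / u3)) - 2 * κ c.b23 * (u2 / u3)
          + κ c.b32 * (u3 / u2) ^ 2 + κ c.b42 * ((u4 / u3) * (u3 / u2)) ^ 2
          - κ c.c234 * ((u4 / u3) - (u4 / u3) * (u3 / u2) ^ 2)
          - κ c.d2 * ((1 / u3) * (u3 / u2)), ?_, ?_⟩
        · apply_rules (maxDepth := 500) [Pl.B.add, Pl.B.sub, Pl.B.mul, Pl.B.pow]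
        · linear_combination (norm := (field_simp; ring)) -(u4 / u2) * e2
      obtain ⟨g3, bg3, hg3⟩ : ∃ g3 : K, P.B g3 ∧
          κ c.c234 * u2 + 2 * κ c.b34 * u3 = u4 * g3 := by
        refine ⟨κ c.a3 - 2 * κ c.b31 * (u3 / u1) - 2 * κ c.b32 * (u3 / u2)
          + κ c.b23 * (u2 / u3) ^ 2 + κ c.b43 * (u4 / u3) ^ 2
          - κ c.c234 * ((u4 / u3) * (u3 / u2) - (u4 / u3) * (u2 / u3))
          - κ c.d3 * (1 / u3), ?_, ?_⟩
        · apply_rules (maxDepth := 500) [Pl.B.add, Pl.B.sub, Pl.B.mul, Pl.B.pow]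
        · linear_combination (norm := (field_simp; ring)) -(u4 / u3) * e3
      obtain ⟨t, ⟨τ, Lt⟩, hQ⟩ := quad2_small (P := P) hk hg2 hg3 bg2 bg3
      have E : κ c.a4 * u4 - 2 * κ c.b41 * (u4 * (u4 / u3) * (u3 / u1))
          - 2 * κ c.b42 * (u4 * (u4 / u3) * (u3 / u2))
          - 2 * κ c.b43 * (u4 * (u4 / u3)) + u4 * t
          - κ c.c234 * (u4 * (u2 / u3) + u4 * (u3 / u2)) - κ c.d4 = 0 := by
        linear_combination (norm := (field_simp; ring)) e4 - (1 / u4) * hQ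
      have h := P.eq0 E (by
        apply_rules (maxDepth := 500) [P.add, P.mul, P.lim_sub, P.lim_neg, P.lim_pow, P.lim_ofNat])
      have h' : c.d4 = 0 := by simpa using h
      exact hc.d4.ne' h'
    · have q123 : 0 < c.c123 := lt_of_le_of_ne hc.c123 (Ne.symm h123)
      have hK : (c.a1 : ℂ) - c.c123 * y - c.c123 * y⁻¹ = 0 := by
        have E : κ c.a1 + κ c.b21 * ((u3 / u1) ^ 2 * (u2 / u3) ^ 2) + κ c.b31 * ((u3 / u1) ^ 2)
            + κ c.b41 * ((u3 / u1) ^ 2 * (u4 / u3) ^ 2) - κ c.c123 * (u2 / u3)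
            - κ c.c123 * (u3 / u2)
            + κ c.c123 * ((u3 / u1) ^ 2 * (u2 / u3)) - κ c.d1 * (1 / u1) = 0 := by
          linear_combination (norm := (field_simp; ring)) (1 / u1) * e1
        have h := P.eq0 E (by
          apply_rules (maxDepth := 500)
            [P.add, P.mul, P.lim_sub, P.lim_neg, P.lim_pow, P.lim_ofNat])
        simpa using h
      -- the ratio is a positive real number
      obtain ⟨r, hr, rfl⟩ : ∃ r : ℝ, 0 < r ∧ y = r := by
        have hK2 : (c.c123 : ℂ) * y ^ 2 - c.a1 * y + c.c123 = 0 := by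
          field_simp at hK
          linear_combination -hK
        have ha : 2 * c.c123 ≤ c.a1 := by
          have := hc.a1
          have := hc.b12
          have := hc.b13
          have := hc.b14
          have := hc.c123
          have := hc.c124
          have := hc.c134
          linarith
        have hs : 0 ≤ c.a1 ^ 2 - 4 * c.c123 ^ 2 := by nlinarith
        obtain ⟨s, hs0, hs2⟩ : ∃ s : ℝ, 0 ≤ s ∧ s ^ 2 = c.a1 ^ 2 - 4 * c.c123 ^ 2 :=
          ⟨_, Real.sqrt_nonneg _, Real.sq_sqrt hs⟩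
        have hsa : s < c.a1 := by
          by_contra hcon
          push Not at hcon
          nlinarith
        have hs2' : (s : ℂ) ^ 2 = c.a1 ^ 2 - 4 * c.c123 ^ 2 := by exact_mod_cast hs2
        have hfac : (2 * c.c123 * y - c.a1 - s) * (2 * c.c123 * y - c.a1 + s) = 0 := by
          linear_combination 4 * (c.c123 : ℂ) * hK2 - hs2'
        have h2c : (2 * c.c123 : ℂ) ≠ 0 := by
          exact_mod_cast (mul_pos two_pos q123).ne'
        rcases mul_eq_zero.mp hfac with h5 | h5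
        · refine ⟨(c.a1 + s) / (2 * c.c123), div_pos (by linarith) (by positivity), ?_⟩
          push_cast
          rw [eq_div_iff h2c]
          linear_combination h5
        · refine ⟨(c.a1 - s) / (2 * c.c123), div_pos (by linarith) (by positivity), ?_⟩
          push_cast
          rw [eq_div_iff h2c]
          linear_combination h5
      have hq : (c.b24 : ℂ) * (r : ℂ) ^ 2 + c.b34 + c.c234 * r = 0 := by
        have E : κ c.a4 * (u4 * (u4 / u3) * (1 / u3))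
            - 2 * κ c.b41 * (u4 * (u4 / u3) ^ 2 * (u3 / u1) * (1 / u3))
            - 2 * κ c.b42 * (u4 * (u4 / u3) ^ 2 * (u3 / u2) * (1 / u3))
            - 2 * κ c.b43 * (u4 * (u4 / u3) ^ 2 * (1 / u3)) + κ c.b24 * (u2 / u3) ^ 2 + κ c.b34
            - κ c.c234 * (u4 * (u2 / u3) * (u4 / u3) * (1 / u3)
              + u4 * (u3 / u2) * (u4 / u3) * (1 / u3) - (u2 / u3))
            - κ c.d4 * ((u4 / u3) * (1 / u3)) = 0 := by
          linear_combination (norm := (field_simp; ring)) (u4 / u3 ^ 2) * e4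
        have h := P.eq0 E (by
          apply_rules (maxDepth := 500)
            [P.add, P.mul, P.lim_sub, P.lim_neg, P.lim_pow, P.lim_ofNat])
        simpa using h
      have hq' : c.b24 * r ^ 2 + c.b34 + c.c234 * r = 0 := by exact_mod_cast hq
      have n24 := mul_nonneg hc.b24 (sq_nonneg r)
      have n34 := hc.b34
      have n234 := mul_nonneg hc.c234 hr.le
      have z24 : c.b24 = 0 := by
        have : c.b24 * r ^ 2 = 0 := by linarith
        rcases mul_eq_zero.mp this with h5 | h5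
        · exact h5
        · exact absurd h5 (pow_pos hr 2).ne'
      have z34 : c.b34 = 0 := by linarith
      have z234 : c.c234 = 0 := by
        have : c.c234 * r = 0 := by linarith
        rcases mul_eq_zero.mp this with h5 | h5
        · exact h5
        · exact absurd h5 hr.ne'
      rw [z24, z34, z234, map_zero] at e4
      have E : κ c.a4 * u4 - 2 * κ c.b41 * (u4 * (u4 / u3) * (u3 / u1))
          - 2 * κ c.b42 * (u4 * (u4 / u3) * (u3 / u2))
          - 2 * κ c.b43 * (u4 * (u4 / u3)) - κ c.d4 = 0 := by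
        linear_combination (norm := (field_simp; ring)) e4
      have h := P.eq0 E (by
        apply_rules (maxDepth := 500) [P.add, P.mul, P.lim_sub, P.lim_neg, P.lim_pow, P.lim_ofNat])
      have h' : c.d4 = 0 := by simpa using h
      exact hc.d4.ne' h'

end Pool.Agent.H.MP_deabf1_gt.Four
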