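import Pool.Agent.H.MP_deabf1_gt.helper65.P211c

/-!
Two comparable large summands and two incomparable smaller ones.
-/

namespace Pool.Agent.H.MP_deabf1_gt.Four

variable {K : Type*} [Field K] [Algebra ℝ K] {P : Pl K} {κ : ℝ →+* K} {c : Cf}
  {u1 u2 u3 u4 : K}

theorem p211 (S : Sys4 P κ c u1 u2 u3 u4) (hc : c.Pos)
    (hD1 : c.b13 ≠ 0 → c.b14 ≠ 0 → c.c123 ≠ 0 → c.c124 = 0)
    (hD2 : c.b23 ≠ 0 → c.b24 ≠ 0 → c.c123 ≠ 0 → c.c124 = 0) {r : ℂ} (hr : r ≠ 0)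
    (Lr : P.Lim (u1 / u2) r) (L32 : P.Lim (u3 / u2) 0) (L43 : P.Lim (u4 / u3) 0)
    (Lη : P.Lim (1 / u2) 0) (L4 : P.Lim u4 0) :
    ¬ P.I u3 ∧ ∃ θ : ℂ, θ ≠ 0 ∧ P.Lim (u3 ^ 2 / (u2 * u4)) θ := by
  obtain ⟨h1, h2, g3, s3, s4, z1, z2, z3, F⟩ := f211_of S hr Lr L32 L43 Lη L4
  by_cases hn : c.b14 ≠ 0 ∨ c.c124 ≠ 0 ∨ c.b24 ≠ 0
  · exact (p211_case1 ⟨h1, h2, g3, s3, s4, z1, z2, z3, r, F⟩ hc hD1 hD2 hn).elim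
  · push Not at hn
    by_cases hl : c.c134 ≠ 0 ∨ c.c234 ≠ 0
    · exact p211_case2a ⟨h1, h2, g3, s3, s4, z1, z2, z3, r, F⟩ hc hn.1 hn.2.1 hn.2.2 hl
    · push Not at hl
      exact (p211_case2b ⟨h1, h2, g3, s3, s4, z1, z2, z3, r, F⟩ hc hn.1 hn.2.1 hn.2.2 hl.1
        hl.2).elim

end Pool.Agent.H.MP_deabf1_gt.Four
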