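import Pool.Agent.H.MP_deabf1_gt.helper65.Base

/-!
Two comparable large summands, two comparable small ones.
-/

namespace Pool.Agent.H.MP_deabf1_gt.Four

variable {K : Type*} [Field K] [Algebra ℝ K] {P : Pl K} {κ : ℝ →+* K} {c : Cf}
  {u1 u2 u3 u4 : K}

theorem p22 (S : Sys4 P κ c u1 u2 u3 u4) (hc : c.Pos) (κ' : ℂ →+* K)
    (hκ' : ∀ z : ℂ, P.Lim (κ' z) z) (hκκ : ∀ r : ℝ, κ' (r : ℂ) = κ r)
    (hD : c.b13 ≠ 0 → c.b14 ≠ 0 → c.c123 ≠ 0 → c.c124 = 0) {r s : ℂ} (hr : r ≠ 0) (hs : s ≠ 0)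
    (Lr : P.Lim (u1 / u2) r) (Ls : P.Lim (u3 / u4) s) (Lη : P.Lim (1 / u2) 0)
    (L4 : P.Lim u4 0) : False := by
  have hk := S.k
  have h1 := S.h1
  have h2 := S.h2
  have h3 := S.h3
  have h4 := S.h4
  have Lr' := P.lim_swap Lr hr
  have Ls' := P.lim_swap Ls hs
  have hd3 := hc.d3
  have hd4 := hc.d4
  -- the quadratic equations for `r`
  have q3 : (c.b13 : ℂ) * r ^ 2 + c.c123 * r + c.b23 = 0 := by
    have E : κ c.a3 * ((u3 / u4) ^ 2 * (1 / u2) ^ 2 * u4 ^ 2)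
        - 2 * κ c.b31 * ((u2 / u1) * (u3 / u4) ^ 3 * (1 / u2) ^ 3 * u4 ^ 3)
        - 2 * κ c.b32 * ((u3 / u4) ^ 3 * (1 / u2) ^ 3 * u4 ^ 3)
        - 2 * κ c.b34 * ((u3 / u4) ^ 3 * (1 / u2) ^ 2 * u4 ^ 2) + κ c.b13 * ((u1 / u2) ^ 2)
        + κ c.b23 + κ c.b43 * ((1 / u2) ^ 2 * u4 ^ 2)
        - κ c.c123 * ((u1 / u2) * (u3 / u4) ^ 2 * (1 / u2) ^ 2 * u4 ^ 2)
        - κ c.c123 * ((u2 / u1) * (u3 / u4) ^ 2 * (1 / u2) ^ 2 * u4 ^ 2) + κ c.c123 * (u1 / u2)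
        - κ c.c134 * ((u1 / u2) * (u3 / u4) ^ 2 * (1 / u2) * u4)
        - κ c.c134 * ((u2 / u1) * (u3 / u4) ^ 2 * (1 / u2) ^ 3 * u4 ^ 3)
        + κ c.c134 * ((u1 / u2) * (1 / u2) * u4) - κ c.c234 * ((u3 / u4) ^ 2 * (1 / u2) * u4)
        - κ c.c234 * ((u3 / u4) ^ 2 * (1 / u2) ^ 3 * u4 ^ 3) + κ c.c234 * ((1 / u2) * u4)
        - κ c.d3 * ((u3 / u4) * (1 / u2) ^ 2 * u4) = 0 := by
      linear_combination (norm := (field_simp; ring)) (u3 / u2 ^ 2) * S.e3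
    have h := P.eq0 E (by
      apply_rules (maxDepth := 500) [P.add, P.mul, P.lim_sub, P.lim_neg, P.lim_pow, P.lim_ofNat])
    linear_combination h
  have q4 : (c.b14 : ℂ) * r ^ 2 + c.c124 * r + c.b24 = 0 := by
    have E : κ c.a4 * ((1 / u2) ^ 2 * u4 ^ 2)
        - 2 * κ c.b41 * ((u2 / u1) * (1 / u2) ^ 3 * u4 ^ 3)
        - 2 * κ c.b42 * ((1 / u2) ^ 3 * u4 ^ 3) - 2 * κ c.b43 * ((u4 / u3) * (1 / u2) ^ 2 * u4 ^ 2)
        + κ c.b14 * ((u1 / u2) ^ 2) + κ c.b24 + κ c.b34 * ((u3 / u4) ^ 2 * (1 / u2) ^ 2 * u4 ^ 2)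
        - κ c.c124 * ((u1 / u2) * (1 / u2) ^ 2 * u4 ^ 2)
        - κ c.c124 * ((u2 / u1) * (1 / u2) ^ 2 * u4 ^ 2) + κ c.c124 * (u1 / u2)
        - κ c.c134 * ((u1 / u2) * (u4 / u3) * (1 / u2) * u4)
        - κ c.c134 * ((u2 / u1) * (u3 / u4) * (1 / u2) ^ 3 * u4 ^ 3)
        + κ c.c134 * ((u1 / u2) * (u3 / u4) * (1 / u2) * u4)
        - κ c.c234 * ((u4 / u3) * (1 / u2) * u4) - κ c.c234 * ((u3 / u4) * (1 / u2) ^ 3 * u4 ^ 3)
        + κ c.c234 * ((u3 / u4) * (1 / u2) * u4) - κ c.d4 * ((1 / u2) ^ 2 * u4) = 0 := by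
      linear_combination (norm := (field_simp; ring)) (u4 / u2 ^ 2) * S.e4
    have h := P.eq0 E (by
      apply_rules (maxDepth := 500) [P.add, P.mul, P.lim_sub, P.lim_neg, P.lim_pow, P.lim_ofNat])
    linear_combination h
  -- the same in the field
  obtain ⟨ρ, hρ⟩ : ∃ ρ, ρ = κ' r := ⟨_, rfl⟩
  have Q3 : κ c.b13 * ρ ^ 2 + κ c.c123 * ρ + κ c.b23 = 0 := by
    have h := congrArg κ' q3
    simp only [map_add, map_mul, map_pow, hκκ, map_zero] at h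
    rw [hρ]
    exact h
  have Q4 : κ c.b14 * ρ ^ 2 + κ c.c124 * ρ + κ c.b24 = 0 := by
    have h := congrArg κ' q4
    simp only [map_add, map_mul, map_pow, hκκ, map_zero] at h
    rw [hρ]
    exact h
  have Lρ : P.Lim ρ r := by
    rw [hρ]
    exact hκ' r
  obtain ⟨z, hz⟩ : ∃ z, z = u1 - ρ * u2 := ⟨_, rfl⟩
  have hu1 : u1 = z + ρ * u2 := by rw [hz]; ring
  have Lz : P.Lim (z / u2) 0 := by
    have h := P.lim_sub Lr Lρ
    rw [sub_self] at h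
    refine P.lim_eq ?_ h
    rw [hz]
    field_simp
  -- the derivative is bounded
  obtain ⟨F1, hF1⟩ : ∃ F1, F1 = (2 * κ c.b13 * u1 + κ c.c123 * u2) / u3
    + (2 * κ c.b14 * u1 + κ c.c124 * u2) / u4 := ⟨_, rfl⟩
  have BF1 : ∃ w, P.Lim F1 w := by
    have E : F1 = κ c.a1 - 2 * κ c.b12 * (u1 / u2) + κ c.b21 * ((u2 / u1) ^ 2)
        + κ c.b31 * ((u2 / u1) ^ 2 * (u3 / u4) ^ 2 * (1 / u2) ^ 2 * u4 ^ 2)
        + κ c.b41 * ((u2 / u1) ^ 2 * (1 / u2) ^ 2 * u4 ^ 2)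
        - κ c.c123 * ((u3 / u4) * (1 / u2) * u4)
        + κ c.c123 * ((u2 / u1) ^ 2 * (u3 / u4) * (1 / u2) * u4)
        - κ c.c124 * ((1 / u2) * u4)
        + κ c.c124 * ((u2 / u1) ^ 2 * (1 / u2) * u4) - κ c.c134 * (u3 / u4) - κ c.c134 * (u4 / u3)
        + κ c.c134 * ((u2 / u1) ^ 2 * (u3 / u4) * (1 / u2) ^ 2 * u4 ^ 2)
        - κ c.d1 * ((u2 / u1) * (1 / u2)) := by
      rw [hF1]
      linear_combination (norm := (field_simp; ring)) -(1 / u1) * S.e1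
    refine ⟨_, P.lim_eq E (by
      apply_rules (maxDepth := 500) [P.add, P.mul, P.lim_sub, P.lim_neg, P.lim_pow, P.lim_ofNat])⟩
  obtain ⟨w1, LF1⟩ := BF1
  -- the value of the form
  obtain ⟨F, hF⟩ : ∃ F, F = (κ c.b13 * u1 ^ 2 + κ c.c123 * (u1 * u2) + κ c.b23 * u2 ^ 2) / u3
    + (κ c.b14 * u1 ^ 2 + κ c.c124 * (u1 * u2) + κ c.b24 * u2 ^ 2) / u4 := ⟨_, rfl⟩
  have LF : P.Lim F (c.d3 + c.d4) := by
    have E : F = κ c.d3 + κ c.d4 - (κ c.a3 * ((u3 / u4) * u4)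
        - 2 * κ c.b31 * ((u2 / u1) * (u3 / u4) ^ 2 * (1 / u2) * u4 ^ 2)
        - 2 * κ c.b32 * ((u3 / u4) ^ 2 * (1 / u2) * u4 ^ 2) - κ c.b34 * ((u3 / u4) ^ 2 * u4)
        - κ c.b43 * ((u4 / u3) * u4)
        - κ c.c123 * ((u1 / u2) * (u3 / u4) * u4) - κ c.c123 * ((u2 / u1) * (u3 / u4) * u4)
        - 2 * κ c.c134 * ((u2 / u1) * (u3 / u4) * (1 / u2) * u4 ^ 2)
        - 2 * κ c.c234 * ((u3 / u4) * (1 / u2) * u4 ^ 2) + κ c.a4 * u4
        - 2 * κ c.b41 * ((u2 / u1) * (1 / u2) * u4 ^ 2) - 2 * κ c.b42 * ((1 / u2) * u4 ^ 2)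
        - κ c.c124 * ((u1 / u2) * u4)
        - κ c.c124 * ((u2 / u1) * u4)) := by
      rw [hF]
      linear_combination (norm := (field_simp; ring)) S.e3 + S.e4
    refine P.lim_val (P.lim_eq E (by
      apply_rules (maxDepth := 500) [P.add, P.mul, P.lim_sub, P.lim_neg, P.lim_pow, P.lim_ofNat])) ?_
    ring
  have hFne : ((c.d3 : ℂ) + c.d4) ≠ 0 := by
    have : c.d3 + c.d4 ≠ 0 := by positivity
    exact_mod_cast this
  -- factorisation
  have n3 : κ c.b13 * u1 ^ 2 + κ c.c123 * (u1 * u2) + κ c.b23 * u2 ^ 2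
      = z * (κ c.b13 * z + (2 * κ c.b13 * ρ + κ c.c123) * u2) := by
    rw [hu1]
    linear_combination u2 ^ 2 * Q3
  have n4 : κ c.b14 * u1 ^ 2 + κ c.c124 * (u1 * u2) + κ c.b24 * u2 ^ 2
      = z * (κ c.b14 * z + (2 * κ c.b14 * ρ + κ c.c124) * u2) := by
    rw [hu1]
    linear_combination u2 ^ 2 * Q4
  have hFz : F = z * F1 - (κ c.b13 * (z * (z / u3)) + κ c.b14 * (z * (z / u4))) := by
    rw [hF, hF1, n3, n4, hu1]
    field_simp
    ring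
  -- it is impossible that z is small
  have key : P.B (z / u4) → False := by
    intro hB
    obtain ⟨b, hb⟩ := hB
    have Lz0 : P.Lim z 0 := by
      have h := P.mul hb L4
      rw [mul_zero] at h
      refine P.lim_eq ?_ h
      field_simp
    have hb3 : P.Lim (z / u3) (b * s⁻¹) := by
      refine P.lim_eq ?_ (P.mul hb Ls')
      field_simp
    have h := P.lim_eq hFz (P.lim_sub (P.mul Lz0 LF1) (P.add (P.mul (hk _) (P.mul Lz0 hb3))
      (P.mul (hk _) (P.mul Lz0 hb))))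
    have h' := P.uniq LF h
    apply hFne
    rw [h']
    ring
  have key3 : P.B (z / u3) → False := by
    intro hB
    apply key
    obtain ⟨b, hb⟩ := hB
    refine ⟨_, P.lim_eq ?_ (P.mul hb Ls)⟩
    field_simp
  -- the derivatives at `r` vanish
  have f3 : 2 * (c.b13 : ℂ) * r + c.c123 = 0 := by
    by_contra hne
    apply key3
    have L : P.Lim (κ c.b13 * (z / u2) + (2 * κ c.b13 * ρ + κ c.c123))
        (2 * (c.b13 : ℂ) * r + c.c123) := by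
      refine P.lim_val (P.add (P.mul (hk _) Lz)
        (P.add (P.mul (P.mul (P.lim_ofNat 2) (hk _)) Lρ) (hk _))) ?_
      ring
    have E : (κ c.b13 * (z / u2) + (2 * κ c.b13 * ρ + κ c.c123)) * (z / u3)
        = -(κ c.a3 * ((u3 / u4) * (1 / u2) * u4)
      - 2 * κ c.b31 * ((u2 / u1) * (u3 / u4) ^ 2 * (1 / u2) ^ 2 * u4 ^ 2)
      - 2 * κ c.b32 * ((u3 / u4) ^ 2 * (1 / u2) ^ 2 * u4 ^ 2)
      - 2 * κ c.b34 * ((u3 / u4) ^ 2 * (1 / u2) * u4)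
      + κ c.b43 * ((u4 / u3) * (1 / u2) * u4) - κ c.c123 * ((u1 / u2) * (u3 / u4) * (1 / u2) * u4)
      - κ c.c123 * ((u2 / u1) * (u3 / u4) * (1 / u2) * u4)
      - κ c.c134 * ((u1 / u2) * (u3 / u4))
      - κ c.c134 * ((u2 / u1) * (u3 / u4) * (1 / u2) ^ 2 * u4 ^ 2)
      + κ c.c134 * ((u1 / u2) * (u4 / u3)) - κ c.c234 * (u3 / u4)
      - κ c.c234 * ((u3 / u4) * (1 / u2) ^ 2 * u4 ^ 2) + κ c.c234 * (u4 / u3)
      - κ c.d3 * (1 / u2)) := by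
      linear_combination (norm := (field_simp; ring)) (1 / u2) * S.e3 - (1 / (u2 * u3)) * n3
    have hBd : P.B ((κ c.b13 * (z / u2) + (2 * κ c.b13 * ρ + κ c.c123)) * (z / u3)) := by
      refine ⟨_, P.lim_eq E (by
        apply_rules (maxDepth := 500) [P.add, P.mul, P.lim_sub, P.lim_neg, P.lim_pow,
          P.lim_ofNat])⟩
    exact Pl.B.of_mul hBd (Pl.lim_ne L hne)
  have f4 : 2 * (c.b14 : ℂ) * r + c.c124 = 0 := by
    by_contra hne
    apply key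
    have L : P.Lim (κ c.b14 * (z / u2) + (2 * κ c.b14 * ρ + κ c.c124))
        (2 * (c.b14 : ℂ) * r + c.c124) := by
      refine P.lim_val (P.add (P.mul (hk _) Lz)
        (P.add (P.mul (P.mul (P.lim_ofNat 2) (hk _)) Lρ) (hk _))) ?_
      ring
    have E : (κ c.b14 * (z / u2) + (2 * κ c.b14 * ρ + κ c.c124)) * (z / u4)
        = -(κ c.a4 * ((1 / u2) * u4) - 2 * κ c.b41 * ((u2 / u1) * (1 / u2) ^ 2 * u4 ^ 2)
      - 2 * κ c.b42 * ((1 / u2) ^ 2 * u4 ^ 2) - 2 * κ c.b43 * ((u4 / u3) * (1 / u2) * u4)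
      + κ c.b34 * ((u3 / u4) ^ 2 * (1 / u2) * u4)
      - κ c.c124 * ((u1 / u2) * (1 / u2) * u4) - κ c.c124 * ((u2 / u1) * (1 / u2) * u4)
      - κ c.c134 * ((u1 / u2) * (u4 / u3))
      - κ c.c134 * ((u2 / u1) * (u3 / u4) * (1 / u2) ^ 2 * u4 ^ 2)
      + κ c.c134 * ((u1 / u2) * (u3 / u4)) - κ c.c234 * (u4 / u3)
      - κ c.c234 * ((u3 / u4) * (1 / u2) ^ 2 * u4 ^ 2) + κ c.c234 * (u3 / u4)
      - κ c.d4 * (1 / u2)) := by
      linear_combination (norm := (field_simp; ring)) (1 / u2) * S.e4 - (1 / (u2 * u4)) * n4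
    have hBd : P.B ((κ c.b14 * (z / u2) + (2 * κ c.b14 * ρ + κ c.c124)) * (z / u4)) := by
      refine ⟨_, P.lim_eq E (by
        apply_rules (maxDepth := 500) [P.add, P.mul, P.lim_sub, P.lim_neg, P.lim_pow,
          P.lim_ofNat])⟩
    exact Pl.B.of_mul hBd (Pl.lim_ne L hne)
  have g3 : 2 * κ c.b13 * ρ + κ c.c123 = 0 := by
    have h := congrArg κ' f3
    simp only [map_add, map_mul, map_ofNat, hκκ, map_zero] at h
    rw [hρ]
    exact h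
  have g4 : 2 * κ c.b14 * ρ + κ c.c124 = 0 := by
    have h := congrArg κ' f4
    simp only [map_add, map_mul, map_ofNat, hκκ, map_zero] at h
    rw [hρ]
    exact h
  have hF1' : F1 = 2 * κ c.b13 * (z / u3) + 2 * κ c.b14 * (z / u4) := by
    rw [hF1, hu1]
    linear_combination (norm := (field_simp; ring)) (u2 / u3) * g3 + (u2 / u4) * g4
  have k2 : (2 : K) ≠ 0 := by
    have := charZero_of_real K
    exact two_ne_zero
  -- one of the coefficients vanishes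
  have hor : c.b13 = 0 ∨ c.b14 = 0 := by
    by_contra hcon
    push Not at hcon
    obtain ⟨n13, n14⟩ := hcon
    have h5 : c.c123 ≠ 0 := by
      intro h0
      rw [h0] at f3
      have h6 : 2 * (c.b13 : ℂ) * r = 0 := by simpa using f3
      have h7 : (2 : ℂ) * c.b13 ≠ 0 := mul_ne_zero two_ne_zero (by exact_mod_cast n13)
      exact (mul_ne_zero h7 hr) h6
    have h8 := hD n13 n14 h5
    rw [h8] at f4
    have h6 : 2 * (c.b14 : ℂ) * r = 0 := by simpa using f4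
    have h7 : (2 : ℂ) * c.b14 ≠ 0 := mul_ne_zero two_ne_zero (by exact_mod_cast n14)
    exact (mul_ne_zero h7 hr) h6
  rcases hor with h0 | h0
  · by_cases h0' : c.b14 = 0
    · rw [h0, h0', map_zero] at hFz hF1'
      have hF1z : F1 = 0 := by rw [hF1']; ring
      have hF0 : F = 0 := by rw [hFz, hF1z]; ring
      exact hFne (P.eq0 hF0 LF)
    · apply key
      have hne : ¬ P.I (2 * κ c.b14) := by
        refine Pl.lim_ne (P.mul (P.lim_ofNat 2) (hk _)) ?_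
        exact mul_ne_zero two_ne_zero (by exact_mod_cast h0')
      refine Pl.B.of_mul (a := 2 * κ c.b14) ?_ hne
      refine ⟨w1, P.lim_eq ?_ LF1⟩
      rw [hF1', h0, map_zero]
      ring
  · by_cases h0' : c.b13 = 0
    · rw [h0, h0', map_zero] at hFz hF1'
      have hF1z : F1 = 0 := by rw [hF1']; ring
      have hF0 : F = 0 := by rw [hFz, hF1z]; ring
      exact hFne (P.eq0 hF0 LF)
    · apply key3
      have hne : ¬ P.I (2 * κ c.b13) := by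
        refine Pl.lim_ne (P.mul (P.lim_ofNat 2) (hk _)) ?_
        exact mul_ne_zero two_ne_zero (by exact_mod_cast h0')
      refine Pl.B.of_mul (a := 2 * κ c.b13) ?_ hne
      refine ⟨w1, P.lim_eq ?_ LF1⟩
      rw [hF1', h0, map_zero]
      ring

end Pool.Agent.H.MP_deabf1_gt.Four
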