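import Pool.Agent.H.MP_deabf1_gt.helper65.Base

/-!
Three comparable large summands, one small one.
-/

namespace Pool.Agent.H.MP_deabf1_gt.Four

variable {K : Type*} [Field K] [Algebra ℝ K] {P : Pl K} {κ : ℝ →+* K} {c : Cf}
  {u1 u2 u3 u4 : K}

/-- Every real matrix has a generalized inverse. -/
theorem exists_ginv {n : Type*} [Fintype n] [DecidableEq n] (M : Matrix n n ℝ) :
    ∃ G : Matrix n n ℝ, M * G * M = M := by
  classical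
  obtain ⟨g, hg⟩ := LinearMap.exists_rightInverse_of_surjective
    (Matrix.toLin' M).rangeRestrict (LinearMap.range_rangeRestrict _)
  obtain ⟨p, hp⟩ := LinearMap.exists_leftInverse_of_injective
    (LinearMap.range (Matrix.toLin' M)).subtype (Submodule.ker_subtype _)
  refine ⟨LinearMap.toMatrix' (g.comp p), ?_⟩
  apply Matrix.toLin'.injective
  rw [Matrix.toLin'_mul, Matrix.toLin'_mul, Matrix.toLin'_toMatrix']
  apply LinearMap.ext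
  intro v
  have h1 : p (Matrix.toLin' M v) = (Matrix.toLin' M).rangeRestrict v := by
    have h := LinearMap.congr_fun hp ((Matrix.toLin' M).rangeRestrict v)
    exact h
  have h2 := LinearMap.congr_fun hg ((Matrix.toLin' M).rangeRestrict v)
  have h3 := congrArg Subtype.val h2
  simp only [LinearMap.comp_apply]
  rw [h1]
  exact h3

/-- A real quadratic form is small where its gradient is small. -/
theorem quad3_small (hκ : ∀ r : ℝ, P.Lim (κ r) r) {m1 m2 m3 m12 m13 m23 : ℝ} {w x1 x2 x3 g1 g2 g3 : K}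
    (h1 : 2 * κ m1 * x1 + κ m12 * x2 + κ m13 * x3 = w * g1)
    (h2 : κ m12 * x1 + 2 * κ m2 * x2 + κ m23 * x3 = w * g2)
    (h3 : κ m13 * x1 + κ m23 * x2 + 2 * κ m3 * x3 = w * g3)
    (b1 : P.B g1) (b2 : P.B g2) (b3 : P.B g3) :
    ∃ t : K, P.B t ∧ κ m1 * x1 ^ 2 + κ m2 * x2 ^ 2 + κ m3 * x3 ^ 2 + κ m12 * (x1 * x2)
      + κ m13 * (x1 * x3) + κ m23 * (x2 * x3) = w ^ 2 * t := by
  obtain ⟨M, hM⟩ : ∃ M : Matrix (Fin 3) (Fin 3) ℝ,
      M = !![2 * m1, m12, m13; m12, 2 * m2, m23; m13, m23, 2 * m3] := ⟨_, rfl⟩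
  obtain ⟨G, hG⟩ := exists_ginv M
  have h2' : κ 2 = 2 := map_ofNat κ 2
  have e00 : κ (M 0 0) = 2 * κ m1 := by simp [hM, h2']
  have e01 : κ (M 0 1) = κ m12 := by simp [hM]
  have e02 : κ (M 0 2) = κ m13 := by simp [hM]
  have e10 : κ (M 1 0) = κ m12 := by simp [hM]
  have e11 : κ (M 1 1) = 2 * κ m2 := by simp [hM, h2']
  have e12 : κ (M 1 2) = κ m23 := by simp [hM]
  have e20 : κ (M 2 0) = κ m13 := by simp [hM]
  have e21 : κ (M 2 1) = κ m23 := by simp [hM]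
  have e22 : κ (M 2 2) = 2 * κ m3 := by simp [hM, h2']
  have hid : ∀ i j, κ ((M * G * M) i j) = κ (M i j) := fun i j => by rw [hG]
  have k00 := hid 0 0
  have k01 := hid 0 1
  have k02 := hid 0 2
  have k10 := hid 1 0
  have k11 := hid 1 1
  have k12 := hid 1 2
  have k20 := hid 2 0
  have k21 := hid 2 1
  have k22 := hid 2 2
  simp only [Matrix.mul_apply, Fin.sum_univ_three, map_add, map_mul, e00, e01, e02, e10, e11,
    e12, e20, e21, e22] at k00 k01 k02 k10 k11 k12 k20 k21 k22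
  have hB : ∀ r : ℝ, P.B (κ r) := fun r => ⟨_, hκ r⟩
  have hch := charZero_of_real K
  refine ⟨κ (1 / 2) * (κ (G 0 0) * (g1 * g1) + κ (G 0 1) * (g1 * g2) + κ (G 0 2) * (g1 * g3)
    + κ (G 1 0) * (g2 * g1) + κ (G 1 1) * (g2 * g2) + κ (G 1 2) * (g2 * g3)
    + κ (G 2 0) * (g3 * g1) + κ (G 2 1) * (g3 * g2) + κ (G 2 2) * (g3 * g3)), ?_, ?_⟩
  · exact (hB _).mul (((((((((((hB _).mul (b1.mul b1)).add ((hB _).mul (b1.mul b2))).add
      ((hB _).mul (b1.mul b3))).add ((hB _).mul (b2.mul b1))).add ((hB _).mul (b2.mul b2))).add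
      ((hB _).mul (b2.mul b3))).add ((hB _).mul (b3.mul b1))).add ((hB _).mul (b3.mul b2))).add
      ((hB _).mul (b3.mul b3))))
  · have h12 : κ (1 / 2) = 1 / 2 := by rw [map_div₀, map_one, h2']
    rw [h12]
    linear_combination
      (1 / 2) * κ (G 0 0) * (h1 * (2 * κ m1 * x1 + κ m12 * x2 + κ m13 * x3) + w * g1 * h1)
      + (1 / 2) * κ (G 0 1) * (h1 * (κ m12 * x1 + 2 * κ m2 * x2 + κ m23 * x3) + w * g1 * h2)
      + (1 / 2) * κ (G 0 2) * (h1 * (κ m13 * x1 + κ m23 * x2 + 2 * κ m3 * x3) + w * g1 * h3)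
      + (1 / 2) * κ (G 1 0) * (h2 * (2 * κ m1 * x1 + κ m12 * x2 + κ m13 * x3) + w * g2 * h1)
      + (1 / 2) * κ (G 1 1) * (h2 * (κ m12 * x1 + 2 * κ m2 * x2 + κ m23 * x3) + w * g2 * h2)
      + (1 / 2) * κ (G 1 2) * (h2 * (κ m13 * x1 + κ m23 * x2 + 2 * κ m3 * x3) + w * g2 * h3)
      + (1 / 2) * κ (G 2 0) * (h3 * (2 * κ m1 * x1 + κ m12 * x2 + κ m13 * x3) + w * g3 * h1)
      + (1 / 2) * κ (G 2 1) * (h3 * (κ m12 * x1 + 2 * κ m2 * x2 + κ m23 * x3) + w * g3 * h2)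
      + (1 / 2) * κ (G 2 2) * (h3 * (κ m13 * x1 + κ m23 * x2 + 2 * κ m3 * x3) + w * g3 * h3)
      - (1 / 2) * (x1 * x1) * k00
      - (1 / 2) * (x1 * x2) * k01
      - (1 / 2) * (x1 * x3) * k02
      - (1 / 2) * (x2 * x1) * k10
      - (1 / 2) * (x2 * x2) * k11
      - (1 / 2) * (x2 * x3) * k12
      - (1 / 2) * (x3 * x1) * k20
      - (1 / 2) * (x3 * x2) * k21
      - (1 / 2) * (x3 * x3) * k22

/-- The same for two variables. -/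
theorem quad2_small (hκ : ∀ r : ℝ, P.Lim (κ r) r) {m1 m2 m12 : ℝ} {w x1 x2 g1 g2 : K}
    (h1 : 2 * κ m1 * x1 + κ m12 * x2 = w * g1) (h2 : κ m12 * x1 + 2 * κ m2 * x2 = w * g2)
    (b1 : P.B g1) (b2 : P.B g2) :
    ∃ t : K, P.B t ∧ κ m1 * x1 ^ 2 + κ m2 * x2 ^ 2 + κ m12 * (x1 * x2) = w ^ 2 * t := by
  obtain ⟨t, ht, h⟩ := quad3_small (P := P) (κ := κ) hκ (m1 := m1) (m2 := m2) (m3 := 0)
    (m12 := m12) (m13 := 0) (m23 := 0) (w := w) (x1 := x1) (x2 := x2) (x3 := 0) (g1 := g1)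
    (g2 := g2) (g3 := 0) (by simpa using h1) (by simpa using h2) (by simp) b1 b2 Pl.B.zero
  exact ⟨t, ht, by simpa using h⟩

theorem p31 (S : Sys4 P κ c u1 u2 u3 u4) (hc : c.Pos) {p q : ℂ} (hp : p ≠ 0) (hq : q ≠ 0)
    (Lp : P.Lim (u2 / u1) p) (Lq : P.Lim (u3 / u1) q) (Lη : P.Lim (1 / u1) 0)
    (L4 : P.Lim u4 0) : False := by
  have hk := S.k
  have h1 := S.h1
  have h2 := S.h2
  have h3 := S.h3
  have h4 := S.h4
  have Lp' := P.lim_swap Lp hp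
  have Lq' := P.lim_swap Lq hq
  have hB : ∀ r : ℝ, P.B (κ r) := fun r => ⟨_, hk r⟩
  have two : P.B (2 : K) := Pl.B.ofNat 2
  have B21 : P.B (u2 / u1) := ⟨_, Lp⟩
  have B31 : P.B (u3 / u1) := ⟨_, Lq⟩
  have B12 : P.B (u1 / u2) := ⟨_, Lp'⟩
  have B13 : P.B (u1 / u3) := ⟨_, Lq'⟩
  have B1 : P.B (1 / u1) := ⟨_, Lη⟩
  have B4 : P.B u4 := ⟨_, L4⟩
  obtain ⟨g1, bg1, hg1⟩ : ∃ g1 : K, P.B g1 ∧
      2 * κ c.b14 * u1 + κ c.c124 * u2 + κ c.c134 * u3 = u4 * g1 := by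
    refine ⟨κ c.a1 - 2 * κ c.b12 * (u1 / u2) - 2 * κ c.b13 * (u1 / u3)
      + κ c.b21 * (u2 / u1) ^ 2 + κ c.b31 * (u3 / u1) ^ 2 + κ c.b41 * (u4 * (1 / u1)) ^ 2
      - κ c.c123 * ((u2 / u1) * (u1 / u3) + (u3 / u1) * (u1 / u2) - (u2 / u1) * (u3 / u1))
      - κ c.c124 * (u4 * (1 / u1) * (u1 / u2) - u4 * (1 / u1) * (u2 / u1))
      - κ c.c134 * (u4 * (1 / u1) * (u1 / u3) - u4 * (1 / u1) * (u3 / u1))
      - κ c.d1 * (1 / u1), ?_, ?_⟩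
    · apply_rules (maxDepth := 500) [Pl.B.add, Pl.B.sub, Pl.B.mul, Pl.B.pow]
    · linear_combination (norm := (field_simp; ring)) -(u4 / u1) * S.e1
  obtain ⟨g2, bg2, hg2⟩ : ∃ g2 : K, P.B g2 ∧
      κ c.c124 * u1 + 2 * κ c.b24 * u2 + κ c.c234 * u3 = u4 * g2 := by
    refine ⟨κ c.a2 - 2 * κ c.b21 * (u2 / u1) - 2 * κ c.b23 * ((u2 / u1) * (u1 / u3))
      + κ c.b12 * (u1 / u2) ^ 2 + κ c.b32 * ((u3 / u1) * (u1 / u2)) ^ 2
      + κ c.b42 * (u4 * (1 / u1) * (u1 / u2)) ^ 2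
      - κ c.c123 * ((u1 / u3) + (u3 / u1) - (u3 / u1) * (u1 / u2) ^ 2)
      - κ c.c124 * (u4 * (1 / u1) - u4 * (1 / u1) * (u1 / u2) ^ 2)
      - κ c.c234 * (u4 * (1 / u1) * (u1 / u3) - u4 * (1 / u1) * (u3 / u1) * (u1 / u2) ^ 2)
      - κ c.d2 * ((1 / u1) * (u1 / u2)), ?_, ?_⟩
    · apply_rules (maxDepth := 500) [Pl.B.add, Pl.B.sub, Pl.B.mul, Pl.B.pow]
    · linear_combination (norm := (field_simp; ring)) -(u4 / u2) * S.e2
  obtain ⟨g3, bg3, hg3⟩ : ∃ g3 : K, P.B g3 ∧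
      κ c.c134 * u1 + κ c.c234 * u2 + 2 * κ c.b34 * u3 = u4 * g3 := by
    refine ⟨κ c.a3 - 2 * κ c.b31 * (u3 / u1) - 2 * κ c.b32 * ((u3 / u1) * (u1 / u2))
      + κ c.b13 * (u1 / u3) ^ 2 + κ c.b23 * ((u2 / u1) * (u1 / u3)) ^ 2
      + κ c.b43 * (u4 * (1 / u1) * (u1 / u3)) ^ 2
      - κ c.c123 * ((u1 / u2) + (u2 / u1) - (u2 / u1) * (u1 / u3) ^ 2)
      - κ c.c134 * (u4 * (1 / u1) - u4 * (1 / u1) * (u1 / u3) ^ 2)
      - κ c.c234 * (u4 * (1 / u1) * (u1 / u2) - u4 * (1 / u1) * (u2 / u1) * (u1 / u3) ^ 2)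
      - κ c.d3 * ((1 / u1) * (u1 / u3)), ?_, ?_⟩
    · apply_rules (maxDepth := 500) [Pl.B.add, Pl.B.sub, Pl.B.mul, Pl.B.pow]
    · linear_combination (norm := (field_simp; ring)) -(u4 / u3) * S.e3
  obtain ⟨t, ⟨τ, Lt⟩, hQ⟩ := quad3_small (P := P) hk hg1 hg2 hg3 bg1 bg2 bg3
  have E : κ c.a4 * u4 - 2 * κ c.b41 * (u4 ^ 2 * (1 / u1))
      - 2 * κ c.b42 * (u4 ^ 2 * (1 / u1) * (u1 / u2))
      - 2 * κ c.b43 * (u4 ^ 2 * (1 / u1) * (u1 / u3)) + u4 * t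
      - κ c.c124 * (u4 * (u1 / u2) + u4 * (u2 / u1))
      - κ c.c134 * (u4 * (u1 / u3) + u4 * (u3 / u1))
      - κ c.c234 * (u4 * (u2 / u1) * (u1 / u3) + u4 * (u3 / u1) * (u1 / u2)) - κ c.d4 = 0 := by
    linear_combination (norm := (field_simp; ring)) S.e4 - (1 / u4) * hQ
  have h := P.eq0 E (by
    apply_rules (maxDepth := 500) [P.add, P.mul, P.lim_sub, P.lim_neg, P.lim_pow, P.lim_ofNat])
  have h' : c.d4 = 0 := by simpa using h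
  exact hc.d4.ne' h'

end Pool.Agent.H.MP_deabf1_gt.Four
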