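import Pool.Agent.H.MP_deabf1_gt.helper65.P13
import Pool.Agent.H.MP_deabf1_gt.helper65.P31
import Pool.Agent.H.MP_deabf1_gt.helper65.P22
import Pool.Agent.H.MP_deabf1_gt.helper65.P112
import Pool.Agent.H.MP_deabf1_gt.helper65.P121
import Pool.Agent.H.MP_deabf1_gt.helper65.P1111
import Pool.Agent.H.MP_deabf1_gt.helper65.P211

/-!
The ordered solutions at infinity.
-/

namespace Pool.Agent.H.MP_deabf1_gt.Four

variable {K : Type*} [Field K] [Algebra ℝ K] {P : Pl K} {κ : ℝ →+* K} {c : Cf}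
  {u1 u2 u3 u4 : K}

theorem lim_of_not_I {a b : K} (h : P.B (a / b)) (h' : ¬ P.I (a / b)) :
    ∃ z : ℂ, z ≠ 0 ∧ P.Lim (a / b) z ∧ P.Lim (b / a) z⁻¹ := by
  obtain ⟨z, hz, Lz⟩ := Pl.exists_lim h h'
  exact ⟨z, hz, Lz, P.lim_swap Lz hz⟩

theorem sorted4 (S : Sys4 P κ c u1 u2 u3 u4) (hc : c.Pos) (κ' : ℂ →+* K)
    (hκ' : ∀ z : ℂ, P.Lim (κ' z) z) (hκκ : ∀ r : ℝ, κ' (r : ℂ) = κ r)
    (hD1 : c.b13 ≠ 0 → c.b14 ≠ 0 → c.c123 ≠ 0 → c.c124 = 0)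
    (hD2 : c.b23 ≠ 0 → c.b24 ≠ 0 → c.c123 ≠ 0 → c.c124 = 0)
    (hD3 : c.b12 ≠ 0 → c.b13 ≠ 0 → c.c124 ≠ 0 → c.c134 = 0)
    (B21 : P.B (u2 / u1)) (B32 : P.B (u3 / u2)) (B43 : P.B (u4 / u3))
    (Lη : P.Lim (1 / u1) 0) (L4 : P.Lim u4 0) :
    (∃ r : ℂ, r ≠ 0 ∧ P.Lim (u1 / u2) r) ∧ ¬ P.I u3 ∧
      ∃ θ : ℂ, θ ≠ 0 ∧ P.Lim (u3 ^ 2 / (u2 * u4)) θ := by
  have n1 := S.h1
  have n2 := S.h2
  have n3 := S.h3
  have n4 := S.h4
  by_cases I21 : P.I (u2 / u1)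
  · exfalso
    by_cases I32 : P.I (u3 / u2)
    · by_cases I43 : P.I (u4 / u3)
      · exact p1111 S hc I21 I32 I43 Lη L4
      · obtain ⟨z, hz, -, Lz⟩ := lim_of_not_I B43 I43
        refine p112 S hc (inv_ne_zero hz) I21 ?_ Lz Lη L4
        have h := B43.mulI I32
        rwa [div_mul_div_cancel₀ n3] at h
    · obtain ⟨y, hy, Ly, Ly'⟩ := lim_of_not_I B32 I32
      by_cases I43 : P.I (u4 / u3)
      · refine p121 S hc hD3 (inv_ne_zero hy) ?_ Ly' I43 Lη L4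
        have h := B32.mulI I21
        rwa [div_mul_div_cancel₀ n2] at h
      · obtain ⟨z, hz, Lz, -⟩ := lim_of_not_I B43 I43
        refine p13 S hc I21 hy (mul_ne_zero hz hy) Ly ?_ Lη L4
        have h := P.mul Lz Ly
        rwa [div_mul_div_cancel₀ n3] at h
  · obtain ⟨x, hx, Lx, Lx'⟩ := lim_of_not_I B21 I21
    have Lη2 : P.Lim (1 / u2) 0 := by
      have h := P.mul Lη Lx'
      rw [zero_mul, div_mul_div_cancel₀ n1] at h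
      exact h
    by_cases I32 : P.I (u3 / u2)
    · by_cases I43 : P.I (u4 / u3)
      · exact ⟨⟨_, inv_ne_zero hx, Lx'⟩, p211 S hc hD1 hD2 (inv_ne_zero hx) Lx' I32 I43 Lη2 L4⟩
      · exfalso
        obtain ⟨z, hz, -, Lz⟩ := lim_of_not_I B43 I43
        exact p22 S hc κ' hκ' hκκ hD1 (inv_ne_zero hx) (inv_ne_zero hz) Lx' Lz Lη2 L4
    · exfalso
      obtain ⟨y, hy, Ly, Ly'⟩ := lim_of_not_I B32 I32
      have L31 := P.mul Ly Lx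
      rw [div_mul_div_cancel₀ n2] at L31
      by_cases I43 : P.I (u4 / u3)
      · exact p31 S hc hx (mul_ne_zero hy hx) Lx L31 Lη L4
      · obtain ⟨z, hz, -, Lz'⟩ := lim_of_not_I B43 I43
        have h := P.mul (P.mul (P.mul Lz' L4) (P.mul Ly' Lx')) Lη
        have h1 : u3 / u4 * u4 * (u2 / u3 * (u1 / u2)) * (1 / u1) = 1 := by
          field_simp
        rw [h1] at h
        have h2 := P.uniq h P.lim_one
        simp at h2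

theorem I_of_pow {a : K} {n : ℕ} (h : P.I (a ^ n)) : P.I a := by
  induction n with
  | zero =>
    rw [pow_zero] at h
    exact absurd h Pl.one_not_I
  | succ n ih =>
    by_contra h1
    rw [pow_succ'] at h
    exact h1 (ih (h.of_mul h1))

theorem B_of_pow {a : K} {n : ℕ} (hn : n ≠ 0) (h : P.B (a ^ n)) : P.B a := by
  by_contra h1
  have h2 := (Pl.inv_I h1).pow hn
  have h3 := h.mulI h2
  rw [← mul_pow, mul_inv_cancel₀ (Pl.ne_of_not_B h1), one_pow] at h3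
  exact Pl.one_not_I h3

theorem not_I_mul {a b : K} (ha : ¬ P.I a) (hb : ¬ P.I b) : ¬ P.I (a * b) := fun h =>
  hb (h.of_mul ha)

/-- The inequality between the dimensions. -/
theorem vol_ineq {d1 d2 d3 d4 : ℕ} (n1 : u1 ≠ 0) (n2 : u2 ≠ 0) (n3 : u3 ≠ 0) (n4 : u4 ≠ 0)
    (h12 : ∃ r : ℂ, r ≠ 0 ∧ P.Lim (u1 / u2) r) (h3 : ¬ P.I u3)
    (hθ : ∃ θ : ℂ, θ ≠ 0 ∧ P.Lim (u3 ^ 2 / (u2 * u4)) θ) (Lη : P.Lim (1 / u1) 0)
    (hv : P.B (u1 ^ d1 * u2 ^ d2 * u3 ^ d3 * u4 ^ d4)) : d1 + d2 ≤ d4 := by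
  by_contra hlt
  push Not at hlt
  obtain ⟨r, hr, Lr⟩ := h12
  obtain ⟨θ, hθ, Lθ⟩ := hθ
  have Lr' := P.lim_swap Lr hr
  obtain ⟨m, hm⟩ : ∃ m, d1 + d2 = d4 + (m + 1) := ⟨d1 + d2 - d4 - 1, by omega⟩
  have h1 : P.B (u3 ^ (d3 + 2 * d4) * u2 ^ (m + 1)) := by
    have h := (hv.mul ((Pl.B.pow ⟨_, Lr'⟩ d1))).mul (Pl.B.pow ⟨_, Lθ⟩ d4)
    have h2 : u1 ^ d1 * u2 ^ d2 * u3 ^ d3 * u4 ^ d4 * (u2 / u1) ^ d1 * (u3 ^ 2 / (u2 * u4)) ^ d4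
        = u3 ^ (d3 + 2 * d4) * u2 ^ (m + 1) := by
      have h3 : u1 ^ d1 * (u2 / u1) ^ d1 = u2 ^ d1 := by
        rw [← mul_pow, mul_div_cancel₀ _ n1]
      have h4 : u4 ^ d4 * (u3 ^ 2 / (u2 * u4)) ^ d4 * u2 ^ d4 = u3 ^ (2 * d4) := by
        rw [← mul_pow, ← mul_pow, pow_mul]
        congr 1
        field_simp
      have h5 : u2 ^ d1 * u2 ^ d2 = u2 ^ d4 * u2 ^ (m + 1) := by
        rw [← pow_add, hm, pow_add]
      calc u1 ^ d1 * u2 ^ d2 * u3 ^ d3 * u4 ^ d4 * (u2 / u1) ^ d1 * (u3 ^ 2 / (u2 * u4)) ^ d4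
          = (u1 ^ d1 * (u2 / u1) ^ d1) * u2 ^ d2 * u3 ^ d3
            * (u4 ^ d4 * (u3 ^ 2 / (u2 * u4)) ^ d4) := by ring
        _ = (u2 ^ d1 * u2 ^ d2) * u3 ^ d3 * (u4 ^ d4 * (u3 ^ 2 / (u2 * u4)) ^ d4) := by
          rw [h3]
        _ = u3 ^ d3 * (u4 ^ d4 * (u3 ^ 2 / (u2 * u4)) ^ d4 * u2 ^ d4) * u2 ^ (m + 1) := by
          rw [h5]
          ring
        _ = u3 ^ (d3 + 2 * d4) * u2 ^ (m + 1) := by
          rw [h4, pow_add u3]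
    rw [h2] at h
    exact h
  have h2 : P.B u2 := B_of_pow (Nat.succ_ne_zero m) (h1.of_mul fun h => h3 (I_of_pow h))
  have h4 : P.I (1 : K) := by
    have h5 := P.mul (P.mul Lη Lr) h2.choose_spec
    have h6 : 1 / u1 * (u1 / u2) * u2 = 1 := by field_simp
    rw [h6, zero_mul, zero_mul] at h5
    exact h5
  exact Pl.one_not_I h4

end Pool.Agent.H.MP_deabf1_gt.Four
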