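import Pool.Agent.H.MP_deabf1_gt.helper65.Loc1
import Pool.Agent.H.MP_deabf1_gt.helper65.Loc2

/-!
The local statement at infinity for four summands.
-/

namespace Pool.Agent.H.MP_deabf1_gt.Four

open Finset (univ)

theorem exists_sorted (r : Fin 4 → Fin 4 → Prop) (ht : ∀ a b, r a b ∨ r b a)
    (htr : ∀ a b c, r a b → r b c → r a c) :
    ∃ a b c e : Fin 4, a ≠ b ∧ a ≠ c ∧ a ≠ e ∧ b ≠ c ∧ b ≠ e ∧ c ≠ e ∧ r a b ∧ r b c ∧ r c e := by
  classical
  have : Std.Total r := ⟨ht⟩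
  have : IsTrans (Fin 4) r := ⟨htr⟩
  have h1 := List.pairwise_insertionSort r (List.finRange 4)
  have h2 : ((List.finRange 4).insertionSort r).length = 4 := by
    rw [List.length_insertionSort, List.length_finRange]
  have h3 : ((List.finRange 4).insertionSort r).Nodup :=
    (List.perm_insertionSort r (List.finRange 4)).nodup_iff.2 (List.nodup_finRange 4)
  generalize (List.finRange 4).insertionSort r = l at h1 h2 h3
  match l, h2 with
  | [a, b, c, e], _ =>
    simp only [List.nodup_cons, List.mem_cons, List.not_mem_nil, or_false, not_or,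
      List.pairwise_cons] at h1 h3
    exact ⟨a, b, c, e, h3.1.1, h3.1.2.1, h3.1.2.2, h3.2.1.1, h3.2.1.2, h3.2.2.1,
      h1.1 b (Or.inl rfl), h1.2.1 c (Or.inl rfl), h1.2.2.1 e rfl⟩

/-- The excluded configuration. -/
def NoDouble (T : Fin 4 → Fin 4 → Fin 4 → ℝ) : Prop :=
  ∀ i a b c, i ≠ a → i ≠ b → i ≠ c → a ≠ b → a ≠ c → b ≠ c →
    T i i a ≠ 0 → T i i b ≠ 0 → T i a c ≠ 0 → T i b c = 0

variable {K : Type*} [Field K] [Algebra ℝ K]

theorem local4 (P : Pl K) (κ' : ℂ →+* K) (hκ' : ∀ z : ℂ, P.Lim (κ' z) z)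
    (hκκ : ∀ r : ℝ, κ' (r : ℂ) = algebraMap ℝ K r) {T : Fin 4 → Fin 4 → Fin 4 → ℝ} (hT : Sym T)
    (hT0 : ∀ i j k, 0 ≤ T i j k) {γ : Fin 4 → ℝ} (hγ : ∀ i, 0 ≤ γ i) {d : Fin 4 → ℕ}
    (hd : ∀ i, 0 < d i) (hD : NoDouble T) {x : Fin 4 → K}
    (hS : Pl.Sys T γ (fun i => (d i : ℝ)) univ x 0)
    (hv : ∃ c : ℂ, c ≠ 0 ∧ P.Lim (∏ i, x i ^ d i) c) (i : Fin 4) (hi : ¬ P.B (x i)) :
    ∃ j, P.I (x j) ∧ d j < d i := by
  have hx : ∀ i, x i ≠ 0 := fun i => (hS i (Finset.mem_univ i)).1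
  obtain ⟨a, b, c, e, hab, hac, hae, hbc, hbe, hce, B1, B2, B3⟩ :=
    exists_sorted (fun i j => P.B (x i / x j)) (fun i j => by
      rcases Pl.B_total P (x i) (x j) with h | h
      · right
        rwa [← div_eq_mul_inv] at h
      · left
        rwa [← div_eq_mul_inv] at h) (fun i j k h1 h2 => by
      have h := h1.mul h2
      rwa [div_mul_div_cancel₀ (hx j)] at h)
  -- products
  have hdiv : ∀ {y z : K}, z ≠ 0 → P.B (y / z) → P.B z → P.B y := by
    intro y z hz h1 h2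
    have h := h1.mul h2
    rwa [div_mul_cancel₀ _ hz] at h
  have hdivI : ∀ {y z : K}, z ≠ 0 → P.B (y / z) → P.I z → P.I y := by
    intro y z hz h1 h2
    have h := h1.mulI h2
    rwa [div_mul_cancel₀ _ hz] at h
  have hcov : i = a ∨ i = b ∨ i = c ∨ i = e := by
    have h : ∀ a b c e i : Fin 4, a ≠ b → a ≠ c → a ≠ e → b ≠ c → b ≠ e → c ≠ e →
        i = a ∨ i = b ∨ i = c ∨ i = e := by decide
    exact h a b c e i hab hac hae hbc hbe hce
  have he : ¬ P.B (x e) := by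
    intro h
    have h1 := hdiv (hx e) B3 h
    have h2 := hdiv (hx c) B2 h1
    have h3 := hdiv (hx b) B1 h2
    rcases hcov with h4 | h4 | h4 | h4
    · exact hi (h4 ▸ h3)
    · exact hi (h4 ▸ h2)
    · exact hi (h4 ▸ h1)
    · exact hi (h4 ▸ h)
  -- the volume
  have hprod : ∏ i, x i ^ d i = x a ^ d a * x b ^ d b * x c ^ d c * x e ^ d e := by
    have h : ∀ a b c e : Fin 4, a ≠ b → a ≠ c → a ≠ e → b ≠ c → b ≠ e → c ≠ e →
        (Finset.univ : Finset (Fin 4)) = {a, b, c, e} := by decide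
    rw [h a b c e hab hac hae hbc hbe hce, Finset.prod_insert, Finset.prod_insert,
      Finset.prod_insert, Finset.prod_singleton]
    · simp only [mul_assoc]
    · simpa using hce
    · simp only [Finset.mem_insert, Finset.mem_singleton, not_or]
      exact ⟨hbc, hbe⟩
    · simp only [Finset.mem_insert, Finset.mem_singleton, not_or]
      exact ⟨hab, hac, hae⟩
  rw [hprod] at hv
  obtain ⟨v, hv0, hv⟩ := hv
  have hIa : P.I (x a) := by
    by_contra ha
    have hb : ¬ P.I (x b) := fun h => ha (hdivI (hx b) B1 h)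
    have hc : ¬ P.I (x c) := fun h => hb (hdivI (hx c) B2 h)
    have h1 : ¬ P.I (x a ^ d a * x b ^ d b * x c ^ d c) :=
      not_I_mul (not_I_mul (fun h => ha (I_of_pow h)) (fun h => hb (I_of_pow h)))
        (fun h => hc (I_of_pow h))
    exact he (B_of_pow (hd e).ne' (Pl.B.of_mul ⟨v, hv⟩ h1))
  have hS4 := sys4_of P hT hS hab hac hae hbc hbe hce
  have hpos := cf_pos hT0 hγ hd a b c e
  have hdual : ∀ i j, P.B (x i / x j) → P.B ((x j)⁻¹ / (x i)⁻¹) := by
    intro i j h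
    rwa [inv_div_inv]
  have hz4 : ∀ {y : ℝ}, y ≠ 0 → y * 4 ≠ 0 := fun h => mul_ne_zero h (by norm_num)
  obtain ⟨h12, h3, hθ⟩ := sorted4 hS4 hpos κ' hκ' hκκ
    (by
      intro h1 h2 h3
      simp only [cf, ne_eq, div_eq_zero_iff, OfNat.ofNat_ne_zero, or_false] at h1 h2 h3 ⊢
      have h4 := hD a c e b hac hae hab hce hbc.symm hbe.symm h1 h2
        (by rwa [hT.2 a c b])
      rwa [hT.2 a e b] at h4)
    (by
      intro h1 h2 h3
      simp only [cf, ne_eq, div_eq_zero_iff, OfNat.ofNat_ne_zero, or_false] at h1 h2 h3 ⊢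
      have h4 := hD b c e a hbc hbe hab.symm hce hac.symm hae.symm h1 h2
        (by rwa [hT.2 b c a, hT.1 b a c])
      rwa [hT.2 b e a, hT.1 b a e] at h4)
    (by
      intro h1 h2 h3
      simp only [cf, ne_eq, div_eq_zero_iff, OfNat.ofNat_ne_zero, or_false] at h1 h2 h3 ⊢
      exact hD a b c e hab hac hae hbc hbe hce h1 h2 h3)
    (hdual _ _ B1) (hdual _ _ B2) (hdual _ _ B3) (by
      rw [one_div, inv_inv]
      exact hIa) (Pl.inv_I he)
  have hvol : d a + d b ≤ d e := by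
    refine vol_ineq (P := P) (d3 := d c) (inv_ne_zero (hx a)) (inv_ne_zero (hx b))
      (inv_ne_zero (hx c)) (inv_ne_zero (hx e)) h12 h3 hθ ?_ ?_
    · rw [one_div, inv_inv]
      exact hIa
    · have h := P.lim_inv hv hv0
      simp only [mul_inv] at h
      simp only [inv_pow]
      exact ⟨_, h⟩
  have hie : i = e := by
    rcases hcov with h4 | h4 | h4 | h4
    · exact absurd (h4 ▸ hIa.B) hi
    · exfalso
      apply hi
      rw [h4]
      obtain ⟨r, -, Lr⟩ := h12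
      rw [inv_div_inv] at Lr
      exact hdiv (hx a) ⟨r, Lr⟩ hIa.B
    · exfalso
      apply hi
      rw [h4]
      have h5 := Pl.inv_B h3
      rwa [inv_inv] at h5
    · exact h4
  refine ⟨a, hIa, ?_⟩
  rw [hie]
  have := hd b
  omega

end Pool.Agent.H.MP_deabf1_gt.Four
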