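import Pool.Agent.H.MP_deabf1_gt.helper65.Base

/-!
One large summand, three comparable small ones.
-/

namespace Pool.Agent.H.MP_deabf1_gt.Four

variable {K : Type*} [Field K] [Algebra ℝ K] {P : Pl K} {κ : ℝ →+* K} {c : Cf}
  {u1 u2 u3 u4 : K}

theorem p13 (S : Sys4 P κ c u1 u2 u3 u4) (hc : c.Pos) (L : P.Lim (u2 / u1) 0) {s t : ℂ}
    (hs : s ≠ 0) (ht : t ≠ 0) (Ls : P.Lim (u3 / u2) s) (Lt : P.Lim (u4 / u2) t)
    (Lη : P.Lim (1 / u1) 0) (L4 : P.Lim u4 0) : False := by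
  have hk := S.k
  have h1 := S.h1
  have h2 := S.h2
  have h3 := S.h3
  have h4 := S.h4
  have Ls' := P.lim_swap Ls hs
  have Lt' := P.lim_swap Lt ht
  have L2 : P.Lim u2 0 := by
    have h := P.mul L4 Lt'
    rw [zero_mul] at h
    refine P.lim_eq ?_ h
    field_simp
  have hb12 : c.b12 = 0 := by
    have E : κ c.a2 * ((u2 / u1) ^ 2) - 2 * κ c.b21 * ((u2 / u1) ^ 3)
        - 2 * κ c.b23 * ((u2 / u1) ^ 2 * (u2 / u3)) - 2 * κ c.b24 * ((u2 / u1) ^ 2 * (u2 / u4))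
        + κ c.b12 + κ c.b32 * ((u2 / u1) ^ 2 * (u3 / u2) ^ 2)
        + κ c.b42 * ((u2 / u1) ^ 2 * (u4 / u2) ^ 2) - κ c.c123 * ((u2 / u1) * (u2 / u3))
        - κ c.c123 * ((u2 / u1) ^ 3 * (u3 / u2)) + κ c.c123 * ((u2 / u1) * (u3 / u2))
        - κ c.c124 * ((u2 / u1) * (u2 / u4)) - κ c.c124 * ((u2 / u1) ^ 3 * (u4 / u2))
        + κ c.c124 * ((u2 / u1) * (u4 / u2)) - κ c.c234 * ((u2 / u1) ^ 2 * (u3 / u2) * (u2 / u4))
        - κ c.c234 * ((u2 / u1) ^ 2 * (u2 / u3) * (u4 / u2))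
        + κ c.c234 * ((u2 / u1) ^ 2 * (u3 / u2) * (u4 / u2))
        - κ c.d2 * ((u2 / u1) * (1 / u1)) = 0 := by
      linear_combination (norm := (field_simp; ring)) (u2 / u1 ^ 2) * S.e2
    have h := P.eq0 E (by
      apply_rules (maxDepth := 500) [P.add, P.mul, P.lim_sub, P.lim_neg, P.lim_pow, P.lim_ofNat])
    simpa using h
  have hb13 : c.b13 = 0 := by
    have E : κ c.a3 * ((u2 / u1) ^ 2 * (u3 / u2) ^ 2)
        - 2 * κ c.b31 * ((u2 / u1) ^ 3 * (u3 / u2) ^ 3)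
        - 2 * κ c.b32 * ((u2 / u1) ^ 2 * (u3 / u2) ^ 3)
        - 2 * κ c.b34 * ((u2 / u1) ^ 2 * (u3 / u2) ^ 3 * (u2 / u4)) + κ c.b13
        + κ c.b23 * ((u2 / u1) ^ 2) + κ c.b43 * ((u2 / u1) ^ 2 * (u4 / u2) ^ 2)
        - κ c.c123 * ((u2 / u1) * (u3 / u2) ^ 2) - κ c.c123 * ((u2 / u1) ^ 3 * (u3 / u2) ^ 2)
        + κ c.c123 * (u2 / u1) - κ c.c134 * ((u2 / u1) * (u3 / u2) ^ 2 * (u2 / u4))
        - κ c.c134 * ((u2 / u1) ^ 3 * (u3 / u2) ^ 2 * (u4 / u2))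
        + κ c.c134 * ((u2 / u1) * (u4 / u2))
        - κ c.c234 * ((u2 / u1) ^ 2 * (u3 / u2) ^ 2 * (u2 / u4))
        - κ c.c234 * ((u2 / u1) ^ 2 * (u3 / u2) ^ 2 * (u4 / u2))
        + κ c.c234 * ((u2 / u1) ^ 2 * (u4 / u2))
        - κ c.d3 * ((u2 / u1) * (u3 / u2) * (1 / u1)) = 0 := by
      linear_combination (norm := (field_simp; ring)) (u3 / u1 ^ 2) * S.e3
    have h := P.eq0 E (by
      apply_rules (maxDepth := 500) [P.add, P.mul, P.lim_sub, P.lim_neg, P.lim_pow, P.lim_ofNat])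
    simpa using h
  have hb14 : c.b14 = 0 := by
    have E : κ c.a4 * ((u2 / u1) ^ 2 * (u4 / u2) ^ 2)
        - 2 * κ c.b41 * ((u2 / u1) ^ 3 * (u4 / u2) ^ 3)
        - 2 * κ c.b42 * ((u2 / u1) ^ 2 * (u4 / u2) ^ 3)
        - 2 * κ c.b43 * ((u2 / u1) ^ 2 * (u2 / u3) * (u4 / u2) ^ 3) + κ c.b14
        + κ c.b24 * ((u2 / u1) ^ 2) + κ c.b34 * ((u2 / u1) ^ 2 * (u3 / u2) ^ 2)
        - κ c.c124 * ((u2 / u1) * (u4 / u2) ^ 2) - κ c.c124 * ((u2 / u1) ^ 3 * (u4 / u2) ^ 2)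
        + κ c.c124 * (u2 / u1) - κ c.c134 * ((u2 / u1) * (u2 / u3) * (u4 / u2) ^ 2)
        - κ c.c134 * ((u2 / u1) ^ 3 * (u3 / u2) * (u4 / u2) ^ 2)
        + κ c.c134 * ((u2 / u1) * (u3 / u2))
        - κ c.c234 * ((u2 / u1) ^ 2 * (u2 / u3) * (u4 / u2) ^ 2)
        - κ c.c234 * ((u2 / u1) ^ 2 * (u3 / u2) * (u4 / u2) ^ 2)
        + κ c.c234 * ((u2 / u1) ^ 2 * (u3 / u2))
        - κ c.d4 * ((u2 / u1) * (u4 / u2) * (1 / u1)) = 0 := by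
      linear_combination (norm := (field_simp; ring)) (u4 / u1 ^ 2) * S.e4
    have h := P.eq0 E (by
      apply_rules (maxDepth := 500) [P.add, P.mul, P.lim_sub, P.lim_neg, P.lim_pow, P.lim_ofNat])
    simpa using h
  have e2 := S.e2
  have e3 := S.e3
  have e4 := S.e4
  rw [hb12, map_zero] at e2
  rw [hb13, map_zero] at e3
  rw [hb14, map_zero] at e4
  have E : κ c.a2 * u2 - 2 * κ c.b21 * ((u2 / u1) * u2) - κ c.b23 * ((u2 / u3) * u2)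
      - κ c.b24 * ((u2 / u4) * u2) - κ c.b32 * ((u3 / u2) ^ 2 * u2)
      - κ c.b42 * ((u4 / u2) ^ 2 * u2) - 2 * κ c.c123 * ((u2 / u1) * (u3 / u2) * u2)
      - 2 * κ c.c124 * ((u2 / u1) * (u4 / u2) * u2) - κ c.c234 * ((u3 / u2) * (u2 / u4) * u2)
      - κ c.c234 * ((u2 / u3) * (u4 / u2) * u2) - κ c.c234 * ((u3 / u2) * (u4 / u2) * u2) - κ c.d2
      + κ c.a3 * ((u3 / u2) * u2) - 2 * κ c.b31 * ((u2 / u1) * (u3 / u2) ^ 2 * u2)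
      - κ c.b34 * ((u3 / u2) ^ 2 * (u2 / u4) * u2) - κ c.b43 * ((u2 / u3) * (u4 / u2) ^ 2 * u2)
      - 2 * κ c.c134 * ((u2 / u1) * (u3 / u2) * (u4 / u2) * u2) - κ c.d3
      + κ c.a4 * ((u4 / u2) * u2) - 2 * κ c.b41 * ((u2 / u1) * (u4 / u2) ^ 2 * u2)
      - κ c.d4 = 0 := by
    linear_combination (norm := (field_simp; ring)) e2 + e3 + e4
  have h := P.eq0 E (by
    apply_rules (maxDepth := 500) [P.add, P.mul, P.lim_sub, P.lim_neg, P.lim_pow, P.lim_ofNat])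
  have h' : -c.d2 - c.d3 - c.d4 = 0 := by
    have h5 : ((-c.d2 - c.d3 - c.d4 : ℝ) : ℂ) = 0 := by
      push_cast
      simpa using h
    exact_mod_cast h5
  have := hc.d2
  have := hc.d3
  have := hc.d4
  linarith

end Pool.Agent.H.MP_deabf1_gt.Four
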