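import Pool.Agent.H.MP_deabf1_gt.helper65.P31

/-!
Two comparable large summands and two incomparable smaller ones: the equations.
-/

namespace Pool.Agent.H.MP_deabf1_gt.Four

variable {K : Type*} [Field K] [Algebra ℝ K] {P : Pl K} {κ : ℝ →+* K} {c : Cf}
  {u1 u2 u3 u4 : K}

/-- The four equations in the form used for this pattern. -/
structure F211 (P : Pl K) (κ : ℝ →+* K) (c : Cf) (u1 u2 u3 u4 h1 h2 g3 s3 s4 : K)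
    (z1 z2 z3 r : ℂ) : Prop where
  k : ∀ r : ℝ, P.Lim (κ r) r
  n1 : u1 ≠ 0
  n2 : u2 ≠ 0
  n3 : u3 ≠ 0
  n4 : u4 ≠ 0
  hr : r ≠ 0
  Lr : P.Lim (u1 / u2) r
  L32 : P.Lim (u3 / u2) 0
  L43 : P.Lim (u4 / u3) 0
  Lη : P.Lim (1 / u2) 0
  L4 : P.Lim u4 0
  Lh1 : P.Lim h1 z1
  Lh2 : P.Lim h2 z2
  Lg3 : P.Lim g3 z3
  Ls3 : P.Lim s3 0
  Ls4 : P.Lim s4 0
  D1 : (2 * κ c.b14 * u1 + κ c.c124 * u2) / u4 + (2 * κ c.b13 * u1 + κ c.c123 * u2) / u3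
    + κ c.c134 * (u3 / u4 + u4 / u3) = h1
  D2 : (2 * κ c.b24 * u2 + κ c.c124 * u1) / u4 + (2 * κ c.b23 * u2 + κ c.c123 * u1) / u3
    + κ c.c234 * (u3 / u4 + u4 / u3) = h2
  D3 : (κ c.b13 * u1 ^ 2 + κ c.c123 * (u1 * u2) + κ c.b23 * u2 ^ 2) / u3
    - 2 * κ c.b34 * (u3 ^ 2 / u4) - (κ c.c134 * u1 + κ c.c234 * u2) * (u3 / u4 - u4 / u3)
    = κ c.d3 + u3 * g3 + s3
  D4 : (κ c.b14 * u1 ^ 2 + κ c.c124 * (u1 * u2) + κ c.b24 * u2 ^ 2) / u4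
    + κ c.b34 * (u3 ^ 2 / u4) + (κ c.c134 * u1 + κ c.c234 * u2) * (u3 / u4 - u4 / u3)
    = κ c.d4 + s4

theorem f211_of (S : Sys4 P κ c u1 u2 u3 u4) {r : ℂ} (hr : r ≠ 0)
    (Lr : P.Lim (u1 / u2) r) (L32 : P.Lim (u3 / u2) 0) (L43 : P.Lim (u4 / u3) 0)
    (Lη : P.Lim (1 / u2) 0) (L4 : P.Lim u4 0) :
    ∃ (h1 h2 g3 s3 s4 : K) (z1 z2 z3 : ℂ), F211 P κ c u1 u2 u3 u4 h1 h2 g3 s3 s4 z1 z2 z3 r := by
  have hk := S.k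
  have n1 := S.h1
  have n2 := S.h2
  have n3 := S.h3
  have n4 := S.h4
  have Lr' := P.lim_swap Lr hr
  let h1 := κ c.a1 - 2 * κ c.b12 * (u1 / u2) + κ c.b21 * (u2 / u1) ^ 2
    + κ c.b31 * ((u3 / u2) * (u2 / u1)) ^ 2 + κ c.b41 * ((u4 / u3) * (u3 / u2) * (u2 / u1)) ^ 2
    - κ c.c123 * ((u3 / u2) - (u3 / u2) * (u2 / u1) ^ 2)
    - κ c.c124 * ((u4 / u3) * (u3 / u2) - (u4 / u3) * (u3 / u2) * (u2 / u1) ^ 2)
    + κ c.c134 * ((u4 / u3) * (u3 / u2) ^ 2 * (u2 / u1) ^ 2) - κ c.d1 * ((1 / u2) * (u2 / u1))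
  let h2 := κ c.a2 - 2 * κ c.b21 * (u2 / u1) + κ c.b12 * (u1 / u2) ^ 2
    + κ c.b32 * (u3 / u2) ^ 2 + κ c.b42 * ((u4 / u3) * (u3 / u2)) ^ 2
    - κ c.c123 * ((u3 / u2) * (u2 / u1) - (u3 / u2) * (u1 / u2))
    - κ c.c124 * ((u4 / u3) * (u3 / u2) * (u2 / u1) - (u4 / u3) * (u3 / u2) * (u1 / u2))
    + κ c.c234 * ((u4 / u3) * (u3 / u2) ^ 2) - κ c.d2 * (1 / u2)
  let g3 := -κ c.a3 + 2 * κ c.b31 * ((u3 / u2) * (u2 / u1)) + 2 * κ c.b32 * (u3 / u2)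
    + κ c.c123 * ((u1 / u2) + (u2 / u1)) + κ c.c134 * ((u4 / u3) * (u3 / u2) * (u2 / u1))
    + κ c.c234 * ((u4 / u3) * (u3 / u2))
  let s3 := -(κ c.b43 * ((u4 / u3) * u4))
  let s4 := -(κ c.a4 * u4) + 2 * κ c.b41 * ((u4 / u3) * (u3 / u2) * (u2 / u1) * u4)
    + 2 * κ c.b42 * ((u4 / u3) * (u3 / u2) * u4) + 2 * κ c.b43 * ((u4 / u3) * u4)
    + κ c.c124 * ((u1 / u2) * u4 + (u2 / u1) * u4) + κ c.c134 * ((u3 / u2) * (u2 / u1) * u4)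
    + κ c.c234 * ((u3 / u2) * u4)
  have B1 : P.B h1 := ⟨_, by
    apply_rules (maxDepth := 500) [P.add, P.mul, P.lim_sub, P.lim_neg, P.lim_pow, P.lim_ofNat]⟩
  have B2 : P.B h2 := ⟨_, by
    apply_rules (maxDepth := 500) [P.add, P.mul, P.lim_sub, P.lim_neg, P.lim_pow, P.lim_ofNat]⟩
  have B3 : P.B g3 := ⟨_, by
    apply_rules (maxDepth := 500) [P.add, P.mul, P.lim_sub, P.lim_neg, P.lim_pow, P.lim_ofNat]⟩
  obtain ⟨z1, Lh1⟩ := B1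
  obtain ⟨z2, Lh2⟩ := B2
  obtain ⟨z3, Lg3⟩ := B3
  refine ⟨h1, h2, g3, s3, s4, z1, z2, z3, hk, n1, n2, n3, n4, hr, Lr, L32, L43, Lη, L4, Lh1, Lh2,
    Lg3, ?_, ?_, ?_, ?_, ?_, ?_⟩
  · refine P.lim_val (by
      apply_rules (maxDepth := 500) [P.add, P.mul, P.lim_sub, P.lim_neg, P.lim_pow,
        P.lim_ofNat]) ?_
    simp
  · refine P.lim_val (by
      apply_rules (maxDepth := 500) [P.add, P.mul, P.lim_sub, P.lim_neg, P.lim_pow,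
        P.lim_ofNat]) ?_
    simp
  · linear_combination (norm := (simp only [h1]; field_simp; ring)) (-1 / u1) * S.e1
  · linear_combination (norm := (simp only [h2]; field_simp; ring)) (-1 / u2) * S.e2
  · linear_combination (norm := (simp only [g3, s3]; field_simp; ring)) S.e3
  · linear_combination (norm := (simp only [s4]; field_simp; ring)) S.e4

end Pool.Agent.H.MP_deabf1_gt.Four
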