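import Pool.Agent.H.MP_deabf1_gt.helper65.P211a

/-!
Two comparable large summands and two incomparable smaller ones: first case.
-/

namespace Pool.Agent.H.MP_deabf1_gt.Four

variable {K : Type*} [Field K] [Algebra ℝ K] {P : Pl K} {κ : ℝ →+* K} {c : Cf}
  {u1 u2 u3 u4 : K}

/-- If the square of an element is infinitesimal then so is the element. -/
theorem I_of_sq {a : K} (h : P.I (a ^ 2)) : P.I a := by
  by_contra h1
  rw [pow_two] at h
  exact h1 (h.of_mul h1)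

theorem p211_double (F : ∃ (h1 h2 g3 s3 s4 : K) (z1 z2 z3 r : ℂ),
    F211 P κ c u1 u2 u3 u4 h1 h2 g3 s3 s4 z1 z2 z3 r) (hc : c.Pos)
    (hn : c.b14 ≠ 0 ∨ c.c124 ≠ 0 ∨ c.b24 ≠ 0) :
    ∃ ρ : ℝ, ρ < 0 ∧ P.Lim (u1 / u2) ρ ∧ 0 < c.b14 ∧ c.c124 = -2 * c.b14 * ρ ∧
      c.b24 = c.b14 * ρ ^ 2 := by
  obtain ⟨h1, h2, g3, s3, s4, z1, z2, z3, r, F⟩ := F
  have hk := F.k
  have n1 := F.n1
  have n2 := F.n2
  have n3 := F.n3
  have n4 := F.n4
  have Lr := F.Lr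
  have L32 := F.L32
  have L43 := F.L43
  have Lη := F.Lη
  have L4 := F.L4
  have Lh1 := F.Lh1
  have Ls4 := F.Ls4
  have E1 : (κ c.b14 * (u1 / u2) ^ 2 + κ c.c124 * (u1 / u2) + κ c.b24) + κ c.b34 * (u3 / u2) ^ 2
      + (κ c.c134 * (u1 / u2) + κ c.c234) * ((u3 / u2) - (u3 / u2) * (u4 / u3) ^ 2)
      - (κ c.d4 + s4) * (u4 * (1 / u2) ^ 2) = 0 := by
    linear_combination (norm := (field_simp; ring)) (u4 / u2 ^ 2) * F.D4
  have e1 := P.eq0 E1 (by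
    apply_rules (maxDepth := 500) [P.add, P.mul, P.lim_sub, P.lim_neg, P.lim_pow, P.lim_ofNat])
  have E2 : (2 * κ c.b14 * (u1 / u2) + κ c.c124) + (2 * κ c.b13 * (u1 / u2) + κ c.c123) * (u4 / u3)
      + κ c.c134 * ((u3 / u2) + (u3 / u2) * (u4 / u3) ^ 2) - h1 * ((u3 / u2) * (u4 / u3)) = 0 := by
    linear_combination (norm := (field_simp; ring)) (u4 / u2) * F.D1
  have e2 := P.eq0 E2 (by
    apply_rules (maxDepth := 500) [P.add, P.mul, P.lim_sub, P.lim_neg, P.lim_pow, P.lim_ofNat])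
  simp only [ne_eq, OfNat.ofNat_ne_zero, not_false_eq_true, zero_pow, mul_zero, add_zero, sub_zero,
    sub_self] at e1 e2
  have hb : c.b14 ≠ 0 := by
    intro h
    rw [h] at e1 e2
    have h2 : c.c124 = 0 := by simpa using e2
    rw [h2] at e1
    have h3 : c.b24 = 0 := by simpa using e1
    rcases hn with h4 | h4 | h4
    · exact h4 h
    · exact h4 h2
    · exact h4 h3
  have hbp : 0 < c.b14 := lt_of_le_of_ne hc.b14 hb.symm
  have hr1 : r = ((-c.c124 / (2 * c.b14) : ℝ) : ℂ) := by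
    apply Pl.real_of_mul (mul_ne_zero two_ne_zero hb)
    push_cast
    exact e2
  obtain ⟨ρ, hρ⟩ : ∃ ρ : ℝ, ρ = -c.c124 / (2 * c.b14) := ⟨_, rfl⟩
  rw [← hρ] at hr1
  have h4 : c.c124 = -2 * c.b14 * ρ := by
    rw [hρ]
    field_simp
  have hρ0 : ρ ≠ 0 := by
    rintro rfl
    exact F.hr (by simpa using hr1)
  have hρn : ρ < 0 := by
    refine lt_of_le_of_ne ?_ hρ0
    rw [hρ]
    exact div_nonpos_of_nonpos_of_nonneg (neg_nonpos.2 hc.c124) (by positivity)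
  refine ⟨ρ, hρn, hr1 ▸ Lr, hbp, h4, ?_⟩
  rw [hr1, h4] at e1
  have h5 : ((c.b14 * ρ ^ 2 + -2 * c.b14 * ρ * ρ + c.b24 : ℝ) : ℂ) = 0 := by
    push_cast
    simpa using e1
  have h6 : c.b14 * ρ ^ 2 + -2 * c.b14 * ρ * ρ + c.b24 = 0 := by exact_mod_cast h5
  linarith

theorem p211_case1 (F : ∃ (h1 h2 g3 s3 s4 : K) (z1 z2 z3 r : ℂ),
    F211 P κ c u1 u2 u3 u4 h1 h2 g3 s3 s4 z1 z2 z3 r) (hc : c.Pos)
    (hD1 : c.b13 ≠ 0 → c.b14 ≠ 0 → c.c123 ≠ 0 → c.c124 = 0)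
    (hD2 : c.b23 ≠ 0 → c.b24 ≠ 0 → c.c123 ≠ 0 → c.c124 = 0)
    (hn : c.b14 ≠ 0 ∨ c.c124 ≠ 0 ∨ c.b24 ≠ 0) : False := by
  obtain ⟨ρ, hρ, Lρ, hb14, hc124, hb24⟩ := p211_double F hc hn
  obtain ⟨h1, h2, g3, s3, s4, z1, z2, z3, r, F⟩ := F
  have := charZero_of_real K
  have hk := F.k
  have n1 := F.n1
  have n2 := F.n2
  have n3 := F.n3
  have n4 := F.n4
  have L32 := F.L32
  have L43 := F.L43
  have Lη := F.Lη
  have L4 := F.L4
  have Lh1 := F.Lh1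
  have Lh2 := F.Lh2
  have Lg3 := F.Lg3
  have Ls3 := F.Ls3
  have Ls4 := F.Ls4
  have D1 := F.D1
  have D2 := F.D2
  have D3 := F.D3
  have D4 := F.D4
  have hc0 : c.c124 ≠ 0 := by
    rw [hc124]
    exact mul_ne_zero (mul_ne_zero (by norm_num) hb14.ne') hρ.ne
  have hb0 : c.b24 ≠ 0 := by
    rw [hb24]
    exact mul_ne_zero hb14.ne' (pow_ne_zero 2 hρ.ne)
  have kc124 : κ c.c124 = -2 * κ c.b14 * κ ρ := by
    rw [hc124, map_mul, map_mul, map_neg, map_ofNat]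
  have kb24 : κ c.b24 = κ c.b14 * κ ρ ^ 2 := by rw [hb24, map_mul, map_pow]
  have kb14 : κ c.b14 ≠ 0 := (map_ne_zero κ).2 hb14.ne'
  rw [kc124] at D1 D2 D4
  rw [kb24] at D2 D4
  -- the form n_3 vanishes
  have hν : c.b13 * ρ ^ 2 + c.c123 * ρ + c.b23 = 0 := by
    by_contra hν
    -- the kernel equation
    have E1 : κ (ρ * c.c134 + c.c234) * (u3 ^ 2 / (u2 * u4))
        = -(κ ρ * (2 * κ c.b13 * (u1 / u2) + κ c.c123) + (2 * κ c.b23 + κ c.c123 * (u1 / u2)))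
        - κ (ρ * c.c134 + c.c234) * ((u3 / u2) * (u4 / u3)) + (κ ρ * h1 + h2) * (u3 / u2) := by
      rw [map_add, map_mul]
      linear_combination (norm := (field_simp; ring)) (u3 / u2) * (κ ρ * D1 + D2)
    have L1 : P.Lim (κ (ρ * c.c134 + c.c234) * (u3 ^ 2 / (u2 * u4)))
        ((-2 * (c.b13 * ρ ^ 2 + c.c123 * ρ + c.b23) : ℝ) : ℂ) := by
      refine P.lim_val (P.lim_eq E1 (by
        apply_rules (maxDepth := 500) [P.add, P.mul, P.lim_sub, P.lim_neg, P.lim_pow,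
          P.lim_ofNat])) ?_
      push_cast
      ring
    have hΔ : ρ * c.c134 + c.c234 ≠ 0 := by
      intro h
      rw [h, map_zero, zero_mul] at L1
      have h3 := P.uniq L1 P.lim_zero
      have h4 : -2 * (c.b13 * ρ ^ 2 + c.c123 * ρ + c.b23) = 0 := by exact_mod_cast h3
      apply hν
      linarith
    have kΔ : κ (ρ * c.c134 + c.c234) ≠ 0 := (map_ne_zero κ).2 hΔ
    have L2 : P.Lim (u3 ^ 2 / (u2 * u4)) (((-2 * (c.b13 * ρ ^ 2 + c.c123 * ρ + c.b23) : ℝ) : ℂ)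
        / ((ρ * c.c134 + c.c234 : ℝ) : ℂ)) := by
      refine P.lim_eq ?_ (P.lim_div L1 (hk (ρ * c.c134 + c.c234)) (by exact_mod_cast hΔ))
      rw [mul_div_cancel_left₀ _ kΔ]
    have E2 : κ c.b13 * (u1 / u2) ^ 2 + κ c.c123 * (u1 / u2) + κ c.b23
        - 2 * κ c.b34 * ((u3 / u2) * (u3 ^ 2 / (u2 * u4)))
        - (κ c.c134 * (u1 / u2) + κ c.c234) * ((u3 ^ 2 / (u2 * u4)) - (u3 / u2) * (u4 / u3))
        - (κ c.d3 * (1 / u2) + g3 * (u3 / u2) + s3 * (1 / u2)) * (u3 / u2) = 0 := by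
      linear_combination (norm := (field_simp; ring)) (u3 / u2 ^ 2) * D3
    have e2 := P.eq0 E2 (by
      apply_rules (maxDepth := 500) [P.add, P.mul, P.lim_sub, P.lim_neg, P.lim_pow, P.lim_ofNat])
    have hΔc : ((ρ * c.c134 + c.c234 : ℝ) : ℂ) ≠ 0 := by exact_mod_cast hΔ
    have e3 : ((3 * (c.b13 * ρ ^ 2 + c.c123 * ρ + c.b23) : ℝ) : ℂ) = 0 := by
      have h3 : ((c.c134 : ℂ) * ρ + c.c234) = ((ρ * c.c134 + c.c234 : ℝ) : ℂ) := by
        push_cast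
        ring
      simp only [mul_zero, zero_mul, sub_zero, add_zero, h3] at e2
      rw [mul_div_cancel₀ _ hΔc] at e2
      push_cast at e2 ⊢
      linear_combination e2
    apply hν
    have e4 : 3 * (c.b13 * ρ ^ 2 + c.c123 * ρ + c.b23) = 0 := by exact_mod_cast e3
    linarith
  have hn3 : c.b13 = 0 ∧ c.b23 = 0 ∧ c.c123 = 0 := by
    have hρ2 : 0 < ρ ^ 2 := by nlinarith
    by_cases h123 : c.c123 = 0
    · rw [h123, zero_mul, add_zero] at hν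
      have h3 := mul_nonneg hc.b13 hρ2.le
      have h4 := hc.b23
      have h5 : c.b13 * ρ ^ 2 = 0 := by linarith
      refine ⟨?_, by linarith, h123⟩
      rcases mul_eq_zero.1 h5 with h6 | h6
      · exact h6
      · exact absurd h6 hρ2.ne'
    · exfalso
      have h3 : c.b13 = 0 := by
        by_contra h
        exact hc0 (hD1 h hb14.ne' h123)
      have h4 : c.b23 = 0 := by
        by_contra h
        exact hc0 (hD2 h hb0 h123)
      rw [h3, h4, zero_mul, zero_add, add_zero] at hν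
      rcases mul_eq_zero.1 hν with h5 | h5
      · exact h123 h5
      · exact hρ.ne h5
  obtain ⟨hb13, hb23, hc123⟩ := hn3
  rw [hb13, hc123, map_zero] at D1
  rw [hb23, hc123, map_zero] at D2
  rw [hb13, hb23, hc123, map_zero] at D3
  have hΔ : ρ * c.c134 + c.c234 = 0 := by
    have E1 : (κ ρ * κ c.c134 + κ c.c234) * (1 + (u4 / u3) ^ 2)
        - (κ ρ * h1 + h2) * (u4 / u3) = 0 := by
      linear_combination (norm := (field_simp; ring)) (u4 / u3) * (κ ρ * D1 + D2)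
    have L1 := P.lim_one
    have e1 := P.eq0 E1 (by
      apply_rules (maxDepth := 500) [P.add, P.mul, P.lim_sub, P.lim_neg, P.lim_pow, P.lim_ofNat])
    have e2 : ((ρ * c.c134 + c.c234 : ℝ) : ℂ) = 0 := by
      push_cast
      simpa using e1
    exact_mod_cast e2
  have kc234 : κ c.c234 = -κ ρ * κ c.c134 := by
    have h3 : c.c234 = -ρ * c.c134 := by linarith
    rw [h3, map_mul, map_neg]
  rw [kc234] at D3 D4
  -- the quantity Y
  obtain ⟨Y, hY⟩ : ∃ Y, Y = h1 - κ c.c134 * (u4 / u3) := ⟨_, rfl⟩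
  have LY : P.Lim Y z1 := by
    rw [hY]
    refine P.lim_val (P.lim_sub Lh1 (P.mul (hk _) L43)) ?_
    simp
  obtain ⟨ζ, hζ⟩ : ∃ ζ, ζ = (-κ c.c134 + Y * (u4 / u3)) / (2 * κ c.b14) := ⟨_, rfl⟩
  have Lζ : P.Lim ζ (-(c.c134 : ℂ) / (2 * c.b14)) := by
    rw [hζ]
    refine P.lim_val (P.lim_div (P.add (P.lim_neg (hk _)) (P.mul LY L43))
      (P.mul (P.lim_ofNat 2) (hk c.b14)) ?_) ?_
    · exact mul_ne_zero two_ne_zero (by exact_mod_cast hb14.ne')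
    · simp
  have hz : u1 - κ ρ * u2 = ζ * u3 := by
    rw [hζ, hY]
    field_simp
    field_simp at D1
    linear_combination D1
  have hz1 : u1 = κ ρ * u2 + ζ * u3 := by linear_combination hz
  have hζ2 : 2 * κ c.b14 * ζ = -κ c.c134 + Y * (u4 / u3) := by
    rw [hζ]
    field_simp
  -- the fourth equation
  have E4 : κ (c.b34 - c.c134 ^ 2 / (4 * c.b14)) * (u3 ^ 2 / u4)
      = κ c.d4 + s4 - Y ^ 2 * u4 / (4 * κ c.b14) + κ c.c134 * ζ * u4 := by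
    rw [map_sub, map_div₀, map_pow, map_mul, map_ofNat]
    rw [hz1] at D4
    have h3 : κ c.b14 * ζ ^ 2 * (u3 ^ 2 / u4) + κ c.c134 * ζ * (u3 ^ 2 / u4)
        = Y ^ 2 * u4 / (4 * κ c.b14) - κ c.c134 ^ 2 / (4 * κ c.b14) * (u3 ^ 2 / u4) := by
      have h4 : ζ = (-κ c.c134 + Y * (u4 / u3)) / (2 * κ c.b14) := hζ
      rw [h4]
      field_simp
      ring
    have h4 : κ c.b14 * ζ ^ 2 * (u3 ^ 2 / u4) + κ c.c134 * ζ * (u3 ^ 2 / u4)
        + κ c.b34 * (u3 ^ 2 / u4) - κ c.c134 * ζ * u4 = κ c.d4 + s4 := by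
      linear_combination (norm := (field_simp; ring)) D4
    linear_combination h4 - h3
  have hkb : (4 * (c.b14 : ℂ)) ≠ 0 := mul_ne_zero (by norm_num) (by exact_mod_cast hb14.ne')
  have L5 : P.Lim (κ (c.b34 - c.c134 ^ 2 / (4 * c.b14)) * (u3 ^ 2 / u4)) c.d4 := by
    refine P.lim_val (P.lim_eq E4 (P.add (P.lim_sub (P.add (hk _) Ls4)
      (P.lim_div (P.mul (P.lim_pow LY 2) L4) (P.mul (P.lim_ofNat 4) (hk _)) hkb))
      (P.mul (P.mul (hk _) Lζ) L4))) ?_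
    simp
  have hb' : c.b34 - c.c134 ^ 2 / (4 * c.b14) ≠ 0 := by
    intro h
    rw [h, map_zero, zero_mul] at L5
    have h3 := P.uniq L5 P.lim_zero
    exact hc.d4.ne' (by exact_mod_cast h3)
  obtain ⟨b', hb'e⟩ : ∃ b' : ℝ, b' = c.b34 - c.c134 ^ 2 / (4 * c.b14) := ⟨_, rfl⟩
  rw [← hb'e] at L5 hb'
  have kb' : κ b' ≠ 0 := (map_ne_zero κ).2 hb'
  have LW : P.Lim (u3 ^ 2 / u4) ((c.d4 : ℂ) / b') := by
    refine P.lim_eq ?_ (P.lim_div L5 (hk b') (by exact_mod_cast hb'))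
    rw [mul_div_cancel_left₀ _ kb']
  have L3 : P.Lim u3 0 := by
    apply I_of_sq
    have h3 := P.mul LW L4
    rw [mul_zero] at h3
    refine P.lim_eq ?_ h3
    field_simp
  rw [hz1] at D3
  have E3 : -2 * κ b' * (u3 ^ 2 / u4) - κ c.c134 / (2 * κ c.b14) * (Y * u3)
      + κ c.c134 * ζ * u4 - (κ c.d3 + u3 * g3 + s3) = 0 := by
    have h3 : κ b' = κ c.b34 - κ c.c134 ^ 2 / (4 * κ c.b14) := by
      rw [hb'e, map_sub, map_div₀, map_pow, map_mul, map_ofNat]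
    have h4 : κ c.c134 * ζ * (u3 ^ 2 / u4) = κ c.c134 / (2 * κ c.b14) * (Y * u3)
        - κ c.c134 ^ 2 / (2 * κ c.b14) * (u3 ^ 2 / u4) := by
      rw [hζ]
      field_simp
      ring
    have h5 : -2 * κ c.b34 * (u3 ^ 2 / u4) - κ c.c134 * ζ * (u3 ^ 2 / u4) + κ c.c134 * ζ * u4
        - (κ c.d3 + u3 * g3 + s3) = 0 := by
      linear_combination (norm := (field_simp; ring)) D3
    rw [h3]
    have h6 : κ c.c134 ^ 2 / (4 * κ c.b14) * 2 = κ c.c134 ^ 2 / (2 * κ c.b14) := by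
      field_simp
      ring
    linear_combination h5 + h4 - h6 * (u3 ^ 2 / u4)
  have hkb2 : (2 * (c.b14 : ℂ)) ≠ 0 := mul_ne_zero (by norm_num) (by exact_mod_cast hb14.ne')
  have e3 := P.eq0 E3 (P.lim_sub (P.add (P.lim_sub (P.mul (P.mul (P.lim_neg (P.lim_ofNat 2))
    (hk b')) LW) (P.mul (P.lim_div (hk _) (P.mul (P.lim_ofNat 2) (hk _)) hkb2) (P.mul LY L3)))
    (P.mul (P.mul (hk _) Lζ) L4)) (P.add (P.add (hk _) (P.mul L3 Lg3)) Ls3))
  have hbc : (b' : ℂ) ≠ 0 := by exact_mod_cast hb'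
  have e4 : ((-2 * c.d4 - c.d3 : ℝ) : ℂ) = 0 := by
    push_cast
    have h3 : -2 * (b' : ℂ) * ((c.d4 : ℂ) / b') = -2 * c.d4 := by field_simp
    rw [h3] at e3
    simpa using e3
  have e5 : -2 * c.d4 - c.d3 = 0 := by exact_mod_cast e4
  have := hc.d3
  have := hc.d4
  linarith

end Pool.Agent.H.MP_deabf1_gt.Four
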