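import Pool.Agent.H.MP_deabf1_gt.helper65.P211b

/-!
Two comparable large summands and two incomparable smaller ones: second case.
-/

namespace Pool.Agent.H.MP_deabf1_gt.Four

variable {K : Type*} [Field K] [Algebra ℝ K] {P : Pl K} {κ : ℝ →+* K} {c : Cf}
  {u1 u2 u3 u4 : K}

theorem p211_case2b (F : ∃ (h1 h2 g3 s3 s4 : K) (z1 z2 z3 r : ℂ),
    F211 P κ c u1 u2 u3 u4 h1 h2 g3 s3 s4 z1 z2 z3 r) (hc : c.Pos)
    (hb14 : c.b14 = 0) (hc124 : c.c124 = 0) (hb24 : c.b24 = 0) (hc134 : c.c134 = 0)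
    (hc234 : c.c234 = 0) : False := by
  obtain ⟨h1, h2, g3, s3, s4, z1, z2, z3, r, F⟩ := F
  have hk := F.k
  have n1 := F.n1
  have n2 := F.n2
  have n3 := F.n3
  have n4 := F.n4
  have L43 := F.L43
  have L4 := F.L4
  have Lg3 := F.Lg3
  have Ls3 := F.Ls3
  have Ls4 := F.Ls4
  have D1 := F.D1
  have D2 := F.D2
  have D3 := F.D3
  have D4 := F.D4
  rw [hb14, hc124, hc134, map_zero] at D1
  rw [hb24, hc124, hc234, map_zero] at D2
  rw [hc134, hc234, map_zero] at D3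
  rw [hb14, hc124, hb24, hc134, hc234, map_zero] at D4
  have L5 : P.Lim (κ c.b34 * (u3 ^ 2 / u4)) c.d4 := by
    refine P.lim_val (P.lim_eq ?_ (P.add (hk c.d4) Ls4)) (add_zero _)
    linear_combination D4
  have hb : c.b34 ≠ 0 := by
    intro h
    rw [h, map_zero, zero_mul] at L5
    exact hc.d4.ne' (by exact_mod_cast P.uniq L5 P.lim_zero)
  have kb : κ c.b34 ≠ 0 := (map_ne_zero κ).2 hb
  have LW : P.Lim (u3 ^ 2 / u4) ((c.d4 : ℂ) / c.b34) := by
    refine P.lim_eq ?_ (P.lim_div L5 (hk c.b34) (by exact_mod_cast hb))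
    rw [mul_div_cancel_left₀ _ kb]
  have L3 : P.Lim u3 0 := by
    apply I_of_sq
    have h3 := P.mul LW L4
    rw [mul_zero] at h3
    refine P.lim_eq ?_ h3
    field_simp
  obtain ⟨t, ⟨t0, Lt⟩, ht⟩ := quad2_small (P := P) hk (m1 := c.b13) (m2 := c.b23) (m12 := c.c123)
    (w := u3) (x1 := u1) (x2 := u2) (g1 := h1) (g2 := h2)
    (by
      have h : (2 * κ c.b13 * u1 + κ c.c123 * u2) / u3 = h1 := by linear_combination D1
      rw [div_eq_iff n3] at h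
      linear_combination h)
    (by
      have h : (2 * κ c.b23 * u2 + κ c.c123 * u1) / u3 = h2 := by linear_combination D2
      rw [div_eq_iff n3] at h
      linear_combination h) ⟨_, F.Lh1⟩ ⟨_, F.Lh2⟩
  have E3 : u3 * t - 2 * (κ c.b34 * (u3 ^ 2 / u4)) - (κ c.d3 + u3 * g3 + s3) = 0 := by
    have h3 : (κ c.b13 * u1 ^ 2 + κ c.c123 * (u1 * u2) + κ c.b23 * u2 ^ 2) / u3 = u3 * t := by
      rw [div_eq_iff n3]
      linear_combination ht
    rw [h3] at D3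
    linear_combination D3
  have e3 := P.eq0 E3 (P.lim_sub (P.lim_sub (P.mul L3 Lt) (P.mul (P.lim_ofNat 2) L5))
    (P.add (P.add (hk _) (P.mul L3 Lg3)) Ls3))
  have e4 : ((-2 * c.d4 - c.d3 : ℝ) : ℂ) = 0 := by
    push_cast
    simpa using e3
  have e5 : -2 * c.d4 - c.d3 = 0 := by exact_mod_cast e4
  have := hc.d3
  have := hc.d4
  linarith

theorem p211_case2a (F : ∃ (h1 h2 g3 s3 s4 : K) (z1 z2 z3 r : ℂ),
    F211 P κ c u1 u2 u3 u4 h1 h2 g3 s3 s4 z1 z2 z3 r) (hc : c.Pos)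
    (hb14 : c.b14 = 0) (hc124 : c.c124 = 0) (hb24 : c.b24 = 0)
    (hl : c.c134 ≠ 0 ∨ c.c234 ≠ 0) :
    ¬ P.I u3 ∧ ∃ θ : ℂ, θ ≠ 0 ∧ P.Lim (u3 ^ 2 / (u2 * u4)) θ := by
  obtain ⟨h1, h2, g3, s3, s4, z1, z2, z3, r, F⟩ := F
  have := charZero_of_real K
  have hk := F.k
  have n1 := F.n1
  have n2 := F.n2
  have n3 := F.n3
  have n4 := F.n4
  have Lr := F.Lr
  have L32 := F.L32
  have L43 := F.L43
  have Lη := F.Lη
  have L4 := F.L4
  have Lh1 := F.Lh1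
  have Lg3 := F.Lg3
  have Ls3 := F.Ls3
  have Ls4 := F.Ls4
  have D1 := F.D1
  have D3 := F.D3
  have D4 := F.D4
  rw [hb14, hc124, map_zero] at D1
  rw [hb14, hc124, hb24, map_zero] at D4
  -- the ratio is real
  have E1 : (κ c.c134 * (u1 / u2) + κ c.c234) * (1 - (u4 / u3) ^ 2) + κ c.b34 * (u3 / u2)
      - (κ c.d4 + s4) * ((u4 / u3) * (1 / u2)) = 0 := by
    linear_combination (norm := (field_simp; ring)) (u4 / (u2 * u3)) * D4
  have L1 := P.lim_one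
  have e1 := P.eq0 E1 (by
    apply_rules (maxDepth := 500) [P.add, P.mul, P.lim_sub, P.lim_neg, P.lim_pow, P.lim_ofNat])
  simp only [ne_eq, OfNat.ofNat_ne_zero, not_false_eq_true, zero_pow, mul_zero, add_zero, sub_zero,
    mul_one] at e1
  have h134 : c.c134 ≠ 0 := by
    intro h
    rw [h] at e1
    have h2 : c.c234 = 0 := by simpa using e1
    rcases hl with h3 | h3
    · exact h3 h
    · exact h3 h2
  obtain ⟨ρ, hρ⟩ : ∃ ρ : ℝ, ρ = -c.c234 / c.c134 := ⟨_, rfl⟩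
  have hr1 : r = (ρ : ℂ) := by
    rw [hρ]
    exact Pl.real_of_mul h134 e1
  have Lρ : P.Lim (u1 / u2) ρ := hr1 ▸ Lr
  clear Lr
  have hρ0 : ρ ≠ 0 := by
    rintro rfl
    exact F.hr (by simpa using hr1)
  have h234 : c.c234 = -ρ * c.c134 := by
    rw [hρ]
    field_simp
  have kc234 : κ c.c234 = -κ ρ * κ c.c134 := by rw [h234, map_mul, map_neg]
  have kc134 : κ c.c134 ≠ 0 := (map_ne_zero κ).2 h134
  have cc134 : (c.c134 : ℂ) ≠ 0 := by exact_mod_cast h134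
  rw [kc234] at D3 D4
  obtain ⟨z, hz⟩ : ∃ z, z = u1 - κ ρ * u2 := ⟨_, rfl⟩
  have hl' : κ c.c134 * u1 + -κ ρ * κ c.c134 * u2 = κ c.c134 * z := by
    rw [hz]
    ring
  rw [hl'] at D3 D4
  have Lz : P.Lim (z / u2) 0 := by
    refine P.lim_val (P.lim_eq (b := u1 / u2 - κ ρ) ?_ (P.lim_sub Lρ (hk ρ))) (sub_self _)
    rw [hz]
    field_simp
  -- the derivative of the form
  obtain ⟨φ, hφ⟩ : ∃ φ : ℝ, φ = 2 * c.b13 * ρ + c.c123 := ⟨_, rfl⟩
  have L2 : P.Lim (κ c.c134 * (u3 ^ 2 / (u2 * u4))) ((-φ : ℝ) : ℂ) := by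
    have E2 : κ c.c134 * (u3 ^ 2 / (u2 * u4)) = -(2 * κ c.b13 * (u1 / u2) + κ c.c123)
        - κ c.c134 * ((u4 / u3) * (u3 / u2)) + h1 * (u3 / u2) := by
      linear_combination (norm := (field_simp; ring)) (u3 / u2) * D1
    refine P.lim_val (P.lim_eq E2 (by
      apply_rules (maxDepth := 500) [P.add, P.mul, P.lim_sub, P.lim_neg, P.lim_pow,
        P.lim_ofNat])) ?_
    rw [hφ]
    push_cast
    ring
  obtain ⟨θ, hθ⟩ : ∃ θ : ℝ, θ = -φ / c.c134 := ⟨_, rfl⟩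
  have Lθ : P.Lim (u3 ^ 2 / (u2 * u4)) θ := by
    refine P.lim_val (P.lim_eq ?_ (P.lim_div L2 (hk c.c134) cc134)) ?_
    · rw [mul_div_cancel_left₀ _ kc134]
    · rw [hθ]
      push_cast
      rfl
  -- the form vanishes at the ratio
  have E3 : κ c.b13 * (u1 / u2) ^ 2 + κ c.c123 * (u1 / u2) + κ c.b23
      - 2 * κ c.b34 * ((u3 / u2) * (u3 ^ 2 / (u2 * u4)))
      - κ c.c134 * (z / u2) * ((u3 ^ 2 / (u2 * u4)) - (u3 / u2) * (u4 / u3))
      - (κ c.d3 * (1 / u2) + g3 * (u3 / u2) + s3 * (1 / u2)) * (u3 / u2) = 0 := by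
    linear_combination (norm := (field_simp; ring)) (u3 / u2 ^ 2) * D3
  have e3 := P.eq0 E3 (by
    apply_rules (maxDepth := 500) [P.add, P.mul, P.lim_sub, P.lim_neg, P.lim_pow, P.lim_ofNat])
  have hν : c.b13 * ρ ^ 2 + c.c123 * ρ + c.b23 = 0 := by
    have h3 : ((c.b13 * ρ ^ 2 + c.c123 * ρ + c.b23 : ℝ) : ℂ) = 0 := by
      push_cast
      simpa using e3
    exact_mod_cast h3
  -- the form in terms of `z`
  have hu1 : u1 = κ ρ * u2 + z := by rw [hz]; ring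
  have kφ : κ φ = 2 * κ c.b13 * κ ρ + κ c.c123 := by
    rw [hφ, map_add, map_mul, map_mul, map_ofNat]
  have kν : κ c.b13 * κ ρ ^ 2 + κ c.c123 * κ ρ + κ c.b23 = 0 := by
    rw [← map_pow, ← map_mul, ← map_mul, ← map_add, ← map_add, hν, map_zero]
  have hN3 : κ c.b13 * u1 ^ 2 + κ c.c123 * (u1 * u2) + κ c.b23 * u2 ^ 2
      = z * (κ φ * u2 + κ c.b13 * z) := by
    rw [hu1, kφ]
    linear_combination u2 ^ 2 * kν
  have hN1 : 2 * κ c.b13 * u1 + κ c.c123 * u2 = 2 * κ c.b13 * z + κ φ * u2 := by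
    rw [hu1, kφ]
    ring
  rw [hN3] at D3
  rw [hN1] at D1
  by_cases hφ0 : φ = 0
  · -- double root
    exfalso
    rw [hφ0, map_zero, zero_mul, zero_add] at D3
    rw [hφ0, map_zero, zero_mul, add_zero] at D1
    have D1' : 2 * κ c.b13 * z / u3 + κ c.c134 * (u3 / u4 + u4 / u3) = h1 := by
      linear_combination D1
    -- elimination of `z`
    have E4 : 2 * κ c.b13 * (κ c.d4 + s4) * (u4 ^ 2 / u3 ^ 3)
        = 2 * κ c.b13 * κ c.b34 * (u4 / u3)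
        + κ c.c134 * (1 - (u4 / u3) ^ 2) * ((u4 / u3) * h1 - κ c.c134 * (1 + (u4 / u3) ^ 2)) := by
      have h3 : 2 * κ c.b13 * z = u3 * h1 - κ c.c134 * (u3 ^ 2 / u4 + u4) := by
        linear_combination (norm := (field_simp; ring)) u3 * D1'
      have h4 : κ c.c134 * (2 * κ c.b13 * z) * (u3 / u4 - u4 / u3)
          = 2 * κ c.b13 * (κ c.d4 + s4 - κ c.b34 * (u3 ^ 2 / u4)) := by
        linear_combination (norm := (field_simp; ring)) 2 * κ c.b13 * D4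
      rw [h3] at h4
      linear_combination (norm := (field_simp; ring)) (-(u4 ^ 2 / u3 ^ 3)) * h4
    have L6 : P.Lim (2 * κ c.b13 * (κ c.d4 + s4) * (u4 ^ 2 / u3 ^ 3)) (-(c.c134 : ℂ) ^ 2) := by
      refine P.lim_val (P.lim_eq E4 (by
        apply_rules (maxDepth := 500) [P.add, P.mul, P.lim_sub, P.lim_neg, P.lim_pow,
          P.lim_ofNat])) ?_
      simp
      ring
    have hb13 : c.b13 ≠ 0 := by
      intro h
      rw [h, map_zero, mul_zero, zero_mul, zero_mul] at L6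
      have h3 := P.uniq L6 P.lim_zero
      exact pow_ne_zero 2 cc134 (neg_eq_zero.1 h3)
    have kb13 : κ c.b13 ≠ 0 := (map_ne_zero κ).2 hb13
    have cb13 : (c.b13 : ℂ) ≠ 0 := by exact_mod_cast hb13
    have cd4 : (c.d4 : ℂ) ≠ 0 := by exact_mod_cast hc.d4.ne'
    have Lm : P.Lim (2 * κ c.b13 * (κ c.d4 + s4)) (2 * c.b13 * c.d4) := by
      refine P.lim_val (P.mul (P.mul (P.lim_ofNat 2) (hk _)) (P.add (hk _) Ls4)) ?_
      rw [add_zero]
    have cm : (2 * (c.b13 : ℂ) * c.d4) ≠ 0 := mul_ne_zero (mul_ne_zero two_ne_zero cb13) cd4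
    have km : 2 * κ c.b13 * (κ c.d4 + s4) ≠ 0 := Pl.ne_of_not_I (Pl.lim_ne Lm cm)
    obtain ⟨ω, hω, Lω⟩ : ∃ ω : ℂ, ω ≠ 0 ∧ P.Lim (u4 ^ 2 / u3 ^ 3) ω := by
      refine ⟨-(c.c134 : ℂ) ^ 2 / (2 * c.b13 * c.d4), ?_, ?_⟩
      · exact div_ne_zero (neg_ne_zero.2 (pow_ne_zero 2 cc134)) cm
      · refine P.lim_eq ?_ (P.lim_div L6 Lm cm)
        rw [mul_div_cancel_left₀ _ km]
    have Lω' : P.Lim (u3 ^ 3 / u4 ^ 2) ω⁻¹ := P.lim_swap Lω hω
    have L3 : P.Lim u3 0 := by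
      refine P.lim_val (P.lim_eq ?_ (P.mul (P.lim_pow L43 2) Lω')) (by simp)
      field_simp
    have LW : P.Lim (u3 ^ 2 / u4) 0 := by
      refine P.lim_val (P.lim_eq ?_ (P.mul L43 Lω')) (by simp)
      field_simp
    have Lz0 : P.Lim z 0 := by
      have h3 : z = (u3 * h1 - κ c.c134 * (u3 ^ 2 / u4 + u4)) / (2 * κ c.b13) := by
        rw [eq_div_iff (mul_ne_zero two_ne_zero kb13)]
        linear_combination (norm := (field_simp; ring)) u3 * D1'
      refine P.lim_val (P.lim_eq h3 (P.lim_div (P.lim_sub (P.mul L3 Lh1)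
        (P.mul (hk _) (P.add LW L4))) (P.mul (P.lim_ofNat 2) (hk _))
        (mul_ne_zero two_ne_zero cb13))) ?_
      simp
    have LQ : P.Lim (κ c.c134 * z * (u3 / u4)) c.d4 := by
      have h3 : κ c.c134 * z * (u3 / u4) = κ c.d4 + s4 - κ c.b34 * (u3 ^ 2 / u4)
          + κ c.c134 * z * (u4 / u3) := by
        linear_combination D4
      refine P.lim_val (P.lim_eq h3 (P.add (P.lim_sub (P.add (hk _) Ls4) (P.mul (hk _) LW))
        (P.mul (P.mul (hk _) Lz0) L43))) ?_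
      simp
    have LN : P.Lim (z * (κ c.b13 * z) / u3) ((c.d3 : ℂ) + c.d4) := by
      have h3 : z * (κ c.b13 * z) / u3 = κ c.d3 + u3 * g3 + s3 + 2 * κ c.b34 * (u3 ^ 2 / u4)
          + κ c.c134 * z * (u3 / u4) - κ c.c134 * z * (u4 / u3) := by
        linear_combination D3
      refine P.lim_val (P.lim_eq h3 (P.lim_sub (P.add (P.add (P.add (P.add (hk _)
        (P.mul L3 Lg3)) Ls3) (P.mul (P.mul (P.lim_ofNat 2) (hk _)) LW)) LQ)
        (P.mul (P.mul (hk _) Lz0) L43))) ?_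
      simp
    have E5 : 2 * (z * (κ c.b13 * z) / u3) + κ c.c134 * z * (u3 / u4)
        + κ c.c134 * z * (u4 / u3) - z * h1 = 0 := by
      linear_combination (norm := (field_simp; ring)) z * D1'
    have e5 := P.eq0 E5 (P.lim_sub (P.add (P.add (P.mul (P.lim_ofNat 2) LN) LQ)
      (P.mul (P.mul (hk _) Lz0) L43)) (P.mul Lz0 Lh1))
    have e6 : ((2 * (c.d3 + c.d4) + c.d4 : ℝ) : ℂ) = 0 := by
      push_cast
      simpa using e5
    have e7 : 2 * (c.d3 + c.d4) + c.d4 = 0 := by exact_mod_cast e6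
    have := hc.d3
    have := hc.d4
    linarith
  · have hθ0 : θ ≠ 0 := by
      rw [hθ]
      exact div_ne_zero (neg_ne_zero.2 hφ0) h134
    refine ⟨?_, θ, by exact_mod_cast hθ0, Lθ⟩
    intro L3
    change P.Lim u3 0 at L3
    -- `z / u3` is bounded
    have E4 : z / u3 * (κ φ + κ c.b13 * (z / u2)) = κ c.b34 * (u3 ^ 2 / (u2 * u4))
        + (κ c.d3 + κ c.d4 + u3 * g3 + s3 + s4) * (1 / u2) := by
      linear_combination (norm := (field_simp; ring)) (1 / u2) * (D3 + D4)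
    have L4' : P.Lim (z / u3 * (κ φ + κ c.b13 * (z / u2))) ((c.b34 : ℂ) * θ) := by
      refine P.lim_val (P.lim_eq E4 (P.add (P.mul (hk _) Lθ) (P.mul (P.add (P.add (P.add
        (P.add (hk _) (hk _)) (P.mul L3 Lg3)) Ls3) Ls4) Lη))) ?_
      simp
    have Lm : P.Lim (κ φ + κ c.b13 * (z / u2)) φ := by
      refine P.lim_val (P.add (hk _) (P.mul (hk _) Lz)) ?_
      simp
    have cφ : (φ : ℂ) ≠ 0 := by exact_mod_cast hφ0
    have Lζ : P.Lim (z / u3) ((c.b34 : ℂ) * θ / φ) := by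
      refine P.lim_eq ?_ (P.lim_div L4' Lm cφ)
      rw [mul_div_cancel_right₀ _ (Pl.ne_of_not_I (Pl.lim_ne Lm cφ))]
    have Lz0 : P.Lim z 0 := by
      refine P.lim_val (P.lim_eq ?_ (P.mul Lζ L3)) (mul_zero _)
      field_simp
    have E5 : (κ c.d3 + 2 * κ c.d4 + u3 * g3 + s3 + 2 * s4) + κ c.b13 * (z / u3) * z
        + 2 * (κ c.c134 * z * (u4 / u3)) - h1 * z = 0 := by
      linear_combination (norm := (field_simp; ring)) z * D1 - D3 - 2 * D4
    have e5 := P.eq0 E5 (P.lim_sub (P.add (P.add (P.add (P.add (P.add (P.add (hk _)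
      (P.mul (P.lim_ofNat 2) (hk _))) (P.mul L3 Lg3)) Ls3) (P.mul (P.lim_ofNat 2) Ls4))
      (P.mul (P.mul (hk _) Lζ) Lz0)) (P.mul (P.lim_ofNat 2) (P.mul (P.mul (hk _) Lz0) L43)))
      (P.mul Lh1 Lz0))
    have e6 : ((c.d3 + 2 * c.d4 : ℝ) : ℂ) = 0 := by
      push_cast
      simpa using e5
    have e7 : c.d3 + 2 * c.d4 = 0 := by exact_mod_cast e6
    have := hc.d3
    have := hc.d4
    linarith

end Pool.Agent.H.MP_deabf1_gt.Four
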