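import Pool.Agent.H.MP_deabf1_gt.helper65.P211c

/-!
Two comparable large summands and two incomparable smaller ones: the first case in general.
-/

namespace Pool.Agent.H.MP_deabf1_gt.Four

variable {K : Type*} [Field K] [Algebra ℝ K] {P : Pl K} {κ : ℝ →+* K} {c : Cf}
  {u1 u2 u3 u4 : K}

/-- The second form vanishes at the ratio. -/
theorem p211_nu (F : ∃ (h1 h2 g3 s3 s4 : K) (z1 z2 z3 r : ℂ),
    F211 P κ c u1 u2 u3 u4 h1 h2 g3 s3 s4 z1 z2 z3 r) {ρ : ℝ} (Lρ : P.Lim (u1 / u2) ρ)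
    (hc124 : c.c124 = -2 * c.b14 * ρ) (hb24 : c.b24 = c.b14 * ρ ^ 2) :
    c.b13 * ρ ^ 2 + c.c123 * ρ + c.b23 = 0 := by
  obtain ⟨h1, h2, g3, s3, s4, z1, z2, z3, r, F⟩ := F
  have := charZero_of_real K
  have hk := F.k
  have n1 := F.n1
  have n2 := F.n2
  have n3 := F.n3
  have n4 := F.n4
  have L32 := F.L32
  have L43 := F.L43
  have Lη := F.Lη
  have L4 := F.L4
  have Lh1 := F.Lh1
  have Lh2 := F.Lh2
  have Lg3 := F.Lg3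
  have Ls3 := F.Ls3
  have Ls4 := F.Ls4
  have D1 := F.D1
  have D2 := F.D2
  have D3 := F.D3
  have kc124 : κ c.c124 = -2 * κ c.b14 * κ ρ := by
    rw [hc124, map_mul, map_mul, map_neg, map_ofNat]
  have kb24 : κ c.b24 = κ c.b14 * κ ρ ^ 2 := by rw [hb24, map_mul, map_pow]
  rw [kc124] at D1 D2
  rw [kb24] at D2
  by_contra hν
  -- the kernel equation
  have E1 : κ (ρ * c.c134 + c.c234) * (u3 ^ 2 / (u2 * u4))
      = -(κ ρ * (2 * κ c.b13 * (u1 / u2) + κ c.c123) + (2 * κ c.b23 + κ c.c123 * (u1 / u2)))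
      - κ (ρ * c.c134 + c.c234) * ((u3 / u2) * (u4 / u3)) + (κ ρ * h1 + h2) * (u3 / u2) := by
    rw [map_add, map_mul]
    linear_combination (norm := (field_simp; ring)) (u3 / u2) * (κ ρ * D1 + D2)
  have L1 : P.Lim (κ (ρ * c.c134 + c.c234) * (u3 ^ 2 / (u2 * u4)))
      ((-2 * (c.b13 * ρ ^ 2 + c.c123 * ρ + c.b23) : ℝ) : ℂ) := by
    refine P.lim_val (P.lim_eq E1 (by
      apply_rules (maxDepth := 500) [P.add, P.mul, P.lim_sub, P.lim_neg, P.lim_pow,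
        P.lim_ofNat])) ?_
    push_cast
    ring
  have hΔ : ρ * c.c134 + c.c234 ≠ 0 := by
    intro h
    rw [h, map_zero, zero_mul] at L1
    have h3 := P.uniq L1 P.lim_zero
    have h4 : -2 * (c.b13 * ρ ^ 2 + c.c123 * ρ + c.b23) = 0 := by exact_mod_cast h3
    apply hν
    linarith
  have kΔ : κ (ρ * c.c134 + c.c234) ≠ 0 := (map_ne_zero κ).2 hΔ
  have L2 : P.Lim (u3 ^ 2 / (u2 * u4)) (((-2 * (c.b13 * ρ ^ 2 + c.c123 * ρ + c.b23) : ℝ) : ℂ)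
      / ((ρ * c.c134 + c.c234 : ℝ) : ℂ)) := by
    refine P.lim_eq ?_ (P.lim_div L1 (hk (ρ * c.c134 + c.c234)) (by exact_mod_cast hΔ))
    rw [mul_div_cancel_left₀ _ kΔ]
  have E2 : κ c.b13 * (u1 / u2) ^ 2 + κ c.c123 * (u1 / u2) + κ c.b23
      - 2 * κ c.b34 * ((u3 / u2) * (u3 ^ 2 / (u2 * u4)))
      - (κ c.c134 * (u1 / u2) + κ c.c234) * ((u3 ^ 2 / (u2 * u4)) - (u3 / u2) * (u4 / u3))
      - (κ c.d3 * (1 / u2) + g3 * (u3 / u2) + s3 * (1 / u2)) * (u3 / u2) = 0 := by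
    linear_combination (norm := (field_simp; ring)) (u3 / u2 ^ 2) * D3
  have e2 := P.eq0 E2 (by
    apply_rules (maxDepth := 500) [P.add, P.mul, P.lim_sub, P.lim_neg, P.lim_pow, P.lim_ofNat])
  have hΔc : ((ρ * c.c134 + c.c234 : ℝ) : ℂ) ≠ 0 := by exact_mod_cast hΔ
  have e3 : ((3 * (c.b13 * ρ ^ 2 + c.c123 * ρ + c.b23) : ℝ) : ℂ) = 0 := by
    have h3 : ((c.c134 : ℂ) * ρ + c.c234) = ((ρ * c.c134 + c.c234 : ℝ) : ℂ) := by
      push_cast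
      ring
    simp only [mul_zero, zero_mul, sub_zero, add_zero, h3] at e2
    rw [mul_div_cancel₀ _ hΔc] at e2
    push_cast at e2 ⊢
    linear_combination e2
  apply hν
  have e4 : 3 * (c.b13 * ρ ^ 2 + c.c123 * ρ + c.b23) = 0 := by exact_mod_cast e3
  linarith

/-- The equations in terms of `z`. -/
structure G211 (P : Pl K) (κ : ℝ →+* K) (c : Cf) (u2 u3 u4 h1 h2 g3 s3 s4 z : K)
    (z1 z2 z3 : ℂ) (ρ φ : ℝ) : Prop where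
  k : ∀ r : ℝ, P.Lim (κ r) r
  n2 : u2 ≠ 0
  n3 : u3 ≠ 0
  n4 : u4 ≠ 0
  hρ : ρ < 0
  L32 : P.Lim (u3 / u2) 0
  L43 : P.Lim (u4 / u3) 0
  Lη : P.Lim (1 / u2) 0
  L4 : P.Lim u4 0
  Lz : P.Lim (z / u2) 0
  Lh1 : P.Lim h1 z1
  Lh2 : P.Lim h2 z2
  Lg3 : P.Lim g3 z3
  Ls3 : P.Lim s3 0
  Ls4 : P.Lim s4 0
  hb14 : 0 < c.b14
  D1 : 2 * κ c.b14 * z / u4 + (2 * κ c.b13 * z + κ φ * u2) / u3
    + κ c.c134 * (u3 / u4 + u4 / u3) = h1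
  K : κ φ * z / u3 + κ (ρ * c.c134 + c.c234) * (u3 / u4 + u4 / u3) = κ ρ * h1 + h2
  D3 : z * (κ φ * u2 + κ c.b13 * z) / u3 - 2 * κ c.b34 * (u3 ^ 2 / u4)
    - (κ (ρ * c.c134 + c.c234) * u2 + κ c.c134 * z) * (u3 / u4 - u4 / u3)
    = κ c.d3 + u3 * g3 + s3
  D4 : κ c.b14 * z ^ 2 / u4 + κ c.b34 * (u3 ^ 2 / u4)
    + (κ (ρ * c.c134 + c.c234) * u2 + κ c.c134 * z) * (u3 / u4 - u4 / u3) = κ c.d4 + s4

theorem g211_of (F : ∃ (h1 h2 g3 s3 s4 : K) (z1 z2 z3 r : ℂ),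
    F211 P κ c u1 u2 u3 u4 h1 h2 g3 s3 s4 z1 z2 z3 r) {ρ φ : ℝ} (hρ : ρ < 0)
    (Lρ : P.Lim (u1 / u2) ρ) (hb14 : 0 < c.b14) (hc124 : c.c124 = -2 * c.b14 * ρ)
    (hb24 : c.b24 = c.b14 * ρ ^ 2) (hν : c.b13 * ρ ^ 2 + c.c123 * ρ + c.b23 = 0)
    (hφ : φ = 2 * c.b13 * ρ + c.c123) :
    ∃ (h1 h2 g3 s3 s4 z : K) (z1 z2 z3 : ℂ),
      G211 P κ c u2 u3 u4 h1 h2 g3 s3 s4 z z1 z2 z3 ρ φ := by
  obtain ⟨h1, h2, g3, s3, s4, z1, z2, z3, r, F⟩ := F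
  have hk := F.k
  have n2 := F.n2
  have n3 := F.n3
  have n4 := F.n4
  have D1 := F.D1
  have D2 := F.D2
  have D3 := F.D3
  have D4 := F.D4
  have kc124 : κ c.c124 = -2 * κ c.b14 * κ ρ := by
    rw [hc124, map_mul, map_mul, map_neg, map_ofNat]
  have kb24 : κ c.b24 = κ c.b14 * κ ρ ^ 2 := by rw [hb24, map_mul, map_pow]
  have kφ : κ φ = 2 * κ c.b13 * κ ρ + κ c.c123 := by
    rw [hφ, map_add, map_mul, map_mul, map_ofNat]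
  have kν : κ c.b23 = -(κ c.b13 * κ ρ ^ 2) - κ c.c123 * κ ρ := by
    have h : c.b23 = -(c.b13 * ρ ^ 2) - c.c123 * ρ := by linarith
    rw [h, map_sub, map_neg, map_mul, map_mul, map_pow]
  have kΔ : κ (ρ * c.c134 + c.c234) = κ ρ * κ c.c134 + κ c.c234 := by rw [map_add, map_mul]
  obtain ⟨z, hz⟩ : ∃ z, z = u1 - κ ρ * u2 := ⟨_, rfl⟩
  have hu1 : u1 = κ ρ * u2 + z := by rw [hz]; ring
  have Lz : P.Lim (z / u2) 0 := by
    refine P.lim_val (P.lim_eq (b := u1 / u2 - κ ρ) ?_ (P.lim_sub Lρ (hk ρ))) (sub_self _)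
    rw [hz]
    field_simp
  rw [kc124, hu1] at D1 D2 D4
  rw [kb24] at D2 D4
  rw [kν] at D2 D3
  rw [hu1] at D3
  refine ⟨h1, h2, g3, s3, s4, z, z1, z2, z3, hk, n2, n3, n4, hρ, F.L32, F.L43, F.Lη, F.L4, Lz,
    F.Lh1, F.Lh2, F.Lg3, F.Ls3, F.Ls4, hb14, ?_, ?_, ?_, ?_⟩
  · rw [kφ]
    linear_combination (norm := (field_simp; ring)) D1
  · rw [kφ, kΔ]
    linear_combination (norm := (field_simp; ring)) κ ρ * D1 + D2
  · rw [kφ, kΔ]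
    linear_combination (norm := (field_simp; ring)) D3
  · rw [kΔ]
    linear_combination (norm := (field_simp; ring)) D4

end Pool.Agent.H.MP_deabf1_gt.Four
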