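import Pool.Agent.H.MP_deabf1_gt.helper65.P211d

/-!
Two comparable large summands and two incomparable smaller ones: the first case in general.
-/

namespace Pool.Agent.H.MP_deabf1_gt.Four

variable {K : Type*} [Field K] [Algebra ℝ K] {P : Pl K} {κ : ℝ →+* K} {c : Cf}
  {u1 u2 u3 u4 h1 h2 g3 s3 s4 z : K} {z1 z2 z3 : ℂ} {ρ φ : ℝ}

theorem g211_delta (G : G211 P κ c u2 u3 u4 h1 h2 g3 s3 s4 z z1 z2 z3 ρ φ) :
    ρ * c.c134 + c.c234 = 0 := by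
  have hk := G.k
  have n2 := G.n2
  have n3 := G.n3
  have n4 := G.n4
  have L32 := G.L32
  have L43 := G.L43
  have Lη := G.Lη
  have L4 := G.L4
  have Lz := G.Lz
  have Lh1 := G.Lh1
  have Lh2 := G.Lh2
  have Lg3 := G.Lg3
  have Ls3 := G.Ls3
  have L1 := P.lim_one
  obtain ⟨Δ, hΔ⟩ : ∃ Δ, Δ = ρ * c.c134 + c.c234 := ⟨_, rfl⟩
  have KK := G.K
  have D3 := G.D3
  rw [← hΔ] at KK D3 ⊢
  have L2 : P.Lim (κ φ * (z / u3 * (u4 / u3))) ((-Δ : ℝ) : ℂ) := by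
    have E : κ φ * (z / u3 * (u4 / u3)) = -(κ Δ * (1 + (u4 / u3) ^ 2))
        + (κ ρ * h1 + h2) * (u4 / u3) := by
      linear_combination (norm := (field_simp; ring)) (u4 / u3) * KK
    refine P.lim_val (P.lim_eq E (by
      apply_rules (maxDepth := 500) [P.add, P.mul, P.lim_sub, P.lim_neg, P.lim_pow,
        P.lim_ofNat])) ?_
    push_cast
    ring
  by_cases hφ : φ = 0
  · rw [hφ, map_zero, zero_mul] at L2
    have h := P.uniq L2 P.lim_zero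
    have h' : -Δ = 0 := by exact_mod_cast h
    linarith
  · have kφ : κ φ ≠ 0 := (map_ne_zero κ).2 hφ
    have cφ : (φ : ℂ) ≠ 0 := by exact_mod_cast hφ
    have L3 : P.Lim (z / u3 * (u4 / u3)) (((-Δ : ℝ) : ℂ) / φ) := by
      refine P.lim_eq ?_ (P.lim_div L2 (hk φ) cφ)
      rw [mul_div_cancel_left₀ _ kφ]
    have E : z / u3 * (u4 / u3) * (κ φ + κ c.b13 * (z / u2)) - 2 * κ c.b34 * (u3 / u2)
        - (κ Δ + κ c.c134 * (z / u2)) * (1 - (u4 / u3) ^ 2)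
        - (κ c.d3 * (1 / u2) + g3 * (u3 / u2) + s3 * (1 / u2)) * (u4 / u3) = 0 := by
      linear_combination (norm := (field_simp; ring)) (u4 / (u2 * u3)) * D3
    have e := P.eq0 E (by
      apply_rules (maxDepth := 500) [P.add, P.mul, P.lim_sub, P.lim_neg, P.lim_pow,
        P.lim_ofNat])
    have e2 : ((-2 * Δ : ℝ) : ℂ) = 0 := by
      simp only [mul_zero, add_zero, sub_zero, ne_eq, OfNat.ofNat_ne_zero, not_false_eq_true,
        zero_pow, mul_one] at e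
      rw [div_mul_cancel₀ _ cφ] at e
      push_cast at e ⊢
      linear_combination e
    have e3 : -2 * Δ = 0 := by exact_mod_cast e2
    linarith

theorem g211_double (G : G211 P κ c u2 u3 u4 h1 h2 g3 s3 s4 z z1 z2 z3 ρ φ) (hc : c.Pos)
    (hφ : φ = 0) : False := by
  have := charZero_of_real K
  have hΔ := g211_delta G
  have hk := G.k
  have n2 := G.n2
  have n3 := G.n3
  have n4 := G.n4
  have L43 := G.L43
  have L4 := G.L4
  have Lh1 := G.Lh1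
  have Lg3 := G.Lg3
  have Ls3 := G.Ls3
  have Ls4 := G.Ls4
  have hb14 := G.hb14
  have kb14 : κ c.b14 ≠ 0 := (map_ne_zero κ).2 hb14.ne'
  have cb14 : (c.b14 : ℂ) ≠ 0 := by exact_mod_cast hb14.ne'
  have D1 := G.D1
  have D3 := G.D3
  have D4 := G.D4
  rw [hφ, map_zero] at D1 D3
  rw [hΔ, map_zero] at D3 D4
  obtain ⟨B, hB⟩ : ∃ B, B = 2 * κ c.b14 + 2 * κ c.b13 * (u4 / u3) := ⟨_, rfl⟩
  have LB : P.Lim B (2 * c.b14) := by
    rw [hB]
    refine P.lim_val (P.add (P.mul (P.lim_ofNat 2) (hk _)) (P.mul (P.mul (P.lim_ofNat 2) (hk _))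
      L43)) ?_
    simp
  have cB : (2 * (c.b14 : ℂ)) ≠ 0 := mul_ne_zero two_ne_zero cb14
  have kB : B ≠ 0 := Pl.ne_of_not_I (Pl.lim_ne LB cB)
  obtain ⟨Y, hY⟩ : ∃ Y, Y = h1 - κ c.c134 * (u4 / u3) := ⟨_, rfl⟩
  have LY : P.Lim Y z1 := by
    rw [hY]
    refine P.lim_val (P.lim_sub Lh1 (P.mul (hk _) L43)) ?_
    simp
  obtain ⟨ζ, hζ⟩ : ∃ ζ, ζ = z / u3 := ⟨_, rfl⟩
  have hzζ : z = ζ * u3 := by rw [hζ]; field_simp
  have hζB : ζ * B = -κ c.c134 + Y * (u4 / u3) := by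
    rw [hζ, hB, hY]
    linear_combination (norm := (field_simp; ring)) (u4 / u3) * D1
  have Lζ : P.Lim ζ (-(c.c134 : ℂ) / (2 * c.b14)) := by
    have h : ζ = (-κ c.c134 + Y * (u4 / u3)) / B := by
      rw [eq_div_iff kB]
      exact hζB
    refine P.lim_val (P.lim_eq h (P.lim_div (P.add (P.lim_neg (hk _)) (P.mul LY L43)) LB cB)) ?_
    simp
  -- the corrected quantity
  obtain ⟨Y', hY'⟩ : ∃ Y', Y' = Y - 2 * κ c.b13 * ζ := ⟨_, rfl⟩
  have LY' : P.B Y' := by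
    rw [hY']
    exact ⟨_, P.lim_sub LY (P.mul (P.mul (P.lim_ofNat 2) (hk _)) Lζ)⟩
  obtain ⟨y', LY'⟩ := LY'
  have hζ2 : 2 * κ c.b14 * ζ = -κ c.c134 + Y' * (u4 / u3) := by
    rw [hY']
    rw [hB] at hζB
    linear_combination hζB
  have hζ3 : ζ = (-κ c.c134 + Y' * (u4 / u3)) / (2 * κ c.b14) := by
    rw [eq_div_iff (mul_ne_zero two_ne_zero kb14)]
    linear_combination hζ2
  rw [hzζ] at D3 D4
  have E4 : κ (c.b34 - c.c134 ^ 2 / (4 * c.b14)) * (u3 ^ 2 / u4)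
      = κ c.d4 + s4 - Y' ^ 2 * u4 / (4 * κ c.b14) + κ c.c134 * ζ * u4 := by
    rw [map_sub, map_div₀, map_pow, map_mul, map_ofNat]
    have h3 : κ c.b14 * ζ ^ 2 * (u3 ^ 2 / u4) + κ c.c134 * ζ * (u3 ^ 2 / u4)
        = Y' ^ 2 * u4 / (4 * κ c.b14) - κ c.c134 ^ 2 / (4 * κ c.b14) * (u3 ^ 2 / u4) := by
      rw [hζ3]
      field_simp
      ring
    have h4 : κ c.b14 * ζ ^ 2 * (u3 ^ 2 / u4) + κ c.c134 * ζ * (u3 ^ 2 / u4)
        + κ c.b34 * (u3 ^ 2 / u4) - κ c.c134 * ζ * u4 = κ c.d4 + s4 := by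
      linear_combination (norm := (field_simp; ring)) D4
    linear_combination h4 - h3
  have hkb : (4 * (c.b14 : ℂ)) ≠ 0 := mul_ne_zero (by norm_num) cb14
  have L5 : P.Lim (κ (c.b34 - c.c134 ^ 2 / (4 * c.b14)) * (u3 ^ 2 / u4)) c.d4 := by
    refine P.lim_val (P.lim_eq E4 (P.add (P.lim_sub (P.add (hk _) Ls4)
      (P.lim_div (P.mul (P.lim_pow LY' 2) L4) (P.mul (P.lim_ofNat 4) (hk _)) hkb))
      (P.mul (P.mul (hk _) Lζ) L4))) ?_
    simp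
  obtain ⟨b', hb'e⟩ : ∃ b' : ℝ, b' = c.b34 - c.c134 ^ 2 / (4 * c.b14) := ⟨_, rfl⟩
  rw [← hb'e] at L5
  have hb' : b' ≠ 0 := by
    intro h
    rw [h, map_zero, zero_mul] at L5
    have h3 := P.uniq L5 P.lim_zero
    exact hc.d4.ne' (by exact_mod_cast h3)
  have kb' : κ b' ≠ 0 := (map_ne_zero κ).2 hb'
  have LW : P.Lim (u3 ^ 2 / u4) ((c.d4 : ℂ) / b') := by
    refine P.lim_eq ?_ (P.lim_div L5 (hk b') (by exact_mod_cast hb'))
    rw [mul_div_cancel_left₀ _ kb']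
  have L3 : P.Lim u3 0 := by
    apply I_of_sq
    have h3 := P.mul LW L4
    rw [mul_zero] at h3
    refine P.lim_eq ?_ h3
    field_simp
  have E3 : κ c.b13 * ζ ^ 2 * u3 + -2 * κ b' * (u3 ^ 2 / u4)
      - κ c.c134 / (2 * κ c.b14) * (Y' * u3)
      + κ c.c134 * ζ * u4 - (κ c.d3 + u3 * g3 + s3) = 0 := by
    have h3 : κ b' = κ c.b34 - κ c.c134 ^ 2 / (4 * κ c.b14) := by
      rw [hb'e, map_sub, map_div₀, map_pow, map_mul, map_ofNat]
    have h4 : κ c.c134 * ζ * (u3 ^ 2 / u4) = κ c.c134 / (2 * κ c.b14) * (Y' * u3)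
        - κ c.c134 ^ 2 / (2 * κ c.b14) * (u3 ^ 2 / u4) := by
      rw [hζ3]
      field_simp
      ring
    have h5 : κ c.b13 * ζ ^ 2 * u3 + -2 * κ c.b34 * (u3 ^ 2 / u4) - κ c.c134 * ζ * (u3 ^ 2 / u4)
        + κ c.c134 * ζ * u4 - (κ c.d3 + u3 * g3 + s3) = 0 := by
      linear_combination (norm := (field_simp; ring)) D3
    rw [h3]
    have h6 : κ c.c134 ^ 2 / (4 * κ c.b14) * 2 = κ c.c134 ^ 2 / (2 * κ c.b14) := by
      field_simp
      ring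
    linear_combination h5 + h4 - h6 * (u3 ^ 2 / u4)
  have hkb2 : (2 * (c.b14 : ℂ)) ≠ 0 := cB
  have e3 := P.eq0 E3 (P.lim_sub (P.add (P.lim_sub (P.add (P.mul (P.mul (hk _) (P.lim_pow Lζ 2)) L3)
    (P.mul (P.mul (P.lim_neg (P.lim_ofNat 2))
    (hk b')) LW)) (P.mul (P.lim_div (hk _) (P.mul (P.lim_ofNat 2) (hk _)) hkb2) (P.mul LY' L3)))
    (P.mul (P.mul (hk _) Lζ) L4)) (P.add (P.add (hk _) (P.mul L3 Lg3)) Ls3))
  have hbc : (b' : ℂ) ≠ 0 := by exact_mod_cast hb'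
  have e4 : ((-2 * c.d4 - c.d3 : ℝ) : ℂ) = 0 := by
    push_cast
    have h3 : -2 * (b' : ℂ) * ((c.d4 : ℂ) / b') = -2 * c.d4 := by field_simp
    rw [h3] at e3
    simpa using e3
  have e5 : -2 * c.d4 - c.d3 = 0 := by exact_mod_cast e4
  have := hc.d3
  have := hc.d4
  linarith

end Pool.Agent.H.MP_deabf1_gt.Four
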