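import Pool.Agent.H.MP_deabf1_gt.helper65.P211e

/-!
Two comparable large summands and two incomparable smaller ones: the surviving solutions.
-/

namespace Pool.Agent.H.MP_deabf1_gt.Four

variable {K : Type*} [Field K] [Algebra ℝ K] {P : Pl K} {κ : ℝ →+* K} {c : Cf}
  {u1 u2 u3 u4 h1 h2 g3 s3 s4 z : K} {z1 z2 z3 : ℂ} {ρ φ : ℝ}

theorem g211_simple (G : G211 P κ c u2 u3 u4 h1 h2 g3 s3 s4 z z1 z2 z3 ρ φ) (hc : c.Pos)
    (hφ : φ ≠ 0) :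
    ¬ P.I u3 ∧ ((∃ θ : ℂ, θ ≠ 0 ∧ P.Lim (u3 ^ 2 / (u2 * u4)) θ) ∨
      ∃ τ : ℂ, τ ≠ 0 ∧ P.Lim (u2 ^ 2 * u4 / u3 ^ 2) τ) := by
  have := charZero_of_real K
  have hΔ := g211_delta G
  have hk := G.k
  have n2 := G.n2
  have n3 := G.n3
  have n4 := G.n4
  have L43 := G.L43
  have L4 := G.L4
  have Lh1 := G.Lh1
  have Lh2 := G.Lh2
  have Lg3 := G.Lg3
  have Ls3 := G.Ls3
  have Ls4 := G.Ls4
  have hb14 := G.hb14
  have kb14 : κ c.b14 ≠ 0 := (map_ne_zero κ).2 hb14.ne'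
  have cb14 : (c.b14 : ℂ) ≠ 0 := by exact_mod_cast hb14.ne'
  have kφ : κ φ ≠ 0 := (map_ne_zero κ).2 hφ
  have cφ : (φ : ℂ) ≠ 0 := by exact_mod_cast hφ
  have D1 := G.D1
  have KK := G.K
  have D3 := G.D3
  have D4 := G.D4
  rw [hΔ, map_zero] at KK D3 D4
  obtain ⟨ζ, hζ⟩ : ∃ ζ, ζ = z / u3 := ⟨_, rfl⟩
  have hzζ : z = ζ * u3 := by rw [hζ]; field_simp
  have Bζ : P.B ζ := by
    have h : ζ = (κ ρ * h1 + h2) / κ φ := by
      rw [eq_div_iff kφ, hζ]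
      linear_combination KK
    rw [h]
    exact ⟨_, P.lim_div (P.add (P.mul (hk _) Lh1) Lh2) (hk _) cφ⟩
  obtain ⟨ζ0, Lζ⟩ := Bζ
  rw [hzζ] at D1 D3 D4
  have hu3 : ¬ P.I u3 := by
    intro L3
    change P.Lim u3 0 at L3
    have E : κ c.b13 * ζ ^ 2 * u3 + 2 * (κ c.c134 * ζ * u4) - h1 * ζ * u3
        + (κ c.d3 + 2 * κ c.d4 + u3 * g3 + s3 + 2 * s4) = 0 := by
      linear_combination (norm := (field_simp; ring)) ζ * u3 * D1 - D3 - 2 * D4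
    have e := P.eq0 E (by
      apply_rules (maxDepth := 500) [P.add, P.mul, P.lim_sub, P.lim_neg, P.lim_pow,
        P.lim_ofNat])
    have e6 : ((c.d3 + 2 * c.d4 : ℝ) : ℂ) = 0 := by
      push_cast
      simpa using e
    have e7 : c.d3 + 2 * c.d4 = 0 := by exact_mod_cast e6
    have := hc.d3
    have := hc.d4
    linarith
  refine ⟨hu3, ?_⟩
  -- the inverse of `u3 ^ 2 / u4`
  have B3 : P.B (1 / u3) := by
    rw [one_div]
    exact Pl.inv_B hu3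
  obtain ⟨v3, Lv3⟩ := B3
  have LV : P.Lim (u4 / u3 ^ 2) 0 := by
    refine P.lim_val (P.lim_eq (b := u4 * (1 / u3) ^ 2) ?_ (P.mul L4 (P.lim_pow Lv3 2))) ?_
    · field_simp
    · simp
  -- the quadratic equation for `ζ`
  have E4 : κ c.b14 * ζ ^ 2 + κ c.c134 * ζ + κ c.b34
      = (κ c.d4 + s4) * (u4 / u3 ^ 2) + κ c.c134 * ζ * (u4 / u3) ^ 2 := by
    linear_combination (norm := (field_simp; ring)) (u4 / u3 ^ 2) * D4
  have e4 : (c.b14 : ℂ) * ζ0 ^ 2 + c.c134 * ζ0 + c.b34 = 0 := by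
    have h := P.eq0 (sub_eq_zero.2 E4) (by
      apply_rules (maxDepth := 500) [P.add, P.mul, P.lim_sub, P.lim_neg, P.lim_pow,
        P.lim_ofNat])
    simpa using h
  -- the ratio `σ`
  obtain ⟨σ, hσ⟩ : ∃ σ, σ = u2 * u4 / u3 ^ 2 := ⟨_, rfl⟩
  obtain ⟨h', hh'⟩ : ∃ h', h' = h1 - 2 * κ c.b13 * ζ - κ c.c134 * (u4 / u3) := ⟨_, rfl⟩
  have Bh' : P.B h' := by
    rw [hh']
    exact ⟨_, P.lim_sub (P.lim_sub Lh1 (P.mul (P.mul (P.lim_ofNat 2) (hk _)) Lζ))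
      (P.mul (hk _) L43)⟩
  obtain ⟨w', Lh'⟩ := Bh'
  have E1 : κ φ * σ = -(2 * κ c.b14 * ζ + κ c.c134) + (u4 / u3) * h' := by
    rw [hσ, hh']
    linear_combination (norm := (field_simp; ring)) (u4 / u3) * D1
  have Lσ : P.Lim σ (-(2 * c.b14 * ζ0 + c.c134) / φ) := by
    have h : σ = (-(2 * κ c.b14 * ζ + κ c.c134) + (u4 / u3) * h') / κ φ := by
      rw [eq_div_iff kφ]
      linear_combination E1
    refine P.lim_val (P.lim_eq h (P.lim_div (P.add (P.lim_neg (P.add (P.mul (P.mul (P.lim_ofNat 2)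
      (hk _)) Lζ) (hk _))) (P.mul L43 Lh')) (hk _) cφ)) ?_
    simp
  by_cases h0 : 2 * (c.b14 : ℂ) * ζ0 + c.c134 = 0
  · right
    -- the double root
    have e5 : ((c.c134 ^ 2 - 4 * c.b14 * c.b34 : ℝ) : ℂ) = 0 := by
      push_cast
      linear_combination (2 * (c.b14 : ℂ) * ζ0 + c.c134) * h0 - 4 * (c.b14 : ℂ) * e4
    have e6 : c.c134 ^ 2 - 4 * c.b14 * c.b34 = 0 := by exact_mod_cast e5
    have k6 : κ c.c134 ^ 2 = 4 * κ c.b14 * κ c.b34 := by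
      have h : c.c134 ^ 2 = 4 * c.b14 * c.b34 := by linarith
      rw [← map_pow, h, map_mul, map_mul, map_ofNat]
    obtain ⟨τ, hτ⟩ : ∃ τ, τ = u2 ^ 2 * u4 / u3 ^ 2 := ⟨_, rfl⟩
    obtain ⟨χ, hχ⟩ : ∃ χ, χ = u2 * u4 / u3 := ⟨_, rfl⟩
    have hχτ : χ ^ 2 = τ * u4 := by
      rw [hχ, hτ]
      field_simp
    have E5 : κ φ ^ 2 * τ - 2 * κ φ * χ * h' + u4 * h' ^ 2
        = 4 * κ c.b14 * (κ c.d4 + s4) + 4 * κ c.b14 * (κ c.c134 * ζ * u4) := by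
      have h3 : (κ φ * σ - (u4 / u3) * h') ^ 2 = 4 * κ c.b14 *
          (κ c.b14 * ζ ^ 2 + κ c.c134 * ζ + κ c.b34) := by
        have h4 : κ φ * σ - (u4 / u3) * h' = -(2 * κ c.b14 * ζ + κ c.c134) := by
          linear_combination E1
        rw [h4]
        linear_combination k6
      rw [E4] at h3
      have h5 : κ φ ^ 2 * τ - 2 * κ φ * χ * h' + u4 * h' ^ 2
          = (u3 ^ 2 / u4) * (κ φ * σ - (u4 / u3) * h') ^ 2 := by
        rw [hτ, hχ, hσ]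
        field_simp
        ring
      rw [h5, h3]
      field_simp
    have hd4 : (c.d4 : ℂ) ≠ 0 := by exact_mod_cast hc.d4.ne'
    have LR : P.Lim (4 * κ c.b14 * (κ c.d4 + s4) + 4 * κ c.b14 * (κ c.c134 * ζ * u4))
        (4 * c.b14 * c.d4) := by
      refine P.lim_val (P.add (P.mul (P.mul (P.lim_ofNat 4) (hk _)) (P.add (hk _) Ls4))
        (P.mul (P.mul (P.lim_ofNat 4) (hk _)) (P.mul (P.mul (hk _) Lζ) L4))) ?_
      simp
    have hR0 : (4 * (c.b14 : ℂ) * c.d4) ≠ 0 := mul_ne_zero (mul_ne_zero (by norm_num) cb14) hd4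
    have hτn : τ ≠ 0 := by
      rw [hτ]
      exact div_ne_zero (mul_ne_zero (pow_ne_zero 2 n2) n4) (pow_ne_zero 2 n3)
    have Bτ : P.B τ := by
      by_contra hτB
      have Lτ' : P.Lim τ⁻¹ 0 := Pl.inv_I hτB
      have Lχ : P.Lim (χ / τ) 0 := by
        apply I_of_sq
        refine P.lim_val (P.lim_eq (b := u4 * τ⁻¹) ?_ (P.mul L4 Lτ')) (mul_zero _)
        rw [div_pow, hχτ]
        field_simp
      have E6 : κ φ ^ 2 - 2 * κ φ * (χ / τ) * h' + u4 * h' ^ 2 * τ⁻¹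
          - (4 * κ c.b14 * (κ c.d4 + s4) + 4 * κ c.b14 * (κ c.c134 * ζ * u4)) * τ⁻¹ = 0 := by
        linear_combination (norm := (field_simp; ring)) τ⁻¹ * E5
      have e := P.eq0 E6 (P.lim_sub (P.add (P.lim_sub (P.lim_pow (hk _) 2) (P.mul (P.mul
        (P.mul (P.lim_ofNat 2) (hk _)) Lχ) Lh')) (P.mul (P.mul L4 (P.lim_pow Lh' 2)) Lτ'))
        (P.mul LR Lτ'))
      have e7 : (φ : ℂ) ^ 2 = 0 := by simpa using e
      exact cφ (pow_eq_zero_iff two_ne_zero |>.1 e7)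
    obtain ⟨τ0, Lτ⟩ := Bτ
    refine ⟨τ0, ?_, hτ ▸ Lτ⟩
    rintro rfl
    have Lχ : P.Lim χ 0 := by
      apply I_of_sq
      refine P.lim_val (P.lim_eq hχτ (P.mul Lτ L4)) (mul_zero _)
    have e := P.uniq (P.lim_eq E5.symm (P.add (P.lim_sub (P.mul (P.lim_pow (hk _) 2) Lτ)
      (P.mul (P.mul (P.mul (P.lim_ofNat 2) (hk _)) Lχ) Lh')) (P.mul L4 (P.lim_pow Lh' 2)))) LR
    apply hR0
    rw [← e]
    simp
  · left
    have hσ0 : -(2 * (c.b14 : ℂ) * ζ0 + c.c134) / φ ≠ 0 := div_ne_zero (neg_ne_zero.2 h0) cφ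
    rw [hσ] at Lσ
    exact ⟨_, inv_ne_zero hσ0, P.lim_swap Lσ hσ0⟩

end Pool.Agent.H.MP_deabf1_gt.Four
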