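import Pool.Agent.H.MP_deabf1_gt.WA

/-!
Leading coefficients at a discrete place.
-/

namespace Pool.Agent.H.MP_deabf1_gt.Tet

variable {K : Type*} [Field K] [Algebra ℝ K]

/-- The coefficient of `a` at `t ^ n` is `c`, and the earlier coefficients vanish. -/
def R (P : Pl K) (t : K) (a : K) (n : ℤ) (c : ℂ) : Prop := P.Lim (a / t ^ n) c

namespace R

variable {P : Pl K} {t a b : K} {n m : ℤ} {z w : ℂ}

theorem add (h : R P t a n z) (h' : R P t b n w) : R P t (a + b) n (z + w) := by
  unfold R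
  rw [add_div]
  exact P.add h h'

theorem sub (h : R P t a n z) (h' : R P t b n w) : R P t (a - b) n (z - w) := by
  unfold R
  rw [sub_div]
  exact P.lim_sub h h'

theorem mul (ht : t ≠ 0) (h : R P t a n z) (h' : R P t b m w) :
    R P t (a * b) (n + m) (z * w) := by
  unfold R
  rw [zpow_add₀ ht, mul_div_mul_comm]
  exact P.mul h h'

theorem cst (r : ℝ) : R P t (algebraMap ℝ K r) 0 r := by
  unfold R
  rw [zpow_zero, div_one]
  exact P.cst r

theorem smul (ht : t ≠ 0) (r : ℝ) (h : R P t a n z) :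
    R P t (algebraMap ℝ K r * a) n (r * z) := by
  have h1 := (cst (P := P) (t := t) r).mul ht h
  rwa [zero_add] at h1

theorem inv (h : R P t a n z) (hz : z ≠ 0) : R P t a⁻¹ (-n) z⁻¹ := by
  unfold R at h ⊢
  have h1 := P.lim_inv h hz
  have h2 : (a / t ^ n)⁻¹ = a⁻¹ / t ^ (-n) := by
    rw [zpow_neg, inv_div, div_inv_eq_mul, div_eq_mul_inv, mul_comm]
  rwa [h2] at h1

theorem div (ht : t ≠ 0) (h : R P t a n z) (h' : R P t b m w) (hw : w ≠ 0) :
    R P t (a / b) (n - m) (z / w) := by
  rw [div_eq_mul_inv, div_eq_mul_inv, sub_eq_add_neg]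
  exact h.mul ht (h'.inv hw)

theorem uniq (h : R P t a n z) (h' : R P t a n w) : z = w := P.uniq h h'

theorem zpow_I (hI : P.I t) {k : ℤ} (hk : 0 < k) : P.I (t ^ k) := by
  obtain ⟨j, rfl⟩ := Int.eq_ofNat_of_zero_le hk.le
  rw [zpow_natCast]
  exact hI.pow (by omega)

theorem lower (ht : t ≠ 0) (hI : P.I t) (h : R P t a n z) {ρ : ℤ} (hρ : ρ ≤ n) :
    R P t a ρ (if n = ρ then z else 0) := by
  split_ifs with h0
  · rw [← h0]
    exact h
  · unfold R at h ⊢
    have h1 : a / t ^ ρ = a / t ^ n * t ^ (n - ρ) := by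
      rw [zpow_sub₀ ht]
      field_simp
    rw [h1]
    have h2 := P.mul h (zpow_I hI (k := n - ρ) (by omega))
    rwa [mul_zero] at h2

theorem ord_eq (ht : t ≠ 0) (hI : P.I t) (h : R P t a n z) (hz : z ≠ 0) (h' : R P t a m w)
    (hw : w ≠ 0) : n = m := by
  rcases lt_trichotomy n m with h1 | h1 | h1
  · have h2 := (h'.lower ht hI h1.le).uniq h
    rw [if_neg h1.ne'] at h2
    exact absurd h2.symm hz
  · exact h1
  · have h2 := (h.lower ht hI h1.le).uniq h'
    rw [if_neg h1.ne'] at h2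
    exact absurd h2.symm hw

theorem pow (ht : t ≠ 0) (h : R P t a n z) (k : ℕ) : R P t (a ^ k) (k * n) (z ^ k) := by
  induction k with
  | zero =>
    simp only [pow_zero, Nat.cast_zero, zero_mul]
    have h1 := cst (P := P) (t := t) 1
    rwa [map_one, Complex.ofReal_one] at h1
  | succ k ih =>
    rw [pow_succ, pow_succ]
    have h1 := ih.mul ht h
    have h2 : (k : ℤ) * n + n = ((k + 1 : ℕ) : ℤ) * n := by
      push_cast
      ring
    rwa [h2] at h1

theorem prod (ht : t ≠ 0) {ι : Type*} (s : Finset ι) {f : ι → K} {o : ι → ℤ} {g : ι → ℂ}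
    (h : ∀ i ∈ s, R P t (f i) (o i) (g i)) :
    R P t (∏ i ∈ s, f i) (∑ i ∈ s, o i) (∏ i ∈ s, g i) := by
  classical
  induction s using Finset.induction_on with
  | empty =>
    simp only [Finset.prod_empty, Finset.sum_empty]
    have h1 := cst (P := P) (t := t) 1
    rwa [map_one, Complex.ofReal_one] at h1
  | insert i s hi ih =>
    rw [Finset.prod_insert hi, Finset.sum_insert hi, Finset.prod_insert hi]
    exact (h i (Finset.mem_insert_self i s)).mul ht
      (ih fun j hj => h j (Finset.mem_insert_of_mem hj))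

end R

end Pool.Agent.H.MP_deabf1_gt.Tet
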