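import Pool.Agent.H.MP_deabf1_gt.helper65.Tet9

/-!
Two clusters, and the proof that all orders vanish.
-/

namespace Pool.Agent.H.MP_deabf1_gt.Tet

variable {K : Type*} [Field K] [Algebra ℝ K] {P : Pl K} {t : K} {D : D6 K} {ε s : ℤ}

namespace D6.Ok

theorem caseA (h : D.Ok P t) (hε : 0 < ε) (r12 : D.r12 = -ε) (r13 : D.r13 = -ε)
    (r14 : D.r14 = -ε) (r23 : D.r23 = -ε) (r24 : D.r24 = -ε) (r34 : D.r34 = -ε) : False := by
  have hv := h.vol
  rw [r12, r13, r14, r23, r24, r34] at hv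
  push_cast at hv
  have e0 : (0 : ℝ) < ε := by exact_mod_cast hε
  have m : 0 < (D.d12 + D.d13 + D.d14 + D.d23 + D.d24 + D.d34) * ε :=
    mul_pos (by linarith [h.d12, h.d13, h.d14, h.d23, h.d24, h.d34]) e0
  linarith

theorem caseB (h : D.Ok P t) (hε : 0 < ε) (hs : 0 < s) (r12 : D.r12 = -ε) (r13 : D.r13 = -ε)
    (r23 : D.r23 = -ε) (r14 : D.r14 = s - ε) (r24 : D.r24 = s - ε) (r34 : D.r34 = s - ε) :
    False := by
  have e0 : (0 : ℝ) < ε := by exact_mod_cast hε
  have h1 : ε < s := by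
    by_contra hne
    have h2 : s ≤ ε := not_lt.1 hne
    have hv := h.vol
    rw [r12, r13, r14, r23, r24, r34] at hv
    push_cast at hv
    have h3 : (s : ℝ) - ε ≤ 0 := by
      have : (s : ℝ) ≤ ε := by exact_mod_cast h2
      linarith
    have m1 : 0 < (D.d12 + D.d13 + D.d23) * ε :=
      mul_pos (by linarith [h.d12, h.d13, h.d23]) e0
    have m2 : 0 ≤ (D.d14 + D.d24 + D.d34) * (-((s : ℝ) - ε)) :=
      mul_nonneg (by linarith [h.d14, h.d24, h.d34]) (by linarith)
    linarith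
  have e := cut3_init (ρ := 0) h.ht h.hI h.R14 h.R24 h.R34 h.R23 h.R13 h.R12 h.c23 h.c13
    h.c12 h.cut_4 (by omega) (by omega) (by omega) (by omega) (by omega) (by omega) (by omega)
  simp (disch := omega) only [J_pos, J_neg] at e
  refine ofReal_ne (x := D.d14 + D.d24 + D.d34) (by linarith [h.d14, h.d24, h.d34]) ?_
  linear_combination (-1 : ℂ) * e

theorem caseC (h : D.Ok P t) (hε : 0 < ε) (hs : 0 < s) (r12 : D.r12 = -ε) (r34 : D.r34 = -ε)
    (r13 : D.r13 = s - ε) (r14 : D.r14 = s - ε) (r23 : D.r23 = s - ε) (r24 : D.r24 = s - ε) :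
    False := by
  have e0 : (0 : ℝ) < ε := by exact_mod_cast hε
  have h1 : ε < s := by
    by_contra hne
    have h2 : s ≤ ε := not_lt.1 hne
    have hv := h.vol
    rw [r12, r13, r14, r23, r24, r34] at hv
    push_cast at hv
    have h3 : (s : ℝ) - ε ≤ 0 := by
      have : (s : ℝ) ≤ ε := by exact_mod_cast h2
      linarith
    have m1 : 0 < (D.d12 + D.d34) * ε := mul_pos (by linarith [h.d12, h.d34]) e0
    have m2 : 0 ≤ (D.d13 + D.d14 + D.d23 + D.d24) * (-((s : ℝ) - ε)) :=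
      mul_nonneg (by linarith [h.d13, h.d14, h.d23, h.d24]) (by linarith)
    linarith
  have e := cut4_init (ρ := 0) h.ht h.hI h.R12 h.R13 h.R14 h.R23 h.R24 h.R34 h.c12
    h.c34 h.cut_12 (by omega) (by omega) (by omega) (by omega) (by omega) (by omega) (by omega)
    (by omega) (by omega)
  simp (disch := omega) only [J_pos, J_neg] at e
  refine ofReal_ne (x := D.d13 + D.d14 + D.d23 + D.d24)
    (by linarith [h.d13, h.d14, h.d23, h.d24]) ?_
  linear_combination (-1 : ℂ) * e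

theorem all_zero (h : D.Ok P t) (r12 : 0 ≤ D.r12) (r13 : 0 ≤ D.r13) (r14 : 0 ≤ D.r14)
    (r23 : 0 ≤ D.r23) (r24 : 0 ≤ D.r24) (r34 : 0 ≤ D.r34) : D.r12 = 0 := by
  have hv := h.vol
  have k12 : (0 : ℝ) ≤ D.r12 := by exact_mod_cast r12
  have k13 : (0 : ℝ) ≤ D.r13 := by exact_mod_cast r13
  have k14 : (0 : ℝ) ≤ D.r14 := by exact_mod_cast r14
  have k23 : (0 : ℝ) ≤ D.r23 := by exact_mod_cast r23
  have k24 : (0 : ℝ) ≤ D.r24 := by exact_mod_cast r24
  have k34 : (0 : ℝ) ≤ D.r34 := by exact_mod_cast r34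
  have m12 := mul_nonneg h.d12.le k12
  have m13 := mul_nonneg h.d13.le k13
  have m14 := mul_nonneg h.d14.le k14
  have m23 := mul_nonneg h.d23.le k23
  have m24 := mul_nonneg h.d24.le k24
  have m34 := mul_nonneg h.d34.le k34
  have e1 : D.d12 * D.r12 = 0 := by linarith
  have e2 := (mul_eq_zero.1 e1).resolve_left h.d12.ne'
  exact_mod_cast e2

end D6.Ok

/-- The orders as functions of pairs of points, and the data for all numberings. -/
structure Fns (K : Type*) where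
  r : Fin 4 → Fin 4 → ℤ
  M : Fin 4 → Fin 4 → Fin 4 → Fin 4 → D6 K

/-- The data for one numbering of the points. -/
def Fns.mk6 (F : Fns K) (i j k l : Fin 4) : D6 K :=
  { F.M i j k l with
    r12 := F.r i j
    r13 := F.r i k
    r14 := F.r i l
    r23 := F.r j k
    r24 := F.r j l
    r34 := F.r k l }

/-- Four different points. -/
def Di (i j k l : Fin 4) : Prop := i ≠ j ∧ i ≠ k ∧ i ≠ l ∧ j ≠ k ∧ j ≠ l ∧ k ≠ l

instance (i j k l : Fin 4) : Decidable (Di i j k l) := by unfold Di; infer_instance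

/-- The hypotheses. -/
structure Fns.Ok (P : Pl K) (t : K) (F : Fns K) : Prop where
  sym : ∀ i j, F.r i j = F.r j i
  ok : ∀ i j k l, Di i j k l → (F.mk6 i j k l).Ok P t

/-- The smallest order is `-ε`, and `ε` is positive. -/
structure Fns.Low (F : Fns K) (ε : ℤ) : Prop where
  pos : 0 < ε
  low : ∀ i j, i ≠ j → -ε ≤ F.r i j
  tri : ∀ i j k, i ≠ j → i ≠ k → j ≠ k → F.r i j ≤ F.r i k + F.r k j + ε
  att : (∃ i j, i ≠ j ∧ F.r i j = -ε) ∨
    ∃ i j k, i ≠ j ∧ i ≠ k ∧ j ≠ k ∧ F.r i j = F.r i k + F.r k j + ε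

omit [Field K] [Algebra ℝ K] in
theorem Fns.exists_low (F : Fns K) (h : ∃ i j, i ≠ j ∧ F.r i j < 0) : ∃ ε, F.Low ε := by
  classical
  let f : Fin 4 × Fin 4 × Fin 4 → ℤ := fun x =>
    if x.1 = x.2.1 then F.r 0 1 else
      if x.2.2 = x.1 ∨ x.2.2 = x.2.1 then F.r x.1 x.2.1 else
        F.r x.1 x.2.2 + F.r x.2.2 x.2.1 - F.r x.1 x.2.1
  obtain ⟨x, -, hx⟩ := Finset.exists_min_image (Finset.univ : Finset (Fin 4 × Fin 4 × Fin 4)) f
    ⟨(0, 0, 0), Finset.mem_univ _⟩
  have low : ∀ i j, i ≠ j → f x ≤ F.r i j := by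
    intro i j hij
    have h1 := hx (i, j, i) (Finset.mem_univ _)
    have h2 : f (i, j, i) = F.r i j := by simp [f, hij]
    rwa [h2] at h1
  have tri : ∀ i j k, i ≠ j → i ≠ k → j ≠ k → f x ≤ F.r i k + F.r k j - F.r i j := by
    intro i j k hij hik hjk
    have h1 := hx (i, j, k) (Finset.mem_univ _)
    have h2 : f (i, j, k) = F.r i k + F.r k j - F.r i j := by
      simp [f, hij, hik.symm, hjk.symm]
    rwa [h2] at h1
  refine ⟨-f x, ?_, ?_, ?_, ?_⟩
  · obtain ⟨i, j, hij, h1⟩ := h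
    have h2 := low i j hij
    omega
  · intro i j hij
    have h2 := low i j hij
    omega
  · intro i j k hij hik hjk
    have h2 := tri i j k hij hik hjk
    omega
  · by_cases h1 : x.1 = x.2.1
    · left
      refine ⟨0, 1, by decide, ?_⟩
      have h2 : f x = F.r 0 1 := by
        simp only [f]
        rw [if_pos h1]
      omega
    · by_cases h2 : x.2.2 = x.1 ∨ x.2.2 = x.2.1
      · left
        refine ⟨x.1, x.2.1, h1, ?_⟩
        have h3 : f x = F.r x.1 x.2.1 := by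
          simp only [f]
          rw [if_neg h1, if_pos h2]
        omega
      · right
        have h3 : f x = F.r x.1 x.2.2 + F.r x.2.2 x.2.1 - F.r x.1 x.2.1 := by
          simp only [f]
          rw [if_neg h1, if_neg h2]
        push Not at h2
        refine ⟨x.1, x.2.1, x.2.2, h1, h2.1.symm, h2.2.symm, ?_⟩
        omega

end Pool.Agent.H.MP_deabf1_gt.Tet
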