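import Pool.Agent.H.MP_deabf1_gt.helper65.Tet10

/-!
The local theorem: all orders vanish.
-/

namespace Pool.Agent.H.MP_deabf1_gt.Tet

variable {K : Type*} [Field K] [Algebra ℝ K] {P : Pl K} {t : K} {F : Fns K} {ε : ℤ}

namespace Fns.Ok

/-- A cluster with exactly two points. -/
theorem useD (H : F.Ok P t) (hL : F.Low ε) {i j k l : Fin 4} (hd : Di i j k l)
    (z : F.r i j = -ε) (p1 : -ε < F.r i k) (p2 : -ε < F.r i l) (p3 : -ε < F.r k l) : False := by
  obtain ⟨dij, dik, dil, djk, djl, dkl⟩ := hd
  have sij := H.sym i j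
  have sik := H.sym i k
  have sil := H.sym i l
  have sjk := H.sym j k
  have sjl := H.sym j l
  have skl := H.sym k l
  have hp := hL.pos
  have t1 := hL.tri i k j dik dij djk.symm
  have t2 := hL.tri j k i djk dij.symm dik.symm
  have t3 := hL.tri i l j dil dij djl.symm
  have t4 := hL.tri j l i djl dij.symm dil.symm
  have t5 := hL.tri i k l dik dil dkl
  have t6 := hL.tri i l k dil dik dkl.symm
  have t7 := hL.tri k l i dkl dik.symm dil.symm
  rcases le_total (F.r i k) (F.r i l) with h1 | h1
  · have hok := H.ok i j k l ⟨dij, dik, dil, djk, djl, dkl⟩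
    have hc : CaseD (F.mk6 i j k l) ε (F.r i k + ε) (F.r i l + ε) (F.r k l + ε) := by
      constructor
      all_goals (try change F.r _ _ = _)
      all_goals omega
    exact hc.main hok (by omega)
  · have hok := H.ok i j l k ⟨dij, dil, dik, djl, djk, dkl.symm⟩
    have hc : CaseD (F.mk6 i j l k) ε (F.r i l + ε) (F.r i k + ε) (F.r k l + ε) := by
      constructor
      all_goals (try change F.r _ _ = _)
      all_goals omega
    exact hc.main hok (by omega)

/-- All distances positive, `il` is a longest edge. -/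
theorem useE (H : F.Ok P t) (hL : F.Low ε) {i j k l : Fin 4} (hd : Di i j k l)
    (p : ∀ i j, i ≠ j → -ε < F.r i j) (m : ∀ a b, a ≠ b → F.r a b ≤ F.r i l)
    (hdeg : F.r i j = F.r i k + F.r j k + ε ∨ F.r i k = F.r i j + F.r j k + ε ∨
      F.r j k = F.r i j + F.r i k + ε ∨ F.r i l = F.r i j + F.r j l + ε ∨
      F.r i l = F.r i k + F.r k l + ε ∨ F.r j k = F.r j l + F.r k l + ε ∨
      F.r j l = F.r j k + F.r k l + ε ∨ F.r k l = F.r j k + F.r j l + ε) : False := by
  obtain ⟨dij, dik, dil, djk, djl, dkl⟩ := hd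
  have sij := H.sym i j
  have sik := H.sym i k
  have sil := H.sym i l
  have sjk := H.sym j k
  have sjl := H.sym j l
  have skl := H.sym k l
  have hp := hL.pos
  have a1 := hL.tri i j k dij dik djk
  have a2 := hL.tri i k j dik dij djk.symm
  have a3 := hL.tri j k i djk dij.symm dik.symm
  have b1 := hL.tri i j l dij dil djl
  have b2 := hL.tri i l j dil dij djl.symm
  have b3 := hL.tri j l i djl dij.symm dil.symm
  have c1 := hL.tri i k l dik dil dkl
  have c2 := hL.tri i l k dil dik dkl.symm
  have c3 := hL.tri k l i dkl dik.symm dil.symm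
  have d1 := hL.tri j k l djk djl dkl
  have d2 := hL.tri j l k djl djk dkl.symm
  have d3 := hL.tri k l j dkl djk.symm djl.symm
  have p1 := p i j dij
  have p2 := p i k dik
  have p3 := p i l dil
  have p4 := p j k djk
  have p5 := p j l djl
  have p6 := p k l dkl
  have m1 := m i j dij
  have m2 := m i k dik
  have m4 := m j k djk
  have m5 := m j l djl
  have m6 := m k l dkl
  have hok := H.ok i j k l ⟨dij, dik, dil, djk, djl, dkl⟩
  have hc : CaseE (F.mk6 i j k l) ε (F.r i j + ε) (F.r i k + ε) (F.r i l + ε) (F.r j k + ε)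
      (F.r j l + ε) (F.r k l + ε) := by
    constructor
    all_goals (try change F.r _ _ = _)
    all_goals omega
  rcases hc.line hok (by omega) with ⟨h1, h2, h3⟩ | ⟨h1, h2, h3⟩
  · exact hc.collinear hok h1 h2 h3
  · have hok' := H.ok i k j l ⟨dik, dij, dil, djk.symm, dkl, djl⟩
    have hc' : CaseE (F.mk6 i k j l) ε (F.r i k + ε) (F.r i j + ε) (F.r i l + ε) (F.r j k + ε)
        (F.r k l + ε) (F.r j l + ε) := by
      constructor
      all_goals (try change F.r _ _ = _)
      all_goals omega
    exact hc'.collinear hok' (by omega) (by omega) (by omega)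

end Fns.Ok

end Pool.Agent.H.MP_deabf1_gt.Tet
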