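import Pool.Agent.H.MP_deabf1_gt.helper65.Tet11

/-!
The local theorem: assembly.
-/

namespace Pool.Agent.H.MP_deabf1_gt.Tet

variable {K : Type*} [Field K] [Algebra ℝ K] {P : Pl K} {t : K} {F : Fns K} {ε : ℤ}

theorem ex_jk : ∀ i l : Fin 4, i ≠ l → ∃ j k, Di i j k l := by decide

theorem ex_kl : ∀ i j : Fin 4, i ≠ j → ∃ k l, Di i j k l := by decide

theorem cover4 : ∀ i j k l : Fin 4, Di i j k l → ∀ x : Fin 4, x = i ∨ x = j ∨ x = k ∨ x = l := by
  decide

theorem pair4 : ∀ a b : Fin 4, a ≠ b → (a = 0 ∧ b = 1) ∨ (a = 0 ∧ b = 2) ∨ (a = 0 ∧ b = 3) ∨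
    (a = 1 ∧ b = 2) ∨ (a = 1 ∧ b = 3) ∨ (a = 2 ∧ b = 3) ∨ (a = 1 ∧ b = 0) ∨ (a = 2 ∧ b = 0) ∨
    (a = 3 ∧ b = 0) ∨ (a = 2 ∧ b = 1) ∨ (a = 3 ∧ b = 1) ∨ (a = 3 ∧ b = 2) := by
  decide

namespace Fns.Ok

theorem all_pos (H : F.Ok P t) (hL : F.Low ε) (p : ∀ i j, i ≠ j → -ε < F.r i j) : False := by
  classical
  obtain ⟨i, l, hil, hmax⟩ : ∃ i l, i ≠ l ∧ ∀ a b, a ≠ b → F.r a b ≤ F.r i l := by
    obtain ⟨x, hx1, hx2⟩ := Finset.exists_max_image
      (Finset.univ.filter fun x : Fin 4 × Fin 4 => x.1 ≠ x.2) (fun x => F.r x.1 x.2)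
      ⟨(0, 1), by decide⟩
    refine ⟨x.1, x.2, (Finset.mem_filter.1 hx1).2, fun a b hab => ?_⟩
    exact hx2 (a, b) (Finset.mem_filter.2 ⟨Finset.mem_univ _, hab⟩)
  obtain ⟨j, k, hd⟩ := ex_jk i l hil
  have cover := cover4 i j k l hd
  have hp := hL.pos
  refine H.useE hL hd p hmax ?_
  obtain ⟨dij, dik, dil, djk, djl, dkl⟩ := hd
  have sij := H.sym i j
  have sik := H.sym i k
  have sil := H.sym i l
  have sjk := H.sym j k
  have sjl := H.sym j l
  have skl := H.sym k l
  have p1 := p i j dij
  have p2 := p i k dik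
  have p3 := p i l dil
  have p4 := p j k djk
  have p5 := p j l djl
  have p6 := p k l dkl
  have m1 := hmax i j dij
  have m2 := hmax i k dik
  have m4 := hmax j k djk
  have m5 := hmax j l djl
  have m6 := hmax k l dkl
  rcases hL.att with ⟨a, b, hab, h1⟩ | ⟨a, b, c, hab, hac, hbc, h1⟩
  · have h2 := p a b hab
    omega
  · rcases cover a with rfl | rfl | rfl | rfl <;> rcases cover b with rfl | rfl | rfl | rfl <;>
      first
        | exact absurd rfl hab
        | (rcases cover c with rfl | rfl | rfl | rfl <;>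
            first
              | exact absurd rfl hac
              | exact absurd rfl hbc
              | omega)

/-- All orders vanish. -/
theorem main (H : F.Ok P t) (i j : Fin 4) (hij : i ≠ j) : F.r i j = 0 := by
  by_cases hneg : ∃ i j, i ≠ j ∧ F.r i j < 0
  · exfalso
    obtain ⟨ε, hL⟩ := F.exists_low hneg
    have hp := hL.pos
    have s01 := H.sym 0 1
    have s02 := H.sym 0 2
    have s03 := H.sym 0 3
    have s12 := H.sym 1 2
    have s13 := H.sym 1 3
    have s23 := H.sym 2 3
    have l01 := hL.low 0 1 (by decide)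
    have l02 := hL.low 0 2 (by decide)
    have l03 := hL.low 0 3 (by decide)
    have l12 := hL.low 1 2 (by decide)
    have l13 := hL.low 1 3 (by decide)
    have l23 := hL.low 2 3 (by decide)
    have a1 := hL.tri 0 1 2 (by decide) (by decide) (by decide)
    have a2 := hL.tri 0 2 1 (by decide) (by decide) (by decide)
    have a3 := hL.tri 1 2 0 (by decide) (by decide) (by decide)
    have b1 := hL.tri 0 1 3 (by decide) (by decide) (by decide)
    have b2 := hL.tri 0 3 1 (by decide) (by decide) (by decide)
    have b3 := hL.tri 1 3 0 (by decide) (by decide) (by decide)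
    have c1 := hL.tri 0 2 3 (by decide) (by decide) (by decide)
    have c2 := hL.tri 0 3 2 (by decide) (by decide) (by decide)
    have c3 := hL.tri 2 3 0 (by decide) (by decide) (by decide)
    have d1 := hL.tri 1 2 3 (by decide) (by decide) (by decide)
    have d2 := hL.tri 1 3 2 (by decide) (by decide) (by decide)
    have d3 := hL.tri 2 3 1 (by decide) (by decide) (by decide)
    by_cases z01 : F.r 0 1 = -ε
    · by_cases z02 : F.r 0 2 = -ε
      · by_cases z03 : F.r 0 3 = -ε
        · exact (H.ok 0 1 2 3 (by decide)).caseA hp z01 z02 z03 (by change F.r 1 2 = _; omega)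
            (by change F.r 1 3 = _; omega) (by change F.r 2 3 = _; omega)
        · exact (H.ok 0 1 2 3 (by decide)).caseB (s := F.r 0 3 + ε) hp (by omega) z01 z02
            (by change F.r 1 2 = _; omega) (by change F.r 0 3 = _; omega)
            (by change F.r 1 3 = _; omega) (by change F.r 2 3 = _; omega)
      · by_cases z03 : F.r 0 3 = -ε
        · exact (H.ok 0 1 3 2 (by decide)).caseB (s := F.r 0 2 + ε) hp (by omega) z01 z03
            (by change F.r 1 3 = _; omega) (by change F.r 0 2 = _; omega)
            (by change F.r 1 2 = _; omega) (by change F.r 3 2 = _; omega)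
        · by_cases z23 : F.r 2 3 = -ε
          · exact (H.ok 0 1 2 3 (by decide)).caseC (s := F.r 0 2 + ε) hp (by omega) z01 z23
              (by change F.r 0 2 = _; omega) (by change F.r 0 3 = _; omega)
              (by change F.r 1 2 = _; omega) (by change F.r 1 3 = _; omega)
          · exact H.useD hL (i := 0) (j := 1) (k := 2) (l := 3) (by decide) z01 (by omega)
              (by omega) (by omega)
    · by_cases z02 : F.r 0 2 = -ε
      · by_cases z03 : F.r 0 3 = -ε
        · exact (H.ok 0 2 3 1 (by decide)).caseB (s := F.r 0 1 + ε) hp (by omega) z02 z03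
            (by change F.r 2 3 = _; omega) (by change F.r 0 1 = _; omega)
            (by change F.r 2 1 = _; omega) (by change F.r 3 1 = _; omega)
        · by_cases z13 : F.r 1 3 = -ε
          · exact (H.ok 0 2 1 3 (by decide)).caseC (s := F.r 0 1 + ε) hp (by omega) z02 z13
              (by change F.r 0 1 = _; omega) (by change F.r 0 3 = _; omega)
              (by change F.r 2 1 = _; omega) (by change F.r 2 3 = _; omega)
          · exact H.useD hL (i := 0) (j := 2) (k := 1) (l := 3) (by decide) z02 (by omega)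
              (by omega) (by omega)
      · by_cases z03 : F.r 0 3 = -ε
        · by_cases z12 : F.r 1 2 = -ε
          · exact (H.ok 0 3 1 2 (by decide)).caseC (s := F.r 0 1 + ε) hp (by omega) z03 z12
              (by change F.r 0 1 = _; omega) (by change F.r 0 2 = _; omega)
              (by change F.r 3 1 = _; omega) (by change F.r 3 2 = _; omega)
          · exact H.useD hL (i := 0) (j := 3) (k := 1) (l := 2) (by decide) z03 (by omega)
              (by omega) (by omega)
        · by_cases z12 : F.r 1 2 = -ε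
          · by_cases z13 : F.r 1 3 = -ε
            · exact (H.ok 1 2 3 0 (by decide)).caseB (s := F.r 0 1 + ε) hp (by omega) z12 z13
                (by change F.r 2 3 = _; omega) (by change F.r 1 0 = _; omega)
                (by change F.r 2 0 = _; omega) (by change F.r 3 0 = _; omega)
            · exact H.useD hL (i := 1) (j := 2) (k := 0) (l := 3) (by decide) z12 (by omega)
                (by omega) (by omega)
          · by_cases z13 : F.r 1 3 = -ε
            · exact H.useD hL (i := 1) (j := 3) (k := 0) (l := 2) (by decide) z13 (by omega)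
                (by omega) (by omega)
            · by_cases z23 : F.r 2 3 = -ε
              · exact H.useD hL (i := 2) (j := 3) (k := 0) (l := 1) (by decide) z23 (by omega)
                  (by omega) (by omega)
              · refine H.all_pos hL fun a b hab => ?_
                have h1 := hL.low a b hab
                refine lt_of_le_of_ne h1 fun h2 => ?_
                clear hneg
                rcases pair4 a b hab with ⟨rfl, rfl⟩ | ⟨rfl, rfl⟩ | ⟨rfl, rfl⟩ | ⟨rfl, rfl⟩ |
                  ⟨rfl, rfl⟩ | ⟨rfl, rfl⟩ | ⟨rfl, rfl⟩ | ⟨rfl, rfl⟩ | ⟨rfl, rfl⟩ | ⟨rfl, rfl⟩ |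
                  ⟨rfl, rfl⟩ | ⟨rfl, rfl⟩ <;> omega
  · push Not at hneg
    obtain ⟨k, l, hd⟩ := ex_kl i j hij
    have hok := H.ok i j k l hd
    obtain ⟨dij, dik, dil, djk, djl, dkl⟩ := hd
    exact hok.all_zero (hneg i j dij) (hneg i k dik) (hneg i l dil) (hneg j k djk)
      (hneg j l djl) (hneg k l dkl)

end Fns.Ok

end Pool.Agent.H.MP_deabf1_gt.Tet
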