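import Pool.Agent.H.MP_deabf1_gt.helper65.Tet12
import Pool.Agent.H.MP_deabf1_gt.PDefs

/-!
The system on six classes in standard numbering.
-/

namespace Pool.Agent.H.MP_deabf1_gt.Tet

/-- The number of the edge of the tetrahedron with the given ends. -/
def Ed : Fin 4 → Fin 4 → Fin 6 := fun i j =>
  (![![0, 0, 1, 2], ![0, 0, 3, 4], ![1, 3, 0, 5], ![2, 4, 5, 0]] : Fin 4 → Fin 4 → Fin 6) i j

/-- The three edges form a triangle. -/
def Tri (a b c : Fin 6) : Prop :=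
  ∃ i j k : Fin 4, i ≠ j ∧ i ≠ k ∧ j ≠ k ∧ a = Ed i j ∧ b = Ed j k ∧ c = Ed i k

instance (a b c : Fin 6) : Decidable (Tri a b c) := by unfold Tri; infer_instance

variable {K : Type*} [Field K] [Algebra ℝ K]

/-- The data in standard numbering. -/
noncomputable def D6.of (B : Fin 6 → Fin 6 → Fin 6 → ℝ) (γ d : Fin 6 → ℝ) (v : Fin 6 → K)
    (r : Fin 6 → ℤ) (c : Fin 6 → ℂ) : D6 K where
  g12 := γ 0 + B 0 1 3 + B 0 2 4
  g13 := γ 1 + B 0 1 3 + B 1 2 5
  g14 := γ 2 + B 0 2 4 + B 1 2 5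
  g23 := γ 3 + B 0 1 3 + B 3 4 5
  g24 := γ 4 + B 0 2 4 + B 3 4 5
  g34 := γ 5 + B 1 2 5 + B 3 4 5
  t1 := B 3 4 5 / 2
  t2 := B 1 2 5 / 2
  t3 := B 0 2 4 / 2
  t4 := B 0 1 3 / 2
  d12 := d 0
  d13 := d 1
  d14 := d 2
  d23 := d 3
  d24 := d 4
  d34 := d 5
  u12 := v 0
  u13 := v 1
  u14 := v 2
  u23 := v 3
  u24 := v 4
  u34 := v 5
  r12 := r 0
  r13 := r 1
  r14 := r 2
  r23 := r 3
  r24 := r 4
  r34 := r 5
  c12 := c 0
  c13 := c 1
  c14 := c 2
  c23 := c 3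
  c24 := c 4
  c34 := c 5

variable {P : Pl K} {t : K} {B : Fin 6 → Fin 6 → Fin 6 → ℝ} {γ d : Fin 6 → ℝ} {v : Fin 6 → K}
  {r : Fin 6 → ℤ} {c : Fin 6 → ℂ}

/-- Everything that is known about the system. -/
structure Std (P : Pl K) (t : K) (B : Fin 6 → Fin 6 → Fin 6 → ℝ) (γ d : Fin 6 → ℝ)
    (v : Fin 6 → K) (r : Fin 6 → ℤ) (c : Fin 6 → ℂ) : Prop where
  ht : t ≠ 0
  hI : P.I t
  sym : Sym B
  zero : ∀ x y z, ¬ Tri x y z → B x y z = 0
  pos : ∀ x y z, Tri x y z → 0 < B x y z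
  γ0 : ∀ x, 0 ≤ γ x
  d0 : ∀ x, 0 < d x
  R : ∀ x, R P t (v x) (r x) (c x)
  c0 : ∀ x, c x ≠ 0
  eq : ∀ x, eqL (fun x y z => algebraMap ℝ K (B x y z)) (fun x => algebraMap ℝ K (γ x)) v x =
    algebraMap ℝ K (d x)
  vol : ∑ x, d x * r x = 0

theorem Std.ok (H : Std P t B γ d v r c) : (D6.of B γ d v r c).Ok P t := by
  have hz := H.zero
  have s1 := H.sym.1
  have s2 := H.sym.2
  have := charZero_of_real K
  have h12 : algebraMap ℝ K 2 = 2 := map_ofNat _ 2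
  have e0 := H.eq 0
  have e1 := H.eq 1
  have e2 := H.eq 2
  have e3 := H.eq 3
  have e4 := H.eq 4
  have e5 := H.eq 5
  simp only [eqL, Fin.sum_univ_six] at e0 e1 e2 e3 e4 e5
  simp (disch := decide) only [hz, map_zero, zero_mul, add_zero, zero_add] at e0 e1 e2 e3 e4 e5
  have hv := H.vol
  simp only [Fin.sum_univ_six] at hv
  have p1 := H.pos 3 4 5 (by decide)
  have p2 := H.pos 1 2 5 (by decide)
  have p3 := H.pos 0 2 4 (by decide)
  have p4 := H.pos 0 1 3 (by decide)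
  refine
    { ht := H.ht
      hI := H.hI
      t1 := by change 0 < B 3 4 5 / 2; linarith
      t2 := by change 0 < B 1 2 5 / 2; linarith
      t3 := by change 0 < B 0 2 4 / 2; linarith
      t4 := by change 0 < B 0 1 3 / 2; linarith
      g12 := by
        change 2 * (B 0 1 3 / 2) + 2 * (B 0 2 4 / 2) ≤ γ 0 + B 0 1 3 + B 0 2 4
        linarith [H.γ0 0]
      g13 := by
        change 2 * (B 0 1 3 / 2) + 2 * (B 1 2 5 / 2) ≤ γ 1 + B 0 1 3 + B 1 2 5
        linarith [H.γ0 1]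
      g14 := by
        change 2 * (B 0 2 4 / 2) + 2 * (B 1 2 5 / 2) ≤ γ 2 + B 0 2 4 + B 1 2 5
        linarith [H.γ0 2]
      g23 := by
        change 2 * (B 0 1 3 / 2) + 2 * (B 3 4 5 / 2) ≤ γ 3 + B 0 1 3 + B 3 4 5
        linarith [H.γ0 3]
      g24 := by
        change 2 * (B 0 2 4 / 2) + 2 * (B 3 4 5 / 2) ≤ γ 4 + B 0 2 4 + B 3 4 5
        linarith [H.γ0 4]
      g34 := by
        change 2 * (B 1 2 5 / 2) + 2 * (B 3 4 5 / 2) ≤ γ 5 + B 1 2 5 + B 3 4 5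
        linarith [H.γ0 5]
      d12 := H.d0 0
      d13 := H.d0 1
      d14 := H.d0 2
      d23 := H.d0 3
      d24 := H.d0 4
      d34 := H.d0 5
      R12 := H.R 0
      R13 := H.R 1
      R14 := H.R 2
      R23 := H.R 3
      R24 := H.R 4
      R34 := H.R 5
      c12 := H.c0 0
      c13 := H.c0 1
      c14 := H.c0 2
      c23 := H.c0 3
      c24 := H.c0 4
      c34 := H.c0 5
      e12 := ?_
      e13 := ?_
      e14 := ?_
      e23 := ?_
      e24 := ?_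
      e34 := ?_
      vol := hv }
  · unfold Eq6
    simp only [D6.of, map_add, map_div₀, h12]
    rw [s2 0 3 1, s2 0 4 2] at e0
    linear_combination e0
  · unfold Eq6
    simp only [D6.of, map_add, map_div₀, h12]
    rw [s2 1 3 0, s1 1 0 3, s2 1 5 2] at e1
    linear_combination e1
  · unfold Eq6
    simp only [D6.of, map_add, map_div₀, h12]
    rw [s2 2 4 0, s1 2 0 4, s2 2 5 1, s1 2 1 5] at e2
    linear_combination e2
  · unfold Eq6
    simp only [D6.of, map_add, map_div₀, h12]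
    rw [s2 3 1 0, s1 3 0 1, s2 0 3 1, s2 3 5 4] at e3
    linear_combination e3
  · unfold Eq6
    simp only [D6.of, map_add, map_div₀, h12]
    rw [s2 4 2 0, s1 4 0 2, s2 0 4 2, s2 4 5 3, s1 4 3 5] at e4
    linear_combination e4
  · unfold Eq6
    simp only [D6.of, map_add, map_div₀, h12]
    rw [s2 5 2 1, s1 5 1 2, s2 1 5 2, s2 5 4 3, s1 5 3 4, s2 3 5 4] at e5
    linear_combination e5

end Pool.Agent.H.MP_deabf1_gt.Tet
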