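import Pool.Agent.H.MP_deabf1_gt.helper65.Tet13

/-!
All numberings of the points, and the local theorem for the system on six classes.
-/

namespace Pool.Agent.H.MP_deabf1_gt.Tet

/-- The new numbers of the edges. -/
def lab (i j k l : Fin 4) : Fin 6 → Fin 6 := ![Ed i j, Ed i k, Ed i l, Ed j k, Ed j l, Ed k l]

/-- The new numbers of the points. -/
def sg (i j k l : Fin 4) : Fin 4 → Fin 4 := ![i, j, k, l]

theorem lab_Ed : ∀ i j k l : Fin 4, Di i j k l → ∀ x y : Fin 4, x ≠ y →
    lab i j k l (Ed x y) = Ed (sg i j k l x) (sg i j k l y) := by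
  decide

theorem lab_inj : ∀ i j k l : Fin 4, Di i j k l → ∀ x y : Fin 6,
    lab i j k l x = lab i j k l y → x = y := by
  decide

theorem sg_inj : ∀ i j k l : Fin 4, Di i j k l → ∀ x y : Fin 4,
    sg i j k l x = sg i j k l y → x = y := by
  decide

theorem sg_surj : ∀ i j k l : Fin 4, Di i j k l → ∀ x : Fin 4, ∃ y, sg i j k l y = x := by
  decide

theorem Ed_symm : ∀ i j : Fin 4, Ed i j = Ed j i := by decide

theorem Ed_surj : ∀ x : Fin 6, ∃ i j : Fin 4, i ≠ j ∧ Ed i j = x := by decide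

theorem lab_tri {i j k l : Fin 4} (hd : Di i j k l) (x y z : Fin 6) :
    Tri (lab i j k l x) (lab i j k l y) (lab i j k l z) ↔ Tri x y z := by
  constructor
  · rintro ⟨a, b, c, hab, hac, hbc, h1, h2, h3⟩
    obtain ⟨a, rfl⟩ := sg_surj i j k l hd a
    obtain ⟨b, rfl⟩ := sg_surj i j k l hd b
    obtain ⟨c, rfl⟩ := sg_surj i j k l hd c
    have hab' : a ≠ b := fun h => hab (by rw [h])
    have hac' : a ≠ c := fun h => hac (by rw [h])
    have hbc' : b ≠ c := fun h => hbc (by rw [h])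
    rw [← lab_Ed i j k l hd _ _ hab'] at h1
    rw [← lab_Ed i j k l hd _ _ hbc'] at h2
    rw [← lab_Ed i j k l hd _ _ hac'] at h3
    exact ⟨a, b, c, hab', hac', hbc', lab_inj i j k l hd _ _ h1, lab_inj i j k l hd _ _ h2,
      lab_inj i j k l hd _ _ h3⟩
  · rintro ⟨a, b, c, hab, hac, hbc, rfl, rfl, rfl⟩
    refine ⟨sg i j k l a, sg i j k l b, sg i j k l c, fun h => hab (sg_inj i j k l hd _ _ h),
      fun h => hac (sg_inj i j k l hd _ _ h), fun h => hbc (sg_inj i j k l hd _ _ h),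
      lab_Ed i j k l hd _ _ hab, lab_Ed i j k l hd _ _ hbc, lab_Ed i j k l hd _ _ hac⟩

theorem lab_bij {i j k l : Fin 4} (hd : Di i j k l) : Function.Bijective (lab i j k l) :=
  Finite.injective_iff_bijective.1 fun x y h => lab_inj i j k l hd x y h

theorem eqL_comp {𝕜 : Type*} [Field 𝕜] (T : Fin 6 → Fin 6 → Fin 6 → 𝕜) (γ v : Fin 6 → 𝕜)
    {e : Fin 6 → Fin 6} (he : Function.Bijective e) (x : Fin 6) :
    eqL (fun x y z => T (e x) (e y) (e z)) (fun x => γ (e x)) (fun x => v (e x)) x =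
      eqL T γ v (e x) := by
  unfold eqL
  congr 2
  rw [← he.sum_comp fun y => ∑ z, T (e x) y z *
    (2 * v (e x) + v y * v z / v (e x) - v (e x) * v z / v y - v (e x) * v y / v z)]
  refine Finset.sum_congr rfl fun y _ => ?_
  rw [← he.sum_comp fun z => T (e x) (e y) z *
    (2 * v (e x) + v (e y) * v z / v (e x) - v (e x) * v z / v (e y) - v (e x) * v (e y) / v z)]

variable {K : Type*} [Field K] [Algebra ℝ K] {P : Pl K} {t : K}
  {B : Fin 6 → Fin 6 → Fin 6 → ℝ} {γ d : Fin 6 → ℝ} {v : Fin 6 → K}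
  {r : Fin 6 → ℤ} {c : Fin 6 → ℂ}

theorem Std.comp (H : Std P t B γ d v r c) {i j k l : Fin 4} (hd : Di i j k l) :
    Std P t (fun x y z => B (lab i j k l x) (lab i j k l y) (lab i j k l z))
      (fun x => γ (lab i j k l x)) (fun x => d (lab i j k l x)) (fun x => v (lab i j k l x))
      (fun x => r (lab i j k l x)) (fun x => c (lab i j k l x)) where
  ht := H.ht
  hI := H.hI
  sym := ⟨fun _ _ _ => H.sym.1 _ _ _, fun _ _ _ => H.sym.2 _ _ _⟩
  zero := fun x y z h => H.zero _ _ _ fun h' => h ((lab_tri hd x y z).1 h')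
  pos := fun x y z h => H.pos _ _ _ ((lab_tri hd x y z).2 h)
  γ0 := fun _ => H.γ0 _
  d0 := fun _ => H.d0 _
  R := fun _ => H.R _
  c0 := fun _ => H.c0 _
  eq := fun x => (eqL_comp (fun x y z => algebraMap ℝ K (B x y z))
    (fun x => algebraMap ℝ K (γ x)) v (lab_bij hd) x).trans (H.eq _)
  vol := ((lab_bij hd).sum_comp fun x => d x * (r x : ℝ)).trans H.vol

/-- The local theorem. -/
theorem Std.main (H : Std P t B γ d v r c) (x : Fin 6) : r x = 0 := by
  let F : Fns K :=
    { r := fun i j => r (Ed i j)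
      M := fun i j k l => D6.of
        (fun x y z => B (lab i j k l x) (lab i j k l y) (lab i j k l z))
        (fun x => γ (lab i j k l x)) (fun x => d (lab i j k l x)) (fun x => v (lab i j k l x))
        (fun x => r (lab i j k l x)) (fun x => c (lab i j k l x)) }
  have hF : F.Ok P t := by
    refine ⟨fun i j => ?_, fun i j k l hd => ?_⟩
    · change r (Ed i j) = r (Ed j i)
      rw [Ed_symm]
    · exact (H.comp hd).ok
  obtain ⟨i, j, hij, rfl⟩ := Ed_surj x
  exact hF.main i j hij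

end Pool.Agent.H.MP_deabf1_gt.Tet
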