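import Pool.Agent.H.MP_deabf1_gt.helper65.Tet14

/-!
From the local theorem to finiteness.
-/

namespace Pool.Agent.H.MP_deabf1_gt.Tet

/-- The existence of an end on an infinite set of solutions. -/
def EndSt (q : ℕ) : Prop :=
  ∀ {T : Fin q → Fin q → Fin q → ℝ}, Sym T → ∀ {γ : Fin q → ℝ} {d : Fin q → ℕ}
    {S : Set (Fin q → ℂ)}, (∀ u ∈ S, (∀ i, u i ≠ 0) ∧ ∀ i,
      eqL (fun i j k => (T i j k : ℂ)) (fun i => (γ i : ℂ)) u i = (d i : ℂ)) →
    S.Infinite → (∀ i, 0 < d i) →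
    ∃ (E : Type) (_ : Field E) (_ : Algebra ℝ E) (P : Pl E) (t : E) (v : Fin q → E) (c : ℂ),
      t ≠ 0 ∧ P.I t ∧ (∀ a : E, a ≠ 0 → ∃ (n : ℤ) (z : ℂ), z ≠ 0 ∧ P.Lim (a / t ^ n) z) ∧
      (∀ i, v i ≠ 0) ∧ (∀ i, eqL (fun i j k => algebraMap ℝ E (T i j k))
        (fun i => algebraMap ℝ E (γ i)) v i = (d i : E)) ∧
      c ≠ 0 ∧ P.Lim (∏ i, v i ^ d i) c ∧ ∃ i, P.I (v i)

/-- Finitely many complex solutions for the systems of tetrahedral type. -/
theorem complex_finite (hend : EndSt 6) {B : Fin 6 → Fin 6 → Fin 6 → ℝ} (hB : Sym B)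
    (hz : ∀ x y z, ¬ Tri x y z → B x y z = 0) (hp : ∀ x y z, Tri x y z → 0 < B x y z)
    {γ : Fin 6 → ℝ} (hγ : ∀ x, 0 ≤ γ x) {d : Fin 6 → ℕ} (hd : ∀ x, 0 < d x) :
    {u : Fin 6 → ℂ | (∀ i, u i ≠ 0) ∧ ∀ i,
      eqL (fun i j k => (B i j k : ℂ)) (fun i => (γ i : ℂ)) u i = (d i : ℂ)}.Finite := by
  by_contra hinf
  obtain ⟨E, _, _, P, t, v, c, ht, hI, hdis, hv, heq, hc, hvol, i, hi⟩ :=
    hend hB (fun u hu => hu) hinf hd
  have h1 : ∀ x, ∃ (n : ℤ) (z : ℂ), z ≠ 0 ∧ P.Lim (v x / t ^ n) z := fun x => hdis _ (hv x)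
  choose r c' hc' hR using h1
  have hS : Std P t B γ (fun x => (d x : ℝ)) v r c' := by
    refine
      { ht := ht
        hI := hI
        sym := hB
        zero := hz
        pos := hp
        γ0 := hγ
        d0 := fun x => by exact_mod_cast hd x
        R := hR
        c0 := hc'
        eq := fun x => by rw [heq x, map_natCast]
        vol := ?_ }
    have h2 : R P t (∏ x, v x ^ d x) (∑ x, (d x : ℤ) * r x) (∏ x, c' x ^ d x) :=
      R.prod ht Finset.univ fun x _ => (show R P t (v x) (r x) (c' x) from hR x).pow ht (d x)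
    have h3 : R P t (∏ x, v x ^ d x) 0 c := by
      unfold R
      rw [zpow_zero, div_one]
      exact hvol
    have h4 := R.ord_eq ht hI h2 (Finset.prod_ne_zero_iff.2 fun x _ => pow_ne_zero _ (hc' x)) h3 hc
    have h5 : ((∑ x, (d x : ℤ) * r x : ℤ) : ℝ) = 0 := by exact_mod_cast h4
    rw [← h5]
    push_cast
    rfl
  have h6 := hS.main i
  have h7 := hR i
  rw [h6, zpow_zero, div_one] at h7
  exact hc' i (P.uniq h7 hi)

/-- Finitely many positive solutions for the systems of tetrahedral type. -/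
theorem real_finite (hend : EndSt 6) {B : Fin 6 → Fin 6 → Fin 6 → ℝ} (hB : Sym B)
    (hz : ∀ x y z, ¬ Tri x y z → B x y z = 0) (hp : ∀ x y z, Tri x y z → 0 < B x y z)
    {γ : Fin 6 → ℝ} (hγ : ∀ x, 0 ≤ γ x) {d : Fin 6 → ℕ} (hd : ∀ x, 0 < d x) :
    {u : Fin 6 → ℝ | (∀ i, 0 < u i) ∧ ∀ i, eqL B γ u i = (d i : ℝ)}.Finite := by
  have h1 := complex_finite hend hB hz hp hγ hd
  have hinj : Function.Injective fun (u : Fin 6 → ℝ) (i : Fin 6) => ((u i : ℝ) : ℂ) := by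
    intro u w h
    funext i
    exact Complex.ofReal_injective (congrFun h i)
  refine (h1.preimage hinj.injOn).subset ?_
  rintro u ⟨h2, h3⟩
  refine ⟨fun i => ?_, fun i => ?_⟩
  · exact Complex.ofReal_ne_zero.2 (h2 i).ne'
  · have h4 := congrArg (fun x : ℝ => (x : ℂ)) (h3 i)
    simp only [Complex.ofReal_natCast] at h4
    rw [← h4]
    simp only [eqL]
    push_cast
    rfl

end Pool.Agent.H.MP_deabf1_gt.Tet
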