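import Pool.Agent.H.MP_deabf1_gt.WL
import Pool.Agent.H.MP_deabf1_gt.QH
import Pool.Agent.H.MP_deabf1_gt.helper65.Gn7
import Pool.Agent.H.MP_deabf1_gt.helper65.Tet15

/-!
Finiteness of the number of invariant Einstein metrics on spaces of tetrahedral type.
-/

namespace Pool.Agent.H.MP_deabf1_gt

open LinearMap (BilinForm)

/-- Three edges of the complete graph on four points which form a triangle. -/
def IsTriangle (x y z : Sym2 (Fin 4)) : Prop :=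
  ∃ a b c : Fin 4, a ≠ b ∧ a ≠ c ∧ b ≠ c ∧ x = s(a, b) ∧ y = s(b, c) ∧ z = s(a, c)

namespace Tet

/-- The number of an edge. -/
def num : Sym2 (Fin 4) → Fin 6 := Sym2.lift ⟨Ed, Ed_symm⟩

theorem num_mk (a b : Fin 4) : num s(a, b) = Ed a b := rfl

theorem Ed_inj : ∀ a b c d : Fin 4, a ≠ b → c ≠ d → Ed a b = Ed c d →
    (a = c ∧ b = d) ∨ (a = d ∧ b = c) := by
  decide

theorem num_inj {x y : Sym2 (Fin 4)} (hx : ¬ x.IsDiag) (hy : ¬ y.IsDiag) (h : num x = num y) :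
    x = y := by
  induction x with | _ a b
  induction y with | _ c d
  rw [Sym2.mk_isDiag_iff] at hx hy
  rcases Ed_inj a b c d hx hy h with ⟨rfl, rfl⟩ | ⟨rfl, rfl⟩
  · rfl
  · exact Sym2.eq_swap

theorem tri_num {x y z : Sym2 (Fin 4)} (hx : ¬ x.IsDiag) (hy : ¬ y.IsDiag) (hz : ¬ z.IsDiag)
    (h : Tri (num x) (num y) (num z)) : IsTriangle x y z := by
  obtain ⟨a, b, c, hab, hac, hbc, h1, h2, h3⟩ := h
  refine ⟨a, b, c, hab, hac, hbc, num_inj hx ?_ h1, num_inj hy ?_ h2, num_inj hz ?_ h3⟩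
  · rwa [Sym2.mk_isDiag_iff]
  · rwa [Sym2.mk_isDiag_iff]
  · rwa [Sym2.mk_isDiag_iff]

/-- Finitely many positive solutions which are constant on the classes. -/
theorem part_finite (hend : EndSt 6) {q : ℕ} {π : Fin q → Fin 6}
    {T : Fin q → Fin q → Fin q → ℝ} {γ : Fin q → ℝ} {d : Fin q → ℕ} (hT : Sym T)
    (hT0 : ∀ i j l, 0 ≤ T i j l) (hγ : ∀ i, 0 ≤ γ i) (hd : ∀ i, 0 < d i)
    (hz : ∀ i j k, ¬ Tri (π i) (π j) (π k) → T i j k = 0)
    (hp : ∀ x y z, Tri x y z → ∃ i j k, π i = x ∧ π j = y ∧ π k = z ∧ 0 < T i j k) :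
    {u : Fin q → ℝ | (∀ i, 0 < u i) ∧ (∃ y : Fin 6 → ℝ, u = y ∘ π) ∧
      ∀ i, eqL T γ u i = (d i : ℝ)}.Finite := by
  classical
  have hπ : Function.Surjective π := by
    intro x
    obtain ⟨i, j, hij, rfl⟩ := Ed_surj x
    obtain ⟨k, l, hd⟩ := ex_kl i j hij
    obtain ⟨n, _, _, h1, _⟩ := hp (Ed i j) (Ed j k) (Ed i k)
      ⟨i, j, k, hij, hd.2.1, hd.2.2.2.1, rfl, rfl, rfl⟩
    exact ⟨n, h1⟩
  have h1 := real_finite hend (B := fun a b c => ∑ i, ∑ j, ∑ k,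
      if π i = a ∧ π j = b ∧ π k = c then T i j k else 0)
    (Gn.blk_sym π hT) ?_ ?_ (γ := fun a => ∑ i, if π i = a then γ i else 0) ?_
    (d := fun a => ∑ i, if π i = a then d i else 0) ?_
  · refine (h1.image (fun y : Fin 6 → ℝ => y ∘ π)).subset ?_
    rintro u ⟨hu, ⟨y, rfl⟩, hE⟩
    refine ⟨y, ⟨fun a => ?_, fun a => ?_⟩, rfl⟩
    · obtain ⟨i, rfl⟩ := hπ a
      exact hu i
    · rw [eqL_block]
      rw [Nat.cast_sum]
      refine Finset.sum_congr rfl fun i _ => ?_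
      split_ifs with h
      · exact hE i
      · simp
  · intro a b c h
    refine Finset.sum_eq_zero fun i _ => Finset.sum_eq_zero fun j _ =>
      Finset.sum_eq_zero fun k _ => ?_
    split_ifs with h2
    · obtain ⟨rfl, rfl, rfl⟩ := h2
      exact hz i j k h
    · rfl
  · intro a b c h
    obtain ⟨i, j, k, hi, hj, hk, h2⟩ := hp a b c h
    have h0 : ∀ i j k, 0 ≤ (if π i = a ∧ π j = b ∧ π k = c then T i j k else 0) := by
      intro i j k
      split_ifs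
      · exact hT0 i j k
      · exact le_rfl
    refine Finset.sum_pos' (fun i _ => Finset.sum_nonneg fun j _ => Finset.sum_nonneg
      fun k _ => h0 i j k) ⟨i, Finset.mem_univ i, ?_⟩
    refine Finset.sum_pos' (fun j _ => Finset.sum_nonneg fun k _ => h0 i j k)
      ⟨j, Finset.mem_univ j, ?_⟩
    refine Finset.sum_pos' (fun k _ => h0 i j k) ⟨k, Finset.mem_univ k, ?_⟩
    rw [if_pos ⟨hi, hj, hk⟩]
    exact h2
  · intro a
    refine Finset.sum_nonneg fun i _ => ?_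
    split_ifs
    · exact hγ i
    · exact le_rfl
  · intro a
    obtain ⟨i, hi⟩ := hπ a
    refine Finset.sum_pos' (fun _ _ => Nat.zero_le _) ⟨i, Finset.mem_univ i, ?_⟩
    rw [if_pos hi]
    exact hd i

end Tet

namespace HomData

variable {𝔤 K : Type*} [LieRing 𝔤] [LieAlgebra ℝ 𝔤] [Module.Finite ℝ 𝔤] [Group K]

/-- A structure constant vanishes only if the bracket is orthogonal to the third space. -/
theorem TT_pos (D : HomData 𝔤 K) {q : ℕ} {m : Fin q → Submodule ℝ 𝔤}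
    {d : Fin q → ℕ} {f : ∀ i, Fin (d i) → 𝔤} (hf : ∀ i, IsONB D.Q (m i) (f i)) {i j k : Fin q}
    (h : ∃ x ∈ m i, ∃ y ∈ m j, ∃ z ∈ m k, D.Q ⁅x, y⁆ z ≠ 0) : 0 < D.TT f i j k := by
  refine lt_of_le_of_ne (D.TT_nonneg f i j k) fun h0 => ?_
  obtain ⟨x, hx, y, hy, z, hz, hne⟩ := h
  apply hne
  have h1 : ∀ a b c, D.Q ⁅f i a, f j b⁆ (f k c) = 0 := by
    intro a b c
    unfold TT at h0
    have e1 := (Finset.sum_eq_zero_iff_of_nonneg (fun a _ => Finset.sum_nonneg fun b _ =>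
      Finset.sum_nonneg fun c _ => sq_nonneg (D.Q ⁅f i a, f j b⁆ (f k c)))).1 h0.symm a
      (Finset.mem_univ a)
    have e2 := (Finset.sum_eq_zero_iff_of_nonneg (fun b _ =>
      Finset.sum_nonneg fun c _ => sq_nonneg (D.Q ⁅f i a, f j b⁆ (f k c)))).1 e1 b
      (Finset.mem_univ b)
    have e3 := (Finset.sum_eq_zero_iff_of_nonneg (fun c _ =>
      sq_nonneg (D.Q ⁅f i a, f j b⁆ (f k c)))).1 e2 c (Finset.mem_univ c)
    exact pow_eq_zero_iff (two_ne_zero) |>.1 e3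
  rw [(hf i).exp x hx, (hf j).exp y hy, (hf k).exp z hz]
  simp only [sum_lie, lie_sum, smul_lie, lie_smul, map_sum,
    map_smul, LinearMap.sum_apply, LinearMap.smul_apply, h1, smul_zero, Finset.sum_const_zero]

/-- Finiteness of the number of invariant Einstein metrics for spaces of tetrahedral type. -/
theorem finite_einstein_tetra (hend : Tet.EndSt 6) (D : HomData 𝔤 K) {q : ℕ}
    {m : Fin q → Submodule ℝ 𝔤} (hm : D.Decomp m) (e : Fin q → Sym2 (Fin 4))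
    (he : ∀ i, ¬ (e i).IsDiag)
    (h0 : ∀ i j k, ¬ IsTriangle (e i) (e j) (e k) →
      ∀ x ∈ m i, ∀ y ∈ m j, ∀ z ∈ m k, D.Q ⁅x, y⁆ z = 0)
    (h1 : ∀ a b c, IsTriangle a b c → ∃ i j k, e i = a ∧ e j = b ∧ e k = c ∧
      ∃ x ∈ m i, ∃ y ∈ m j, ∃ z ∈ m k, D.Q ⁅x, y⁆ z ≠ 0) :
    ∃ F : Finset (BilinForm ℝ 𝔤), ∀ (g : BilinForm ℝ 𝔤) (lam : ℝ), D.IsMetric g →
      D.IsEinstein g lam →
      (Function.Injective e ∨ ∃ a : Sym2 (Fin 4) → ℝ, ∀ i, ∀ x ∈ m i, g x x = a (e i) * D.Q x x) →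
      ∃ c : ℝ, 0 < c ∧ c • g ∈ F := by
  classical
  choose f hf using fun i => onb_exists (g := D.Q) D.Q_symm (m i) (fun x _ hx => D.Q_pos x hx)
  obtain ⟨z, hz⟩ := onb_exists (g := D.Q) D.Q_symm D.𝔨.toSubmodule (fun x _ hx => D.Q_pos x hx)
  have hQo : ∀ i j, i ≠ j → ∀ v ∈ m i, ∀ w ∈ m j, D.Q v w = 0 := fun i j hij =>
    D.schur_off (hm.irr i) (hm.irr j) (hm.inequiv i j hij) D.Q_Ad
  have hne : ∀ i, ∃ v ∈ m i, v ≠ 0 := fun i => (Submodule.ne_bot_iff _).1 (hm.irr i).ne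
  have hd : ∀ i, 0 < Module.finrank ℝ (m i) := by
    intro i
    rw [Nat.pos_iff_ne_zero]
    intro h0
    exact (hm.irr i).ne (Submodule.finrank_eq_zero.1 h0)
  -- the classes
  obtain ⟨π, hπ⟩ : ∃ π : Fin q → Fin 6, π = fun i => Tet.num (e i) := ⟨_, rfl⟩
  have hz0 : ∀ i j k, ¬ Tet.Tri (π i) (π j) (π k) → D.TT f i j k = 0 := by
    intro i j k h
    unfold TT
    refine Finset.sum_eq_zero fun a _ => Finset.sum_eq_zero fun b _ =>
      Finset.sum_eq_zero fun c _ => ?_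
    rw [h0 i j k (fun h2 => h ?_) _ ((hf i).mem a) _ ((hf j).mem b) _ ((hf k).mem c)]
    · norm_num
    · obtain ⟨a, b, c, hab, hac, hbc, e1, e2, e3⟩ := h2
      have hn : ∀ i, π i = Tet.num (e i) := fun i => by rw [hπ]
      rw [hn, hn, hn, e1, e2, e3]
      exact ⟨a, b, c, hab, hac, hbc, rfl, rfl, rfl⟩
  have hpos : ∀ x y w, Tet.Tri x y w → ∃ i j k, π i = x ∧ π j = y ∧ π k = w ∧
      0 < D.TT f i j k := by
    rintro x y w ⟨a, b, c, hab, hac, hbc, rfl, rfl, rfl⟩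
    obtain ⟨i, j, k, hi, hj, hk, h2⟩ := h1 s(a, b) s(b, c) s(a, c)
      ⟨a, b, c, hab, hac, hbc, rfl, rfl, rfl⟩
    refine ⟨i, j, k, ?_, ?_, ?_, D.TT_pos hf h2⟩
    · rw [hπ]
      change Tet.num (e i) = _
      rw [hi]
      rfl
    · rw [hπ]
      change Tet.num (e j) = _
      rw [hj]
      rfl
    · rw [hπ]
      change Tet.num (e k) = _
      rw [hk]
      rfl
  have hflat : ∃ x ∈ D.𝔪, ∃ y : 𝔤, ⁅x, y⁆ ≠ 0 := by
    obtain ⟨i, j, k, -, -, -, x, hx, y, hy, w, hw, h2⟩ := h1 s(0, 1) s(1, 2) s(0, 2)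
      ⟨0, 1, 2, by decide, by decide, by decide, rfl, rfl, rfl⟩
    refine ⟨x, ?_, y, fun h3 => h2 ?_⟩
    · rw [← hm.sup]
      exact (le_iSup m i) hx
    · rw [h3, map_zero, LinearMap.zero_apply]
  have hU := Tet.part_finite hend (π := π) (d := fun i => Module.finrank ℝ (m i)) (D.TT_sym f)
    (D.TT_nonneg f) (D.GG_nonneg f z) hd hz0 hpos
  set U := {u : Fin q → ℝ | (∀ i, 0 < u i) ∧ (∃ y : Fin 6 → ℝ, u = y ∘ π) ∧
    ∀ i, eqL (D.TT f) (D.GG f z) u i = (Module.finrank ℝ (m i) : ℝ)} with hUdef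
  have hfin : (⋃ u ∈ U, {g : BilinForm ℝ 𝔤 | D.IsMetric g ∧
      ∀ i, ∀ v ∈ m i, ∀ w ∈ m i, g v w = 1 / u i * D.Q v w}).Finite := by
    refine Set.Finite.biUnion hU fun u _ => Set.Subsingleton.finite ?_
    rintro g ⟨hg, h1⟩ g' ⟨hg', h2⟩
    exact D.metric_ext hm hg hg' h1 h2
  refine ⟨hfin.toFinset, ?_⟩
  intro g lam hg hE hS
  obtain ⟨x, hx, hgd, hgo⟩ := D.metric_diag hm hg
  have hlam : 0 < lam := by
    by_contra h0
    have hEq := D.einstein_eq hm.sup hf hz hQo hg hx hgd hgo hE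
    have h1 := lam_pos (D.TT_sym f) (D.TT_nonneg f) (D.GG_nonneg f z)
      (fun i => one_div_pos.2 (hx i)) (not_lt.1 h0) hEq
    obtain ⟨y, hy, y', hyy⟩ := hflat
    exact hyy (D.central_of hm.sup hf hz hQo (fun i => (h1 i).2) (fun i => (h1 i).1) y hy y')
  refine ⟨lam, hlam, ?_⟩
  obtain ⟨hg', hE'⟩ := D.einstein_smul hlam hg hE
  have hx' : ∀ i, 0 < lam * x i := fun i => mul_pos hlam (hx i)
  have hgd' : ∀ i, ∀ v ∈ m i, ∀ w ∈ m i, (lam • g) v w = lam * x i * D.Q v w := by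
    intro i v hv w hw
    rw [LinearMap.smul_apply, LinearMap.smul_apply, smul_eq_mul, hgd i v hv w hw, mul_assoc]
  have hgo' : ∀ i j, i ≠ j → ∀ v ∈ m i, ∀ w ∈ m j, (lam • g) v w = 0 := by
    intro i j hij v hv w hw
    rw [LinearMap.smul_apply, LinearMap.smul_apply, smul_eq_mul, hgo i j hij v hv w hw, mul_zero]
  have hEq := D.einstein_eq hm.sup hf hz hQo hg' hx' hgd' hgo' hE'
  -- the eigenvalues are constant on the classes
  have hsur : ∀ n : Fin 6, ∃ i, π i = n := by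
    intro n
    obtain ⟨i, j, hij, rfl⟩ := Tet.Ed_surj n
    obtain ⟨k, l, hd⟩ := Tet.ex_kl i j hij
    obtain ⟨n, _, _, h1, _⟩ := hpos (Tet.Ed i j) (Tet.Ed j k) (Tet.Ed i k)
      ⟨i, j, k, hij, hd.2.1, hd.2.2.2.1, rfl, rfl, rfl⟩
    exact ⟨n, h1⟩
  choose sec hsec using hsur
  have hinj : ∀ i j, π i = π j → e i = e j := by
    intro i j h
    rw [hπ] at h
    exact Tet.num_inj (he i) (he j) h
  have hcls : ∃ y : Fin 6 → ℝ, ∀ i, x i = y (π i) := by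
    refine ⟨fun n => x (sec n), fun i => ?_⟩
    have h2 : e (sec (π i)) = e i := hinj _ _ (hsec (π i))
    rcases hS with h3 | ⟨a, ha⟩
    · change x i = x (sec (π i))
      rw [h3 h2]
    · have h4 : ∀ i, x i = a (e i) := by
        intro i
        obtain ⟨v, hv, hv0⟩ := hne i
        have h1 := ha i v hv
        rw [hgd i v hv v hv] at h1
        exact mul_right_cancel₀ (D.Q_pos v hv0).ne' h1
      change x i = x (sec (π i))
      rw [h4 i, h4 (sec (π i)), h2]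
  obtain ⟨y, hy⟩ := hcls
  rw [Set.Finite.mem_toFinset]
  refine Set.mem_iUnion₂.2 ⟨fun j => 1 / (lam * x j), ?_, hg', ?_⟩
  · refine ⟨fun i => one_div_pos.2 (hx' i), ⟨fun a => 1 / (lam * y a), ?_⟩, fun i => ?_⟩
    · funext i
      change 1 / (lam * x i) = 1 / (lam * y (π i))
      rw [hy i]
    · rw [hEq i, div_self hlam.ne', mul_one]
  · intro i v hv w hw
    rw [hgd' i v hv w hw, one_div_one_div]

end HomData

end Pool.Agent.H.MP_deabf1_gt
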