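import Pool.Agent.H.MP_deabf1_gt.helper65.Tet1

/-!
The Einstein equations of tetrahedral type at a discrete place: initial forms.
-/

namespace Pool.Agent.H.MP_deabf1_gt.Tet

/-- The data: six unknowns on the edges of a tetrahedron. -/
structure D6 (K : Type*) where
  (g12 g13 g14 g23 g24 g34 t1 t2 t3 t4 d12 d13 d14 d23 d24 d34 : ℝ)
  (u12 u13 u14 u23 u24 u34 : K)
  (r12 r13 r14 r23 r24 r34 : ℤ)
  (c12 c13 c14 c23 c24 c34 : ℂ)

variable {K : Type*} [Field K] [Algebra ℝ K]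

/-- One equation. -/
def Eq6 (g ta tb d : ℝ) (u f h f' h' : K) : Prop :=
  algebraMap ℝ K g * u + algebraMap ℝ K ta * (f * h / u - u * f / h - u * h / f)
    + algebraMap ℝ K tb * (f' * h' / u - u * f' / h' - u * h' / f') = algebraMap ℝ K d

/-- The equations, the orders and the leading coefficients. -/
structure D6.Ok (P : Pl K) (t : K) (D : D6 K) : Prop where
  ht : t ≠ 0
  hI : P.I t
  t1 : 0 < D.t1
  t2 : 0 < D.t2
  t3 : 0 < D.t3
  t4 : 0 < D.t4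
  g12 : 2 * D.t4 + 2 * D.t3 ≤ D.g12
  g13 : 2 * D.t4 + 2 * D.t2 ≤ D.g13
  g14 : 2 * D.t3 + 2 * D.t2 ≤ D.g14
  g23 : 2 * D.t4 + 2 * D.t1 ≤ D.g23
  g24 : 2 * D.t3 + 2 * D.t1 ≤ D.g24
  g34 : 2 * D.t2 + 2 * D.t1 ≤ D.g34
  d12 : 0 < D.d12
  d13 : 0 < D.d13
  d14 : 0 < D.d14
  d23 : 0 < D.d23
  d24 : 0 < D.d24
  d34 : 0 < D.d34
  R12 : R P t D.u12 D.r12 D.c12
  R13 : R P t D.u13 D.r13 D.c13
  R14 : R P t D.u14 D.r14 D.c14
  R23 : R P t D.u23 D.r23 D.c23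
  R24 : R P t D.u24 D.r24 D.c24
  R34 : R P t D.u34 D.r34 D.c34
  c12 : D.c12 ≠ 0
  c13 : D.c13 ≠ 0
  c14 : D.c14 ≠ 0
  c23 : D.c23 ≠ 0
  c24 : D.c24 ≠ 0
  c34 : D.c34 ≠ 0
  e12 : Eq6 D.g12 D.t4 D.t3 D.d12 D.u12 D.u13 D.u23 D.u14 D.u24
  e13 : Eq6 D.g13 D.t4 D.t2 D.d13 D.u13 D.u12 D.u23 D.u14 D.u34
  e14 : Eq6 D.g14 D.t3 D.t2 D.d14 D.u14 D.u12 D.u24 D.u13 D.u34
  e23 : Eq6 D.g23 D.t4 D.t1 D.d23 D.u23 D.u12 D.u13 D.u24 D.u34
  e24 : Eq6 D.g24 D.t3 D.t1 D.d24 D.u24 D.u12 D.u14 D.u23 D.u34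
  e34 : Eq6 D.g34 D.t2 D.t1 D.d34 D.u34 D.u13 D.u14 D.u23 D.u24
  vol : D.d12 * D.r12 + D.d13 * D.r13 + D.d14 * D.r14 + D.d23 * D.r23 + D.d24 * D.r24
    + D.d34 * D.r34 = 0

/-- The monomial `z` if `n = ρ`. -/
noncomputable def J (ρ n : ℤ) (z : ℂ) : ℂ := if n = ρ then z else 0

theorem J_pos {ρ n : ℤ} {z : ℂ} (h : n = ρ) : J ρ n z = z := if_pos h

theorem J_neg {ρ n : ℤ} {z : ℂ} (h : n ≠ ρ) : J ρ n z = 0 := if_neg h

section

variable {P : Pl K} {t : K} {ρ : ℤ}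

/-- A quotient of order at least `ρ`. -/
theorem R_quot (ht : t ≠ 0) (hI : P.I t) {a b c : K} {n m k : ℤ} {x y z : ℂ} (ha : R P t a n x)
    (hb : R P t b m y) (hc : R P t c k z) (hz : z ≠ 0) (hρ : ρ ≤ n + m - k) :
    R P t (a * b / c) ρ (J ρ (n + m - k) (x * y / z)) :=
  ((ha.mul ht hb).div ht hc hz).lower ht hI hρ

theorem R_const (ht : t ≠ 0) (hI : P.I t) (d : ℝ) (hρ : ρ ≤ 0) :
    R P t (algebraMap ℝ K d) ρ (J ρ 0 d) := (R.cst d).lower ht hI hρ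

theorem R_smul (ht : t ≠ 0) {a : K} {n : ℤ} {x : ℂ} (g : ℝ) (ha : R P t a n x) :
    R P t (algebraMap ℝ K g * a) n (g * x) := ha.smul ht g

/-- The initial form of one equation. -/
theorem edge_init (ht : t ≠ 0) (hI : P.I t) {g ta tb d : ℝ} {u f h f' h' : K}
    {ru rf rh rf' rh' : ℤ} {cu cf ch cf' ch' : ℂ} (hu : R P t u ru cu) (hf : R P t f rf cf)
    (hh : R P t h rh ch) (hf' : R P t f' rf' cf') (hh' : R P t h' rh' ch') (nu : cu ≠ 0)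
    (nf : cf ≠ 0) (nh : ch ≠ 0) (nf' : cf' ≠ 0) (nh' : ch' ≠ 0)
    (e : Eq6 g ta tb d u f h f' h') (h0 : ρ ≤ 0) (h1 : ρ ≤ ru)
    (h2 : ρ ≤ rf + rh - ru) (h3 : ρ ≤ ru + rf - rh) (h4 : ρ ≤ ru + rh - rf)
    (h5 : ρ ≤ rf' + rh' - ru) (h6 : ρ ≤ ru + rf' - rh') (h7 : ρ ≤ ru + rh' - rf') :
    g * J ρ ru cu + ta * (J ρ (rf + rh - ru) (cf * ch / cu) - J ρ (ru + rf - rh) (cu * cf / ch)
      - J ρ (ru + rh - rf) (cu * ch / cf)) + tb * (J ρ (rf' + rh' - ru) (cf' * ch' / cu)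
      - J ρ (ru + rf' - rh') (cu * cf' / ch') - J ρ (ru + rh' - rf') (cu * ch' / cf'))
      = J ρ 0 d := by
  have e1 := (R_smul ht g (hu.lower ht hI h1)).add (((R_smul ht ta
    (((R_quot ht hI hf hh hu nu h2).sub (R_quot ht hI hu hf hh nh h3)).sub
      (R_quot ht hI hu hh hf nf h4)))))
  have e2 := e1.add (R_smul ht tb
    (((R_quot ht hI hf' hh' hu nu h5).sub (R_quot ht hI hu hf' hh' nh' h6)).sub
      (R_quot ht hI hu hh' hf' nf' h7)))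
  have e3 : algebraMap ℝ K g * u + algebraMap ℝ K ta * (f * h / u - u * f / h - u * h / f)
    + algebraMap ℝ K tb * (f' * h' / u - u * f' / h' - u * h' / f') = algebraMap ℝ K d := e
  rw [e3] at e2
  exact e2.uniq (R_const ht hI d h0)

/-- The initial form of the equation of a cut with three crossing edges `a`, `b`, `c`. -/
theorem cut3_init (ht : t ≠ 0) (hI : P.I t) {ga gb gc ta tb tc d : ℝ} {a b c x y z : K}
    {ra rb rc rx ry rz : ℤ} {ca cb cc cx cy cz : ℂ} (ha : R P t a ra ca) (hb : R P t b rb cb)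
    (hc : R P t c rc cc) (hx : R P t x rx cx) (hy : R P t y ry cy) (hz : R P t z rz cz)
    (nx : cx ≠ 0) (ny : cy ≠ 0) (nz : cz ≠ 0)
    (e : algebraMap ℝ K ga * a + algebraMap ℝ K gb * b + algebraMap ℝ K gc * c
      - algebraMap ℝ K 2 * (algebraMap ℝ K ta * (b * c / x) + algebraMap ℝ K tb * (a * c / y)
      + algebraMap ℝ K tc * (a * b / z)) = algebraMap ℝ K d) (h0 : ρ ≤ 0) (h1 : ρ ≤ ra)
    (h2 : ρ ≤ rb) (h3 : ρ ≤ rc) (h4 : ρ ≤ rb + rc - rx) (h5 : ρ ≤ ra + rc - ry)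
    (h6 : ρ ≤ ra + rb - rz) :
    ga * J ρ ra ca + gb * J ρ rb cb + gc * J ρ rc cc - 2 * (ta * J ρ (rb + rc - rx) (cb * cc / cx)
      + tb * J ρ (ra + rc - ry) (ca * cc / cy) + tc * J ρ (ra + rb - rz) (ca * cb / cz))
      = J ρ 0 d := by
  have e1 := ((R_smul ht ga (ha.lower ht hI h1)).add (R_smul ht gb (hb.lower ht hI h2))).add
    (R_smul ht gc (hc.lower ht hI h3))
  have e2 := e1.sub (R_smul ht 2 (((R_smul ht ta (R_quot ht hI hb hc hx nx h4)).add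
    (R_smul ht tb (R_quot ht hI ha hc hy ny h5))).add
    (R_smul ht tc (R_quot ht hI ha hb hz nz h6))))
  rw [e] at e2
  have e3 := e2.uniq (R_const ht hI d h0)
  rw [← e3]
  push_cast
  rfl

/-- The initial form of the equation of a cut with four crossing edges. -/
theorem cut4_init (ht : t ≠ 0) (hI : P.I t) {g13 g14 g23 g24 t1 t2 t3 t4 d : ℝ}
    {u12 u13 u14 u23 u24 u34 : K} {r12 r13 r14 r23 r24 r34 : ℤ} {c12 c13 c14 c23 c24 c34 : ℂ}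
    (R12 : R P t u12 r12 c12) (R13 : R P t u13 r13 c13) (R14 : R P t u14 r14 c14)
    (R23 : R P t u23 r23 c23) (R24 : R P t u24 r24 c24) (R34 : R P t u34 r34 c34)
    (n12 : c12 ≠ 0) (n34 : c34 ≠ 0)
    (e : algebraMap ℝ K g13 * u13 + algebraMap ℝ K g14 * u14 + algebraMap ℝ K g23 * u23
      + algebraMap ℝ K g24 * u24
      - algebraMap ℝ K 2 * (algebraMap ℝ K t4 * (u13 * u23 / u12)
      + algebraMap ℝ K t3 * (u14 * u24 / u12) + algebraMap ℝ K t2 * (u13 * u14 / u34)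
      + algebraMap ℝ K t1 * (u23 * u24 / u34)) = algebraMap ℝ K d) (h0 : ρ ≤ 0)
    (h1 : ρ ≤ r13) (h2 : ρ ≤ r14) (h3 : ρ ≤ r23) (h4 : ρ ≤ r24) (h5 : ρ ≤ r13 + r23 - r12)
    (h6 : ρ ≤ r14 + r24 - r12) (h7 : ρ ≤ r13 + r14 - r34) (h8 : ρ ≤ r23 + r24 - r34) :
    g13 * J ρ r13 c13 + g14 * J ρ r14 c14 + g23 * J ρ r23 c23 + g24 * J ρ r24 c24
      - 2 * (t4 * J ρ (r13 + r23 - r12) (c13 * c23 / c12)
      + t3 * J ρ (r14 + r24 - r12) (c14 * c24 / c12)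
      + t2 * J ρ (r13 + r14 - r34) (c13 * c14 / c34)
      + t1 * J ρ (r23 + r24 - r34) (c23 * c24 / c34)) = J ρ 0 d := by
  have e1 := (((R_smul ht g13 (R13.lower ht hI h1)).add (R_smul ht g14 (R14.lower ht hI h2))).add
    (R_smul ht g23 (R23.lower ht hI h3))).add (R_smul ht g24 (R24.lower ht hI h4))
  have e2 := e1.sub (R_smul ht 2 ((((R_smul ht t4 (R_quot ht hI R13 R23 R12 n12 h5)).add
    (R_smul ht t3 (R_quot ht hI R14 R24 R12 n12 h6))).add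
    (R_smul ht t2 (R_quot ht hI R13 R14 R34 n34 h7))).add
    (R_smul ht t1 (R_quot ht hI R23 R24 R34 n34 h8))))
  rw [e] at e2
  have e3 := e2.uniq (R_const ht hI d h0)
  rw [← e3]
  push_cast
  rfl

end

namespace D6.Ok

variable {P : Pl K} {t : K} {D : D6 K}

/-- The cut `{3}`. -/
theorem cut_3 (h : D.Ok P t) : algebraMap ℝ K D.g13 * D.u13 + algebraMap ℝ K D.g23 * D.u23
    + algebraMap ℝ K D.g34 * D.u34
    - algebraMap ℝ K 2 * (algebraMap ℝ K D.t1 * (D.u23 * D.u34 / D.u24)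
    + algebraMap ℝ K D.t2 * (D.u13 * D.u34 / D.u14)
    + algebraMap ℝ K D.t4 * (D.u13 * D.u23 / D.u12)) =
    algebraMap ℝ K (D.d13 + D.d23 + D.d34) := by
  have e13 := h.e13
  have e23 := h.e23
  have e34 := h.e34
  unfold Eq6 at e13 e23 e34
  rw [map_add, map_add, map_ofNat]
  linear_combination e13 + e23 + e34

/-- The cut `{4}`. -/
theorem cut_4 (h : D.Ok P t) : algebraMap ℝ K D.g14 * D.u14 + algebraMap ℝ K D.g24 * D.u24
    + algebraMap ℝ K D.g34 * D.u34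
    - algebraMap ℝ K 2 * (algebraMap ℝ K D.t1 * (D.u24 * D.u34 / D.u23)
    + algebraMap ℝ K D.t2 * (D.u14 * D.u34 / D.u13)
    + algebraMap ℝ K D.t3 * (D.u14 * D.u24 / D.u12)) =
    algebraMap ℝ K (D.d14 + D.d24 + D.d34) := by
  have e14 := h.e14
  have e24 := h.e24
  have e34 := h.e34
  unfold Eq6 at e14 e24 e34
  rw [map_add, map_add, map_ofNat]
  linear_combination e14 + e24 + e34

/-- The cut `{1}`. -/
theorem cut_1 (h : D.Ok P t) : algebraMap ℝ K D.g12 * D.u12 + algebraMap ℝ K D.g13 * D.u13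
    + algebraMap ℝ K D.g14 * D.u14
    - algebraMap ℝ K 2 * (algebraMap ℝ K D.t2 * (D.u13 * D.u14 / D.u34)
    + algebraMap ℝ K D.t3 * (D.u12 * D.u14 / D.u24)
    + algebraMap ℝ K D.t4 * (D.u12 * D.u13 / D.u23)) =
    algebraMap ℝ K (D.d12 + D.d13 + D.d14) := by
  have e12 := h.e12
  have e13 := h.e13
  have e14 := h.e14
  unfold Eq6 at e12 e13 e14
  rw [map_add, map_add, map_ofNat]
  linear_combination e12 + e13 + e14

/-- The cut `{1, 2}`. -/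
theorem cut_12 (h : D.Ok P t) : algebraMap ℝ K D.g13 * D.u13 + algebraMap ℝ K D.g14 * D.u14
    + algebraMap ℝ K D.g23 * D.u23 + algebraMap ℝ K D.g24 * D.u24
    - algebraMap ℝ K 2 * (algebraMap ℝ K D.t4 * (D.u13 * D.u23 / D.u12)
    + algebraMap ℝ K D.t3 * (D.u14 * D.u24 / D.u12)
    + algebraMap ℝ K D.t2 * (D.u13 * D.u14 / D.u34)
    + algebraMap ℝ K D.t1 * (D.u23 * D.u24 / D.u34)) =
    algebraMap ℝ K (D.d13 + D.d14 + D.d23 + D.d24) := by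
  have e13 := h.e13
  have e14 := h.e14
  have e23 := h.e23
  have e24 := h.e24
  unfold Eq6 at e13 e14 e23 e24
  rw [map_add, map_add, map_add, map_ofNat]
  linear_combination e13 + e14 + e23 + e24

end D6.Ok

end Pool.Agent.H.MP_deabf1_gt.Tet
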