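import Pool.Agent.H.MP_deabf1_gt.helper65.Tet2

/-!
One cluster with two points: the ratios of the leading coefficients.
-/

namespace Pool.Agent.H.MP_deabf1_gt.Tet

theorem alg1 {A B κ G : ℝ} (hA : 0 < A) (hB : 0 < B) (hκ : 0 < κ) (hG : 2 * A + 2 * B ≤ G)
    {z w : ℂ} (hz : z ≠ 0) (hw : w ≠ 0) (h1 : A * (z + z⁻¹) + B * (w + w⁻¹) = G)
    (h2 : A * (z⁻¹ - z) = B * (w⁻¹ - w)) (h3 : z * w = -(κ : ℂ)) : False := by
  have hκ' : (κ : ℂ) ≠ 0 := by exact_mod_cast hκ.ne'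
  have h4 : w⁻¹ = -z / κ := by
    rw [eq_div_iff hκ', inv_mul_eq_iff_eq_mul₀ hw]
    linear_combination h3
  have h5 : w = -κ * z⁻¹ := by
    field_simp
    linear_combination h3
  have h6 : z * (A - B / κ) = G / 2 := by
    have h7 : z * (A - B / κ) = A * z + B * w⁻¹ := by
      rw [h4]
      ring
    rw [h7]
    linear_combination (1 / 2 : ℂ) * h1 - (1 / 2 : ℂ) * h2
  have h8 : z⁻¹ * (A - B * κ) = G / 2 := by
    have h7 : z⁻¹ * (A - B * κ) = A * z⁻¹ + B * w := by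
      rw [h5]
      ring
    rw [h7]
    linear_combination (1 / 2 : ℂ) * h1 + (1 / 2 : ℂ) * h2
  have h9 : ((A : ℂ) - B / κ) * (A - B * κ) = G ^ 2 / 4 := by
    have h10 : z * z⁻¹ = 1 := mul_inv_cancel₀ hz
    linear_combination (z⁻¹ * (A - B * κ)) * h6 + (G / 2 : ℂ) * h8
      - ((A : ℂ) - B / κ) * (A - B * κ) * h10
  have h10 : (A - B / κ) * (A - B * κ) = G ^ 2 / 4 := by exact_mod_cast h9
  have h11 : (A - B / κ) * (A - B * κ) = A ^ 2 + B ^ 2 - A * B * (κ + κ⁻¹) := by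
    field_simp
    ring
  have h12 : 2 ≤ κ + κ⁻¹ := by
    have h13 : κ + κ⁻¹ - 2 = (κ - 1) ^ 2 / κ := by
      field_simp
      ring
    have h14 : 0 ≤ (κ - 1) ^ 2 / κ := by positivity
    linarith
  have h13 : 0 < A * B := mul_pos hA hB
  have h14 : A * B * 2 ≤ A * B * (κ + κ⁻¹) := mul_le_mul_of_nonneg_left h12 h13.le
  nlinarith [mul_pos hA hB]

theorem sq_one {z : ℂ} (hz : z ^ 2 = 1) : z = 1 ∨ z = -1 := by
  have h1 : (z - 1) * (z + 1) = 0 := by linear_combination hz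
  rcases mul_eq_zero.1 h1 with h2 | h2
  · exact Or.inl (sub_eq_zero.1 h2)
  · exact Or.inr (eq_neg_of_add_eq_zero_left h2)

theorem alg2 {A B G : ℝ} (hA : 0 < A) (hB : 0 < B) (hG : 2 * A + 2 * B ≤ G)
    {z w : ℂ} (hz : z ^ 2 = 1) (hw : w ^ 2 = 1) (h1 : A * (z + z⁻¹) + B * (w + w⁻¹) = G) :
    z = 1 ∧ w = 1 := by
  have e1 : (1 : ℂ)⁻¹ = 1 := inv_one
  have e2 : (-1 : ℂ)⁻¹ = -1 := by norm_num
  rcases sq_one hz with rfl | rfl <;>
    rcases sq_one hw with rfl | rfl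
  · exact ⟨rfl, rfl⟩
  · exfalso
    rw [e1, e2] at h1
    have h2 : A * (1 + 1) + B * (-1 + -1) = G := by exact_mod_cast h1
    linarith
  · exfalso
    rw [e1, e2] at h1
    have h2 : A * (-1 + -1) + B * (1 + 1) = G := by exact_mod_cast h1
    linarith
  · exfalso
    rw [e2] at h1
    have h2 : A * (-1 + -1) + B * (-1 + -1) = G := by exact_mod_cast h1
    linarith

end Pool.Agent.H.MP_deabf1_gt.Tet
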