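import Pool.Agent.H.MP_deabf1_gt.helper65.Tet3

/-!
One cluster with two points: the lowest order.
-/

namespace Pool.Agent.H.MP_deabf1_gt.Tet

variable {K : Type*} [Field K] [Algebra ℝ K] {P : Pl K} {t : K} {D : D6 K} {ε a b c : ℤ}

/-- The orders if the points `1`, `2` form the only cluster. -/
structure CaseD (D : D6 K) (ε a b c : ℤ) : Prop where
  hε : 0 < ε
  ha : 0 < a
  hb : 0 < b
  hc : 0 < c
  h1 : c ≤ a + b
  h2 : a ≤ b + c
  h3 : b ≤ a + c
  r12 : D.r12 = -ε
  r13 : D.r13 = a - ε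
  r23 : D.r23 = a - ε
  r14 : D.r14 = b - ε
  r24 : D.r24 = b - ε
  r34 : D.r34 = c - ε

namespace CaseD

/-- The edge `12`. -/
theorem F12 (H : CaseD D ε a b c) (h : D.Ok P t) :
    D.t4 * (D.c13 / D.c23 + (D.c13 / D.c23)⁻¹) + D.t3 * (D.c14 / D.c24 + (D.c14 / D.c24)⁻¹)
      = D.g12 := by
  obtain ⟨hε, ha, hb, hc, h1, h2, h3, r12, r13, r23, r14, r24, r34⟩ := H
  have e := edge_init (ρ := -ε) h.ht h.hI h.R12 h.R13 h.R23 h.R14 h.R24 h.c12 h.c13 h.c23 h.c14
    h.c24 h.e12 (by omega) (by omega) (by omega) (by omega) (by omega) (by omega) (by omega)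
    (by omega)
  simp (disch := omega) only [J_pos, J_neg] at e
  have n12 := h.c12
  have n13 := h.c13
  have n14 := h.c14
  have n23 := h.c23
  have n24 := h.c24
  have e1 : D.c12 * (D.t4 * (D.c13 / D.c23 + (D.c13 / D.c23)⁻¹)
      + D.t3 * (D.c14 / D.c24 + (D.c14 / D.c24)⁻¹)) = D.c12 * D.g12 := by
    rw [inv_div, inv_div]
    linear_combination (-1 : ℂ) * e
  exact mul_left_cancel₀ n12 e1

/-- The edge `13`. -/
theorem F13 (H : CaseD D ε a b c) (h : D.Ok P t) :
    D.t4 * D.c12 * ((D.c13 / D.c23)⁻¹ - D.c13 / D.c23)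
      + D.t2 * (J 0 (b + c - a) (D.c14 * D.c34 / D.c13) - J 0 (a + b - c) (D.c13 * D.c14 / D.c34)
      - J 0 (a + c - b) (D.c13 * D.c34 / D.c14)) = 0 := by
  obtain ⟨hε, ha, hb, hc, h1, h2, h3, r12, r13, r23, r14, r24, r34⟩ := H
  have e := edge_init (ρ := -ε) h.ht h.hI h.R13 h.R12 h.R23 h.R14 h.R34 h.c13 h.c12 h.c23 h.c14
    h.c34 h.e13 (by omega) (by omega) (by omega) (by omega) (by omega) (by omega) (by omega)
    (by omega)
  simp (disch := omega) only [J_pos, J_neg] at e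
  have n12 := h.c12
  have n13 := h.c13
  have n14 := h.c14
  have n23 := h.c23
  have n34 := h.c34
  rw [inv_div]
  have J1 : J (-ε) (D.r14 + D.r34 - D.r13) (D.c14 * D.c34 / D.c13)
      = J 0 (b + c - a) (D.c14 * D.c34 / D.c13) := by
    unfold J
    congr 1
    apply propext
    omega
  have J2 : J (-ε) (D.r13 + D.r14 - D.r34) (D.c13 * D.c14 / D.c34)
      = J 0 (a + b - c) (D.c13 * D.c14 / D.c34) := by
    unfold J
    congr 1
    apply propext
    omega
  have J3 : J (-ε) (D.r13 + D.r34 - D.r14) (D.c13 * D.c34 / D.c14)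
      = J 0 (a + c - b) (D.c13 * D.c34 / D.c14) := by
    unfold J
    congr 1
    apply propext
    omega
  rw [J1, J2, J3] at e
  linear_combination e

/-- The edge `14`. -/
theorem F14 (H : CaseD D ε a b c) (h : D.Ok P t) :
    D.t3 * D.c12 * ((D.c14 / D.c24)⁻¹ - D.c14 / D.c24)
      + D.t2 * (J 0 (a + c - b) (D.c13 * D.c34 / D.c14) - J 0 (a + b - c) (D.c13 * D.c14 / D.c34)
      - J 0 (b + c - a) (D.c14 * D.c34 / D.c13)) = 0 := by
  obtain ⟨hε, ha, hb, hc, h1, h2, h3, r12, r13, r23, r14, r24, r34⟩ := H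
  have e := edge_init (ρ := -ε) h.ht h.hI h.R14 h.R12 h.R24 h.R13 h.R34 h.c14 h.c12 h.c24 h.c13
    h.c34 h.e14 (by omega) (by omega) (by omega) (by omega) (by omega) (by omega) (by omega)
    (by omega)
  simp (disch := omega) only [J_pos, J_neg] at e
  rw [inv_div]
  have J1 : J (-ε) (D.r13 + D.r34 - D.r14) (D.c13 * D.c34 / D.c14)
      = J 0 (a + c - b) (D.c13 * D.c34 / D.c14) := by
    unfold J
    congr 1
    apply propext
    omega
  have J2 : J (-ε) (D.r14 + D.r13 - D.r34) (D.c14 * D.c13 / D.c34)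
      = J 0 (a + b - c) (D.c13 * D.c14 / D.c34) := by
    unfold J
    rw [mul_comm D.c14]
    congr 1
    apply propext
    omega
  have J3 : J (-ε) (D.r14 + D.r34 - D.r13) (D.c14 * D.c34 / D.c13)
      = J 0 (b + c - a) (D.c14 * D.c34 / D.c13) := by
    unfold J
    congr 1
    apply propext
    omega
  rw [J1, J2, J3] at e
  linear_combination e

/-- The edge `34`. -/
theorem F34 (H : CaseD D ε a b c) (h : D.Ok P t) :
    D.t2 * (J 0 (a + b - c) (D.c13 * D.c14 / D.c34) - J 0 (a + c - b) (D.c13 * D.c34 / D.c14)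
      - J 0 (b + c - a) (D.c14 * D.c34 / D.c13))
      + D.t1 * (J 0 (a + b - c) (D.c23 * D.c24 / D.c34) - J 0 (a + c - b) (D.c23 * D.c34 / D.c24)
      - J 0 (b + c - a) (D.c24 * D.c34 / D.c23)) = 0 := by
  obtain ⟨hε, ha, hb, hc, h1, h2, h3, r12, r13, r23, r14, r24, r34⟩ := H
  have e := edge_init (ρ := -ε) h.ht h.hI h.R34 h.R13 h.R14 h.R23 h.R24 h.c34 h.c13 h.c14 h.c23
    h.c24 h.e34 (by omega) (by omega) (by omega) (by omega) (by omega) (by omega) (by omega)
    (by omega)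
  simp (disch := omega) only [J_neg] at e
  have J1 : ∀ z : ℂ, J (-ε) (D.r13 + D.r14 - D.r34) z = J 0 (a + b - c) z := by
    intro z
    unfold J
    congr 1
    apply propext
    omega
  have J2 : ∀ z : ℂ, J (-ε) (D.r34 + D.r13 - D.r14) z = J 0 (a + c - b) z := by
    intro z
    unfold J
    congr 1
    apply propext
    omega
  have J3 : ∀ z : ℂ, J (-ε) (D.r34 + D.r14 - D.r13) z = J 0 (b + c - a) z := by
    intro z
    unfold J
    congr 1
    apply propext
    omega
  have J4 : ∀ z : ℂ, J (-ε) (D.r23 + D.r24 - D.r34) z = J 0 (a + b - c) z := by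
    intro z
    unfold J
    congr 1
    apply propext
    omega
  have J5 : ∀ z : ℂ, J (-ε) (D.r34 + D.r23 - D.r24) z = J 0 (a + c - b) z := by
    intro z
    unfold J
    congr 1
    apply propext
    omega
  have J6 : ∀ z : ℂ, J (-ε) (D.r34 + D.r24 - D.r23) z = J 0 (b + c - a) z := by
    intro z
    unfold J
    congr 1
    apply propext
    omega
  rw [J1, J2, J3, J4, J5, J6, mul_comm D.c34 D.c13, mul_comm D.c34 D.c14, mul_comm D.c34 D.c23,
    mul_comm D.c34 D.c24] at e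
  linear_combination e

end CaseD

end Pool.Agent.H.MP_deabf1_gt.Tet
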