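import Pool.Agent.H.MP_deabf1_gt.helper65.Tet4

/-!
One cluster with two points: the triangles are not degenerate and the ratios are one.
-/

namespace Pool.Agent.H.MP_deabf1_gt.Tet

variable {K : Type*} [Field K] [Algebra ℝ K] {P : Pl K} {t : K} {D : D6 K} {ε a b c : ℤ}

namespace CaseD

theorem not_deg1 (H : CaseD D ε a b c) (h : D.Ok P t) (hd : c = a + b) : False := by
  have e12 := H.F12 h
  have e13 := H.F13 h
  have e14 := H.F14 h
  have e34 := H.F34 h
  have ha := H.ha
  have hb := H.hb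
  have hc := H.hc
  simp (disch := omega) only [J_pos, J_neg] at e13 e14 e34
  have n12 := h.c12
  have n13 := h.c13
  have n14 := h.c14
  have n23 := h.c23
  have n24 := h.c24
  have n34 := h.c34
  have ht2 : (D.t2 : ℂ) ≠ 0 := by exact_mod_cast h.t2.ne'
  refine alg1 h.t4 h.t3 (div_pos h.t1 h.t2) (G := D.g12) (by linarith [h.g12])
    (div_ne_zero n13 n23) (div_ne_zero n14 n24) e12 ?_ ?_
  · have e1 : D.c12 * (D.t4 * ((D.c13 / D.c23)⁻¹ - D.c13 / D.c23)) =
        D.c12 * (D.t3 * ((D.c14 / D.c24)⁻¹ - D.c14 / D.c24)) := by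
      linear_combination e13 - e14
    exact mul_left_cancel₀ n12 e1
  · push_cast
    field_simp
    have e1 : D.c34 * (D.t2 * (D.c13 * D.c14 / D.c34) + D.t1 * (D.c23 * D.c24 / D.c34)) =
        D.t2 * (D.c13 * D.c14) + D.t1 * (D.c23 * D.c24) := by
      field_simp
    have e2 : D.t2 * (D.c13 * D.c14) + D.t1 * (D.c23 * D.c24) = 0 := by
      rw [← e1]
      linear_combination D.c34 * e34
    linear_combination e2

theorem not_deg2 (H : CaseD D ε a b c) (h : D.Ok P t) (hd : a = b + c) : False := by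
  have e12 := H.F12 h
  have e13 := H.F13 h
  have e14 := H.F14 h
  have e34 := H.F34 h
  have ha := H.ha
  have hb := H.hb
  have hc := H.hc
  simp (disch := omega) only [J_pos, J_neg] at e13 e14 e34
  have n12 := h.c12
  have n13 := h.c13
  have n14 := h.c14
  have n23 := h.c23
  have n24 := h.c24
  have n34 := h.c34
  have ht1 : (D.t1 : ℂ) ≠ 0 := by exact_mod_cast h.t1.ne'
  refine alg1 h.t4 h.t3 (div_pos h.t2 h.t1) (G := D.g12) (by linarith [h.g12])
    (div_ne_zero n13 n23) (w := (D.c14 / D.c24)⁻¹) (inv_ne_zero (div_ne_zero n14 n24)) ?_ ?_ ?_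
  · rw [inv_inv]
    linear_combination e12
  · rw [inv_inv]
    have e1 : D.c12 * (D.t4 * ((D.c13 / D.c23)⁻¹ - D.c13 / D.c23)) =
        D.c12 * (D.t3 * (D.c14 / D.c24 - (D.c14 / D.c24)⁻¹)) := by
      linear_combination e13 + e14
    exact mul_left_cancel₀ n12 e1
  · push_cast
    rw [inv_div]
    have e1 : D.c13 * D.c23 * (D.t2 * (D.c14 * D.c34 / D.c13) + D.t1 * (D.c24 * D.c34 / D.c23)) =
        D.c34 * (D.t2 * (D.c14 * D.c23) + D.t1 * (D.c24 * D.c13)) := by
      field_simp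
    have e2 : D.c34 * (D.t2 * (D.c14 * D.c23) + D.t1 * (D.c24 * D.c13)) = 0 := by
      rw [← e1]
      linear_combination (-1 : ℂ) * D.c13 * D.c23 * e34
    have e3 := (mul_eq_zero.1 e2).resolve_left n34
    field_simp
    linear_combination e3

theorem not_deg3 (H : CaseD D ε a b c) (h : D.Ok P t) (hd : b = a + c) : False := by
  have e12 := H.F12 h
  have e13 := H.F13 h
  have e14 := H.F14 h
  have e34 := H.F34 h
  have ha := H.ha
  have hb := H.hb
  have hc := H.hc
  simp (disch := omega) only [J_pos, J_neg] at e13 e14 e34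
  have n12 := h.c12
  have n13 := h.c13
  have n14 := h.c14
  have n23 := h.c23
  have n24 := h.c24
  have n34 := h.c34
  have ht2 : (D.t2 : ℂ) ≠ 0 := by exact_mod_cast h.t2.ne'
  refine alg1 h.t4 h.t3 (div_pos h.t1 h.t2) (G := D.g12) (by linarith [h.g12])
    (div_ne_zero n13 n23) (w := (D.c14 / D.c24)⁻¹) (inv_ne_zero (div_ne_zero n14 n24)) ?_ ?_ ?_
  · rw [inv_inv]
    linear_combination e12
  · rw [inv_inv]
    have e1 : D.c12 * (D.t4 * ((D.c13 / D.c23)⁻¹ - D.c13 / D.c23)) =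
        D.c12 * (D.t3 * (D.c14 / D.c24 - (D.c14 / D.c24)⁻¹)) := by
      linear_combination e13 + e14
    exact mul_left_cancel₀ n12 e1
  · push_cast
    rw [inv_div]
    have e1 : D.c14 * D.c24 * (D.t2 * (D.c13 * D.c34 / D.c14) + D.t1 * (D.c23 * D.c34 / D.c24)) =
        D.c34 * (D.t2 * (D.c13 * D.c24) + D.t1 * (D.c23 * D.c14)) := by
      field_simp
    have e2 : D.c34 * (D.t2 * (D.c13 * D.c24) + D.t1 * (D.c23 * D.c14)) = 0 := by
      rw [← e1]
      linear_combination (-1 : ℂ) * D.c14 * D.c24 * e34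
    have e3 := (mul_eq_zero.1 e2).resolve_left n34
    field_simp
    linear_combination e3

/-- The triangle inequalities are strict and the ratios are one. -/
theorem unit (H : CaseD D ε a b c) (h : D.Ok P t) :
    c < a + b ∧ a < b + c ∧ b < a + c ∧ D.c23 = D.c13 ∧ D.c24 = D.c14 := by
  have h1 : c < a + b := lt_of_le_of_ne H.h1 fun h' => H.not_deg1 h h'
  have h2 : a < b + c := lt_of_le_of_ne H.h2 fun h' => H.not_deg2 h h'
  have h3 : b < a + c := lt_of_le_of_ne H.h3 fun h' => H.not_deg3 h h'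
  have e12 := H.F12 h
  have e13 := H.F13 h
  have e14 := H.F14 h
  simp (disch := omega) only [J_neg] at e13 e14
  have n12 := h.c12
  have n13 := h.c13
  have n14 := h.c14
  have n23 := h.c23
  have n24 := h.c24
  have ht4 : (D.t4 : ℂ) ≠ 0 := by exact_mod_cast h.t4.ne'
  have ht3 : (D.t3 : ℂ) ≠ 0 := by exact_mod_cast h.t3.ne'
  have hz : (D.c13 / D.c23) ^ 2 = 1 := by
    have e1 : (D.c13 / D.c23)⁻¹ - D.c13 / D.c23 = 0 := by
      refine (mul_eq_zero.1 ?_).resolve_left (mul_ne_zero ht4 n12)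
      linear_combination e13
    have e2 : (D.c13 / D.c23)⁻¹ * (D.c13 / D.c23) = 1 :=
      inv_mul_cancel₀ (div_ne_zero n13 n23)
    linear_combination e2 - (D.c13 / D.c23) * e1
  have hw : (D.c14 / D.c24) ^ 2 = 1 := by
    have e1 : (D.c14 / D.c24)⁻¹ - D.c14 / D.c24 = 0 := by
      refine (mul_eq_zero.1 ?_).resolve_left (mul_ne_zero ht3 n12)
      linear_combination e14
    have e2 : (D.c14 / D.c24)⁻¹ * (D.c14 / D.c24) = 1 :=
      inv_mul_cancel₀ (div_ne_zero n14 n24)
    linear_combination e2 - (D.c14 / D.c24) * e1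
  obtain ⟨k1, k2⟩ := alg2 h.t4 h.t3 (by linarith [h.g12]) hz hw e12
  refine ⟨h1, h2, h3, ?_, ?_⟩
  · exact ((div_eq_one_iff_eq n23).1 k1).symm
  · exact ((div_eq_one_iff_eq n24).1 k2).symm

end CaseD

end Pool.Agent.H.MP_deabf1_gt.Tet
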