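import Pool.Agent.H.MP_deabf1_gt.helper65.Tet5

/-!
One cluster with two points: the cuts.
-/

namespace Pool.Agent.H.MP_deabf1_gt.Tet

variable {K : Type*} [Field K] [Algebra ℝ K] {P : Pl K} {t : K} {D : D6 K} {ε a b c : ℤ}

theorem J_congr {ρ n m : ℤ} {z w : ℂ} (h : n = m) (h' : z = w) : J ρ n z = J ρ m w := by
  rw [h, h']

namespace CaseD

/-- The cut `{3}`. -/
theorem C3 (H : CaseD D ε a b c) (h : D.Ok P t) (h23 : D.c23 = D.c13) (h24 : D.c24 = D.c14)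
    (ρ : ℤ) (k0 : ρ ≤ 0) (k1 : ρ ≤ a - ε) (k2 : ρ ≤ c - ε) (k3 : ρ ≤ a + c - b - ε) :
    (D.g13 + D.g23) * J ρ (a - ε) D.c13 + D.g34 * J ρ (c - ε) D.c34
      - 2 * ((D.t1 + D.t2) * J ρ (a + c - b - ε) (D.c13 * D.c34 / D.c14)
      + D.t4 * J ρ (2 * a - ε) (D.c13 ^ 2 / D.c12)) =
      J ρ 0 ((D.d13 + D.d23 + D.d34 : ℝ) : ℂ) := by
  obtain ⟨hε, ha, hb, hc, h1, h2, h3, r12, r13, r23, r14, r24, r34⟩ := H
  have e := cut3_init (ρ := ρ) h.ht h.hI h.R13 h.R23 h.R34 h.R24 h.R14 h.R12 h.c24 h.c14 h.c12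
    h.cut_3 k0 (by omega) (by omega) (by omega) (by omega) (by omega) (by omega)
  rw [h23, h24] at e
  rw [← e, J_congr (n := D.r13) r13 rfl, J_congr (n := D.r23) r23 rfl,
    J_congr (n := D.r34) r34 rfl,
    J_congr (n := D.r23 + D.r34 - D.r24) (m := a + c - b - ε) (by omega) rfl,
    J_congr (n := D.r13 + D.r34 - D.r14) (m := a + c - b - ε) (by omega) rfl,
    J_congr (n := D.r13 + D.r23 - D.r12) (m := 2 * a - ε) (w := D.c13 ^ 2 / D.c12) (by omega)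
      (by rw [sq])]
  ring

/-- The cut `{4}`. -/
theorem C4 (H : CaseD D ε a b c) (h : D.Ok P t) (h23 : D.c23 = D.c13) (h24 : D.c24 = D.c14)
    (ρ : ℤ) (k0 : ρ ≤ 0) (k1 : ρ ≤ b - ε) (k2 : ρ ≤ c - ε) (k3 : ρ ≤ b + c - a - ε) :
    (D.g14 + D.g24) * J ρ (b - ε) D.c14 + D.g34 * J ρ (c - ε) D.c34
      - 2 * ((D.t1 + D.t2) * J ρ (b + c - a - ε) (D.c14 * D.c34 / D.c13)
      + D.t3 * J ρ (2 * b - ε) (D.c14 ^ 2 / D.c12)) =
      J ρ 0 ((D.d14 + D.d24 + D.d34 : ℝ) : ℂ) := by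
  obtain ⟨hε, ha, hb, hc, h1, h2, h3, r12, r13, r23, r14, r24, r34⟩ := H
  have e := cut3_init (ρ := ρ) h.ht h.hI h.R14 h.R24 h.R34 h.R23 h.R13 h.R12 h.c23 h.c13 h.c12
    h.cut_4 k0 (by omega) (by omega) (by omega) (by omega) (by omega) (by omega)
  rw [h23, h24] at e
  rw [← e, J_congr (n := D.r14) r14 rfl, J_congr (n := D.r24) r24 rfl,
    J_congr (n := D.r34) r34 rfl,
    J_congr (n := D.r24 + D.r34 - D.r23) (m := b + c - a - ε) (by omega) rfl,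
    J_congr (n := D.r14 + D.r34 - D.r13) (m := b + c - a - ε) (by omega) rfl,
    J_congr (n := D.r14 + D.r24 - D.r12) (m := 2 * b - ε) (w := D.c14 ^ 2 / D.c12) (by omega)
      (by rw [sq])]
  ring

/-- The cut `{1, 2}`. -/
theorem C12 (H : CaseD D ε a b c) (h : D.Ok P t) (h23 : D.c23 = D.c13) (h24 : D.c24 = D.c14)
    (ρ : ℤ) (k0 : ρ ≤ 0) (k1 : ρ ≤ a - ε) (k2 : ρ ≤ b - ε) (k3 : ρ ≤ a + b - c - ε) :
    (D.g13 + D.g23) * J ρ (a - ε) D.c13 + (D.g14 + D.g24) * J ρ (b - ε) D.c14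
      - 2 * ((D.t1 + D.t2) * J ρ (a + b - c - ε) (D.c13 * D.c14 / D.c34)
      + D.t4 * J ρ (2 * a - ε) (D.c13 ^ 2 / D.c12) + D.t3 * J ρ (2 * b - ε) (D.c14 ^ 2 / D.c12)) =
      J ρ 0 ((D.d13 + D.d14 + D.d23 + D.d24 : ℝ) : ℂ) := by
  obtain ⟨hε, ha, hb, hc, h1, h2, h3, r12, r13, r23, r14, r24, r34⟩ := H
  have e := cut4_init (ρ := ρ) h.ht h.hI h.R12 h.R13 h.R14 h.R23 h.R24 h.R34 h.c12 h.c34
    h.cut_12 k0 (by omega) (by omega) (by omega) (by omega) (by omega) (by omega) (by omega)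
    (by omega)
  rw [h23, h24] at e
  rw [← e, J_congr (n := D.r14) r14 rfl, J_congr (n := D.r24) r24 rfl,
    J_congr (n := D.r13) r13 rfl, J_congr (n := D.r23) r23 rfl,
    J_congr (n := D.r13 + D.r23 - D.r12) (m := 2 * a - ε) (w := D.c13 ^ 2 / D.c12) (by omega)
      (by rw [sq]),
    J_congr (n := D.r14 + D.r24 - D.r12) (m := 2 * b - ε) (w := D.c14 ^ 2 / D.c12) (by omega)
      (by rw [sq]),
    J_congr (n := D.r13 + D.r14 - D.r34) (m := a + b - c - ε) (by omega) rfl,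
    J_congr (n := D.r23 + D.r24 - D.r34) (m := a + b - c - ε) (by omega) rfl]
  ring

/-- Some order is larger than `ε`. -/
theorem big (H : CaseD D ε a b c) (h : D.Ok P t) : ε < a ∨ ε < b ∨ ε < c := by
  obtain ⟨hε, ha, hb, hc, h1, h2, h3, r12, r13, r23, r14, r24, r34⟩ := H
  by_contra hne
  push Not at hne
  obtain ⟨k1, k2, k3⟩ := hne
  have hv := h.vol
  rw [r12, r13, r14, r23, r24, r34] at hv
  push_cast at hv
  have a1 : (a : ℝ) - ε ≤ 0 := by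
    have : (a : ℝ) ≤ ε := by exact_mod_cast k1
    linarith
  have b1 : (b : ℝ) - ε ≤ 0 := by
    have : (b : ℝ) ≤ ε := by exact_mod_cast k2
    linarith
  have c1 : (c : ℝ) - ε ≤ 0 := by
    have : (c : ℝ) ≤ ε := by exact_mod_cast k3
    linarith
  have e0 : (0 : ℝ) < ε := by exact_mod_cast hε
  have m1 := mul_pos h.d12 e0
  have m2 := mul_nonneg h.d13.le (neg_nonneg.2 a1)
  have m3 := mul_nonneg h.d23.le (neg_nonneg.2 a1)
  have m4 := mul_nonneg h.d14.le (neg_nonneg.2 b1)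
  have m5 := mul_nonneg h.d24.le (neg_nonneg.2 b1)
  have m6 := mul_nonneg h.d34.le (neg_nonneg.2 c1)
  linarith

end CaseD

end Pool.Agent.H.MP_deabf1_gt.Tet
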