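import Pool.Agent.H.MP_deabf1_gt.helper65.Tet6

/-!
One cluster with two points is impossible.
-/

namespace Pool.Agent.H.MP_deabf1_gt.Tet

variable {K : Type*} [Field K] [Algebra ℝ K] {P : Pl K} {t : K} {D : D6 K} {ε a b c : ℤ}

theorem ofReal_ne {x : ℝ} (h : 0 < x) : (x : ℂ) ≠ 0 := by exact_mod_cast h.ne'

theorem CaseD.main (H : CaseD D ε a b c) (h : D.Ok P t) (hab : a ≤ b) : False := by
  obtain ⟨s1, s2, s3, h23, h24⟩ := H.unit h
  have big := H.big h
  have C3 := H.C3 h h23 h24
  have C4 := H.C4 h h23 h24
  have C12 := H.C12 h h23 h24
  have hε := H.hε
  have ha := H.ha
  have hb := H.hb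
  have hc := H.hc
  have np := h.c13
  have nq := h.c14
  have nr := h.c34
  have d3 : ((D.d13 + D.d23 + D.d34 : ℝ) : ℂ) ≠ 0 :=
    ofReal_ne (by linarith [h.d13, h.d23, h.d34])
  have d4 : ((D.d14 + D.d24 + D.d34 : ℝ) : ℂ) ≠ 0 :=
    ofReal_ne (by linarith [h.d14, h.d24, h.d34])
  have d12 : ((D.d13 + D.d14 + D.d23 + D.d24 : ℝ) : ℂ) ≠ 0 :=
    ofReal_ne (by linarith [h.d13, h.d14, h.d23, h.d24])
  have hT : 0 < D.t1 + D.t2 := add_pos h.t1 h.t2
  have hG3 : 2 * (D.t1 + D.t2) < D.g13 + D.g23 := by linarith [h.g13, h.g23, h.t4]
  have hG4 : 2 * (D.t1 + D.t2) < D.g14 + D.g24 := by linarith [h.g14, h.g24, h.t3]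
  have nT : ((D.t1 : ℂ) + D.t2) ≠ 0 := by exact_mod_cast hT.ne'
  have nG3 : ((D.g13 : ℂ) + D.g23) ≠ 0 := by
    have : D.g13 + D.g23 ≠ 0 := by linarith
    exact_mod_cast this
  have nG4 : ((D.g14 : ℂ) + D.g24) ≠ 0 := by
    have : D.g14 + D.g24 ≠ 0 := by linarith
    exact_mod_cast this
  have nG34 : (D.g34 : ℂ) ≠ 0 := ofReal_ne (by linarith [h.g34, h.t1, h.t2])
  rcases lt_trichotomy c a with hca | hca | hca
  · rcases hab.lt_or_eq with hab | rfl
    · -- `c < a < b`
      have L : a + c - b = ε := by
        rcases lt_trichotomy (a + c - b) ε with k | k | k
        · have e := C3 (a + c - b - ε) (by omega) (by omega) (by omega) (by omega)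
          simp (disch := omega) only [J_pos, J_neg] at e
          exfalso
          refine mul_ne_zero nT (div_ne_zero (mul_ne_zero np nr) nq) ?_
          linear_combination (-1 / 2 : ℂ) * e
        · exact k
        · have e := C3 0 (by omega) (by omega) (by omega) (by omega)
          simp (disch := omega) only [J_pos, J_neg] at e
          exfalso
          apply d3
          linear_combination (-1 : ℂ) * e
      have e := C4 0 (by omega) (by omega) (by omega) (by omega)
      simp (disch := omega) only [J_pos, J_neg] at e
      apply d4
      linear_combination (-1 : ℂ) * e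
    · -- `c < a = b`
      have e := C12 0 (by omega) (by omega) (by omega) (by omega)
      simp (disch := omega) only [J_pos, J_neg] at e
      apply d12
      linear_combination (-1 : ℂ) * e
  · rcases hab.lt_or_eq with hab | rfl
    · -- `c = a < b`
      subst hca
      have L : c = ε := by
        rcases lt_trichotomy c ε with k | k | k
        · have e := C4 (c - ε) (by omega) (by omega) (by omega) (by omega)
          simp (disch := omega) only [J_pos, J_neg] at e
          exfalso
          refine mul_ne_zero nG34 nr ?_
          linear_combination e
        · exact k
        · have e := C4 0 (by omega) (by omega) (by omega) (by omega)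
          simp (disch := omega) only [J_pos, J_neg] at e
          exfalso
          apply d4
          linear_combination (-1 : ℂ) * e
      have e := C3 (c + c - b - ε) (by omega) (by omega) (by omega) (by omega)
      simp (disch := omega) only [J_pos, J_neg] at e
      refine mul_ne_zero nT (div_ne_zero (mul_ne_zero np nr) nq) ?_
      linear_combination (-1 / 2 : ℂ) * e
    · -- `c = a = b`
      have e := C3 0 (by omega) (by omega) (by omega) (by omega)
      simp (disch := omega) only [J_pos, J_neg] at e
      apply d3
      linear_combination (-1 : ℂ) * e
  · rcases hab.lt_or_eq with hab | rfl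
    · rcases lt_trichotomy b c with hbc | hbc | hbc
      · -- `a < b < c`
        have L : b = ε := by
          rcases lt_trichotomy b ε with k | k | k
          · have e := C4 (b - ε) (by omega) (by omega) (by omega) (by omega)
            simp (disch := omega) only [J_pos, J_neg] at e
            exfalso
            refine mul_ne_zero nG4 nq ?_
            linear_combination e
          · exact k
          · have e := C4 0 (by omega) (by omega) (by omega) (by omega)
            simp (disch := omega) only [J_pos, J_neg] at e
            exfalso
            apply d4
            linear_combination (-1 : ℂ) * e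
        have e := C12 (a + b - c - ε) (by omega) (by omega) (by omega) (by omega)
        simp (disch := omega) only [J_pos, J_neg] at e
        refine mul_ne_zero nT (div_ne_zero (mul_ne_zero np nq) nr) ?_
        linear_combination (-1 / 2 : ℂ) * e
      · -- `a < b = c`
        have e := C4 0 (by omega) (by omega) (by omega) (by omega)
        simp (disch := omega) only [J_pos, J_neg] at e
        apply d4
        linear_combination (-1 : ℂ) * e
      · -- `a < c < b`
        have L : c = ε := by
          rcases lt_trichotomy c ε with k | k | k
          · have e := C4 (c - ε) (by omega) (by omega) (by omega) (by omega)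
            simp (disch := omega) only [J_pos, J_neg] at e
            exfalso
            refine mul_ne_zero nG34 nr ?_
            linear_combination e
          · exact k
          · have e := C4 0 (by omega) (by omega) (by omega) (by omega)
            simp (disch := omega) only [J_pos, J_neg] at e
            exfalso
            apply d4
            linear_combination (-1 : ℂ) * e
        have e := C3 (a + c - b - ε) (by omega) (by omega) (by omega) (by omega)
        simp (disch := omega) only [J_pos, J_neg] at e
        refine mul_ne_zero nT (div_ne_zero (mul_ne_zero np nr) nq) ?_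
        linear_combination (-1 / 2 : ℂ) * e
    · -- `a = b < c`
      have L : a = ε := by
        rcases lt_trichotomy a ε with k | k | k
        · have e := C3 (a - ε) (by omega) (by omega) (by omega) (by omega)
          simp (disch := omega) only [J_pos, J_neg] at e
          exfalso
          refine mul_ne_zero nG3 np ?_
          linear_combination e
        · exact k
        · have e := C3 0 (by omega) (by omega) (by omega) (by omega)
          simp (disch := omega) only [J_pos, J_neg] at e
          exfalso
          apply d3
          linear_combination (-1 : ℂ) * e
      have e := C12 (a + a - c - ε) (by omega) (by omega) (by omega) (by omega)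
      simp (disch := omega) only [J_pos, J_neg] at e
      refine mul_ne_zero nT (div_ne_zero (mul_ne_zero np nq) nr) ?_
      linear_combination (-1 / 2 : ℂ) * e

end Pool.Agent.H.MP_deabf1_gt.Tet
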