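import Pool.Agent.H.MP_deabf1_gt.helper65.Tet7

/-!
Four different points.
-/

namespace Pool.Agent.H.MP_deabf1_gt.Tet

variable {K : Type*} [Field K] [Algebra ℝ K] {P : Pl K} {t : K} {D : D6 K}
  {ε s12 s13 s14 s23 s24 s34 : ℤ}

/-- The orders if the four points are different; `14` is a longest edge. -/
structure CaseE (D : D6 K) (ε s12 s13 s14 s23 s24 s34 : ℤ) : Prop where
  hε : 0 < ε
  p12 : 0 < s12
  p13 : 0 < s13
  p14 : 0 < s14
  p23 : 0 < s23
  p24 : 0 < s24
  p34 : 0 < s34
  r12 : D.r12 = s12 - ε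
  r13 : D.r13 = s13 - ε
  r14 : D.r14 = s14 - ε
  r23 : D.r23 = s23 - ε
  r24 : D.r24 = s24 - ε
  r34 : D.r34 = s34 - ε
  a1 : s12 ≤ s13 + s23
  a2 : s13 ≤ s12 + s23
  a3 : s23 ≤ s12 + s13
  b1 : s12 ≤ s14 + s24
  b2 : s14 ≤ s12 + s24
  b3 : s24 ≤ s12 + s14
  c1 : s13 ≤ s14 + s34
  c2 : s14 ≤ s13 + s34
  c3 : s34 ≤ s13 + s14
  d1 : s23 ≤ s24 + s34
  d2 : s24 ≤ s23 + s34
  d3 : s34 ≤ s23 + s24
  m12 : s12 ≤ s14
  m13 : s13 ≤ s14
  m23 : s23 ≤ s14
  m24 : s24 ≤ s14
  m34 : s34 ≤ s14

namespace CaseE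

theorem collinear (H : CaseE D ε s12 s13 s14 s23 s24 s34) (h : D.Ok P t)
    (h1 : s13 = s12 + s23) (h2 : s24 = s23 + s34) (h3 : s14 = s12 + s23 + s34) : False := by
  obtain ⟨hε, p12, p13, p14, p23, p24, p34, r12, r13, r14, r23, r24, r34, a1, a2, a3, b1, b2, b3,
    c1, c2, c3, d1, d2, d3, m12, m13, m23, m24, m34⟩ := H
  have n12 := h.c12
  have n34 := h.c34
  have n23 := h.c23
  have e1 : s12 = ε := by
    rcases lt_trichotomy s12 ε with k | k | k
    · have e := cut3_init (ρ := s12 - ε) h.ht h.hI h.R12 h.R13 h.R14 h.R34 h.R24 h.R23 h.c34 h.c24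
        h.c23 h.cut_1 (by omega) (by omega) (by omega) (by omega) (by omega) (by omega) (by omega)
      simp (disch := omega) only [J_pos, J_neg] at e
      exfalso
      refine mul_ne_zero (ofReal_ne (x := D.g12) (by linarith [h.g12, h.t4, h.t3])) n12 ?_
      linear_combination e
    · exact k
    · have e := cut3_init (ρ := 0) h.ht h.hI h.R12 h.R13 h.R14 h.R34 h.R24 h.R23 h.c34 h.c24
        h.c23 h.cut_1 (by omega) (by omega) (by omega) (by omega) (by omega) (by omega) (by omega)
      simp (disch := omega) only [J_pos, J_neg] at e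
      exfalso
      refine ofReal_ne (x := D.d12 + D.d13 + D.d14) (by linarith [h.d12, h.d13, h.d14]) ?_
      linear_combination (-1 : ℂ) * e
  have e2 : s34 = ε := by
    rcases lt_trichotomy s34 ε with k | k | k
    · have e := cut3_init (ρ := s34 - ε) h.ht h.hI h.R14 h.R24 h.R34 h.R23 h.R13 h.R12 h.c23 h.c13
        h.c12 h.cut_4 (by omega) (by omega) (by omega) (by omega) (by omega) (by omega) (by omega)
      simp (disch := omega) only [J_pos, J_neg] at e
      exfalso
      refine mul_ne_zero (ofReal_ne (x := D.g34) (by linarith [h.g34, h.t2, h.t1])) n34 ?_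
      linear_combination e
    · exact k
    · have e := cut3_init (ρ := 0) h.ht h.hI h.R14 h.R24 h.R34 h.R23 h.R13 h.R12 h.c23 h.c13
        h.c12 h.cut_4 (by omega) (by omega) (by omega) (by omega) (by omega) (by omega) (by omega)
      simp (disch := omega) only [J_pos, J_neg] at e
      exfalso
      refine ofReal_ne (x := D.d14 + D.d24 + D.d34) (by linarith [h.d14, h.d24, h.d34]) ?_
      linear_combination (-1 : ℂ) * e
  have e3 : s23 = ε := by
    rcases lt_trichotomy s23 ε with k | k | k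
    · have e := cut4_init (ρ := s23 - ε) h.ht h.hI h.R12 h.R13 h.R14 h.R23 h.R24 h.R34 h.c12
        h.c34 h.cut_12 (by omega) (by omega) (by omega) (by omega) (by omega) (by omega) (by omega)
        (by omega) (by omega)
      simp (disch := omega) only [J_pos, J_neg] at e
      exfalso
      refine mul_ne_zero (ofReal_ne (x := D.g23) (by linarith [h.g23, h.t4, h.t1])) n23 ?_
      linear_combination e
    · exact k
    · have e := cut4_init (ρ := 0) h.ht h.hI h.R12 h.R13 h.R14 h.R23 h.R24 h.R34 h.c12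
        h.c34 h.cut_12 (by omega) (by omega) (by omega) (by omega) (by omega) (by omega) (by omega)
        (by omega) (by omega)
      simp (disch := omega) only [J_pos, J_neg] at e
      exfalso
      refine ofReal_ne (x := D.d13 + D.d14 + D.d23 + D.d24)
        (by linarith [h.d13, h.d14, h.d23, h.d24]) ?_
      linear_combination (-1 : ℂ) * e
  have hv := h.vol
  have k12 : D.r12 = 0 := by omega
  have k23 : D.r23 = 0 := by omega
  have k34 : D.r34 = 0 := by omega
  have k13 : D.r13 = ε := by omega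
  have k24 : D.r24 = ε := by omega
  have k14 : D.r14 = 2 * ε := by omega
  rw [k12, k23, k34, k13, k24, k14] at hv
  push_cast at hv
  have e0 : (0 : ℝ) < ε := by exact_mod_cast hε
  have m1 := mul_pos h.d13 e0
  have m2 := mul_pos h.d24 e0
  have m3 := mul_pos h.d14 e0
  linarith

end CaseE

end Pool.Agent.H.MP_deabf1_gt.Tet
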