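import Pool.Agent.H.MP_deabf1_gt.helper65.Tet8

/-!
Four different points lie on a line.
-/

namespace Pool.Agent.H.MP_deabf1_gt.Tet

variable {K : Type*} [Field K] [Algebra ℝ K] {P : Pl K} {t : K} {D : D6 K}
  {ε s12 s13 s14 s23 s24 s34 : ℤ}

theorem mulq_ne {x : ℝ} {a b c : ℂ} (hx : 0 < x) (ha : a ≠ 0) (hb : b ≠ 0) (hc : c ≠ 0) :
    (x : ℂ) * (a * b / c) ≠ 0 :=
  mul_ne_zero (ofReal_ne hx) (div_ne_zero (mul_ne_zero ha hb) hc)

namespace CaseE

theorem line (H : CaseE D ε s12 s13 s14 s23 s24 s34) (h : D.Ok P t)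
    (hdeg : s12 = s13 + s23 ∨ s13 = s12 + s23 ∨ s23 = s12 + s13 ∨ s14 = s12 + s24 ∨
      s14 = s13 + s34 ∨ s23 = s24 + s34 ∨ s24 = s23 + s34 ∨ s34 = s23 + s24) :
    (s13 = s12 + s23 ∧ s24 = s23 + s34 ∧ s14 = s12 + s23 + s34) ∨
      (s12 = s13 + s23 ∧ s34 = s23 + s24 ∧ s14 = s13 + s23 + s24) := by
  obtain ⟨hε, p12, p13, p14, p23, p24, p34, r12, r13, r14, r23, r24, r34, a1, a2, a3, b1, b2, b3,
    c1, c2, c3, d1, d2, d3, m12, m13, m23, m24, m34⟩ := H
  have n12 := h.c12
  have n13 := h.c13
  have n14 := h.c14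
  have n23 := h.c23
  have n24 := h.c24
  have n34 := h.c34
  have F12 := edge_init (ρ := -ε) h.ht h.hI h.R12 h.R13 h.R23 h.R14 h.R24 h.c12 h.c13 h.c23 h.c14
    h.c24 h.e12 (by omega) (by omega) (by omega) (by omega) (by omega) (by omega) (by omega)
    (by omega)
  have F13 := edge_init (ρ := -ε) h.ht h.hI h.R13 h.R12 h.R23 h.R14 h.R34 h.c13 h.c12 h.c23 h.c14
    h.c34 h.e13 (by omega) (by omega) (by omega) (by omega) (by omega) (by omega) (by omega)
    (by omega)
  have F14 := edge_init (ρ := -ε) h.ht h.hI h.R14 h.R12 h.R24 h.R13 h.R34 h.c14 h.c12 h.c24 h.c13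
    h.c34 h.e14 (by omega) (by omega) (by omega) (by omega) (by omega) (by omega) (by omega)
    (by omega)
  have F24 := edge_init (ρ := -ε) h.ht h.hI h.R24 h.R12 h.R14 h.R23 h.R34 h.c24 h.c12 h.c14 h.c23
    h.c34 h.e24 (by omega) (by omega) (by omega) (by omega) (by omega) (by omega) (by omega)
    (by omega)
  by_cases k2 : s14 = s12 + s24
  · by_cases k3 : s14 = s13 + s34
    · simp (disch := omega) only [J_pos, J_neg] at F14
      -- the triangle `123`
      have T1 : s13 = s12 + s23 ∨ s12 = s13 + s23 := by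
        by_contra hne
        push Not at hne
        obtain ⟨ne1, ne2⟩ := hne
        by_cases k4 : s23 = s12 + s13
        · simp (disch := omega) only [J_pos, J_neg] at F12 F13
          have e1 : D.t4 * (D.c12 * D.c13 / D.c23) = 0 := by
            linear_combination (-1 / 2 : ℂ) * F12 + (-1 / 2 : ℂ) * F13 + (-1 / 2 : ℂ) * F14
          exact mulq_ne h.t4 n12 n13 n23 e1
        · simp (disch := omega) only [J_pos, J_neg] at F12
          have e1 : D.t3 * (D.c12 * D.c24 / D.c14) = 0 := by
            linear_combination (-1 : ℂ) * F12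
          exact mulq_ne h.t3 n12 n24 n14 e1
      omega
    · exfalso
      simp (disch := omega) only [J_pos, J_neg] at F14
      have e1 : D.t3 * (D.c12 * D.c24 / D.c14) = 0 := by
        linear_combination F14
      exact mulq_ne h.t3 n12 n24 n14 e1
  · exfalso
    by_cases k3 : s14 = s13 + s34
    · simp (disch := omega) only [J_pos, J_neg] at F14
      have e1 : D.t2 * (D.c13 * D.c34 / D.c14) = 0 := by
        linear_combination F14
      exact mulq_ne h.t2 n13 n34 n14 e1
    · -- no degenerate triangle at `14`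
      by_cases q1 : s12 = s13 + s23
      · simp (disch := omega) only [J_pos, J_neg] at F12
        have e1 : D.t4 * (D.c13 * D.c23 / D.c12) = 0 := by
          linear_combination F12
        exact mulq_ne h.t4 n13 n23 n12 e1
      by_cases q2 : s13 = s12 + s23
      · simp (disch := omega) only [J_pos, J_neg] at F12
        have e1 : D.t4 * (D.c12 * D.c23 / D.c13) = 0 := by
          linear_combination (-1 : ℂ) * F12
        exact mulq_ne h.t4 n12 n23 n13 e1
      by_cases q3 : s23 = s12 + s13
      · simp (disch := omega) only [J_pos, J_neg] at F12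
        have e1 : D.t4 * (D.c12 * D.c13 / D.c23) = 0 := by
          linear_combination (-1 : ℂ) * F12
        exact mulq_ne h.t4 n12 n13 n23 e1
      by_cases q4 : s23 = s24 + s34
      · simp (disch := omega) only [J_pos, J_neg] at F24
        have e1 : D.t1 * (D.c24 * D.c34 / D.c23) = 0 := by
          linear_combination (-1 : ℂ) * F24
        exact mulq_ne h.t1 n24 n34 n23 e1
      by_cases q5 : s24 = s23 + s34
      · simp (disch := omega) only [J_pos, J_neg] at F24
        have e1 : D.t1 * (D.c23 * D.c34 / D.c24) = 0 := by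
          linear_combination F24
        exact mulq_ne h.t1 n23 n34 n24 e1
      by_cases q6 : s34 = s23 + s24
      · simp (disch := omega) only [J_pos, J_neg] at F24
        have e1 : D.t1 * (D.c23 * D.c24 / D.c34) = 0 := by
          linear_combination (-1 : ℂ) * F24
        exact mulq_ne h.t1 n23 n24 n34 e1
      omega

end CaseE

end Pool.Agent.H.MP_deabf1_gt.Tet
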